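import Pool.Agent.Lib.H98Z.S1

/-!
# H24N, file N1: nerve lemma, direct sum lemma, the pole theorem

`AcyK K`: the complex of the finite sets with property `K` is acyclic mod 2. `nerve`: a finite union
of complexes all of whose intersections are acyclic is acyclic. `piece`: if a union is acyclic and
all intersections of at least two members are acyclic, then every member is acyclic. `pole`: the
pole theorem of helper91 in abstract form.
-/

set_option autoImplicit false
set_option linter.unusedSectionVars false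

namespace H24N

open Finset H98P H98Z

variable {E : Type*} [Fintype E] [DecidableEq E]

/-- The complex of all sets with property `K` is acyclic mod 2. -/
def AcyK (K : Finset E → Prop) : Prop :=
  ∀ z : Finset E → ZMod 2, (∀ s, z s ≠ 0 → K s) → (∀ r, bd z r = 0) →
    ∃ c : Finset E → ZMod 2, (∀ s, c s ≠ 0 → K s) ∧ ∀ r, bd c r = z r

/-- `K` is closed under subsets. -/
def DC (K : Finset E → Prop) : Prop := ∀ s t, s ⊆ t → K t → K s

theorem AcyK.congr {K K' : Finset E → Prop} (h : ∀ s, K s ↔ K' s) (hK : AcyK K) : AcyK K' := by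
  have h1 : K = K' := funext fun s => propext (h s)
  rw [← h1]
  exact hK

theorem bd_supp {K : Finset E → Prop} (hK : DC K) {z : Finset E → ZMod 2}
    (hz : ∀ s, z s ≠ 0 → K s) : ∀ r, bd z r ≠ 0 → K r := by
  intro r hr
  obtain ⟨e, _, he⟩ := bd_ne hr
  exact hK _ _ (subset_insert e r) (hz _ he)

theorem add_supp {K : Finset E → Prop} {z w : Finset E → ZMod 2} (hz : ∀ s, z s ≠ 0 → K s)
    (hw : ∀ s, w s ≠ 0 → K s) : ∀ s, z s + w s ≠ 0 → K s := by
  intro s hs
  by_cases h : z s = 0
  · rw [h, zero_add] at hs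
    exact hw s hs
  · exact hz s h

/-- MAYER-VIETORIS. -/
theorem mv {K L : Finset E → Prop} (hK : DC K) (hL : DC L) (h1 : AcyK K) (h2 : AcyK L)
    (h3 : AcyK fun s => K s ∧ L s) : AcyK fun s => K s ∨ L s := by
  classical
  intro z hz hb
  obtain ⟨z1, hz1⟩ : ∃ z1 : Finset E → ZMod 2, z1 = fun s => if K s then z s else 0 := ⟨_, rfl⟩
  obtain ⟨z2, hz2⟩ : ∃ z2 : Finset E → ZMod 2, z2 = fun s => if K s then 0 else z s := ⟨_, rfl⟩
  have hz12 : ∀ s, z1 s + z2 s = z s := by
    intro s
    rw [hz1, hz2]
    by_cases h : K s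
    · simp only [h, if_true, add_zero]
    · simp only [h, if_false, zero_add]
  have s1 : ∀ s, z1 s ≠ 0 → K s := by
    intro s hs
    by_contra h
    apply hs
    rw [hz1]
    simp only [h, if_false]
  have s2 : ∀ s, z2 s ≠ 0 → L s := by
    intro s hs
    rw [hz2] at hs
    by_cases h : K s
    · simp only [h, if_true] at hs
      exact absurd rfl hs
    · simp only [h, if_false] at hs
      exact (hz s hs).resolve_left h
  have hbe : ∀ r, bd z1 r = bd z2 r := by
    intro r
    have h4 := hb r
    have h5 : z = fun s => z1 s + z2 s := funext fun s => (hz12 s).symm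
    rw [h5, bd_add] at h4
    exact CharTwo.add_eq_zero.1 h4
  obtain ⟨u, hu1, hu2⟩ := h3 (bd z1) (by
    intro r hr
    exact ⟨bd_supp hK s1 r hr, bd_supp hL s2 r (by rw [← hbe]; exact hr)⟩) (bd_bd z1)
  obtain ⟨c1, hc1, hc1'⟩ := h1 (fun s => z1 s + u s) (add_supp s1 fun s hs => (hu1 s hs).1) (by
    intro r
    rw [bd_add, hu2]
    exact CharTwo.add_self_eq_zero _)
  obtain ⟨c2, hc2, hc2'⟩ := h2 (fun s => z2 s + u s) (add_supp s2 fun s hs => (hu1 s hs).2) (by
    intro r
    rw [bd_add, hu2, hbe]
    exact CharTwo.add_self_eq_zero _)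
  refine ⟨fun s => c1 s + c2 s, add_supp (fun s hs => Or.inl (hc1 s hs))
    (fun s hs => Or.inr (hc2 s hs)), ?_⟩
  intro r
  rw [bd_add, hc1', hc2', ← hz12]
  have h6 : u r + u r = 0 := CharTwo.add_self_eq_zero _
  calc z1 r + u r + (z2 r + u r) = z1 r + z2 r + (u r + u r) := by ring
    _ = z1 r + z2 r := by rw [h6, add_zero]

/-- NERVE LEMMA (full nerve). -/
theorem nerve {ι : Type*} [DecidableEq ι] (s : Finset ι) :
    ∀ K : ι → Finset E → Prop, (∀ i ∈ s, DC (K i)) → s.Nonempty →
      (∀ t ⊆ s, t.Nonempty → AcyK fun σ => ∀ i ∈ t, K i σ) → AcyK fun σ => ∃ i ∈ s, K i σ := by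
  induction s using Finset.induction_on with
  | empty => exact fun K _ h => absurd h (by simp)
  | insert j s hj ih =>
    intro K hK _ hint
    have hKj : AcyK (K j) := by
      refine AcyK.congr (fun σ => ?_) (hint {j} (by simp) (by simp))
      simp
    rcases s.eq_empty_or_nonempty with hs | hs
    · subst hs
      refine AcyK.congr (fun σ => ?_) hKj
      simp
    · have h1 : AcyK fun σ => ∃ i ∈ s, K i σ :=
        ih K (fun i hi => hK i (mem_insert_of_mem hi)) hs
          fun t ht htn => hint t (ht.trans (subset_insert j s)) htn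
      have h2 : AcyK fun σ => ∃ i ∈ s, (K j σ ∧ K i σ) := by
        refine ih (fun i σ => K j σ ∧ K i σ) (fun i hi => ?_) hs fun t ht htn => ?_
        · intro a b hab hb
          exact ⟨hK j (mem_insert_self j s) a b hab hb.1,
            hK i (mem_insert_of_mem hi) a b hab hb.2⟩
        · refine AcyK.congr (fun σ => ?_) (hint (insert j t) (insert_subset_insert j ht) (by simp))
          rw [forall_mem_insert]
          constructor
          · exact fun h i hi => ⟨h.1, h.2 i hi⟩
          · intro h
            obtain ⟨i, hi⟩ := htn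
            exact ⟨(h i hi).1, fun i hi => (h i hi).2⟩
      have hD : DC fun σ => ∃ i ∈ s, K i σ := by
        rintro a b hab ⟨i, hi, hb⟩
        exact ⟨i, hi, hK i (mem_insert_of_mem hi) a b hab hb⟩
      refine AcyK.congr (fun σ => ?_) (mv (hK j (mem_insert_self j s)) hD hKj h1
        (AcyK.congr (fun σ => ?_) h2))
      · simp
      · constructor
        · rintro ⟨i, hi, h3, h4⟩
          exact ⟨h3, i, hi, h4⟩
        · rintro ⟨h3, i, hi, h4⟩
          exact ⟨i, hi, h3, h4⟩

/-- DIRECT SUM LEMMA: if the union is acyclic and all intersections of at least two members are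
acyclic, then every member is acyclic. -/
theorem piece {ι : Type*} [DecidableEq ι] {s : Finset ι} {K : ι → Finset E → Prop}
    (hK : ∀ i ∈ s, DC (K i)) (hU : AcyK fun σ => ∃ i ∈ s, K i σ)
    (hint : ∀ t ⊆ s, 2 ≤ t.card → AcyK fun σ => ∀ i ∈ t, K i σ) {j : ι} (hj : j ∈ s) :
    AcyK (K j) := by
  classical
  rcases (s.erase j).eq_empty_or_nonempty with hs | hs
  · refine AcyK.congr (fun σ => ?_) hU
    constructor
    · rintro ⟨i, hi, h1⟩
      by_cases h2 : i = j
      · rw [← h2]
        exact h1
      · exact absurd (mem_erase.2 ⟨h2, hi⟩) (by rw [hs]; exact notMem_empty i)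
    · exact fun h => ⟨j, hj, h⟩
  · intro z hz hb
    obtain ⟨w, hw1, hw2⟩ := hU z (fun σ hσ => ⟨j, hj, hz σ hσ⟩) hb
    obtain ⟨w1, hw1e⟩ : ∃ w1 : Finset E → ZMod 2, w1 = fun σ => if K j σ then w σ else 0 := ⟨_, rfl⟩
    obtain ⟨w2, hw2e⟩ : ∃ w2 : Finset E → ZMod 2, w2 = fun σ => if K j σ then 0 else w σ := ⟨_, rfl⟩
    have hw12 : ∀ σ, w1 σ + w2 σ = w σ := by
      intro σ
      rw [hw1e, hw2e]
      by_cases h : K j σ
      · simp only [h, if_true, add_zero]
      · simp only [h, if_false, zero_add]
    have s1 : ∀ σ, w1 σ ≠ 0 → K j σ := by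
      intro σ hσ
      by_contra h
      apply hσ
      rw [hw1e]
      simp only [h, if_false]
    have s2 : ∀ σ, w2 σ ≠ 0 → ∃ i ∈ s.erase j, K i σ := by
      intro σ hσ
      rw [hw2e] at hσ
      by_cases h : K j σ
      · simp only [h, if_true] at hσ
        exact absurd rfl hσ
      · simp only [h, if_false] at hσ
        obtain ⟨i, hi, h3⟩ := hw1 σ hσ
        exact ⟨i, mem_erase.2 ⟨fun h4 => h (h4 ▸ h3), hi⟩, h3⟩
    have hD : DC fun σ => ∃ i ∈ s.erase j, K i σ := by
      rintro a b hab ⟨i, hi, hb⟩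
      exact ⟨i, hi, hK i (mem_erase.1 hi).2 a b hab hb⟩
    have hbe : ∀ r, z r + bd w1 r = bd w2 r := by
      intro r
      have h5 : w = fun σ => w1 σ + w2 σ := funext fun σ => (hw12 σ).symm
      rw [← hw2 r, h5, bd_add]
      have h6 : bd w1 r + bd w1 r = 0 := CharTwo.add_self_eq_zero _
      calc bd w1 r + bd w2 r + bd w1 r = bd w2 r + (bd w1 r + bd w1 r) := by ring
        _ = bd w2 r := by rw [h6, add_zero]
    have hn : AcyK fun σ => ∃ i ∈ s.erase j, (K j σ ∧ K i σ) := by
      refine nerve (s.erase j) (fun i σ => K j σ ∧ K i σ) (fun i hi => ?_) hs fun t ht htn => ?_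
      · intro a b hab hb
        exact ⟨hK j hj a b hab hb.1, hK i (mem_erase.1 hi).2 a b hab hb.2⟩
      · have hjt : j ∉ t := fun h => (mem_erase.1 (ht h)).1 rfl
        refine AcyK.congr (fun σ => ?_) (hint (insert j t) ?_ ?_)
        · rw [forall_mem_insert]
          constructor
          · exact fun h i hi => ⟨h.1, h.2 i hi⟩
          · intro h
            obtain ⟨i, hi⟩ := htn
            exact ⟨(h i hi).1, fun i hi => (h i hi).2⟩
        · exact insert_subset hj (ht.trans (erase_subset _ _))
        · rw [card_insert_of_notMem hjt]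
          have := htn.card_pos
          omega
    obtain ⟨v, hv1, hv2⟩ := hn (fun r => z r + bd w1 r) (by
      intro r hr
      have h7 : K j r := add_supp hz (bd_supp (hK j hj) s1) r hr
      obtain ⟨i, hi, h8⟩ := bd_supp hD s2 r (by rw [← hbe]; exact hr)
      exact ⟨i, hi, h7, h8⟩) (by
      intro r
      rw [bd_add, hb, bd_bd, add_zero])
    refine ⟨fun σ => w1 σ + v σ, add_supp s1 (fun σ hσ => ?_), fun r => ?_⟩
    · obtain ⟨i, _, h9, _⟩ := hv1 σ hσ
      exact h9
    · rw [bd_add, hv2]
      have h6 : bd w1 r + bd w1 r = 0 := CharTwo.add_self_eq_zero _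
      calc bd w1 r + (z r + bd w1 r) = z r + (bd w1 r + bd w1 r) := by ring
        _ = z r := by rw [h6, add_zero]

theorem acyK_iff {cross : E → E → Prop} {S : Finset E} :
    AcyK (fun s => s ⊆ S ∧ Plane cross s) ↔ Acy cross S := Iff.rfl

theorem dc_plane {cross : E → E → Prop} (S : Finset E) :
    DC fun s => s ⊆ S ∧ Plane cross s := by
  intro a b hab hb
  exact ⟨hab.trans hb.1, plane_sub hab hb.2⟩

theorem sub_miss {cross : E → E → Prop} {S I P : Finset E} :
    P ⊆ Miss cross S I ↔ P ⊆ S ∧ ∀ r ∈ I, ∀ p ∈ P, ¬ cross p r := by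
  constructor
  · intro h
    exact ⟨fun p hp => (mem_miss.1 (h hp)).1, fun r hr p hp => (mem_miss.1 (h hp)).2 r hr⟩
  · rintro ⟨h1, h2⟩ p hp
    exact mem_miss.2 ⟨h1 hp, fun r hr => h2 r hr p hp⟩

theorem inter_miss {cross : E → E → Prop} {S : Finset E} {t : Finset (Finset E)}
    (ht : t.Nonempty) (P : Finset E) :
    (P ⊆ Miss cross S (t.biUnion id) ∧ Plane cross P) ↔
      ∀ I ∈ t, P ⊆ Miss cross S I ∧ Plane cross P := by
  constructor
  · rintro ⟨h1, h2⟩ I hI
    rw [sub_miss] at h1 ⊢
    exact ⟨⟨h1.1, fun r hr => h1.2 r (mem_biUnion.2 ⟨I, hI, hr⟩)⟩, h2⟩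
  · intro h
    obtain ⟨I0, hI0⟩ := ht
    refine ⟨?_, (h I0 hI0).2⟩
    rw [sub_miss]
    refine ⟨(sub_miss.1 (h I0 hI0).1).1, fun r hr => ?_⟩
    obtain ⟨I, hI, hrI⟩ := mem_biUnion.1 hr
    exact (sub_miss.1 (h I hI).1).2 r hrI

/-- THE POLE THEOREM (helper91). `S`: available edges away from the pole, `R`: rays of the pole.
If the complex of `S` is acyclic, past every plane subset of `S` at least two rays are free, and the
complexes of the edges which miss `I` are acyclic for all sets `I` of at least three rays, then they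
are acyclic for all sets of rays. -/
theorem pole {cross : E → E → Prop} {S R : Finset E} (h0 : Acy cross S)
    (h2 : ∀ P ⊆ S, Plane cross P → ∃ r ∈ R, ∃ r' ∈ R, r ≠ r' ∧ (∀ p ∈ P, ¬ cross p r) ∧
      ∀ p ∈ P, ¬ cross p r')
    (h3 : ∀ I ⊆ R, 3 ≤ I.card → Acy cross (Miss cross S I)) :
    ∀ I ⊆ R, Acy cross (Miss cross S I) := by
  have hpair : ∀ I ⊆ R, I.card = 2 → Acy cross (Miss cross S I) := by
    intro I hI hc
    have hmem : I ∈ R.powersetCard 2 := mem_powersetCard.2 ⟨hI, hc⟩
    have h := piece (s := R.powersetCard 2)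
      (K := fun I s => s ⊆ Miss cross S I ∧ Plane cross s) (fun I _ => dc_plane _) ?_ ?_ hmem
    · exact h
    · refine AcyK.congr (fun P => ?_) (acyK_iff.2 h0)
      constructor
      · rintro ⟨h4, h5⟩
        obtain ⟨r, hr, r', hr', hne, h6, h7⟩ := h2 P h4 h5
        refine ⟨{r, r'}, mem_powersetCard.2 ⟨?_, card_pair hne⟩, ?_, h5⟩
        · intro x hx
          rw [mem_insert, mem_singleton] at hx
          rcases hx with rfl | rfl
          · exact hr
          · exact hr'
        · rw [sub_miss]
          refine ⟨h4, fun x hx p hp => ?_⟩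
          rw [mem_insert, mem_singleton] at hx
          rcases hx with rfl | rfl
          · exact h6 p hp
          · exact h7 p hp
      · rintro ⟨I, _, h4, h5⟩
        exact ⟨(sub_miss.1 h4).1, h5⟩
    · intro t ht htc
      have htn : t.Nonempty := card_pos.1 (by omega)
      refine AcyK.congr (fun P => inter_miss htn P) (acyK_iff.2 (h3 (t.biUnion id) ?_ ?_))
      · intro x hx
        obtain ⟨I, hI, hxI⟩ := mem_biUnion.1 hx
        exact (mem_powersetCard.1 (ht hI)).1 hxI
      · obtain ⟨I1, hI1, I2, hI2, hne⟩ := one_lt_card.1 (show 1 < t.card by omega)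
        have c1 := (mem_powersetCard.1 (ht hI1)).2
        have c2 := (mem_powersetCard.1 (ht hI2)).2
        have hsub : I1 ∪ I2 ⊆ t.biUnion id := by
          intro x hx
          rcases mem_union.1 hx with h | h
          · exact mem_biUnion.2 ⟨I1, hI1, h⟩
          · exact mem_biUnion.2 ⟨I2, hI2, h⟩
        have h4 := card_le_card hsub
        by_contra h5
        have h6 : (I1 ∪ I2).card ≤ 2 := by omega
        have h7 : I1 ∪ I2 = I1 :=
          (eq_of_subset_of_card_le subset_union_left (by rw [c1]; exact h6)).symm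
        have h8 : I1 ∪ I2 = I2 :=
          (eq_of_subset_of_card_le subset_union_right (by rw [c2]; exact h6)).symm
        exact hne (h7.symm.trans h8)
  have hge : ∀ I ⊆ R, 2 ≤ I.card → Acy cross (Miss cross S I) := by
    intro I hI hc
    rcases Nat.lt_or_ge I.card 3 with h | h
    · exact hpair I hI (by omega)
    · exact h3 I hI h
  intro I hI
  rcases Nat.lt_or_ge I.card 2 with hc | hc
  · rcases Nat.eq_zero_or_pos I.card with hc0 | hc1
    · rw [card_eq_zero] at hc0
      subst hc0
      refine acyK_iff.1 (AcyK.congr (fun P => ?_) (acyK_iff.2 h0))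
      rw [sub_miss]
      simp
    · obtain ⟨r0, rfl⟩ := card_eq_one.1 (show I.card = 1 by omega)
      have hr0 : r0 ∈ R := hI (mem_singleton_self r0)
      obtain ⟨ra, hra, rb, hrb, hab, _, _⟩ := h2 ∅ (empty_subset _)
        (fun e he => absurd he (notMem_empty e))
      have hne : (R.erase r0).Nonempty := by
        by_cases h : ra = r0
        · exact ⟨rb, mem_erase.2 ⟨fun h' => hab (h.trans h'.symm), hrb⟩⟩
        · exact ⟨ra, mem_erase.2 ⟨h, hra⟩⟩
      have h := nerve (R.erase r0) (fun r s => s ⊆ Miss cross S {r0, r} ∧ Plane cross s)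
        (fun r _ => dc_plane _) hne ?_
      · refine acyK_iff.1 (AcyK.congr (fun P => ?_) h)
        constructor
        · rintro ⟨r, _, h4, h5⟩
          rw [sub_miss] at h4 ⊢
          refine ⟨⟨h4.1, fun x hx => h4.2 x ?_⟩, h5⟩
          rw [mem_singleton] at hx
          rw [hx]
          exact mem_insert_self _ _
        · rintro ⟨h4, h5⟩
          obtain ⟨r, hr, r', hr', hne', h6, h7⟩ := h2 P (sub_miss.1 h4).1 h5
          have key : ∀ x ∈ R, x ≠ r0 → (∀ p ∈ P, ¬ cross p x) →
              ∃ i ∈ R.erase r0, P ⊆ Miss cross S {r0, i} ∧ Plane cross P := by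
            intro x hx hxr hx2
            refine ⟨x, mem_erase.2 ⟨hxr, hx⟩, ?_, h5⟩
            rw [sub_miss] at h4 ⊢
            refine ⟨h4.1, fun y hy => ?_⟩
            rw [mem_insert, mem_singleton] at hy
            rcases hy with rfl | rfl
            · exact h4.2 y (mem_singleton_self y)
            · exact hx2
          by_cases h8 : r = r0
          · exact key r' hr' (fun h9 => hne' (h8.trans h9.symm)) h7
          · exact key r hr h8 h6
      · intro t ht htn
        refine AcyK.congr (fun P => ?_) (acyK_iff.2 (hge (insert r0 t) ?_ ?_))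
        · obtain ⟨i0, hi0⟩ := htn
          constructor
          · rintro ⟨h4, h5⟩ i hi
            rw [sub_miss] at h4 ⊢
            refine ⟨⟨h4.1, fun x hx => h4.2 x ?_⟩, h5⟩
            rw [mem_insert, mem_singleton] at hx
            rcases hx with rfl | rfl
            · exact mem_insert_self _ _
            · exact mem_insert_of_mem hi
          · intro h
            refine ⟨?_, (h i0 hi0).2⟩
            rw [sub_miss]
            refine ⟨(sub_miss.1 (h i0 hi0).1).1, fun x hx => ?_⟩
            rcases mem_insert.1 hx with rfl | hx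
            · exact (sub_miss.1 (h i0 hi0).1).2 x (mem_insert_self _ _)
            · exact (sub_miss.1 (h x hx).1).2 x (mem_insert_of_mem (mem_singleton_self x))
        · exact insert_subset hr0 (ht.trans (erase_subset _ _))
        · have hjt : r0 ∉ t := fun h => (mem_erase.1 (ht h)).1 rfl
          rw [card_insert_of_notMem hjt]
          have := htn.card_pos
          omega
  · exact hge I hI hc

end H24N
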