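import Mathlib

/-!
# Numbers with given bits, segments of bits
-/

set_option autoImplicit false

namespace Pool.Agent.H24N

open Classical in
/-- the number whose bits below `m` are given by `b` -/
noncomputable def bitsNum (m : ℕ) (b : ℕ → Prop) : ℕ :=
  ∑ j ∈ Finset.range m, if b j then 2 ^ j else 0

open Classical in
theorem bitsNum_succ_range (m : ℕ) (b : ℕ → Prop) :
    bitsNum (m + 1) b = bitsNum m b + if b m then 2 ^ m else 0 := by
  simp only [bitsNum, Finset.sum_range_succ]

theorem bitsNum_lt (m : ℕ) (b : ℕ → Prop) : bitsNum m b < 2 ^ m := by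
  induction m with
  | zero => simp [bitsNum]
  | succ m ih =>
    rw [bitsNum_succ_range, pow_succ]
    split_ifs <;> omega

theorem testBit_bitsNum (m : ℕ) (b : ℕ → Prop) (i : ℕ) :
    (bitsNum m b).testBit i = true ↔ i < m ∧ b i := by
  induction m with
  | zero => simp [bitsNum]
  | succ m ih =>
    have h1 : bitsNum (m + 1) b = 2 ^ m * (open Classical in if b m then 1 else 0) + bitsNum m b := by
      rw [bitsNum_succ_range]
      split_ifs <;> ring
    rw [h1, Nat.testBit_two_pow_mul_add _ (bitsNum_lt m b)]
    by_cases hi : i < m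
    · rw [if_pos hi, ih]
      constructor
      · rintro ⟨_, h⟩; exact ⟨by omega, h⟩
      · rintro ⟨_, h⟩; exact ⟨hi, h⟩
    · rw [if_neg hi]
      by_cases him : i = m
      · subst him
        by_cases hb : b i
        · simp [hb]
        · simp [hb]
      · have h2 : 1 ≤ i - m := by omega
        constructor
        · intro h
          exfalso
          split_ifs at h
          · obtain ⟨c, hc⟩ : ∃ c, i - m = c + 1 := ⟨i - m - 1, by omega⟩
            rw [hc] at h
            simp [Nat.testBit_succ] at h
          · simp at h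
        · rintro ⟨h3, _⟩; omega

theorem eq_bitsNum_iff {m v : ℕ} (hv : v < 2 ^ m) (b : ℕ → Prop) :
    v = bitsNum m b ↔ ∀ i < m, (v.testBit i = true ↔ b i) := by
  constructor
  · intro h i hi
    rw [h, testBit_bitsNum]
    exact ⟨fun h => h.2, fun h => ⟨hi, h⟩⟩
  · intro h
    apply Nat.eq_of_testBit_eq
    intro i
    rw [Bool.eq_iff_iff, testBit_bitsNum]
    by_cases hi : i < m
    · rw [h i hi]; exact ⟨fun h => ⟨hi, h⟩, fun h => h.2⟩
    · have h1 : v < 2 ^ i := lt_of_lt_of_le hv (Nat.pow_le_pow_right (by norm_num) (by omega))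
      rw [Nat.testBit_lt_two_pow h1]
      constructor
      · intro h; exact absurd h (by decide)
      · rintro ⟨h2, _⟩; omega

theorem bitsNum_eq_zero_iff (m : ℕ) (b : ℕ → Prop) : bitsNum m b = 0 ↔ ∀ i < m, ¬ b i := by
  rw [eq_comm, eq_bitsNum_iff (by positivity) b]
  simp

theorem bitsNum_eq_max_iff (m : ℕ) (b : ℕ → Prop) : bitsNum m b = 2 ^ m - 1 ↔ ∀ i < m, b i := by
  rw [eq_comm, eq_bitsNum_iff (Nat.sub_lt (by positivity) (by norm_num)) b]
  apply forall₂_congr
  intro i hi
  rw [Nat.testBit_two_pow_sub_one]
  simp [hi]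

theorem testBit_add_one (A i : ℕ) :
    (A + 1).testBit i = true ↔ ¬ (A.testBit i = true ↔ ∀ j < i, A.testBit j = true) := by
  induction i generalizing A with
  | zero =>
    simp only [Nat.testBit_zero, not_lt_zero, IsEmpty.forall_iff, implies_true, iff_true,
      decide_eq_true_eq]
    omega
  | succ i ih =>
    have h1 : (∀ j < i + 1, A.testBit j = true) ↔
        (A.testBit 0 = true ∧ ∀ j < i, (A / 2).testBit j = true) := by
      constructor
      · intro h
        refine ⟨h 0 (by omega), fun j hj => ?_⟩
        rw [← Nat.testBit_succ]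
        exact h (j + 1) (by omega)
      · rintro ⟨h0, h⟩ j hj
        cases j with
        | zero => exact h0
        | succ j => rw [Nat.testBit_succ]; exact h j (by omega)
    rw [h1, Nat.testBit_succ, Nat.testBit_succ]
    rcases Nat.mod_two_eq_zero_or_one A with h | h
    · have h2 : (A + 1) / 2 = A / 2 := by omega
      have h3 : ¬ (A.testBit 0 = true) := by
        simp [Nat.testBit_zero, h]
      rw [h2]
      simp only [h3, Bool.false_eq_true, false_and, iff_false, not_not]
    · have h2 : (A + 1) / 2 = A / 2 + 1 := by omega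
      have h3 : A.testBit 0 = true := by
        simp [Nat.testBit_zero, h]
      rw [h2, ih (A / 2)]
      simp only [h3, true_and]

/-- the binary increment: a bit changes iff all lower bits are `1` -/
theorem bitsNum_succ_iff (m : ℕ) (a b : ℕ → Prop) :
    bitsNum m b = (bitsNum m a + 1) % 2 ^ m ↔
      ∀ i < m, (b i ↔ ¬ (a i ↔ ∀ j < i, a j)) := by
  rw [eq_comm, eq_bitsNum_iff (Nat.mod_lt _ (by positivity)) b]
  apply forall₂_congr
  intro i hi
  rw [Nat.testBit_mod_two_pow]
  simp only [hi, decide_true, Bool.true_and]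
  rw [testBit_add_one, testBit_bitsNum]
  have h1 : (∀ j < i, (bitsNum m a).testBit j = true) ↔ ∀ j < i, a j := by
    apply forall₂_congr
    intro j hj
    rw [testBit_bitsNum]
    exact ⟨fun h => h.2, fun h => ⟨by omega, h⟩⟩
  rw [h1]
  constructor
  · intro h; rw [← h]; simp only [hi, true_and]
  · intro h; rw [h]; simp only [hi, true_and]

end Pool.Agent.H24N
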