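import Pool.Agent.Lib.H24N.Tile

/-!
# The meaning of the flags and of the violations, as statements about numbers
-/

set_option autoImplicit false

namespace Pool.Agent.H24N

/-- meaning of the flags `fl i` and of the guesses `td d`, `te d` of the tiles, for the numbers
`t`, `a = x1 % s`, `p = x2 % s`, `u = x0 % t`, `b = x1 % t` -/
structure FlagNum (k n : ℕ) (fl td te : ℕ → Prop) (t a p u b : ℕ) : Prop where
  f0 : fl 0 → crd k a = 0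
  f1 : fl 1 → tim k a = 2 ^ 2 ^ k - 1
  f2 : fl 2 → ∀ d < n, a.testBit d = false
  f3 : fl 3 → p < 2 ^ (4 * 2 ^ k)
  f4 : fl 4 → t = p
  f5 : fl 5 → u = 0
  f6 : fl 6 → crd k b = (crd k a + 1) % 2 ^ (3 * 2 ^ k)
  f7 : fl 7 → tim k b = tim k a ∧ spc k b = (spc k a + 1) % 2 ^ (2 * 2 ^ k)
  td : ∀ d < n, td d → a.testBit d = true
  te : ∀ d < n, te d → b.testBit d = true

/-- the violations -/
def ViolNum (P : Til) (fl td te : ℕ → Prop) (a u b : ℕ) : Prop :=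
  (∃ d ∈ P.badI, fl 0 ∧ td d) ∨
  (∃ d ∈ P.badF, fl 1 ∧ td d) ∨
  fl 2 ∨
  (crd P.k a + 1 < 2 ^ (3 * 2 ^ P.k) ∧
    (fl 3 ∨ (fl 4 ∧ (u ≠ 0 ∨ crd P.k b ≠ (crd P.k a + 1) % 2 ^ (3 * 2 ^ P.k))))) ∨
  (∃ p ∈ P.badV, fl 5 ∧ fl 6 ∧ tim P.k a + 1 < 2 ^ 2 ^ P.k ∧ td p.1 ∧ te p.2) ∨
  (∃ p ∈ P.badH, fl 5 ∧ fl 7 ∧ spc P.k a + 1 < 2 ^ (2 * 2 ^ P.k) ∧ td p.1 ∧ te p.2)

end Pool.Agent.H24N
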