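import Pool.Agent.Lib.H24N.Struct
import Pool.Agent.Lib.H24N.NumDefs

/-!
# The register chain of a model
-/

set_option autoImplicit false

namespace Pool.Agent.H24N

variable {Δ : Type}

/-- the register chain, enumerated -/
structure Chain (I : Interp Δ) (k : ℕ) (e : ℕ → Δ) : Prop where
  mem : ∀ i < 2 ^ (k + 3), e i ∈ I.c 5 0
  cnt : ∀ i < 2 ^ (k + 3), cv I k 18 (e i) = i
  uniq : ∀ x ∈ I.c 5 0, x = e (cv I k 18 x)
  pred : ∀ i, i + 1 < 2 ^ (k + 3) → ∀ y, (I.r 3 0 y (e (i + 1)) ∧ y ∈ I.c 5 0) ↔ y = e i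

/-- the value of the register of kind `a` -/
noncomputable def rv (I : Interp Δ) (k : ℕ) (e : ℕ → Δ) (a : ℕ) : ℕ :=
  bitsNum (2 ^ (k + 3)) fun i => e i ∈ I.c a 0

theorem rv_lt (I : Interp Δ) (k : ℕ) (e : ℕ → Δ) (a : ℕ) : rv I k e a < 2 ^ 2 ^ (k + 3) :=
  bitsNum_lt _ _

theorem exists_chain (I : Interp Δ) (k : ℕ) (o : Δ) (hN : I.c 1 0 = {o})
    (h : ∀ x, ChainAt I k x) : ∃ e, e 0 = o ∧ Chain I k e := by
  classical
  let f : Δ → Δ := fun x =>
    if hx : ∃ y, I.r 3 0 x y ∧ y ∈ I.c 5 0 then hx.choose else x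
  have hf : ∀ x, (∃ y, I.r 3 0 x y ∧ y ∈ I.c 5 0) → I.r 3 0 x (f x) ∧ f x ∈ I.c 5 0 := by
    intro x hx
    simp only [f, dif_pos hx]
    exact hx.choose_spec
  let e : ℕ → Δ := fun n => Nat.rec o (fun _ x => f x) n
  have e0 : e 0 = o := rfl
  have es : ∀ n, e (n + 1) = f (e n) := fun n => rfl
  have hpos : 0 < 2 ^ (k + 3) := by positivity
  have hinv : ∀ y x, I.r 3 0 y x → y ∈ I.c 5 0 → x ∈ I.c 5 0 → ∀ n, cv I k 18 x = n + 1 →
      cv I k 18 y = n := by
    intro y x hr hy hx n hn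
    have h1 := (h y).inc hy x hr hx
    have h2 := cv_lt I y k 18
    by_cases h3 : cv I k 18 y + 1 < 2 ^ (k + 3)
    · rw [Nat.mod_eq_of_lt h3] at h1; omega
    · have h4 : cv I k 18 y + 1 = 2 ^ (k + 3) := by omega
      rw [h4, Nat.mod_self] at h1
      omega
  have key : ∀ i < 2 ^ (k + 3), e i ∈ I.c 5 0 ∧ cv I k 18 (e i) = i := by
    intro i
    induction i with
    | zero =>
      intro _
      rw [e0]
      exact (h o).root.1 (by rw [hN]; rfl)
    | succ i ih =>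
      intro hi
      obtain ⟨h1, h2⟩ := ih (by omega)
      obtain ⟨h3, h4⟩ := hf (e i) ((h (e i)).succ h1 (by omega))
      rw [es]
      refine ⟨h4, ?_⟩
      rw [(h (e i)).inc h1 _ h3 h4, h2, Nat.mod_eq_of_lt hi]
  have hstep : ∀ i, i + 1 < 2 ^ (k + 3) → I.r 3 0 (e i) (e (i + 1)) := by
    intro i hi
    obtain ⟨h1, h2⟩ := key i (by omega)
    rw [es]
    exact (hf (e i) ((h (e i)).succ h1 (by omega))).1
  have huniq : ∀ n x, x ∈ I.c 5 0 → cv I k 18 x = n → x = e n := by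
    intro n
    induction n with
    | zero =>
      intro x hx hc
      have h1 : x ∈ I.c 1 0 := (h x).root.2 ⟨hx, hc⟩
      rw [hN] at h1
      rw [e0]
      exact h1
    | succ n ih =>
      intro x hx hc
      obtain ⟨y, hy, hy5⟩ := (h x).pred hx (by omega)
      have h1 := hinv y x hy hy5 hx n hc
      have h2 := ih y hy5 h1
      have h3 := cv_lt I x k 18
      have h4 := hstep n (by omega)
      rw [← h2] at h4
      exact (h y).fn _ _ hy h4
  refine ⟨e, e0, fun i hi => (key i hi).1, fun i hi => (key i hi).2,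
    fun x hx => huniq _ x hx rfl, ?_⟩
  intro i hi y
  constructor
  · rintro ⟨hr, hy⟩
    have h1 := hinv y (e (i + 1)) hr hy (key _ hi).1 i (key _ hi).2
    exact huniq i y hy h1
  · rintro rfl
    exact ⟨hstep i hi, (key i (by omega)).1⟩

end Pool.Agent.H24N
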