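import Pool.Agent.Lib.H24N.Chain

/-!
# The comparison of two registers
-/

set_option autoImplicit false

namespace Pool.Agent.H24N

variable {Δ : Type}

theorem lt_of_ltAt {I : Interp Δ} {k : ℕ} {e : ℕ → Δ} (he : Chain I k e) (μ md rs : ℕ)
    (h : ∀ x, LtAt I k μ md rs x) : rv I k e rs < rv I k e md := by
  have hbit : ∀ (a i : ℕ), i < 2 ^ (k + 3) → ((rv I k e a).testBit i = true ↔ e i ∈ I.c a 0) := by
    intro a i hi
    rw [rv, testBit_bitsNum]
    exact ⟨fun h => h.2, fun h => ⟨hi, h⟩⟩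
  have key : ∀ i, i < 2 ^ (k + 3) → e i ∈ I.c 22 μ →
      rv I k e rs % 2 ^ (i + 1) < rv I k e md % 2 ^ (i + 1) := by
    intro i
    induction i with
    | zero =>
      intro hi hmem
      rw [mod_lt_iff]
      rcases (h (e 0)).step (he.mem 0 hi) hmem with h1 | ⟨_, h2, _⟩
      · left
        refine ⟨(hbit md 0 hi).2 h1.1, ?_⟩
        have := mt (hbit rs 0 hi).1 h1.2
        simpa using this
      · exact absurd (he.cnt 0 hi) h2
    | succ i ih =>
      intro hi hmem
      rw [mod_lt_iff]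
      rcases (h (e (i + 1))).step (he.mem (i + 1) hi) hmem with h1 | ⟨h1, _, y, hy1, hy2, hy3⟩
      · left
        refine ⟨(hbit md (i + 1) hi).2 h1.1, ?_⟩
        have := mt (hbit rs (i + 1) hi).1 h1.2
        simpa using this
      · right
        constructor
        · rw [Bool.eq_iff_iff, hbit rs (i + 1) hi, hbit md (i + 1) hi]
          exact h1.symm
        · have hyi : y = e i := (he.pred i hi y).1 ⟨hy1, hy2⟩
          subst hyi
          exact ih (by omega) hy3
  have hpos : 0 < 2 ^ (k + 3) := Nat.two_pow_pos _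
  have hlast : 2 ^ (k + 3) - 1 < 2 ^ (k + 3) := by omega
  have h1 := key (2 ^ (k + 3) - 1) hlast
    ((h _).top (he.mem _ hlast) (he.cnt _ hlast))
  have h2 : 2 ^ (k + 3) - 1 + 1 = 2 ^ (k + 3) := by omega
  rw [h2, Nat.mod_eq_of_lt (rv_lt I k e rs), Nat.mod_eq_of_lt (rv_lt I k e md)] at h1
  exact h1

end Pool.Agent.H24N
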