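import Pool.Agent.Lib.H24N.Seg
import Pool.Agent.Lib.PolyTime.Nat

/-!
# Tilings of doubly exponential rectangles, and the numbers that code them

`Til`: an instance; the rectangle has `2 ^ 2 ^ k` rows (time) and `2 ^ (2 * 2 ^ k)` columns (space).

`Good P x0 x1 x2`: the three numbers code a tiling: a number `s` is active if `s ∣ x0` and
`2 ^ (4 * 2 ^ k) ≤ s < 2 ^ (8 * 2 ^ k)`; its data are the bits of `x1 % s`: bit `d < n` says that
`d` is the tile of `s`, the bits `2 ^ k ≤ i < 4 * 2 ^ k` are its position (row: the lower third,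
column: the rest), and `x2 % s` is the active number with the next position.
-/

set_option autoImplicit false

namespace Pool.Agent.H24N

open Pool.Agent.PolyTime

/-- an instance of the tiling problem: the tiles are `0, …, n - 1`; `badI`: tiles that are forbidden
at the origin, `badF`: tiles that are forbidden in the last row; `badV`: pairs that are forbidden
in the same column in consecutive rows, `badH`: pairs that are forbidden in the same row in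
consecutive columns -/
structure Til where
  k : ℕ
  n : ℕ
  badI : List ℕ
  badF : List ℕ
  badV : List (ℕ × ℕ)
  badH : List (ℕ × ℕ)

/-- well-formed instances -/
structure Til.Wf (P : Til) : Prop where
  n_le : P.n ≤ 2 ^ P.k
  badI : ∀ d ∈ P.badI, d < P.n
  badF : ∀ d ∈ P.badF, d < P.n
  badV : ∀ p ∈ P.badV, p.1 < P.n ∧ p.2 < P.n
  badH : ∀ p ∈ P.badH, p.1 < P.n ∧ p.2 < P.n

/-- codes of instances, with `k` and `n` in unary -/
instance : Enc Til := ⟨fun P => enc (List.replicate P.k (), List.replicate P.n (), P.badI, P.badF,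
  P.badV, P.badH)⟩

/-- there is a tiling; `τ i j` is the tile in row `i` and column `j` -/
def Til.Solvable (P : Til) : Prop := ∃ τ : ℕ → ℕ → ℕ,
  (∀ i < 2 ^ 2 ^ P.k, ∀ j < 2 ^ (2 * 2 ^ P.k), τ i j < P.n) ∧
  τ 0 0 ∉ P.badI ∧
  (∀ j < 2 ^ (2 * 2 ^ P.k), τ (2 ^ 2 ^ P.k - 1) j ∉ P.badF) ∧
  (∀ i j, i + 1 < 2 ^ 2 ^ P.k → j < 2 ^ (2 * 2 ^ P.k) → (τ i j, τ (i + 1) j) ∉ P.badV) ∧
  (∀ i j, i < 2 ^ 2 ^ P.k → j + 1 < 2 ^ (2 * 2 ^ P.k) → (τ i j, τ i (j + 1)) ∉ P.badH)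

/-- position -/
def crd (k v : ℕ) : ℕ := seg (2 ^ k) (3 * 2 ^ k) v
/-- row -/
def tim (k v : ℕ) : ℕ := seg (2 ^ k) (2 ^ k) v
/-- column -/
def spc (k v : ℕ) : ℕ := seg (2 * 2 ^ k) (2 * 2 ^ k) v

/-- active numbers -/
structure Active (k x0 s : ℕ) : Prop where
  dvd : s ∣ x0
  le : 2 ^ (4 * 2 ^ k) ≤ s
  lt : s < 2 ^ (8 * 2 ^ k)

/-- three numbers that code a tiling -/
structure Good (P : Til) (x0 x1 x2 : ℕ) : Prop where
  orig : ∃ s, Active P.k x0 s ∧ crd P.k (x1 % s) = 0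
  tile : ∀ s, Active P.k x0 s → ∃ d < P.n, (x1 % s).testBit d = true
  ini : ∀ s, Active P.k x0 s → crd P.k (x1 % s) = 0 → ∀ d ∈ P.badI, d < P.n →
    (x1 % s).testBit d = false
  fin : ∀ s, Active P.k x0 s → tim P.k (x1 % s) = 2 ^ 2 ^ P.k - 1 → ∀ d ∈ P.badF, d < P.n →
    (x1 % s).testBit d = false
  ptr : ∀ s, Active P.k x0 s → crd P.k (x1 % s) + 1 < 2 ^ (3 * 2 ^ P.k) →
    Active P.k x0 (x2 % s) ∧ crd P.k (x1 % (x2 % s)) = crd P.k (x1 % s) + 1
  ver : ∀ s t, Active P.k x0 s → Active P.k x0 t → tim P.k (x1 % s) + 1 < 2 ^ 2 ^ P.k →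
    crd P.k (x1 % t) = crd P.k (x1 % s) + 1 → ∀ p ∈ P.badV, p.1 < P.n → p.2 < P.n →
    ¬ ((x1 % s).testBit p.1 = true ∧ (x1 % t).testBit p.2 = true)
  hor : ∀ s t, Active P.k x0 s → Active P.k x0 t → spc P.k (x1 % s) + 1 < 2 ^ (2 * 2 ^ P.k) →
    tim P.k (x1 % t) = tim P.k (x1 % s) → spc P.k (x1 % t) = spc P.k (x1 % s) + 1 →
    ∀ p ∈ P.badH, p.1 < P.n → p.2 < P.n →
    ¬ ((x1 % s).testBit p.1 = true ∧ (x1 % t).testBit p.2 = true)

theorem crd_eq (k v : ℕ) : crd k v = tim k v + 2 ^ 2 ^ k * spc k v := by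
  have h : 3 * 2 ^ k = 2 ^ k + 2 * 2 ^ k := by ring
  have h2 : 2 ^ k + 2 ^ k = 2 * 2 ^ k := by ring
  rw [crd, tim, spc, h, seg_add, h2]

theorem tim_lt (k v : ℕ) : tim k v < 2 ^ 2 ^ k := Nat.mod_lt _ (Nat.two_pow_pos _)

theorem spc_lt (k v : ℕ) : spc k v < 2 ^ (2 * 2 ^ k) := Nat.mod_lt _ (Nat.two_pow_pos _)

theorem crd_lt (k v : ℕ) : crd k v < 2 ^ (3 * 2 ^ k) := Nat.mod_lt _ (Nat.two_pow_pos _)

end Pool.Agent.H24N
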