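import Pool.Agent.Lib.H24N.Primes
import Pool.Agent.Lib.H24N.Tile

/-!
# Coding sequences by three numbers
-/

set_option autoImplicit false

namespace Pool.Agent.H24N

/-- for distinct primes `p c` in decreasing order, `x0` is their product, `x1 % p c` are the data,
and `x2 % p c` is the next prime -/
theorem exists_code (k : ℕ) (g : ℕ → ℕ) (hg : ∀ c < 2 ^ (3 * 2 ^ k), g c < 2 ^ (4 * 2 ^ k)) :
    ∃ (x0 x1 x2 : ℕ) (p : ℕ → ℕ),
      (∀ s, Active k x0 s ↔ ∃ c < 2 ^ (3 * 2 ^ k), s = p c) ∧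
      (∀ c < 2 ^ (3 * 2 ^ k), x1 % p c = g c) ∧
      (∀ c, c + 1 < 2 ^ (3 * 2 ^ k) → x2 % p c = p (c + 1)) := by
  obtain ⟨S, hS, hp⟩ := exists_primes k
  set M := 2 ^ (3 * 2 ^ k) with hM
  have hMpos : 0 < M := by positivity
  let q := S.orderEmbOfFin hS
  let p : ℕ → ℕ := fun c => q ⟨M - 1 - c, by omega⟩
  have hpmem : ∀ c, p c ∈ S := fun c => S.orderEmbOfFin_mem hS _
  have hlt : ∀ c d, c < d → d < M → p d < p c := by
    intro c d h1 h2
    apply q.strictMono
    simp only [Fin.mk_lt_mk]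
    omega
  have hsurj : ∀ s ∈ S, ∃ c < M, s = p c := by
    intro s hs
    have h1 : s ∈ Set.range q := by rw [Finset.range_orderEmbOfFin]; exact hs
    obtain ⟨i, rfl⟩ := h1
    refine ⟨M - 1 - i, by omega, ?_⟩
    simp only [p]
    congr 1
    ext
    simp only
    have := i.2
    omega
  have hcop : Set.Pairwise (↑(Finset.range M) : Set ℕ) (Function.onFun Nat.Coprime p) := by
    intro c hc d hd hcd
    simp only [Finset.coe_range, Set.mem_Iio] at hc hd
    apply (Nat.coprime_primes (hp _ (hpmem c)).1 (hp _ (hpmem d)).1).2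
    rcases lt_or_gt_of_ne hcd with h | h
    · exact (hlt c d h hd).ne'
    · exact (hlt d c h hc).ne
  have hne : ∀ c ∈ Finset.range M, p c ≠ 0 := fun c _ => (hp _ (hpmem c)).1.ne_zero
  obtain ⟨x1, hx1⟩ := Nat.chineseRemainderOfFinset g p (Finset.range M) hne hcop
  obtain ⟨x2, hx2⟩ := Nat.chineseRemainderOfFinset (fun c => p (c + 1)) p (Finset.range M) hne hcop
  have hfac : ∀ r : ℕ, r.Prime → r ∣ ∏ s ∈ S, s → r ∈ S := by
    intro r hr hd
    obtain ⟨a, ha, hra⟩ := (Prime.dvd_finset_prod_iff hr.prime _).1 hd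
    rw [(Nat.prime_dvd_prime_iff_eq hr (hp a ha).1).1 hra]
    exact ha
  refine ⟨∏ s ∈ S, s, x1, x2, p, ?_, ?_, ?_⟩
  · intro s
    constructor
    · rintro ⟨hdvd, hle, hlts⟩
      have h1 : s ≠ 1 := by
        rintro rfl
        have : 1 < 2 ^ (4 * 2 ^ k) := Nat.one_lt_two_pow (by positivity)
        omega
      obtain ⟨r, hr, hrs⟩ := Nat.exists_prime_and_dvd h1
      obtain ⟨t, rfl⟩ := hrs
      have hrS := hfac r hr ((Dvd.intro t rfl).trans hdvd)
      by_cases ht : t = 1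
      · subst ht
        rw [mul_one]
        exact hsurj r hrS
      · exfalso
        obtain ⟨r', hr', hrt⟩ := Nat.exists_prime_and_dvd ht
        have hr'S := hfac r' hr' ((hrt.trans (Dvd.intro_left r rfl)).trans hdvd)
        have ht0 : 0 < t := by
          rcases Nat.eq_zero_or_pos t with h | h
          · subst h
            simp at hle
          · exact h
        have h2 := Nat.le_of_dvd ht0 hrt
        have h3 : 2 ^ (4 * 2 ^ k) * 2 ^ (4 * 2 ^ k) ≤ r * t :=
          Nat.mul_le_mul (hp r hrS).2.1 ((hp r' hr'S).2.1.trans h2)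
        rw [← pow_add, show 4 * 2 ^ k + 4 * 2 ^ k = 8 * 2 ^ k by ring] at h3
        omega
    · rintro ⟨c, hc, rfl⟩
      exact ⟨Finset.dvd_prod_of_mem _ (hpmem c), (hp _ (hpmem c)).2.1, (hp _ (hpmem c)).2.2⟩
  · intro c hc
    have h1 := hx1 c (Finset.mem_range.2 hc)
    rw [Nat.ModEq] at h1
    rw [h1, Nat.mod_eq_of_lt]
    exact lt_of_lt_of_le (hg c hc) (hp _ (hpmem c)).2.1
  · intro c hc
    have h1 := hx2 c (Finset.mem_range.2 (by omega))
    rw [Nat.ModEq] at h1
    rw [h1, Nat.mod_eq_of_lt]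
    exact hlt c (c + 1) (by omega) hc

end Pool.Agent.H24N
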