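import Pool.Agent.Lib.CookLevin.Defs
import Pool.Agent.Lib.PolyTime.Nat

/-!
# Circumscribed `ALCFI` knowledge bases and nondeterministic doubly exponential time: definitions

* `Con`, `Interp`, `KB`: concepts and interpretations of the description logic `ALCFI`
* `Pattern`, `Pattern.Better`: circumscription patterns without fixed and minimized roles and the
  preference relation
* `Inst.Sat`: concept satisfiability relative to a circumscribed knowledge base
* `CircSat`: the language of the satisfiable instances (over the alphabet `{0, 1}`)
* `InN2Exp`: the class `N2EXP` (nondeterministic doubly exponential time), by verifiers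
-/

set_option autoImplicit false

namespace Pool.Agent.H24N

open Pool.Agent.PolyTime Pool.Agent.Lib.CookLevin Turing

/-! ### Concepts -/

/-- roles: role names and their inverses -/
inductive Rol : Type
  | nm (P : ℕ) : Rol
  | inv (P : ℕ) : Rol

/-- `ALCFI` concepts: concept names, negation, conjunction, existential restrictions `∃ R. C`, and
`(≤ 1 R)` -/
inductive Con : Type
  | nm (A : ℕ) : Con
  | neg (C : Con) : Con
  | and (C E : Con) : Con
  | ex (R : Rol) (C : Con) : Con
  | le1 (R : Rol) : Con

/-- assertions: `A(a)` and `P(a, b)` -/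
inductive Assertion : Type
  | con (A a : ℕ) : Assertion
  | rol (P a b : ℕ) : Assertion

/-- the individual names of an assertion -/
def Assertion.inds : Assertion → List ℕ
  | .con _ a => [a]
  | .rol _ a b => [a, b]

/-- knowledge bases: inclusions `C ⊑ E` and assertions -/
structure KB where
  /-- the inclusions -/
  tbox : List (Con × Con)
  /-- the assertions -/
  abox : List Assertion

/-! ### Semantics -/

/-- an interpretation with domain `Δ` -/
structure Interp (Δ : Type) where
  /-- interpretation of the concept names -/
  con : ℕ → Set Δ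
  /-- interpretation of the role names -/
  rol : ℕ → Δ → Δ → Prop
  /-- interpretation of the individual names -/
  ind : ℕ → Δ

variable {Δ : Type}

/-- interpretation of the roles -/
def Interp.role (I : Interp Δ) : Rol → Δ → Δ → Prop
  | .nm P, x, y => I.rol P x y
  | .inv P, x, y => I.rol P y x

/-- interpretation of the concepts -/
def Interp.ext (I : Interp Δ) : Con → Set Δ
  | .nm A => I.con A
  | .neg C => {x | x ∉ I.ext C}
  | .and C E => {x | x ∈ I.ext C ∧ x ∈ I.ext E}
  | .ex R C => {x | ∃ y, I.role R x y ∧ y ∈ I.ext C}
  | .le1 R => {x | ∀ y z, I.role R x y → I.role R x z → y = z}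

/-- an assertion holds in an interpretation -/
def Interp.Holds (I : Interp Δ) : Assertion → Prop
  | .con A a => I.ind a ∈ I.con A
  | .rol P a b => I.rol P (I.ind a) (I.ind b)

/-- models of a knowledge base, with the unique name assumption -/
structure KB.Models (K : KB) (I : Interp Δ) : Prop where
  tbox : ∀ p ∈ K.tbox, ∀ x, x ∈ I.ext p.1 → x ∈ I.ext p.2
  abox : ∀ φ ∈ K.abox, I.Holds φ
  una : ∀ φ ∈ K.abox, ∀ ψ ∈ K.abox, ∀ a ∈ φ.inds, ∀ b ∈ ψ.inds, I.ind a = I.ind b → a = b

/-! ### Circumscription -/

/-- circumscription patterns without fixed and minimized roles: the minimized concept names, the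
fixed concept names, and the priorities; all other concept names and all role names are varying -/
structure Pattern where
  /-- the minimized concept names -/
  mini : List ℕ
  /-- the fixed concept names -/
  fixd : List ℕ
  /-- the pairs `(Y, X)` with `Y ≺ X` -/
  prec : List (ℕ × ℕ)

/-- well-formed patterns: no name is minimized and fixed, and `≺` is a strict partial order on the
minimized names -/
structure Pattern.Ok (P : Pattern) : Prop where
  disj : ∀ X ∈ P.mini, X ∉ P.fixd
  mem : ∀ p ∈ P.prec, p.1 ∈ P.mini ∧ p.2 ∈ P.mini
  irrefl : ∀ X, (X, X) ∉ P.prec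
  trans : ∀ X Y Z, (X, Y) ∈ P.prec → (Y, Z) ∈ P.prec → (X, Z) ∈ P.prec

/-- `J` is preferred to `I` (`J <_CP I`) -/
structure Pattern.Better (P : Pattern) (J I : Interp Δ) : Prop where
  ind : J.ind = I.ind
  fixd : ∀ X ∈ P.fixd, J.con X = I.con X
  mini : ∀ X ∈ P.mini, ¬ J.con X ⊆ I.con X → ∃ Y ∈ P.mini, (Y, X) ∈ P.prec ∧ J.con Y ⊂ I.con Y
  strict : ∃ X ∈ P.mini, J.con X ⊂ I.con X ∧ ∀ Y ∈ P.mini, (Y, X) ∈ P.prec → J.con Y = I.con Y

/-- an instance of concept satisfiability relative to circumscribed knowledge bases -/
structure Inst where
  /-- the concept -/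
  C : Con
  /-- the knowledge base -/
  K : KB
  /-- the pattern -/
  P : Pattern

/-- the models of the circumscribed knowledge base -/
def Inst.CircModel (T : Inst) (I : Interp Δ) : Prop :=
  T.K.Models I ∧ ∀ J : Interp Δ, T.K.Models J → ¬ T.P.Better J I

/-- some model of the circumscribed knowledge base has a nonempty interpretation of the concept -/
def Inst.Sat (T : Inst) : Prop :=
  ∃ (Δ : Type) (I : Interp Δ), T.CircModel I ∧ (I.ext T.C).Nonempty

/-! ### Encoding -/

/-- codes of roles -/
def encRol : Rol → D
  | .nm P => D.cons D.nil (enc P)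
  | .inv P => D.cons (D.cons D.nil D.nil) (enc P)

instance : Enc Rol := ⟨encRol⟩

/-- codes of concepts: a numeral for the constructor, followed by the codes of the parts -/
def encCon : Con → D
  | .nm A => D.cons (FP.num 0) (enc A)
  | .neg C => D.cons (FP.num 1) (encCon C)
  | .and C E => D.cons (FP.num 2) (D.cons (encCon C) (encCon E))
  | .ex R C => D.cons (FP.num 3) (D.cons (enc R) (encCon C))
  | .le1 R => D.cons (FP.num 4) (enc R)

instance : Enc Con := ⟨encCon⟩

instance : Enc Assertion := ⟨fun φ => match φ with
  | .con A a => D.cons D.nil (enc (A, a))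
  | .rol P a b => D.cons (D.cons D.nil D.nil) (enc (P, a, b))⟩

instance : Enc KB := ⟨fun K => enc (K.tbox, K.abox)⟩

instance : Enc Pattern := ⟨fun P => enc (P.mini, P.fixd, P.prec)⟩

instance : Enc Inst := ⟨fun T => enc (T.C, T.K, T.P)⟩

/-- the word of an instance -/
def Inst.word (T : Inst) : Word := code (enc T)

/-- the language of the satisfiable instances -/
def CircSat (w : Word) : Prop := ∃ T : Inst, T.P.Ok ∧ w = T.word ∧ T.Sat

/-! ### Nondeterministic doubly exponential time -/

/-- the class `N2EXP`: witnesses of doubly exponential length, verified in time polynomial in the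
length of the input and of the witness -/
def InN2Exp (L : Word → Prop) : Prop :=
  ∃ (q : Polynomial ℕ) (R : Word × Word → Bool),
    Nonempty (TM2ComputableInPolyTime pairEnc Computability.encodeBool R) ∧
    ∀ x, L x ↔ ∃ y : Word, y.length ≤ 2 ^ 2 ^ q.eval x.length ∧ R (x, y) = true

/-- every language in `N2EXP` reduces to `L'` in polynomial time -/
def N2ExpHard (L' : Word → Prop) : Prop := ∀ L : Word → Prop, InN2Exp L → PolyReduces L L'

end Pool.Agent.H24N
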