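import Pool.Agent.Lib.H24N.Read

/-!
# Reading the flags
-/

set_option autoImplicit false

namespace Pool.Agent.H24N

variable {Δ : Type} {I : Interp Δ} {k : ℕ} {e : ℕ → Δ}

theorem rv_bit_false {a i : ℕ} (hi : i < 2 ^ (k + 3)) :
    (rv I k e a).testBit i = false ↔ e i ∉ I.c a 0 := by
  rw [← rv_bit_lt (I := I) (e := e) hi, Bool.not_eq_true]

theorem rv_bit_eq {a b i : ℕ} (hi : i < 2 ^ (k + 3)) :
    (rv I k e a).testBit i = (rv I k e b).testBit i ↔ (e i ∈ I.c a 0 ↔ e i ∈ I.c b 0) := by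
  rw [← rv_bit_lt (I := I) (e := e) hi, ← rv_bit_lt (I := I) (e := e) hi, Bool.eq_iff_iff]

/-- the flags -/
theorem flagNum_of (he : Chain I k e) (h : ∀ x, MiscAt I k x) {n : ℕ} (hn : n ≤ 2 ^ k) {o : Δ}
    (hf : ∀ x, FlagAt I k n x) (h29 : ∀ i < 8, o ∈ I.c 29 i → ∀ x, x ∈ I.c 29 i)
    (h30 : ∀ d < n, o ∈ I.c 30 d → ∀ x, x ∈ I.c 30 d)
    (h31 : ∀ d < n, o ∈ I.c 31 d → ∀ x, x ∈ I.c 31 d) :
    FlagNum k n (fun i => o ∈ I.c 29 i) (fun d => o ∈ I.c 30 d) (fun d => o ∈ I.c 31 d)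
      (rv I k e 9) (rv I k e 10) (rv I k e 11) (rv I k e 12) (rv I k e 13) := by
  have hk := pow_k3 k
  have hlt : ∀ i, i < 4 * 2 ^ k → i < 2 ^ (k + 3) := fun i hi => by omega
  refine ⟨?_, ?_, ?_, ?_, ?_, ?_, ?_, ?_, ?_, ?_⟩
  · intro h0
    rw [crd, seg_eq_zero_iff]
    intro i hi hi'
    have h1 := hlt i (by omega)
    rw [rv_bit_false h1]
    exact (hf (e i)).f0 (he.mem i h1) (h29 0 (by norm_num) h0 _) (by rw [he.cnt i h1]; exact hi)
      (by rw [he.cnt i h1]; omega)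
  · intro h0
    rw [tim, seg_eq_max_iff]
    intro i hi hi'
    have h1 := hlt i (by omega)
    rw [rv_bit_lt h1]
    exact (hf (e i)).f1 (he.mem i h1) (h29 1 (by norm_num) h0 _) (by rw [he.cnt i h1]; exact hi)
      (by rw [he.cnt i h1]; omega)
  · intro h0 d hd
    have h1 := hlt d (by omega)
    rw [rv_bit_false h1]
    exact (hf (e d)).f2 (he.mem d h1) (h29 2 (by norm_num) h0 _) (by rw [he.cnt d h1]; exact hd)
  · intro h0
    refine Nat.lt_pow_two_of_testBit _ fun i hi => ?_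
    by_cases h1 : i < 2 ^ (k + 3)
    · rw [rv_bit_false h1]
      exact (hf (e i)).f3 (he.mem i h1) (h29 3 (by norm_num) h0 _) (by rw [he.cnt i h1]; exact hi)
    · rw [← Bool.not_eq_true, rv_bit]
      exact fun hc => h1 hc.1
  · intro h0
    rw [rv, rv]
    refine (eq_bitsNum_iff (bitsNum_lt _ _) _).2 fun i hi => ?_
    rw [testBit_bitsNum, ← (hf (e i)).f4 (he.mem i hi) (h29 4 (by norm_num) h0 _)]
    exact ⟨fun a => a.2, fun a => ⟨hi, a⟩⟩
  · intro h0
    rw [rv, bitsNum_eq_zero_iff]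
    intro i hi
    exact (hf (e i)).f5 (he.mem i hi) (h29 5 (by norm_num) h0 _)
  · intro h0
    rw [crd, crd, seg_succ]
    intro i hi hi'
    have h1 := hlt i (by omega)
    rw [rv_bit_lt h1, rv_bit_lt h1, ← carryY he h i hi (by omega)]
    exact (hf (e i)).f6 (he.mem i h1) (h29 6 (by norm_num) h0 _) (by rw [he.cnt i h1]; exact hi)
      (by rw [he.cnt i h1]; omega)
  · intro h0
    constructor
    · rw [tim, tim, seg_eq_iff]
      intro i hi hi'
      have h1 := hlt i (by omega)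
      rw [rv_bit_eq h1]
      exact (hf (e i)).f7a (he.mem i h1) (h29 7 (by norm_num) h0 _) (by rw [he.cnt i h1]; exact hi)
        (by rw [he.cnt i h1]; omega)
    · rw [spc, spc, seg_succ]
      intro i hi hi'
      have h1 := hlt i (by omega)
      rw [rv_bit_lt h1, rv_bit_lt h1, ← carryZ he h i hi (by omega)]
      exact (hf (e i)).f7b (he.mem i h1) (h29 7 (by norm_num) h0 _) (by rw [he.cnt i h1]; exact hi)
        (by rw [he.cnt i h1]; omega)
  · intro d hd h0
    have h1 := hlt d (by omega)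
    rw [rv_bit_lt h1]
    exact (hf (e d)).td (he.mem d h1) (by rw [he.cnt d h1]; exact hd)
      (by rw [he.cnt d h1]; exact h30 d hd h0 _)
  · intro d hd h0
    have h1 := hlt d (by omega)
    rw [rv_bit_lt h1]
    exact (hf (e d)).te (he.mem d h1) (by rw [he.cnt d h1]; exact hd)
      (by rw [he.cnt d h1]; exact h31 d hd h0 _)

end Pool.Agent.H24N
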