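import Pool.Agent.Lib.H24N.Read

/-!
# Reading the violations
-/

set_option autoImplicit false

namespace Pool.Agent.H24N

variable {Δ : Type} {I : Interp Δ} {k : ℕ} {e : ℕ → Δ}

theorem bit_of_mem (he : Chain I k e) (a : ℕ) {y : Δ} (hy : y ∈ I.c 5 0) :
    (rv I k e a).testBit (cv I k 18 y) = true ↔ y ∈ I.c a 0 := by
  rw [rv_bit_lt (cv_lt I y k 18), ← he.uniq y hy]

/-- the violations -/
theorem violNum_of {P : Til} (he : Chain I P.k e) (h : ∀ x, MiscAt I P.k x) {o : Δ}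
    (hv : ViolAt I P o) :
    ViolNum P (fun i => o ∈ I.c 29 i) (fun d => o ∈ I.c 30 d) (fun d => o ∈ I.c 31 d)
      (rv I P.k e 10) (rv I P.k e 12) (rv I P.k e 13) := by
  have hsub : ∀ α l, (∃ y, I.r 1 0 o y ∧ y ∈ I.c 5 0 ∧ (α ≤ cv I P.k 18 y ∧ cv I P.k 18 y < α + l) ∧
      y ∉ I.c 10 0) → seg α l (rv I P.k e 10) + 1 < 2 ^ l := by
    rintro α l ⟨y, _, h1, ⟨h2, h3⟩, h4⟩
    have h5 : seg α l (rv I P.k e 10) < 2 ^ l := Nat.mod_lt _ (Nat.two_pow_pos _)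
    have h6 : seg α l (rv I P.k e 10) ≠ 2 ^ l - 1 := by
      intro hc
      rw [seg_eq_max_iff] at hc
      exact h4 ((bit_of_mem he 10 h1).1 (hc _ h2 h3))
    omega
  have a1 : 2 ^ P.k + 3 * 2 ^ P.k = 4 * 2 ^ P.k := by ring
  have a2 : 2 ^ P.k + 2 ^ P.k = 2 * 2 ^ P.k := by ring
  have a3 : 2 * 2 ^ P.k + 2 * 2 ^ P.k = 4 * 2 ^ P.k := by ring
  have c1 := hsub (2 ^ P.k) (3 * 2 ^ P.k)
  have c2 := hsub (2 ^ P.k) (2 ^ P.k)
  have c3 := hsub (2 * 2 ^ P.k) (2 * 2 ^ P.k)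
  rw [a1] at c1
  rw [a2] at c2
  rw [a3] at c3
  rcases hv with h1 | h2 | h3 | ⟨hy, h4⟩ | ⟨p, hp, h5, h6, hy, h7, h8⟩ | ⟨p, hp, h5, h6, hy, h7, h8⟩
  · exact Or.inl h1
  · exact Or.inr (Or.inl h2)
  · exact Or.inr (Or.inr (Or.inl h3))
  · refine Or.inr (Or.inr (Or.inr (Or.inl ⟨c1 hy, ?_⟩)))
    rcases h4 with h4 | ⟨h4, h5⟩
    · exact Or.inl h4
    · refine Or.inr ⟨h4, ?_⟩
      rcases h5 with ⟨y, _, b1, b2⟩ | ⟨y, _, b1, ⟨b2, b3⟩, b4⟩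
      · left
        intro hc
        have b3 := (bit_of_mem he 12 b1).2 b2
        rw [hc] at b3
        simp at b3
      · right
        intro hc
        rw [crd, crd, seg_succ] at hc
        have b5 := hc _ b2 (by omega)
        rw [bit_of_mem he 13 b1, bit_of_mem he 10 b1, ← carryY he h _ b2 b3, ← he.uniq y b1] at b5
        exact b4 b5
  · exact Or.inr (Or.inr (Or.inr (Or.inr (Or.inl ⟨p, hp, h5, h6, c2 hy, h7, h8⟩))))
  · exact Or.inr (Or.inr (Or.inr (Or.inr (Or.inr ⟨p, hp, h5, h6, c3 hy, h7, h8⟩))))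

end Pool.Agent.H24N
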