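import Pool.Agent.Lib.H24N.ForestCard
import Pool.Agent.Lib.H24N.ChainLt
import Pool.Agent.Lib.H24N.ReadFlag
import Pool.Agent.Lib.H24N.ReadViol

/-!
# Numbers from models
-/

set_option autoImplicit false

namespace Pool.Agent.H24N

variable {Δ : Type}

/-- a model with `N = {o}`, `o ∈ Act` and finite fixed sets describes two numbers -/
theorem exists_num {I : Interp Δ} {P : Til} (hn : P.n ≤ 2 ^ P.k) (h : IsModel I P) {o : Δ}
    (hN : I.c 1 0 = {o}) (ho : o ∈ I.c 3 0) (hfin : ∀ a < 3, (I.c 15 a).Finite) {x0 x1 x2 : ℕ}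
    (h0 : (I.c 15 0).ncard = x0) (h1 : (I.c 15 1).ncard = x1) (h2 : (I.c 15 2).ncard = x2) :
    ∃ s t, Active P.k x0 s ∧ 2 ^ (4 * 2 ^ P.k) ≤ t ∧ t < 2 ^ (8 * 2 ^ P.k) ∧
      FlagNum P.k P.n (fun i => o ∈ I.c 29 i) (fun d => o ∈ I.c 30 d) (fun d => o ∈ I.c 31 d)
        t (x1 % s) (x2 % s) (x0 % t) (x1 % t) ∧
      (ViolAt I P o →
        ViolNum P (fun i => o ∈ I.c 29 i) (fun d => o ∈ I.c 30 d) (fun d => o ∈ I.c 31 d)
          (x1 % s) (x0 % t) (x1 % t)) := by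
  have hoN : o ∈ I.c 1 0 := by rw [hN]; rfl
  have hr : ∀ x, I.r 0 0 x o := by
    intro x
    obtain ⟨y, hy, hy'⟩ := (h.glob x).g
    rw [hN, Set.mem_singleton_iff] at hy'
    rwa [hy'] at hy
  have hall : ∀ x, x ∈ I.c 3 0 := fun x => (h.glob o).act hoN ho x (hr x)
  have hA : ∀ x, ActAt I P.k P.n x := fun x => h.act x (hall x)
  obtain ⟨e, -, he⟩ := exists_chain I P.k o hN fun x => (hA x).chain
  obtain ⟨b8, b9, b14⟩ := misc_bounds hN he fun x => (hA x).misc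
  have hpow : 2 ^ (P.k + 3) = 8 * 2 ^ P.k := by ring
  have l8 : rv I P.k e 8 < 2 ^ (8 * 2 ^ P.k) := by rw [← hpow]; exact rv_lt _ _ _ _
  have l9 : rv I P.k e 9 < 2 ^ (8 * 2 ^ P.k) := by rw [← hpow]; exact rv_lt _ _ _ _
  have p4 : 0 < 2 ^ (4 * 2 ^ P.k) := by positivity
  have hmod : ∀ p ∈ modules, p.2.2.2 < 3 → rv I P.k e p.2.1 ≠ 0 →
      (I.c 15 p.2.2.2).ncard % rv I P.k e p.2.1 = rv I P.k e p.2.2.1 := by
    intro p hp hlt3 hne
    obtain ⟨κ, hκ⟩ := forest_card hN he (fun x => (hA x).forest p hp) (hfin _ hlt3) hne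
    have hlt := lt_of_ltAt he p.1 p.2.1 p.2.2.1 fun x => (hA x).lt p hp
    rw [hκ, Nat.add_mul_mod_self_right, Nat.mod_eq_of_lt hlt]
  have n8 : rv I P.k e 8 ≠ 0 := by omega
  have n9 : rv I P.k e 9 ≠ 0 := by omega
  have m0 := hmod (0, 8, 14, 0) (by simp [modules]) (by norm_num) n8
  have m1 := hmod (1, 8, 10, 1) (by simp [modules]) (by norm_num) n8
  have m2 := hmod (2, 8, 11, 2) (by simp [modules]) (by norm_num) n8
  have m3 := hmod (3, 9, 12, 0) (by simp [modules]) (by norm_num) n9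
  have m4 := hmod (4, 9, 13, 1) (by simp [modules]) (by norm_num) n9
  simp only [h0, h1, h2] at m0 m1 m2 m3 m4
  refine ⟨rv I P.k e 8, rv I P.k e 9, ⟨?_, b8, l8⟩, b9, l9, ?_, ?_⟩
  · rw [b14] at m0
    exact Nat.dvd_of_mod_eq_zero m0
  · rw [m1, m2, m3, m4]
    exact flagNum_of he (fun x => (hA x).misc) hn (fun x => (hA x).flag)
      (fun i hi hoi x => (h.glob o).fl i hi hoN hoi x (hr x))
      (fun d hd hod x => (h.glob o).td d hd hoN hod x (hr x))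
      (fun d hd hod x => (h.glob o).te d hd hoN hod x (hr x))
  · intro hv
    rw [m1, m3, m4]
    exact violNum_of he (fun x => (hA x).misc) hv

end Pool.Agent.H24N
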