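import Pool.Agent.Lib.H24N.Chain

/-!
# Counting the selected nodes of a forest
-/

set_option autoImplicit false

namespace Pool.Agent.H24N

variable {Δ : Type}

/-- the nodes at level `i` in `S` -/
def level (I : Interp Δ) (k μ i : ℕ) (S : Set Δ) : Set Δ :=
  {x | x ∈ I.c 19 μ ∧ cv I k (24 + μ) x = i ∧ x ∈ S}

/-- every level has twice as many special nodes, and twice as many nodes that are not special, as
the level below -/
theorem encard_level_succ {I : Interp Δ} {k μ md rs fx : ℕ}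
    (h : ∀ x, ForestAt I k μ md rs fx x) (S : Set Δ) (hS : S = I.c 20 μ ∨ S = (I.c 20 μ)ᶜ) (i : ℕ)
    (hi : i + 1 < 2 ^ (k + 3)) :
    (level I k μ (i + 1) S).encard = 2 * (level I k μ i S).encard := by
  classical
  -- membership in `S` propagates
  have hSL : ∀ x y, x ∈ I.c 19 μ → I.r 4 μ x y → y ∈ I.c 19 μ → (y ∈ S ↔ x ∈ S) := by
    intro x y hx hxy hy
    have h1 := (h x).spL hx y hxy hy
    rcases hS with rfl | rfl
    · exact h1
    · simp only [Set.mem_compl_iff, h1]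
  have hSR : ∀ x y, x ∈ I.c 19 μ → I.r 5 μ x y → y ∈ I.c 19 μ → (y ∈ S ↔ x ∈ S) := by
    intro x y hx hxy hy
    have h1 := (h x).spR hx y hxy hy
    rcases hS with rfl | rfl
    · exact h1
    · simp only [Set.mem_compl_iff, h1]
  have hmod : (i + 1) % 2 ^ (k + 3) = i + 1 := Nat.mod_eq_of_lt hi
  have hne : ∀ x, cv I k (24 + μ) x = i → cv I k (24 + μ) x ≠ 2 ^ (k + 3) - 1 := by
    intro x hx
    rw [hx]
    omega
  have hback : ∀ x z, cv I k (24 + μ) z = i + 1 →
      cv I k (24 + μ) z = (cv I k (24 + μ) x + 1) % 2 ^ (k + 3) → cv I k (24 + μ) x = i := by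
    intro x z hz hx
    have h1 : cv I k (24 + μ) x < 2 ^ (k + 3) := cv_lt _ _ _ _
    rcases Nat.lt_or_ge (cv I k (24 + μ) x + 1) (2 ^ (k + 3)) with h2 | h2
    · rw [Nat.mod_eq_of_lt h2] at hx
      omega
    · have h3 : cv I k (24 + μ) x + 1 = 2 ^ (k + 3) := by omega
      rw [h3, Nat.mod_self] at hx
      omega
  -- the children
  have hL : ∀ x, ∃ y, x ∈ level I k μ i S → I.r 4 μ x y ∧ y ∈ I.c 19 μ := by
    intro x
    by_cases hx : x ∈ level I k μ i S
    · obtain ⟨y, hy⟩ := (h x).left hx.1 (hne x hx.2.1)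
      exact ⟨y, fun _ => hy⟩
    · exact ⟨x, fun hx' => absurd hx' hx⟩
  have hR : ∀ x, ∃ y, x ∈ level I k μ i S → I.r 5 μ x y ∧ y ∈ I.c 19 μ := by
    intro x
    by_cases hx : x ∈ level I k μ i S
    · obtain ⟨y, hy⟩ := (h x).right hx.1 (hne x hx.2.1)
      exact ⟨y, fun _ => hy⟩
    · exact ⟨x, fun hx' => absurd hx' hx⟩
  choose fL hfL using hL
  choose fR hfR using hR
  have heq : level I k μ (i + 1) S = fL '' level I k μ i S ∪ fR '' level I k μ i S := by
    ext z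
    constructor
    · rintro ⟨hz1, hz2, hz3⟩
      rcases (h z).par hz1 (by omega) with ⟨y, hyz, hy⟩ | ⟨y, hyz, hy⟩
      · have h1 := (h y).incL hy z hyz hz1
        have hyl : y ∈ level I k μ i S := ⟨hy, hback y z hz2 h1, (hSL y z hy hyz hz1).1 hz3⟩
        left
        exact ⟨y, hyl, (h y).l1 _ _ (hfL y hyl).1 hyz⟩
      · have h1 := (h y).incR hy z hyz hz1
        have hyl : y ∈ level I k μ i S := ⟨hy, hback y z hz2 h1, (hSR y z hy hyz hz1).1 hz3⟩
        right
        exact ⟨y, hyl, (h y).r1 _ _ (hfR y hyl).1 hyz⟩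
    · rintro (⟨x, hx, rfl⟩ | ⟨x, hx, rfl⟩)
      · obtain ⟨h1, h2⟩ := hfL x hx
        refine ⟨h2, ?_, (hSL x _ hx.1 h1 h2).2 hx.2.2⟩
        rw [(h x).incL hx.1 _ h1 h2, hx.2.1, hmod]
      · obtain ⟨h1, h2⟩ := hfR x hx
        refine ⟨h2, ?_, (hSR x _ hx.1 h1 h2).2 hx.2.2⟩
        rw [(h x).incR hx.1 _ h1 h2, hx.2.1, hmod]
  have hinjL : Set.InjOn fL (level I k μ i S) := by
    intro x hx x' hx' hxx
    have h1 := (hfL x hx).1
    have h2 := (hfL x' hx').1
    rw [← hxx] at h2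
    exact (h (fL x)).l2 _ _ h1 h2
  have hinjR : Set.InjOn fR (level I k μ i S) := by
    intro x hx x' hx' hxx
    have h1 := (hfR x hx).1
    have h2 := (hfR x' hx').1
    rw [← hxx] at h2
    exact (h (fR x)).r2 _ _ h1 h2
  have hdis : Disjoint (fL '' level I k μ i S) (fR '' level I k μ i S) := by
    rw [Set.disjoint_left]
    rintro z ⟨x, hx, rfl⟩ ⟨x', hx', hxx⟩
    have h1 := (hfL x hx).1
    have h2 := (hfR x' hx').1
    rw [hxx] at h2
    exact (h (fL x)).lr _ _ h1 hx.1 h2 hx'.1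
  rw [heq, Set.encard_union_eq hdis, hinjL.encard_image, hinjR.encard_image, two_mul]

end Pool.Agent.H24N
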