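import Pool.Agent.Lib.H24N.ForestSel

/-!
# The number of elements of the fixed set
-/

set_option autoImplicit false

namespace Pool.Agent.H24N

variable {Δ : Type}

/-- the number of elements of the fixed set -/
theorem forest_card {I : Interp Δ} {k μ md rs fx : ℕ} {o : Δ} {e : ℕ → Δ} (hN : I.c 1 0 = {o})
    (he : Chain I k e) (h : ∀ x, ForestAt I k μ md rs fx x) (hfin : (I.c 15 fx).Finite)
    (hmd : rv I k e md ≠ 0) :
    ∃ κ, (I.c 15 fx).ncard = rv I k e rs + κ * rv I k e md := by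
  classical
  have hf : ∀ x, ∃ y, x ∈ I.c 21 μ → I.r 6 μ x y ∧ y ∈ I.c 15 fx := by
    intro x
    by_cases hx : x ∈ I.c 21 μ
    · obtain ⟨y, hy⟩ := (h x).m1 hx
      exact ⟨y, fun _ => hy⟩
    · exact ⟨x, fun hx' => absurd hx' hx⟩
  choose f hf using hf
  have himg : I.c 15 fx = f '' I.c 21 μ := by
    ext z
    constructor
    · intro hz
      obtain ⟨y, h1, h2⟩ := (h z).m2 hz
      exact ⟨y, h2, (h y).f1 _ _ (hf y h2).1 h1⟩
    · rintro ⟨x, hx, rfl⟩
      exact (hf x hx).2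
  have hinj : Set.InjOn f (I.c 21 μ) := by
    intro x hx x' hx' hxx
    have h1 := (hf x hx).1
    have h2 := (hf x' hx').1
    rw [← hxx] at h2
    exact (h (f x)).f2 _ _ h1 h2
  have hcard : (I.c 15 fx).encard = (I.c 21 μ).encard := by
    rw [himg, hinj.encard_image]
  rw [encard_sel hN he h] at hcard
  have hne : (I.c 15 fx).encard ≠ ⊤ := hfin.encard_lt_top.ne
  have hκ : (level I k μ 0 (I.c 20 μ)ᶜ).encard ≠ ⊤ := by
    intro htop
    rw [htop, ENat.top_mul (by exact_mod_cast hmd), add_top] at hcard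
    exact hne hcard
  obtain ⟨κ, hκ'⟩ := ENat.ne_top_iff_exists.1 hκ
  refine ⟨κ, ?_⟩
  rw [← hκ', ← hfin.cast_ncard_eq] at hcard
  exact_mod_cast hcard

end Pool.Agent.H24N
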