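import Pool.Agent.Lib.H24N.Forest

/-!
# The number of the selected nodes
-/

set_option autoImplicit false

namespace Pool.Agent.H24N

variable {Δ : Type}

theorem f2_level {I : Interp Δ} {k μ md rs fx : ℕ}
    (h : ∀ x, ForestAt I k μ md rs fx x) (S : Set Δ) (hS : S = I.c 20 μ ∨ S = (I.c 20 μ)ᶜ) (i : ℕ)
    (hi : i < 2 ^ (k + 3)) :
    (level I k μ i S).encard = ((2 ^ i : ℕ) : ℕ∞) * (level I k μ 0 S).encard := by
  induction i with
  | zero => simp
  | succ i ih =>
    rw [encard_level_succ h S hS i hi, ih (by omega), pow_succ]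
    push_cast
    ring

theorem f2_root {I : Interp Δ} {k μ md rs fx : ℕ} {o : Δ} (hN : I.c 1 0 = {o})
    (h : ∀ x, ForestAt I k μ md rs fx x) : level I k μ 0 (I.c 20 μ) = {o} := by
  rw [← hN]
  ext x
  exact ⟨fun ⟨h1, h2, h3⟩ => (h x).root.2 ⟨h1, h3, h2⟩,
    fun hx => ⟨((h x).root.1 hx).1, ((h x).root.1 hx).2.2, ((h x).root.1 hx).2.1⟩⟩

/-- the number of the selected nodes -/
theorem encard_sel {I : Interp Δ} {k μ md rs fx : ℕ} {o : Δ} {e : ℕ → Δ} (hN : I.c 1 0 = {o})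
    (he : Chain I k e) (h : ∀ x, ForestAt I k μ md rs fx x) :
    (I.c 21 μ).encard = (rv I k e rs : ℕ∞) +
      (level I k μ 0 (I.c 20 μ)ᶜ).encard * (rv I k e md : ℕ∞) := by
  classical
  set κ := (level I k μ 0 (I.c 20 μ)ᶜ).encard with hκ
  -- selection at a level
  have hsel : ∀ x, x ∈ I.c 19 μ → (x ∈ I.c 21 μ ↔
      (x ∈ I.c 20 μ ∧ e (cv I k (24 + μ) x) ∈ I.c rs 0) ∨
      (x ∉ I.c 20 μ ∧ e (cv I k (24 + μ) x) ∈ I.c md 0)) := by
    intro x hx
    obtain ⟨y0, hy0, hy1⟩ := (h x).reg hx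
    have hreg : ∀ y, I.r 7 μ x y → y ∈ I.c 5 0 → y = e (cv I k (24 + μ) x) := by
      intro y h1 h2
      rw [← (h x).regc hx y h1 h2]
      exact he.uniq y h2
    have h0 := hreg y0 hy0 hy1
    rw [(h x).sel hx]
    constructor
    · rintro (⟨h1, y, h2, h3, h4⟩ | ⟨h1, y, h2, h3, h4⟩)
      · left
        rw [← hreg y h2 h3]
        exact ⟨h1, h4⟩
      · right
        rw [← hreg y h2 h3]
        exact ⟨h1, h4⟩
    · rintro (⟨h1, h2⟩ | ⟨h1, h2⟩)
      · left
        rw [← h0] at h2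
        exact ⟨h1, y0, hy0, hy1, h2⟩
      · right
        rw [← h0] at h2
        exact ⟨h1, y0, hy0, hy1, h2⟩
  -- one level
  have hone : ∀ i < 2 ^ (k + 3), ({x | x ∈ I.c 21 μ ∧ cv I k (24 + μ) x = i} : Set Δ).encard =
      ((if e i ∈ I.c rs 0 then 2 ^ i else 0 : ℕ) : ℕ∞) +
        κ * ((if e i ∈ I.c md 0 then 2 ^ i else 0 : ℕ) : ℕ∞) := by
    intro i hi
    have hsplit : ({x | x ∈ I.c 21 μ ∧ cv I k (24 + μ) x = i} : Set Δ) =
        (if e i ∈ I.c rs 0 then level I k μ i (I.c 20 μ) else ∅) ∪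
        (if e i ∈ I.c md 0 then level I k μ i (I.c 20 μ)ᶜ else ∅) := by
      ext x
      constructor
      · rintro ⟨h1, h2⟩
        have h3 := (h x).selF h1
        rcases (hsel x h3).1 h1 with ⟨h4, h5⟩ | ⟨h4, h5⟩
        · left
          rw [h2] at h5
          rw [if_pos h5]
          exact ⟨h3, h2, h4⟩
        · right
          rw [h2] at h5
          rw [if_pos h5]
          exact ⟨h3, h2, h4⟩
      · rintro (hx | hx)
        · split_ifs at hx with h5
          · obtain ⟨h3, h2, h4⟩ := hx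
            refine ⟨(hsel x h3).2 (Or.inl ⟨h4, ?_⟩), h2⟩
            rw [h2]
            exact h5
          · exact absurd hx (Set.notMem_empty x)
        · split_ifs at hx with h5
          · obtain ⟨h3, h2, h4⟩ := hx
            refine ⟨(hsel x h3).2 (Or.inr ⟨h4, ?_⟩), h2⟩
            rw [h2]
            exact h5
          · exact absurd hx (Set.notMem_empty x)
    have hdis : Disjoint (if e i ∈ I.c rs 0 then level I k μ i (I.c 20 μ) else ∅)
        (if e i ∈ I.c md 0 then level I k μ i (I.c 20 μ)ᶜ else ∅) := by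
      rw [Set.disjoint_left]
      intro x hx hx'
      split_ifs at hx hx' with h1 h2
      · exact hx'.2.2 hx.2.2
      · exact hx'
      · exact hx
      · exact hx
    rw [hsplit, Set.encard_union_eq hdis]
    congr 1
    · split_ifs with h1
      · rw [f2_level h _ (Or.inl rfl) i hi, f2_root hN h, Set.encard_singleton, mul_one]
      · simp
    · split_ifs with h1
      · rw [f2_level h _ (Or.inr rfl) i hi, ← hκ, mul_comm]
      · simp
  -- the first levels
  have hall : ∀ n ≤ 2 ^ (k + 3), ({x | x ∈ I.c 21 μ ∧ cv I k (24 + μ) x < n} : Set Δ).encard =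
      ((∑ i ∈ Finset.range n, if e i ∈ I.c rs 0 then 2 ^ i else 0 : ℕ) : ℕ∞) +
        κ * ((∑ i ∈ Finset.range n, if e i ∈ I.c md 0 then 2 ^ i else 0 : ℕ) : ℕ∞) := by
    intro n
    induction n with
    | zero => simp
    | succ n ih =>
      intro hn
      have hs : ({x | x ∈ I.c 21 μ ∧ cv I k (24 + μ) x < n + 1} : Set Δ) =
          {x | x ∈ I.c 21 μ ∧ cv I k (24 + μ) x < n} ∪
          {x | x ∈ I.c 21 μ ∧ cv I k (24 + μ) x = n} := by
        ext x
        show (x ∈ I.c 21 μ ∧ cv I k (24 + μ) x < n + 1) ↔ (x ∈ I.c 21 μ ∧ cv I k (24 + μ) x < n) ∨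
          (x ∈ I.c 21 μ ∧ cv I k (24 + μ) x = n)
        constructor
        · rintro ⟨h1, h2⟩
          rcases Nat.lt_succ_iff_lt_or_eq.1 h2 with h3 | h3
          · exact Or.inl ⟨h1, h3⟩
          · exact Or.inr ⟨h1, h3⟩
        · rintro (⟨h1, h2⟩ | ⟨h1, h2⟩)
          · exact ⟨h1, by omega⟩
          · exact ⟨h1, by omega⟩
      have hd : Disjoint ({x | x ∈ I.c 21 μ ∧ cv I k (24 + μ) x < n} : Set Δ)
          {x | x ∈ I.c 21 μ ∧ cv I k (24 + μ) x = n} := by
        rw [Set.disjoint_left]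
        rintro x ⟨_, h1⟩ ⟨_, h2⟩
        omega
      rw [hs, Set.encard_union_eq hd, ih (by omega), hone n (by omega), Finset.sum_range_succ,
        Finset.sum_range_succ]
      push_cast
      ring
  have hfin : (I.c 21 μ) = {x | x ∈ I.c 21 μ ∧ cv I k (24 + μ) x < 2 ^ (k + 3)} := by
    ext x
    exact ⟨fun hx => ⟨hx, cv_lt _ _ _ _⟩, fun hx => hx.1⟩
  rw [hfin, hall _ le_rfl]
  unfold rv bitsNum
  congr

end Pool.Agent.H24N
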