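import Pool.Agent.Lib.H24N.Struct

/-!
# Infinite chains
-/

set_option autoImplicit false

namespace Pool.Agent.H24N

variable {Δ : Type}

/-- the first element of a chain gives an injective sequence -/
theorem exists_seq_of_chain {I : Interp Δ} (h : ∀ x, InfAt I x) {a : ℕ} (ha : a < 4) {y : Δ}
    (hy : y ∈ I.c 16 a) (hy' : y ∈ I.c 17 a) :
    ∃ f : ℕ → Δ, Function.Injective f ∧ ∀ n, f n ∈ I.c 16 a := by
  choose! g hg1 hg2 hg3 using fun x => (h x).step a ha
  let f : ℕ → Δ := fun n => g^[n] y
  have hf : ∀ n, f n ∈ I.c 16 a := by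
    intro n
    induction n with
    | zero => exact hy
    | succ n ih =>
      show g^[n + 1] y ∈ _
      rw [Function.iterate_succ_apply']
      exact hg2 _ ih
  have hs : ∀ n, I.r 2 a (f n) (f (n + 1)) := by
    intro n
    show I.r 2 a (f n) (g^[n + 1] y)
    rw [Function.iterate_succ_apply']
    exact hg1 _ (hf n)
  have key : ∀ n m, f n = f (n + m) → m = 0 := by
    intro n
    induction n with
    | zero =>
      intro m hm
      by_contra hne
      obtain ⟨m, rfl⟩ := Nat.exists_eq_succ_of_ne_zero hne
      have h1 := hs m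
      have h2 : f (m + 1) = y := by
        rw [show f (m + 1) = f (0 + m.succ) by rw [Nat.zero_add], ← hm]
        rfl
      rw [h2] at h1
      exact (h y).fst a ha hy' _ h1
    | succ n ih =>
      intro m hm
      have h1 := hs n
      have h2 := hs (n + m)
      have h3 : n + m + 1 = n + 1 + m := by ring
      rw [h3, ← hm] at h2
      exact ih m ((h _).inj a ha _ _ h1 h2)
  refine ⟨f, fun m n hmn => ?_, hf⟩
  rcases le_total m n with hle | hle
  · obtain ⟨d, rfl⟩ := Nat.exists_eq_add_of_le hle
    have := key m d hmn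
    omega
  · obtain ⟨d, rfl⟩ := Nat.exists_eq_add_of_le hle
    have := key n d hmn.symm
    omega

/-- a fixed set that contains an infinite chain is infinite -/
theorem infinite_of_chain {I : Interp Δ} (h : ∀ x, InfAt I x) {a : ℕ} (ha : a < 3) {y : Δ}
    (hy : y ∈ I.c 16 a) (hy' : y ∈ I.c 17 a) : (I.c 15 a).Infinite := by
  obtain ⟨f, hf, hf'⟩ := exists_seq_of_chain h (by omega) hy hy'
  exact Set.infinite_of_injective_forall_mem hf fun n => (h _).sub a ha (hf' n)

/-- the domain is infinite if there is an infinite chain -/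
theorem infinite_of_chain' {I : Interp Δ} (h : ∀ x, InfAt I x) {y : Δ}
    (hy : y ∈ I.c 16 3) (hy' : y ∈ I.c 17 3) : Infinite Δ := by
  obtain ⟨f, hf, _⟩ := exists_seq_of_chain h (by norm_num) hy hy'
  exact Infinite.of_injective f hf

end Pool.Agent.H24N
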