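import Pool.Agent.Lib.H24N.Struct

/-!
# Better interpretations
-/

set_option autoImplicit false

namespace Pool.Agent.H24N

variable {Δ : Type}

/-- the preference relation of `instOf P` -/
theorem better_iff (P : Til) (J I : Interp Δ) :
    (instOf P).P.Better J I ↔ J.ind = I.ind ∧ J.c 1 0 = I.c 1 0 ∧
      (∀ a < 3, J.c 15 a = I.c 15 a) ∧ J.c 0 0 ⊂ I.c 0 0 := by
  have hm : (instOf P).P.mini = [0] := rfl
  have hf : (instOf P).P.fixd = [1, 15, 79, 143] := rfl
  have hp : (instOf P).P.prec = [] := rfl
  constructor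
  · rintro ⟨h1, h2, h3, h4⟩
    rw [hm, hp] at h4
    rw [hf] at h2
    refine ⟨h1, h2 1 (by simp), fun a ha => ?_, ?_⟩
    · interval_cases a
      · exact h2 15 (by simp)
      · exact h2 79 (by simp)
      · exact h2 143 (by simp)
    · obtain ⟨X, hX, h5, _⟩ := h4
      rw [List.mem_singleton] at hX
      subst hX
      exact h5
  · rintro ⟨h1, h2, h3, h4⟩
    refine ⟨h1, ?_, ?_, ?_⟩
    · rw [hf]
      intro X hX
      simp only [List.mem_cons, List.not_mem_nil, or_false] at hX
      rcases hX with rfl | rfl | rfl | rfl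
      · exact h2
      · exact h3 0 (by norm_num)
      · exact h3 1 (by norm_num)
      · exact h3 2 (by norm_num)
    · rw [hm]
      intro X hX hsub
      rw [List.mem_singleton] at hX
      subst hX
      exact absurd h4.subset hsub
    · rw [hm, hp]
      exact ⟨0, by simp, h4, fun Y _ h => absurd h (by simp)⟩

theorem patternOk (P : Til) : (instOf P).P.Ok := by
  have hm : (instOf P).P.mini = [0] := rfl
  have hf : (instOf P).P.fixd = [1, 15, 79, 143] := rfl
  have hp : (instOf P).P.prec = [] := rfl
  refine ⟨?_, ?_, ?_, ?_⟩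
  · rw [hm, hf]
    intro X hX
    rw [List.mem_singleton] at hX
    subst hX
    simp
  · rw [hp]
    intro p h
    simp at h
  · rw [hp]
    intro X h
    simp at h
  · rw [hp]
    intro X Y Z h
    simp at h

end Pool.Agent.H24N
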