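import Pool.Agent.Lib.H24N.Struct

/-!
# A better interpretation if a fixed set is infinite
-/

set_option autoImplicit false

namespace Pool.Agent.H24N

variable {Δ : Type}

/-- if a fixed set is infinite, then there is a model without `Min` -/
theorem kill_inf {P : Til} {I : Interp Δ} (h : IsModel I P) {b : ℕ} (hb : b < 3)
    (hinf : (I.c 15 b).Infinite) : ∃ J : Interp Δ, IsModel J P ∧ J.ind = I.ind ∧
      J.c 1 0 = I.c 1 0 ∧ (∀ a < 3, J.c 15 a = I.c 15 a) ∧ J.c 0 0 = ∅ := by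
  let e : ℕ ↪ I.c 15 b := hinf.natEmbedding
  let f : ℕ → Δ := fun n => (e n : Δ)
  have hf : Function.Injective f := fun m n hmn => e.injective (Subtype.ext hmn)
  have hfV : ∀ n, f n ∈ I.c 15 b := fun n => (e n).2
  let J : Interp Δ :=
    { con := fun n => if n % 64 = 1 ∨ n % 64 = 15 then I.con n else
        if n % 64 = 2 then {I.ind 0} else
        if n % 64 = 16 then {x | n / 64 = b ∧ ∃ m, x = f m} else
        if n % 64 = 17 then {x | n / 64 = b ∧ x = f 0} else ∅
      rol := fun n x y => n % 64 = 0 ∨ n % 64 = 1 ∨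
        (n % 64 = 2 ∧ n / 64 = b ∧ ∃ m, x = f m ∧ y = f (m + 1))
      ind := I.ind }
  have hc : ∀ a j, a < 64 → J.c a j = if a = 1 ∨ a = 15 then I.c a j else
      if a = 2 then {I.ind 0} else if a = 16 then {x | j = b ∧ ∃ m, x = f m} else
      if a = 17 then {x | j = b ∧ x = f 0} else ∅ := by
    intro a j ha
    have h1 : (64 * j + a) % 64 = a := by omega
    have h2 : (64 * j + a) / 64 = j := by omega
    show (if (64 * j + a) % 64 = 1 ∨ (64 * j + a) % 64 = 15 then I.con (64 * j + a) else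
      if (64 * j + a) % 64 = 2 then {I.ind 0} else
      if (64 * j + a) % 64 = 16 then {x | (64 * j + a) / 64 = b ∧ ∃ m, x = f m} else
      if (64 * j + a) % 64 = 17 then {x | (64 * j + a) / 64 = b ∧ x = f 0} else ∅) = _
    rw [h1, h2]
    rfl
  have hr : ∀ a j x y, a < 64 → (J.r a j x y ↔ a = 0 ∨ a = 1 ∨
      (a = 2 ∧ j = b ∧ ∃ m, x = f m ∧ y = f (m + 1))) := by
    intro a j x y ha
    have h1 : (64 * j + a) % 64 = a := by omega
    have h2 : (64 * j + a) / 64 = j := by omega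
    show (64 * j + a) % 64 = 0 ∨ (64 * j + a) % 64 = 1 ∨ ((64 * j + a) % 64 = 2 ∧
      (64 * j + a) / 64 = b ∧ ∃ m, x = f m ∧ y = f (m + 1)) ↔ _
    rw [h1, h2]
  have e' : ∀ a j x, a < 64 → a ≠ 1 → a ≠ 15 → a ≠ 2 → a ≠ 16 → a ≠ 17 → x ∉ J.c a j := by
    intro a j x ha h1 h2 h3 h4 h5
    rw [hc a j ha]
    simp [h1, h2, h3, h4, h5]
  have e1 : J.c 1 0 = I.c 1 0 := by rw [hc 1 0 (by norm_num)]; simp
  have e15 : ∀ j, J.c 15 j = I.c 15 j := by intro j; rw [hc 15 j (by norm_num)]; simp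
  have e2 : ∀ j, J.c 2 j = {I.ind 0} := by intro j; rw [hc 2 j (by norm_num)]; simp
  have e16 : ∀ j x, x ∈ J.c 16 j ↔ j = b ∧ ∃ m, x = f m := by
    intro j x; rw [hc 16 j (by norm_num)]; simp
  have e17 : ∀ j x, x ∈ J.c 17 j ↔ j = b ∧ x = f 0 := by
    intro j x; rw [hc 17 j (by norm_num)]; simp
  have er2 : ∀ j x y, J.r 2 j x y ↔ j = b ∧ ∃ m, x = f m ∧ y = f (m + 1) := by
    intro j x y; rw [hr 2 j x y (by norm_num)]; simp
  refine ⟨J, ⟨fun x => ?_, fun x => ?_, fun x hx => ?_, fun x hx => ?_, ?_, ?_⟩, rfl, e1,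
    fun a _ => e15 a, ?_⟩
  · refine ⟨⟨I.ind 0, (hr 0 0 _ _ (by norm_num)).2 (Or.inl rfl), by rw [e1]; exact h.indN⟩,
      ?_, ?_, ?_, ?_⟩
    · intro _ h1
      exact absurd h1 (e' 3 0 x (by norm_num) (by norm_num) (by norm_num) (by norm_num)
        (by norm_num) (by norm_num))
    · intro i _ _ h1
      exact absurd h1 (e' 29 i x (by norm_num) (by norm_num) (by norm_num) (by norm_num)
        (by norm_num) (by norm_num))
    · intro i _ _ h1
      exact absurd h1 (e' 30 i x (by norm_num) (by norm_num) (by norm_num) (by norm_num)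
        (by norm_num) (by norm_num))
    · intro i _ _ h1
      exact absurd h1 (e' 31 i x (by norm_num) (by norm_num) (by norm_num) (by norm_num)
        (by norm_num) (by norm_num))
  · refine ⟨?_, ?_, ?_, ?_⟩
    · intro a _ h1
      rw [e16] at h1
      obtain ⟨ha, m, rfl⟩ := h1
      refine ⟨f (m + 1), (er2 _ _ _).2 ⟨ha, m, rfl, rfl⟩, (e16 _ _).2 ⟨ha, m + 1, rfl⟩, ?_⟩
      rw [e17]
      rintro ⟨_, h2⟩
      exact absurd (hf h2) (by omega)
    · intro a _ y z h1 h2
      rw [er2] at h1 h2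
      obtain ⟨_, m, rfl, h3⟩ := h1
      obtain ⟨_, m', rfl, h4⟩ := h2
      have := hf (h3.symm.trans h4)
      have : m = m' := by omega
      rw [this]
    · intro a _ h1 y h2
      rw [e17] at h1
      rw [er2] at h2
      obtain ⟨_, m, _, h3⟩ := h2
      have := hf (h1.2.symm.trans h3)
      omega
    · intro a _ h1
      rw [e16] at h1
      obtain ⟨ha, m, rfl⟩ := h1
      rw [e15, ha]
      exact hfV m
  · rw [e2, Set.mem_singleton_iff] at hx
    subst hx
    right; right; left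
    exact ⟨b, hb, f 0, (hr 1 0 _ _ (by norm_num)).2 (Or.inr (Or.inl rfl)),
      (e16 _ _).2 ⟨rfl, 0, rfl⟩, (e17 _ _).2 ⟨rfl, rfl⟩⟩
  · exact absurd hx (e' 3 0 x (by norm_num) (by norm_num) (by norm_num) (by norm_num)
      (by norm_num) (by norm_num))
  · rw [e1]; exact h.indN
  · rw [e2]; rfl
  · rw [hc 0 0 (by norm_num)]
    simp

end Pool.Agent.H24N
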