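import Pool.Agent.Lib.H24N.Struct

/-!
# A better interpretation if `N` has two elements
-/

set_option autoImplicit false

namespace Pool.Agent.H24N

variable {Δ : Type}

/-- if `N` has two elements, then there is a model without `Min` -/
theorem kill_N {P : Til} {I : Interp Δ} (h : IsModel I P) {o' : Δ} (ho' : o' ∈ I.c 1 0)
    (hne : o' ≠ I.ind 0) : ∃ J : Interp Δ, IsModel J P ∧ J.ind = I.ind ∧ J.c 1 0 = I.c 1 0 ∧
      (∀ a < 3, J.c 15 a = I.c 15 a) ∧ J.c 0 0 = ∅ := by
  -- `N`, the fixed sets, `Top = {o}`, `Q = {o'}`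
  let J : Interp Δ :=
    { con := fun n => if n % 64 = 1 ∨ n % 64 = 15 then I.con n else
        if n % 64 = 2 then {I.ind 0} else if n % 64 = 4 then {o'} else ∅
      rol := fun n _ _ => n % 64 = 0 ∨ n % 64 = 1
      ind := I.ind }
  have hc : ∀ a j, a < 64 → J.c a j = if a = 1 ∨ a = 15 then I.c a j else
      if a = 2 then {I.ind 0} else if a = 4 then {o'} else ∅ := by
    intro a j ha
    have h1 : (64 * j + a) % 64 = a := by omega
    show (if (64 * j + a) % 64 = 1 ∨ (64 * j + a) % 64 = 15 then I.con (64 * j + a) else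
      if (64 * j + a) % 64 = 2 then {I.ind 0} else if (64 * j + a) % 64 = 4 then {o'} else ∅) = _
    rw [h1]
    rfl
  have hr : ∀ a j x y, a < 64 → (J.r a j x y ↔ a = 0 ∨ a = 1) := by
    intro a j x y ha
    have h1 : (64 * j + a) % 64 = a := by omega
    show (64 * j + a) % 64 = 0 ∨ (64 * j + a) % 64 = 1 ↔ _
    rw [h1]
  have e : ∀ a j x, a < 64 → a ≠ 1 → a ≠ 15 → a ≠ 2 → a ≠ 4 → x ∉ J.c a j := by
    intro a j x ha h1 h2 h3 h4
    rw [hc a j ha]
    simp [h1, h2, h3, h4]
  have e1 : J.c 1 0 = I.c 1 0 := by rw [hc 1 0 (by norm_num)]; simp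
  have e15 : ∀ j, J.c 15 j = I.c 15 j := by intro j; rw [hc 15 j (by norm_num)]; simp
  have e2 : ∀ j, J.c 2 j = {I.ind 0} := by intro j; rw [hc 2 j (by norm_num)]; simp
  have e4 : ∀ j, J.c 4 j = {o'} := by intro j; rw [hc 4 j (by norm_num)]; simp
  refine ⟨J, ⟨fun x => ?_, fun x => ?_, fun x hx => ?_, fun x hx => ?_, ?_, ?_⟩, rfl, e1,
    fun a _ => e15 a, ?_⟩
  · refine ⟨⟨o', (hr 0 0 _ _ (by norm_num)).2 (Or.inl rfl), by rw [e1]; exact ho'⟩, ?_, ?_, ?_, ?_⟩
    · intro _ h1
      exact absurd h1 (e 3 0 x (by norm_num) (by norm_num) (by norm_num) (by norm_num) (by norm_num))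
    · intro i _ _ h1
      exact absurd h1 (e 29 i x (by norm_num) (by norm_num) (by norm_num) (by norm_num) (by norm_num))
    · intro i _ _ h1
      exact absurd h1 (e 30 i x (by norm_num) (by norm_num) (by norm_num) (by norm_num) (by norm_num))
    · intro i _ _ h1
      exact absurd h1 (e 31 i x (by norm_num) (by norm_num) (by norm_num) (by norm_num) (by norm_num))
  · refine ⟨?_, ?_, ?_, ?_⟩
    · intro a _ h1
      exact absurd h1 (e 16 a x (by norm_num) (by norm_num) (by norm_num) (by norm_num) (by norm_num))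
    · intro a _ y z h1
      rw [hr 2 a _ _ (by norm_num)] at h1
      omega
    · intro a _ h1
      exact absurd h1 (e 17 a x (by norm_num) (by norm_num) (by norm_num) (by norm_num) (by norm_num))
    · intro a _ h1
      exact absurd h1 (e 16 a x (by norm_num) (by norm_num) (by norm_num) (by norm_num) (by norm_num))
  · rw [e2, Set.mem_singleton_iff] at hx
    subst hx
    right; left
    refine ⟨⟨o', (hr 1 0 _ _ (by norm_num)).2 (Or.inr rfl), by rw [e1]; exact ho', by rw [e4]; rfl⟩,
      ⟨I.ind 0, (hr 1 0 _ _ (by norm_num)).2 (Or.inr rfl), by rw [e1]; exact h.indN, ?_⟩⟩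
    rw [e4, Set.mem_singleton_iff]
    exact fun h => hne h.symm
  · exact absurd hx (e 3 0 x (by norm_num) (by norm_num) (by norm_num) (by norm_num) (by norm_num))
  · rw [e1]; exact h.indN
  · rw [e2]; rfl
  · rw [hc 0 0 (by norm_num)]
    simp

end Pool.Agent.H24N
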