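import Pool.Agent.Lib.H24N.Struct

/-!
# A better interpretation if the first alternative is not used
-/

set_option autoImplicit false

namespace Pool.Agent.H24N

variable {Δ : Type}

section congr

variable {I J : Interp Δ} {x : Δ}

theorem cv_congr (hc : ∀ a j, 3 ≤ a → J.c a j = I.c a j) (k c : ℕ) (hc3 : 3 ≤ c) (y : Δ) :
    cv J k c y = cv I k c y := by
  unfold cv
  congr 1
  funext j
  rw [hc c j hc3]

theorem chainAt_congr (h1 : ∀ j, J.c 1 j = I.c 1 j) (hc : ∀ a j, 3 ≤ a → J.c a j = I.c a j)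
    (hr : J.r = I.r) {k : ℕ} (h : ChainAt I k x) : ChainAt J k x := by
  have c5 := fun j => hc 5 j (by norm_num)
  have v18 := fun k y => cv_congr hc k 18 (by norm_num) y
  cases h
  constructor <;> (simp only [h1, c5, v18, hr]; assumption)

theorem treeAt_congr (h1 : ∀ j, J.c 1 j = I.c 1 j) (hc : ∀ a j, 3 ≤ a → J.c a j = I.c a j)
    (hr : J.r = I.r) {k μ : ℕ} (h : TreeAt I k μ x) : TreeAt J k μ x := by
  have c19 := fun j => hc 19 j (by norm_num)
  have c20 := fun j => hc 20 j (by norm_num)
  have v24 := fun k y => cv_congr hc k (24 + μ) (by omega) y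
  cases h
  constructor <;> (simp only [h1, c19, c20, v24, hr]; assumption)

theorem selAt_congr (hc : ∀ a j, 3 ≤ a → J.c a j = I.c a j)
    (hr : J.r = I.r) {k μ md rs fx : ℕ} (hmd : 3 ≤ md) (hrs : 3 ≤ rs)
    (h : SelAt I k μ md rs fx x) : SelAt J k μ md rs fx x := by
  have c5 := fun j => hc 5 j (by norm_num)
  have c15 := fun j => hc 15 j (by norm_num)
  have c19 := fun j => hc 19 j (by norm_num)
  have c20 := fun j => hc 20 j (by norm_num)
  have c21 := fun j => hc 21 j (by norm_num)
  have cmd := fun j => hc md j hmd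
  have crs := fun j => hc rs j hrs
  have v18 := fun k y => cv_congr hc k 18 (by norm_num) y
  have v24 := fun k y => cv_congr hc k (24 + μ) (by omega) y
  cases h
  constructor <;> (simp only [c5, c15, c19, c20, c21, cmd, crs, v18, v24, hr]; assumption)

theorem ltAt_congr (hc : ∀ a j, 3 ≤ a → J.c a j = I.c a j)
    (hr : J.r = I.r) {k μ md rs : ℕ} (hmd : 3 ≤ md) (hrs : 3 ≤ rs)
    (h : LtAt I k μ md rs x) : LtAt J k μ md rs x := by
  have c5 := fun j => hc 5 j (by norm_num)
  have c22 := fun j => hc 22 j (by norm_num)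
  have cmd := fun j => hc md j hmd
  have crs := fun j => hc rs j hrs
  have v18 := fun k y => cv_congr hc k 18 (by norm_num) y
  cases h
  constructor <;> (simp only [c5, c22, cmd, crs, v18, hr]; assumption)

theorem miscAt_congr (h1 : ∀ j, J.c 1 j = I.c 1 j) (hc : ∀ a j, 3 ≤ a → J.c a j = I.c a j)
    (hr : J.r = I.r) {k : ℕ} (h : MiscAt I k x) : MiscAt J k x := by
  have c5 := fun j => hc 5 j (by norm_num)
  have c6 := fun j => hc 6 j (by norm_num)
  have c7 := fun j => hc 7 j (by norm_num)
  have c8 := fun j => hc 8 j (by norm_num)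
  have c9 := fun j => hc 9 j (by norm_num)
  have c10 := fun j => hc 10 j (by norm_num)
  have c14 := fun j => hc 14 j (by norm_num)
  have v18 := fun k y => cv_congr hc k 18 (by norm_num) y
  cases h
  constructor <;> (simp only [h1, c5, c6, c7, c8, c9, c10, c14, v18, hr]; assumption)

theorem flagAt_congr (hc : ∀ a j, 3 ≤ a → J.c a j = I.c a j)
    {k n : ℕ} (h : FlagAt I k n x) : FlagAt J k n x := by
  have c5 := fun j => hc 5 j (by norm_num)
  have c6 := fun j => hc 6 j (by norm_num)
  have c7 := fun j => hc 7 j (by norm_num)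
  have c9 := fun j => hc 9 j (by norm_num)
  have c10 := fun j => hc 10 j (by norm_num)
  have c11 := fun j => hc 11 j (by norm_num)
  have c12 := fun j => hc 12 j (by norm_num)
  have c13 := fun j => hc 13 j (by norm_num)
  have c29 := fun j => hc 29 j (by norm_num)
  have c30 := fun j => hc 30 j (by norm_num)
  have c31 := fun j => hc 31 j (by norm_num)
  have v18 := fun k y => cv_congr hc k 18 (by norm_num) y
  cases h
  constructor <;>
    (simp only [c5, c6, c7, c9, c10, c11, c12, c13, c29, c30, c31, v18]; assumption)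

theorem actAt_congr (h1 : ∀ j, J.c 1 j = I.c 1 j) (hc : ∀ a j, 3 ≤ a → J.c a j = I.c a j)
    (hr : J.r = I.r) {k n : ℕ} (h : ActAt I k n x) : ActAt J k n x := by
  have hmod : ∀ p ∈ modules, 3 ≤ p.2.1 ∧ 3 ≤ p.2.2.1 := by
    intro p hp
    simp only [modules, List.mem_cons, List.not_mem_nil, or_false] at hp
    rcases hp with rfl | rfl | rfl | rfl | rfl <;> decide
  refine ⟨chainAt_congr h1 hc hr h.chain, fun p hp => ⟨treeAt_congr h1 hc hr (h.forest p hp).1,
    selAt_congr hc hr (hmod p hp).1 (hmod p hp).2 (h.forest p hp).2⟩,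
    fun p hp => ltAt_congr hc hr (hmod p hp).1 (hmod p hp).2 (h.lt p hp),
    miscAt_congr h1 hc hr h.misc, flagAt_congr hc h.flag⟩

theorem infAt_congr (hc : ∀ a j, 3 ≤ a → J.c a j = I.c a j) (hr : J.r = I.r) (h : InfAt I x) :
    InfAt J x := by
  have c15 := fun j => hc 15 j (by norm_num)
  have c16 := fun j => hc 16 j (by norm_num)
  have c17 := fun j => hc 17 j (by norm_num)
  cases h
  constructor <;> (simp only [c15, c16, c17, hr]; assumption)

theorem globAt_congr (h1 : ∀ j, J.c 1 j = I.c 1 j) (hc : ∀ a j, 3 ≤ a → J.c a j = I.c a j)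
    (hr : J.r = I.r) {n : ℕ} (h : GlobAt I n x) : GlobAt J n x := by
  have c3 := fun j => hc 3 j (by norm_num)
  have c29 := fun j => hc 29 j (by norm_num)
  have c30 := fun j => hc 30 j (by norm_num)
  have c31 := fun j => hc 31 j (by norm_num)
  cases h
  constructor <;> (simp only [h1, c3, c29, c30, c31, hr]; assumption)

theorem violAt_congr (hc : ∀ a j, 3 ≤ a → J.c a j = I.c a j)
    (hr : J.r = I.r) {P : Til} (h : ViolAt I P x) : ViolAt J P x := by
  have c5 := fun j => hc 5 j (by norm_num)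
  have c6 := fun j => hc 6 j (by norm_num)
  have c10 := fun j => hc 10 j (by norm_num)
  have c12 := fun j => hc 12 j (by norm_num)
  have c13 := fun j => hc 13 j (by norm_num)
  have c29 := fun j => hc 29 j (by norm_num)
  have c30 := fun j => hc 30 j (by norm_num)
  have c31 := fun j => hc 31 j (by norm_num)
  have v18 := fun k y => cv_congr hc k 18 (by norm_num) y
  unfold ViolAt at h ⊢
  simp only [c5, c6, c10, c12, c13, c29, c30, c31, v18, hr]
  exact h

end congr

/-- if the first alternative does not hold, then `Min` can be removed -/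
theorem kill_top {P : Til} {I : Interp Δ} (h : IsModel I P)
    (htop : ¬ (I.ind 0 ∈ I.c 0 0 ∧ I.ind 0 ∈ I.c 3 0 ∧
      (∃ y, I.r 1 0 (I.ind 0) y ∧ y ∈ I.c 16 3 ∧ y ∈ I.c 17 3) ∧ I.ind 0 ∈ I.c 29 0)) :
    ∃ J : Interp Δ, IsModel J P ∧ J.ind = I.ind ∧
      J.c 1 0 = I.c 1 0 ∧ (∀ a < 3, J.c 15 a = I.c 15 a) ∧ J.c 0 0 = ∅ := by
  let J : Interp Δ :=
    { con := fun n => if n = 0 then ∅ else if n = 2 then {I.ind 0} else I.con n
      rol := I.rol
      ind := I.ind }
  have hc : ∀ a j, 3 ≤ a → J.c a j = I.c a j := by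
    intro a j ha
    show (if 64 * j + a = 0 then ∅ else if 64 * j + a = 2 then {I.ind 0} else I.con (64 * j + a)) = _
    rw [if_neg (by omega), if_neg (by omega)]
    rfl
  have h1 : ∀ j, J.c 1 j = I.c 1 j := by
    intro j
    show (if 64 * j + 1 = 0 then ∅ else if 64 * j + 1 = 2 then {I.ind 0} else I.con (64 * j + 1)) = _
    rw [if_neg (by omega), if_neg (by omega)]
    rfl
  have hr : J.r = I.r := rfl
  have hc2 : J.c 2 0 = {I.ind 0} := rfl
  refine ⟨J, ⟨fun x => globAt_congr h1 hc hr (h.glob x), fun x => infAt_congr hc hr (h.inf x),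
    fun x hx => ?_, fun x hx => ?_, ?_, ?_⟩, rfl, h1 0, fun a _ => hc 15 a (by norm_num), rfl⟩
  · rw [hc2, Set.mem_singleton_iff] at hx
    subst hx
    rcases h.top _ h.indT with h' | h' | h' | h'
    · exact absurd h' htop
    · right; left
      rw [h1, hc 4 0 (by norm_num), hr]
      exact h'
    · right; right; left
      obtain ⟨a, ha, y, hy, hy1, hy2⟩ := h'
      refine ⟨a, ha, y, ?_, ?_, ?_⟩
      · rw [hr]; exact hy
      · rw [hc 16 a (by norm_num)]; exact hy1
      · rw [hc 17 a (by norm_num)]; exact hy2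
    · right; right; right
      exact ⟨by rw [hc 3 0 (by norm_num)]; exact h'.1, violAt_congr hc hr h'.2⟩
  · rw [hc 3 0 (by norm_num)] at hx
    exact actAt_congr h1 hc hr (h.act x hx)
  · rw [h1]; exact h.indN
  · rw [hc2]; rfl

end Pool.Agent.H24N
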