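import Pool.Agent.Lib.H24N.NumDefs

/-!
# Good numbers are those without violations
-/

set_option autoImplicit false

namespace Pool.Agent.H24N

theorem crd_succ_lt {k a : ℕ} (h : tim k a + 1 < 2 ^ 2 ^ k) : crd k a + 1 < 2 ^ (3 * 2 ^ k) := by
  have h1 := crd_eq k a
  have h2 := spc_lt k a
  have h3 : 2 ^ (3 * 2 ^ k) = 2 ^ 2 ^ k * 2 ^ (2 * 2 ^ k) := by rw [← pow_add]; congr 1; ring
  have h4 : 2 ^ 2 ^ k * (spc k a + 1) ≤ 2 ^ 2 ^ k * 2 ^ (2 * 2 ^ k) := Nat.mul_le_mul_left _ h2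
  rw [Nat.mul_add, Nat.mul_one] at h4
  omega

theorem no_viol_of_good {P : Til} (hP : P.Wf) {x0 x1 x2 s t : ℕ} (hg : Good P x0 x1 x2)
    (hs : Active P.k x0 s) (ht : 2 ^ (4 * 2 ^ P.k) ≤ t) (ht' : t < 2 ^ (8 * 2 ^ P.k))
    {fl td te : ℕ → Prop} (h : FlagNum P.k P.n fl td te t (x1 % s) (x2 % s) (x0 % t) (x1 % t)) :
    ¬ ViolNum P fl td te (x1 % s) (x0 % t) (x1 % t) := by
  rintro (⟨d, hd, h0, hd'⟩ | ⟨d, hd, h1, hd'⟩ | h2 | ⟨hlt, h3 | ⟨h4, h5⟩⟩ | ⟨p, hp, h5, h6, hlt, h7, h8⟩ |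
    ⟨p, hp, h5, h6, hlt, h7, h8⟩)
  · have e1 := hg.ini s hs (h.f0 h0) d hd (hP.badI d hd)
    rw [h.td d (hP.badI d hd) hd'] at e1
    simp at e1
  · have e1 := hg.fin s hs (h.f1 h1) d hd (hP.badF d hd)
    rw [h.td d (hP.badF d hd) hd'] at e1
    simp at e1
  · obtain ⟨d, hd, hd'⟩ := hg.tile s hs
    rw [h.f2 h2 d hd] at hd'
    simp at hd'
  · have e1 := (hg.ptr s hs hlt).1.le
    have e2 := h.f3 h3
    omega
  · obtain ⟨e1, e2⟩ := hg.ptr s hs hlt
    have e3 := h.f4 h4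
    rw [← e3] at e1 e2
    rcases h5 with h5 | h5
    · exact h5 (Nat.mod_eq_zero_of_dvd e1.dvd)
    · rw [e2, Nat.mod_eq_of_lt hlt] at h5
      exact h5 rfl
  · have e1 : Active P.k x0 t := ⟨Nat.dvd_of_mod_eq_zero (h.f5 h5), ht, ht'⟩
    have e2 := h.f6 h6
    rw [Nat.mod_eq_of_lt (crd_succ_lt hlt)] at e2
    exact hg.ver s t hs e1 hlt e2 p hp (hP.badV p hp).1 (hP.badV p hp).2
      ⟨h.td _ (hP.badV p hp).1 h7, h.te _ (hP.badV p hp).2 h8⟩
  · have e1 : Active P.k x0 t := ⟨Nat.dvd_of_mod_eq_zero (h.f5 h5), ht, ht'⟩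
    obtain ⟨e2, e3⟩ := h.f7 h6
    rw [Nat.mod_eq_of_lt hlt] at e3
    exact hg.hor s t hs e1 hlt e2 e3 p hp (hP.badH p hp).1 (hP.badH p hp).2
      ⟨h.td _ (hP.badH p hp).1 h7, h.te _ (hP.badH p hp).2 h8⟩

theorem good_of_no_viol {P : Til} (hP : P.Wf) {x0 x1 x2 : ℕ}
    (ho : ∃ s, Active P.k x0 s ∧ crd P.k (x1 % s) = 0)
    (h : ∀ s t, Active P.k x0 s → 2 ^ (4 * 2 ^ P.k) ≤ t → t < 2 ^ (8 * 2 ^ P.k) →
      ∀ fl td te : ℕ → Prop,
        FlagNum P.k P.n fl td te t (x1 % s) (x2 % s) (x0 % t) (x1 % t) →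
        ¬ ViolNum P fl td te (x1 % s) (x0 % t) (x1 % t)) :
    Good P x0 x1 x2 := by
  have hbool : ∀ b : Bool, ¬ b = false → b = true := by decide
  refine ⟨ho, ?_, ?_, ?_, ?_, ?_, ?_⟩
  · intro s hs
    by_contra hc
    push Not at hc
    refine h s s hs hs.le hs.lt (fun i => i = 2) (fun _ => False) (fun _ => False) ?_
      (Or.inr (Or.inr (Or.inl rfl)))
    constructor <;> try (intro h; exact absurd h (by decide))
    · intro _ d hd
      simpa using hc d hd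
    · intro _ _ h; exact h.elim
    · intro _ _ h; exact h.elim
  · intro s hs h0 d hd hdn
    by_contra hc
    refine h s s hs hs.le hs.lt (fun i => i = 0) (fun j => j = d) (fun _ => False) ?_
      (Or.inl ⟨d, hd, rfl, rfl⟩)
    constructor <;> try (intro h; exact absurd h (by decide))
    · exact fun _ => h0
    · intro e _ h
      rw [h]
      exact hbool _ hc
    · intro _ _ h; exact h.elim
  · intro s hs h0 d hd hdn
    by_contra hc
    refine h s s hs hs.le hs.lt (fun i => i = 1) (fun j => j = d) (fun _ => False) ?_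
      (Or.inr (Or.inl ⟨d, hd, rfl, rfl⟩))
    constructor <;> try (intro h; exact absurd h (by decide))
    · exact fun _ => h0
    · intro e _ h
      rw [h]
      exact hbool _ hc
    · intro _ _ h; exact h.elim
  · intro s hs hlt
    have hpos : 0 < s := lt_of_lt_of_le (by positivity) hs.le
    have hps : x2 % s < s := Nat.mod_lt _ hpos
    have hp2 : x2 % s < 2 ^ (8 * 2 ^ P.k) := hps.trans hs.lt
    by_cases hsm : x2 % s < 2 ^ (4 * 2 ^ P.k)
    · exfalso
      refine h s s hs hs.le hs.lt (fun i => i = 3) (fun _ => False) (fun _ => False) ?_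
        (Or.inr (Or.inr (Or.inr (Or.inl ⟨hlt, Or.inl rfl⟩))))
      constructor <;> try (intro h; exact absurd h (by decide))
      · exact fun _ => hsm
      · intro _ _ h; exact h.elim
      · intro _ _ h; exact h.elim
    · rw [not_lt] at hsm
      have key : ¬ (x0 % (x2 % s) ≠ 0 ∨ crd P.k (x1 % (x2 % s)) ≠
          (crd P.k (x1 % s) + 1) % 2 ^ (3 * 2 ^ P.k)) := by
        intro hc
        refine h s (x2 % s) hs hsm hp2 (fun i => i = 4) (fun _ => False) (fun _ => False) ?_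
          (Or.inr (Or.inr (Or.inr (Or.inl ⟨hlt, Or.inr ⟨rfl, hc⟩⟩))))
        constructor <;> try (intro h; exact absurd h (by decide))
        · exact fun _ => rfl
        · intro _ _ h; exact h.elim
        · intro _ _ h; exact h.elim
      push Not at key
      refine ⟨⟨Nat.dvd_of_mod_eq_zero key.1, hsm, hp2⟩, ?_⟩
      rw [key.2, Nat.mod_eq_of_lt hlt]
  · rintro s t hs ht hlt hc p hp hp1 hp2 ⟨h1, h2⟩
    refine h s t hs ht.le ht.lt (fun i => i = 5 ∨ i = 6) (fun j => j = p.1) (fun j => j = p.2) ?_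
      (Or.inr (Or.inr (Or.inr (Or.inr (Or.inl ⟨p, hp, Or.inl rfl, Or.inr rfl, hlt, rfl, rfl⟩)))))
    constructor <;> try (intro h; exact absurd h (by decide))
    · exact fun _ => Nat.mod_eq_zero_of_dvd ht.dvd
    · intro _
      rw [hc, Nat.mod_eq_of_lt (crd_succ_lt hlt)]
    · intro e _ h
      rw [h]
      exact h1
    · intro e _ h
      rw [h]
      exact h2
  · rintro s t hs ht hlt hc1 hc2 p hp hp1 hp2 ⟨h1, h2⟩
    refine h s t hs ht.le ht.lt (fun i => i = 5 ∨ i = 7) (fun j => j = p.1) (fun j => j = p.2) ?_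
      (Or.inr (Or.inr (Or.inr (Or.inr (Or.inr ⟨p, hp, Or.inl rfl, Or.inr rfl, hlt, rfl, rfl⟩)))))
    constructor <;> try (intro h; exact absurd h (by decide))
    · exact fun _ => Nat.mod_eq_zero_of_dvd ht.dvd
    · intro _
      rw [hc2, Nat.mod_eq_of_lt hlt]
      exact ⟨hc1, rfl⟩
    · intro e _ h
      rw [h]
      exact h1
    · intro e _ h
      rw [h]
      exact h2

end Pool.Agent.H24N
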