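import Pool.Agent.Lib.H24N.ParCard

/-!
# Existence of the parameters
-/

set_option autoImplicit false

namespace Pool.Agent.H24N

namespace Par

variable {Δ : Type}

theorem exists_par (E : ℕ → Δ) (hE : Function.Injective E) (V : ℕ → Set Δ)
    (hV : ∀ a < 3, (V a).Finite) (k s t : ℕ) (hs : Active k (V 0).ncard s)
    (ht : 2 ^ (4 * 2 ^ k) ≤ t) (ht' : t < 2 ^ (8 * 2 ^ k)) (ind : ℕ → Δ) (hind : ind 0 = E 0)
    (fl td te : ℕ → Prop) (ch mn : Prop) :
    ∃ B : Par Δ, B.Ok ∧ B.E = E ∧ B.V = V ∧ B.k = k ∧ B.ind = ind ∧ B.fl = fl ∧ B.td = td ∧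
      B.te = te ∧ B.ch = ch ∧ B.mn = mn ∧ B.reg 8 = s ∧ B.reg 9 = t ∧
      B.reg 10 = (V 1).ncard % s ∧ B.reg 11 = (V 2).ncard % s ∧ B.reg 12 = (V 0).ncard % t ∧
      B.reg 13 = (V 1).ncard % t := by
  classical
  have hs0 : 0 < s := (Nat.two_pow_pos _).trans_le hs.le
  have ht0 : 0 < t := (Nat.two_pow_pos _).trans_le ht
  set reg : ℕ → ℕ := fun c => [0, 0, 0, 0, 0, 0, 0, 0, s, t, (V 1).ncard % s, (V 2).ncard % s,
    (V 0).ncard % t, (V 1).ncard % t].getD c 0 with hreg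
  have hexp : 2 ^ (k + 3) = 8 * 2 ^ k := by rw [pow_add]; ring
  have hlt : ∀ c, reg c < 2 ^ 2 ^ (k + 3) := by
    intro c
    rw [hexp]
    have hp : 0 < 2 ^ (8 * 2 ^ k) := Nat.two_pow_pos _
    rcases lt_or_ge c 14 with hc | hc
    · interval_cases c
      all_goals simp only [hreg]
      all_goals first
        | exact hp
        | exact hs.lt
        | exact ht'
        | exact (Nat.mod_lt _ hs0).trans hs.lt
        | exact (Nat.mod_lt _ ht0).trans ht'
    · have : reg c = 0 := by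
        simp only [hreg]
        rw [List.getD_eq_default]
        simpa using hc
      rw [this]
      exact hp
  set κ : ℕ → ℕ := fun μ => (V (fxOf μ)).ncard / reg (mdOf μ) with hκ
  set B0 : Par Δ := ⟨E, V, k, reg, κ, fun _ x => x, ind, fl, td, te, ch, mn⟩ with hB0
  have hrs : ∀ μ < 5, reg (rsOf μ) = (V (fxOf μ)).ncard % reg (mdOf μ) := by
    intro μ hμ
    interval_cases μ
    · show 0 = (V 0).ncard % s
      exact (Nat.mod_eq_zero_of_dvd hs.dvd).symm
    · rfl
    · rfl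
    · rfl
    · rfl
  have hmd : ∀ μ < 5, 0 < reg (mdOf μ) := by
    intro μ hμ
    interval_cases μ
    · exact hs0
    · exact hs0
    · exact hs0
    · exact ht0
    · exact ht0
  have hfx : ∀ μ < 5, fxOf μ < 3 := by
    intro μ hμ
    interval_cases μ <;> decide
  have hbij : ∀ μ, ∃ f : Δ → Δ, μ < 5 → Set.BijOn f (B0.sel μ) (V (fxOf μ)) := by
    intro μ
    by_cases hμ : μ < 5
    · obtain ⟨h1, h2⟩ := sel_ncard (B := B0) hE hlt μ
      have h3 : (B0.sel μ).ncard = (V (fxOf μ)).ncard := by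
        rw [h2]
        show reg (rsOf μ) + (V (fxOf μ)).ncard / reg (mdOf μ) * reg (mdOf μ) = _
        rw [hrs μ hμ, mul_comm]
        exact Nat.mod_add_div _ _
      have h4 : (B0.sel μ).encard = (V (fxOf μ)).encard := by
        rw [← h1.cast_ncard_eq, ← (hV _ (hfx μ hμ)).cast_ncard_eq, h3]
      haveI : Nonempty Δ := ⟨E 0⟩
      obtain ⟨f, hf⟩ := h1.exists_bijOn_of_encard_eq h4
      exact ⟨f, fun _ => hf⟩
    · exact ⟨id, fun h => absurd h hμ⟩
  choose f hf using hbij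
  refine ⟨⟨E, V, k, reg, κ, f, ind, fl, td, te, ch, mn⟩, ?_, rfl, rfl, rfl, rfl, rfl, rfl, rfl, rfl,
    rfl, rfl, rfl, rfl, rfl, rfl, rfl⟩
  exact
    { inj := hE
      ind := hind
      reg_lt := hlt
      bij := fun μ hμ => hf μ hμ
      lt := fun μ hμ => by
        show reg (rsOf μ) < reg (mdOf μ)
        rw [hrs μ hμ]
        exact Nat.mod_lt _ (hmd μ hμ)
      z := rfl
      leS := hs.le
      leT := ht }

end Par

end Pool.Agent.H24N
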