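import Pool.Agent.Lib.H24N.ParA

/-!
# The flags of `Par.interp`
-/

set_option autoImplicit false

namespace Pool.Agent.H24N

namespace Par

variable {Δ : Type} {B : Par Δ}

theorem pflag_c5 (x : Δ) : x ∈ B.interp.c 5 0 ↔ ∃ i, i < 2 ^ (B.k + 3) ∧ x = B.E i := by
  rw [interp_c _ (by decide)]
  show ((0 : ℕ) = 0 ∧ _) ↔ _
  simp

theorem pflag_bit (hB : B.Ok) {c i : ℕ} (hi : i < 2 ^ (B.k + 3))
    (hc : ∀ y, y ∈ B.interp.c c 0 ↔
      ∃ i, i < 2 ^ (B.k + 3) ∧ y = B.E i ∧ (B.reg c).testBit i = true) :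
    B.E i ∈ B.interp.c c 0 ↔ (B.reg c).testBit i = true := by
  rw [hc]
  constructor
  · rintro ⟨j, -, h1, h2⟩
    rw [hB.inj h1]
    exact h2
  · intro h
    exact ⟨i, hi, rfl, h⟩

theorem pflag_9 (hB : B.Ok) {i : ℕ} (hi : i < 2 ^ (B.k + 3)) :
    B.E i ∈ B.interp.c 9 0 ↔ (B.reg 9).testBit i = true :=
  pflag_bit hB hi fun y => by rw [interp_c _ (by decide)]; exact Iff.rfl

theorem pflag_10 (hB : B.Ok) {i : ℕ} (hi : i < 2 ^ (B.k + 3)) :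
    B.E i ∈ B.interp.c 10 0 ↔ (B.reg 10).testBit i = true :=
  pflag_bit hB hi fun y => by rw [interp_c _ (by decide)]; exact Iff.rfl

theorem pflag_11 (hB : B.Ok) {i : ℕ} (hi : i < 2 ^ (B.k + 3)) :
    B.E i ∈ B.interp.c 11 0 ↔ (B.reg 11).testBit i = true :=
  pflag_bit hB hi fun y => by rw [interp_c _ (by decide)]; exact Iff.rfl

theorem pflag_12 (hB : B.Ok) {i : ℕ} (hi : i < 2 ^ (B.k + 3)) :
    B.E i ∈ B.interp.c 12 0 ↔ (B.reg 12).testBit i = true :=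
  pflag_bit hB hi fun y => by rw [interp_c _ (by decide)]; exact Iff.rfl

theorem pflag_13 (hB : B.Ok) {i : ℕ} (hi : i < 2 ^ (B.k + 3)) :
    B.E i ∈ B.interp.c 13 0 ↔ (B.reg 13).testBit i = true :=
  pflag_bit hB hi fun y => by rw [interp_c _ (by decide)]; exact Iff.rfl

theorem pflag_6 (hB : B.Ok) {i : ℕ} (h1 : 2 ^ B.k ≤ i) (h2 : i < 4 * 2 ^ B.k) :
    B.E i ∈ B.interp.c 6 0 ↔ ∀ l, 2 ^ B.k ≤ l → l < i → (B.reg 10).testBit l = true := by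
  rw [interp_c _ (by decide)]
  constructor
  · rintro ⟨j, -, -, h3, h4⟩
    rw [hB.inj h3]
    exact h4
  · intro h
    exact ⟨i, h1, h2, rfl, h⟩

theorem pflag_7 (hB : B.Ok) {i : ℕ} (h1 : 2 * 2 ^ B.k ≤ i) (h2 : i < 4 * 2 ^ B.k) :
    B.E i ∈ B.interp.c 7 0 ↔ ∀ l, 2 * 2 ^ B.k ≤ l → l < i → (B.reg 10).testBit l = true := by
  rw [interp_c _ (by decide)]
  constructor
  · rintro ⟨j, -, -, h3, h4⟩
    rw [hB.inj h3]
    exact h4
  · intro h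
    exact ⟨i, h1, h2, rfl, h⟩

theorem pflag_29 (j : ℕ) (x : Δ) : x ∈ B.interp.c 29 j ↔ B.fl j := by
  rw [interp_c _ (by decide)]
  exact Iff.rfl

theorem pflag_30 (j : ℕ) (x : Δ) : x ∈ B.interp.c 30 j ↔ B.td j := by
  rw [interp_c _ (by decide)]
  exact Iff.rfl

theorem pflag_31 (j : ℕ) (x : Δ) : x ∈ B.interp.c 31 j ↔ B.te j := by
  rw [interp_c _ (by decide)]
  exact Iff.rfl

theorem flagAt (hB : B.Ok) {n : ℕ} (hn : n ≤ 2 ^ B.k)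
    (h : FlagNum B.k n B.fl B.td B.te (B.reg 9) (B.reg 10) (B.reg 11) (B.reg 12) (B.reg 13))
    (x : Δ) : FlagAt B.interp B.k n x where
  f0 := by
    intro hx hf h1 h2
    obtain ⟨i, hi, rfl⟩ := (pflag_c5 _).1 hx
    rw [cv_E hB hi] at h1 h2
    rw [pflag_10 hB hi]
    have h3 := (seg_eq_zero_iff _ _ _).1 (h.f0 ((pflag_29 _ _).1 hf)) i h1 (by omega)
    simp [h3]
  f1 := by
    intro hx hf h1 h2
    obtain ⟨i, hi, rfl⟩ := (pflag_c5 _).1 hx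
    rw [cv_E hB hi] at h1 h2
    rw [pflag_10 hB hi]
    exact (seg_eq_max_iff _ _ _).1 (h.f1 ((pflag_29 _ _).1 hf)) i h1 (by omega)
  f2 := by
    intro hx hf h1
    obtain ⟨i, hi, rfl⟩ := (pflag_c5 _).1 hx
    rw [cv_E hB hi] at h1
    rw [pflag_10 hB hi, h.f2 ((pflag_29 _ _).1 hf) i h1]
    simp
  f3 := by
    intro hx hf h1
    obtain ⟨i, hi, rfl⟩ := (pflag_c5 _).1 hx
    rw [cv_E hB hi] at h1
    rw [pflag_11 hB hi]
    have h2 := h.f3 ((pflag_29 _ _).1 hf)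
    have h3 : (B.reg 11).testBit i = false :=
      Nat.testBit_eq_false_of_lt (h2.trans_le (Nat.pow_le_pow_right (by norm_num) h1))
    simp [h3]
  f4 := by
    intro hx hf
    obtain ⟨i, hi, rfl⟩ := (pflag_c5 _).1 hx
    rw [pflag_9 hB hi, pflag_11 hB hi, h.f4 ((pflag_29 _ _).1 hf)]
  f5 := by
    intro hx hf
    obtain ⟨i, hi, rfl⟩ := (pflag_c5 _).1 hx
    rw [pflag_12 hB hi, h.f5 ((pflag_29 _ _).1 hf)]
    simp
  f6 := by
    intro hx hf h1 h2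
    obtain ⟨i, hi, rfl⟩ := (pflag_c5 _).1 hx
    rw [cv_E hB hi] at h1 h2
    rw [pflag_13 hB hi, pflag_10 hB hi, pflag_6 hB h1 h2]
    exact (seg_succ _ _ _ _).1 (h.f6 ((pflag_29 _ _).1 hf)) i h1 (by omega)
  f7a := by
    intro hx hf h1 h2
    obtain ⟨i, hi, rfl⟩ := (pflag_c5 _).1 hx
    rw [cv_E hB hi] at h1 h2
    rw [pflag_13 hB hi, pflag_10 hB hi]
    rw [(seg_eq_iff _ _ _ _).1 (h.f7 ((pflag_29 _ _).1 hf)).1 i h1 (by omega)]
  f7b := by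
    intro hx hf h1 h2
    obtain ⟨i, hi, rfl⟩ := (pflag_c5 _).1 hx
    rw [cv_E hB hi] at h1 h2
    rw [pflag_13 hB hi, pflag_10 hB hi, pflag_7 hB h1 h2]
    exact (seg_succ _ _ _ _).1 (h.f7 ((pflag_29 _ _).1 hf)).2 i h1 (by omega)
  td := by
    intro hx h1 h2
    obtain ⟨i, hi, rfl⟩ := (pflag_c5 _).1 hx
    rw [cv_E hB hi] at h1 h2
    rw [pflag_10 hB hi]
    exact h.td i h1 ((pflag_30 _ _).1 h2)
  te := by
    intro hx h1 h2
    obtain ⟨i, hi, rfl⟩ := (pflag_c5 _).1 hx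
    rw [cv_E hB hi] at h1 h2
    rw [pflag_13 hB hi]
    exact h.te i h1 ((pflag_31 _ _).1 h2)

end Par

end Pool.Agent.H24N
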