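import Pool.Agent.Lib.H24N.ParA

/-!
# Infinite chains and global names of `Par.interp`
-/

set_option autoImplicit false

namespace Pool.Agent.H24N

namespace Par

variable {Δ : Type} {B : Par Δ}

theorem pinf_c16 (j : ℕ) (x : Δ) : x ∈ B.interp.c 16 j ↔ j = 3 ∧ B.ch ∧ ∃ m, x = B.E m := by
  rw [interp_c _ (by decide)]
  exact Iff.rfl

theorem pinf_c17 (j : ℕ) (x : Δ) : x ∈ B.interp.c 17 j ↔ j = 3 ∧ B.ch ∧ x = B.E 0 := by
  rw [interp_c _ (by decide)]
  exact Iff.rfl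

theorem pinf_r2 (j : ℕ) (x y : Δ) : B.interp.r 2 j x y ↔
    j = 3 ∧ B.ch ∧ ∃ m, x = B.E m ∧ y = B.E (m + 1) := by
  rw [interp_r _ (by decide)]
  exact Iff.rfl

theorem infAt (hB : B.Ok) (x : Δ) : InfAt B.interp x where
  step := by
    intro a _ h
    obtain ⟨rfl, hch, m, rfl⟩ := (pinf_c16 _ _).1 h
    refine ⟨B.E (m + 1), (pinf_r2 _ _ _).2 ⟨rfl, hch, m, rfl, rfl⟩,
      (pinf_c16 _ _).2 ⟨rfl, hch, _, rfl⟩, ?_⟩
    intro h2
    have h3 := hB.inj ((pinf_c17 _ _).1 h2).2.2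
    omega
  inj := by
    intro a _ y z hy hz
    obtain ⟨-, -, m, rfl, h1⟩ := (pinf_r2 _ _ _).1 hy
    obtain ⟨-, -, m', rfl, h2⟩ := (pinf_r2 _ _ _).1 hz
    rw [h1] at h2
    have h3 := hB.inj h2
    have h4 : m = m' := by omega
    rw [h4]
  fst := by
    intro a _ h y hy
    obtain ⟨-, -, hx⟩ := (pinf_c17 _ _).1 h
    obtain ⟨-, -, m, -, h1⟩ := (pinf_r2 _ _ _).1 hy
    rw [hx] at h1
    have h3 := hB.inj h1
    omega
  sub := by
    intro a ha h
    obtain ⟨h1, -⟩ := (pinf_c16 _ _).1 h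
    omega

theorem globAt (hB : B.Ok) (n : ℕ) (x : Δ) : GlobAt B.interp n x where
  g := by
    refine ⟨B.E 0, ?_, ?_⟩
    · rw [interp_r _ (by decide)]
      exact rfl
    · rw [interp_c _ (by decide)]
      exact ⟨rfl, rfl⟩
  act := by
    intro _ _ y _
    rw [interp_c _ (by decide)]
    exact rfl
  fl := by
    intro i _ _ h y _
    rw [interp_c _ (by decide)] at h ⊢
    exact h
  td := by
    intro i _ _ h y _
    rw [interp_c _ (by decide)] at h ⊢
    exact h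
  te := by
    intro i _ _ h y _
    rw [interp_c _ (by decide)] at h ⊢
    exact h

end Par

end Pool.Agent.H24N
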