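import Pool.Agent.Lib.H24N.ParA

/-!
# Bounds and carries of `Par.interp`
-/

set_option autoImplicit false

namespace Pool.Agent.H24N

namespace Par

variable {Δ : Type} {B : Par Δ}

/-- the elements of the register chain -/
private theorem mem_c5 {x : Δ} : x ∈ B.interp.c 5 0 ↔ ∃ i, i < 2 ^ (B.k + 3) ∧ x = B.E i := by
  rw [B.interp_c (by norm_num)]
  show (0 = 0 ∧ ∃ i, i < 2 ^ (B.k + 3) ∧ x = B.E i) ↔ _
  simp

/-- the bits of a carry -/
private theorem mem_c6 (hB : B.Ok) {i : ℕ} (h1 : 2 ^ B.k ≤ i) (h2 : i < 4 * 2 ^ B.k) :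
    B.E i ∈ B.interp.c 6 0 ↔ ∀ l, 2 ^ B.k ≤ l → l < i → (B.reg 10).testBit l = true := by
  rw [B.interp_c (by norm_num)]
  constructor
  · rintro ⟨i', h1', h2', he, h⟩
    have := hB.inj he
    subst this
    exact h
  · intro h
    exact ⟨i, h1, h2, rfl, h⟩

private theorem mem_c7 (hB : B.Ok) {i : ℕ} (h1 : 2 * 2 ^ B.k ≤ i) (h2 : i < 4 * 2 ^ B.k) :
    B.E i ∈ B.interp.c 7 0 ↔ ∀ l, 2 * 2 ^ B.k ≤ l → l < i → (B.reg 10).testBit l = true := by
  rw [B.interp_c (by norm_num)]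
  constructor
  · rintro ⟨i', h1', h2', he, h⟩
    have := hB.inj he
    subst this
    exact h
  · intro h
    exact ⟨i, h1, h2, rfl, h⟩

private theorem mem_c10 (hB : B.Ok) {i : ℕ} (hi : i < 2 ^ (B.k + 3)) :
    B.E i ∈ B.interp.c 10 0 ↔ (B.reg 10).testBit i = true := by
  rw [B.interp_c (by norm_num)]
  constructor
  · rintro ⟨i', _, he, h⟩
    have := hB.inj he
    subst this
    exact h
  · intro h
    exact ⟨i, hi, rfl, h⟩

/-- predecessors in the register chain -/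
private theorem r3_iff (hB : B.Ok) {i : ℕ} (hi : i + 1 < 2 ^ (B.k + 3)) (y : Δ) :
    B.interp.r 3 0 y (B.E (i + 1)) ↔ y = B.E i := by
  rw [B.interp_r (by norm_num)]
  constructor
  · rintro ⟨i', _, hx, hy⟩
    have := hB.inj hy
    have h2 : i' = i := by omega
    rw [hx, h2]
  · intro h
    exact ⟨i, hi, h, rfl⟩

/-- a number with a big bit -/
private theorem exists_big_bit {m n v : ℕ} (h1 : 2 ^ m ≤ v) (h2 : v < 2 ^ n) :
    ∃ i, m ≤ i ∧ i < n ∧ v.testBit i = true := by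
  by_contra h
  push Not at h
  have : v < 2 ^ m := by
    apply Nat.lt_pow_two_of_testBit
    intro i hi
    by_cases h3 : i < n
    · have := h i hi h3
      simpa using this
    · exact Nat.testBit_lt_two_pow (lt_of_lt_of_le h2 (Nat.pow_le_pow_right (by norm_num) (by omega)))
  omega

theorem miscAt (hB : B.Ok) (x : Δ) : MiscAt B.interp B.k x := by
  have hpow : 2 ^ (B.k + 3) = 8 * 2 ^ B.k := by rw [pow_add]; ring
  have hpos : 0 < 2 ^ B.k := Nat.two_pow_pos _
  refine ⟨?_, ?_, ?_, ?_, ?_, ?_, ?_⟩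
  · intro _
    obtain ⟨i, h1, h2, h3⟩ := exists_big_bit hB.leS (hB.reg_lt 8)
    refine ⟨B.E i, ?_, mem_c5.2 ⟨i, h2, rfl⟩, ?_, ?_⟩
    · rw [B.interp_r (by norm_num)]
      trivial
    · rw [cv_E hB h2]; exact h1
    · rw [B.interp_c (by norm_num)]
      exact ⟨i, h2, rfl, h3⟩
  · intro _
    obtain ⟨i, h1, h2, h3⟩ := exists_big_bit hB.leT (hB.reg_lt 9)
    refine ⟨B.E i, ?_, mem_c5.2 ⟨i, h2, rfl⟩, ?_, ?_⟩
    · rw [B.interp_r (by norm_num)]
      trivial
    · rw [cv_E hB h2]; exact h1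
    · rw [B.interp_c (by norm_num)]
      exact ⟨i, h2, rfl, h3⟩
  · intro _
    rw [B.interp_c (by norm_num)]
    rintro ⟨i, _, _, h⟩
    rw [hB.z] at h
    simp at h
  · intro h5 hc
    obtain ⟨i, hi, rfl⟩ := mem_c5.1 h5
    rw [cv_E hB hi] at hc
    rw [mem_c6 hB (by omega) (by omega)]
    intro l h1 h2
    omega
  · intro h5 hc1 hc2
    obtain ⟨i, hi, rfl⟩ := mem_c5.1 h5
    rw [cv_E hB hi] at hc1 hc2
    obtain ⟨i, rfl⟩ : ∃ j, i = j + 1 := ⟨i - 1, by omega⟩
    rw [mem_c6 hB (by omega) (by omega)]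
    constructor
    · intro h
      refine ⟨B.E i, (r3_iff hB hi _).2 rfl, mem_c5.2 ⟨i, by omega, rfl⟩, ?_, ?_⟩
      · rw [mem_c6 hB (by omega) (by omega)]
        intro l h1 h2
        exact h l h1 (by omega)
      · rw [mem_c10 hB (by omega)]
        exact h i (by omega) (by omega)
    · rintro ⟨y, hy, _, h6, h10⟩
      rw [r3_iff hB hi] at hy
      subst hy
      rw [mem_c6 hB (by omega) (by omega)] at h6
      rw [mem_c10 hB (by omega)] at h10
      intro l h1 h2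
      rcases Nat.lt_succ_iff_lt_or_eq.1 h2 with h | h
      · exact h6 l h1 h
      · rw [h]; exact h10
  · intro h5 hc
    obtain ⟨i, hi, rfl⟩ := mem_c5.1 h5
    rw [cv_E hB hi] at hc
    rw [mem_c7 hB (by omega) (by omega)]
    intro l h1 h2
    omega
  · intro h5 hc1 hc2
    obtain ⟨i, hi, rfl⟩ := mem_c5.1 h5
    rw [cv_E hB hi] at hc1 hc2
    obtain ⟨i, rfl⟩ : ∃ j, i = j + 1 := ⟨i - 1, by omega⟩
    rw [mem_c7 hB (by omega) (by omega)]
    constructor
    · intro h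
      refine ⟨B.E i, (r3_iff hB hi _).2 rfl, mem_c5.2 ⟨i, by omega, rfl⟩, ?_, ?_⟩
      · rw [mem_c7 hB (by omega) (by omega)]
        intro l h1 h2
        exact h l h1 (by omega)
      · rw [mem_c10 hB (by omega)]
        exact h i (by omega) (by omega)
    · rintro ⟨y, hy, _, h6, h10⟩
      rw [r3_iff hB hi] at hy
      subst hy
      rw [mem_c7 hB (by omega) (by omega)] at h6
      rw [mem_c10 hB (by omega)] at h10
      intro l h1 h2
      rcases Nat.lt_succ_iff_lt_or_eq.1 h2 with h | h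
      · exact h6 l h1 h
      · rw [h]; exact h10

end Par

end Pool.Agent.H24N
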