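import Pool.Agent.Lib.H24N.ParA

/-!
# The selected nodes of `Par.interp`
-/

set_option autoImplicit false

namespace Pool.Agent.H24N

namespace Par

variable {Δ : Type} {B : Par Δ}

theorem psel_c5 (x : Δ) : x ∈ B.interp.c 5 0 ↔ ∃ i, i < 2 ^ (B.k + 3) ∧ x = B.E i := by
  rw [interp_c _ (by decide)]
  show ((0 : ℕ) = 0 ∧ _) ↔ _
  simp

theorem psel_c19 (μ : ℕ) (x : Δ) : x ∈ B.interp.c 19 μ ↔
    ∃ i r v, i < 2 ^ (B.k + 3) ∧ r ≤ B.κ μ ∧ v < 2 ^ i ∧ x = B.E (nd i r v) := by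
  rw [interp_c _ (by decide)]
  exact Iff.rfl

theorem psel_c20 (μ : ℕ) (x : Δ) : x ∈ B.interp.c 20 μ ↔
    ∃ i v, i < 2 ^ (B.k + 3) ∧ v < 2 ^ i ∧ x = B.E (nd i 0 v) := by
  rw [interp_c _ (by decide)]
  exact Iff.rfl

theorem psel_c21 (μ : ℕ) (x : Δ) : x ∈ B.interp.c 21 μ ↔ x ∈ B.sel μ := by
  rw [interp_c _ (by decide)]
  exact Iff.rfl

theorem psel_c15 (j : ℕ) (x : Δ) : x ∈ B.interp.c 15 j ↔ x ∈ B.V j := by
  rw [interp_c _ (by decide)]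
  exact Iff.rfl

theorem psel_r7 (μ : ℕ) (x y : Δ) : B.interp.r 7 μ x y ↔
    ∃ i r v, i < 2 ^ (B.k + 3) ∧ r ≤ B.κ μ ∧ v < 2 ^ i ∧ x = B.E (nd i r v) ∧ y = B.E i := by
  rw [interp_r _ (by decide)]
  exact Iff.rfl

theorem psel_r6 (μ : ℕ) (x y : Δ) : B.interp.r 6 μ x y ↔ x ∈ B.sel μ ∧ y = B.f μ x := by
  rw [interp_r _ (by decide)]
  exact Iff.rfl

theorem psel_md {μ : ℕ} (hμ : μ < 5) (x : Δ) : x ∈ B.interp.c (mdOf μ) 0 ↔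
    ∃ i, i < 2 ^ (B.k + 3) ∧ x = B.E i ∧ (B.reg (mdOf μ)).testBit i = true := by
  interval_cases μ <;> (rw [interp_c _ (by decide)]; exact Iff.rfl)

theorem psel_rs {μ : ℕ} (hμ : μ < 5) (x : Δ) : x ∈ B.interp.c (rsOf μ) 0 ↔
    ∃ i, i < 2 ^ (B.k + 3) ∧ x = B.E i ∧ (B.reg (rsOf μ)).testBit i = true := by
  interval_cases μ <;> (rw [interp_c _ (by decide)]; exact Iff.rfl)

theorem psel_inj (hB : B.Ok) {i r v i' r' v' : ℕ} (h : B.E (nd i r v) = B.E (nd i' r' v')) :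
    i = i' ∧ r = r' ∧ v = v' := nd_inj.1 (hB.inj h)

theorem selAt (hB : B.Ok) {μ : ℕ} (hμ : μ < 5) (x : Δ) :
    SelAt B.interp B.k μ (mdOf μ) (rsOf μ) (fxOf μ) x where
  reg := by
    rw [psel_c19]
    rintro ⟨i, r, v, hi, hr, hv, rfl⟩
    exact ⟨B.E i, (psel_r7 _ _ _).2 ⟨i, r, v, hi, hr, hv, rfl, rfl⟩, (psel_c5 _).2 ⟨i, hi, rfl⟩⟩
  regc := by
    intro _ y hy _
    obtain ⟨i, r, v, hi, hr, hv, rfl, rfl⟩ := (psel_r7 _ _ _).1 hy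
    rw [cv_E hB hi, cv_nd hB hμ hi hr hv]
  selF := by
    rw [psel_c21, psel_c19]
    rintro ⟨i, r, v, hi, hr, hv, hx, -⟩
    exact ⟨i, r, v, hi, hr, hv, hx⟩
  sel := by
    rw [psel_c19]
    rintro ⟨i, r, v, hi, hr, hv, rfl⟩
    rw [psel_c21, psel_c20]
    have h20 : (∃ i' v', i' < 2 ^ (B.k + 3) ∧ v' < 2 ^ i' ∧
        B.E (nd i r v) = B.E (nd i' 0 v')) ↔ r = 0 := by
      constructor
      · rintro ⟨i', v', -, -, h⟩
        exact (psel_inj hB h).2.1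
      · rintro rfl
        exact ⟨i, v, hi, hv, rfl⟩
    have h21 : B.E (nd i r v) ∈ B.sel μ ↔
        ((r = 0 ∧ (B.reg (rsOf μ)).testBit i = true) ∨
          (r ≠ 0 ∧ (B.reg (mdOf μ)).testBit i = true)) := by
      constructor
      · rintro ⟨i', r', v', -, -, -, h, h2⟩
        obtain ⟨rfl, rfl, rfl⟩ := psel_inj hB h
        exact h2
      · intro h
        exact ⟨i, r, v, hi, hr, hv, rfl, h⟩
    have hex : ∀ c : ℕ, (∀ y, y ∈ B.interp.c c 0 ↔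
        ∃ i, i < 2 ^ (B.k + 3) ∧ y = B.E i ∧ (B.reg c).testBit i = true) →
        ((∃ y, B.interp.r 7 μ (B.E (nd i r v)) y ∧ y ∈ B.interp.c 5 0 ∧ y ∈ B.interp.c c 0) ↔
          (B.reg c).testBit i = true) := by
      intro c hc
      constructor
      · rintro ⟨y, h1, -, h3⟩
        obtain ⟨i', r', v', -, -, -, h, rfl⟩ := (psel_r7 _ _ _).1 h1
        obtain ⟨rfl, rfl, rfl⟩ := psel_inj hB h
        obtain ⟨i'', -, h4, h5⟩ := (hc _).1 h3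
        rw [hB.inj h4]
        exact h5
      · intro h
        exact ⟨B.E i, (psel_r7 _ _ _).2 ⟨i, r, v, hi, hr, hv, rfl, rfl⟩,
          (psel_c5 _).2 ⟨i, hi, rfl⟩, (hc _).2 ⟨i, hi, rfl, h⟩⟩
    rw [h20, h21, hex _ (psel_rs hμ), hex _ (psel_md hμ)]
  m1 := by
    rw [psel_c21]
    intro hx
    exact ⟨B.f μ x, (psel_r6 _ _ _).2 ⟨hx, rfl⟩, (psel_c15 _ _).2 ((hB.bij μ hμ).mapsTo hx)⟩
  m2 := by
    rw [psel_c15]
    intro hx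
    obtain ⟨y, hy, rfl⟩ := (hB.bij μ hμ).surjOn hx
    exact ⟨y, (psel_r6 _ _ _).2 ⟨hy, rfl⟩, (psel_c21 _ _).2 hy⟩
  f1 := by
    intro y z hy hz
    rw [((psel_r6 _ _ _).1 hy).2, ((psel_r6 _ _ _).1 hz).2]
  f2 := by
    intro y z hy hz
    obtain ⟨h1, h2⟩ := (psel_r6 _ _ _).1 hy
    obtain ⟨h3, h4⟩ := (psel_r6 _ _ _).1 hz
    exact (hB.bij μ hμ).injOn h1 h3 (by rw [← h2, ← h4])

end Par

end Pool.Agent.H24N
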