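import Pool.Agent.Lib.H24N.ParA

/-!
# The trees of `Par.interp`
-/

set_option autoImplicit false

namespace Pool.Agent.H24N

namespace Par

variable {Δ : Type} {B : Par Δ}

theorem tree_c1 (x : Δ) : x ∈ B.interp.c 1 0 ↔ x = B.E 0 := by
  rw [interp_c _ (by decide)]
  show (x = B.E 0 ∧ (0 : ℕ) = 0) ↔ _
  simp

theorem tree_c19 (μ : ℕ) (x : Δ) : x ∈ B.interp.c 19 μ ↔
    ∃ i r v, i < 2 ^ (B.k + 3) ∧ r ≤ B.κ μ ∧ v < 2 ^ i ∧ x = B.E (nd i r v) := by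
  rw [interp_c _ (by decide)]
  exact Iff.rfl

theorem tree_c20 (μ : ℕ) (x : Δ) : x ∈ B.interp.c 20 μ ↔
    ∃ i v, i < 2 ^ (B.k + 3) ∧ v < 2 ^ i ∧ x = B.E (nd i 0 v) := by
  rw [interp_c _ (by decide)]
  exact Iff.rfl

theorem tree_r4 (μ : ℕ) (x y : Δ) : B.interp.r 4 μ x y ↔
    ∃ i r v, i + 1 < 2 ^ (B.k + 3) ∧ r ≤ B.κ μ ∧ v < 2 ^ i ∧ x = B.E (nd i r v) ∧
      y = B.E (nd (i + 1) r (2 * v)) := by
  rw [interp_r _ (by decide)]
  exact Iff.rfl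

theorem tree_r5 (μ : ℕ) (x y : Δ) : B.interp.r 5 μ x y ↔
    ∃ i r v, i + 1 < 2 ^ (B.k + 3) ∧ r ≤ B.κ μ ∧ v < 2 ^ i ∧ x = B.E (nd i r v) ∧
      y = B.E (nd (i + 1) r (2 * v + 1)) := by
  rw [interp_r _ (by decide)]
  exact Iff.rfl

theorem tree_inj (hB : B.Ok) {i r v i' r' v' : ℕ} (h : B.E (nd i r v) = B.E (nd i' r' v')) :
    i = i' ∧ r = r' ∧ v = v' := nd_inj.1 (hB.inj h)

theorem tree_pow {i v : ℕ} (hv : v < 2 ^ i) : 2 * v < 2 ^ (i + 1) ∧ 2 * v + 1 < 2 ^ (i + 1) := by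
  rw [pow_succ]
  omega

theorem treeAt (hB : B.Ok) {μ : ℕ} (hμ : μ < 5) (x : Δ) : TreeAt B.interp B.k μ x where
  root := by
    rw [tree_c1, tree_c19, tree_c20]
    constructor
    · intro h
      have h0 : x = B.E (nd 0 0 0) := by rw [h, nd_zero]
      have hp : 0 < 2 ^ (B.k + 3) := Nat.two_pow_pos _
      refine ⟨⟨0, 0, 0, hp, Nat.zero_le _, by norm_num, h0⟩, ⟨0, 0, hp, by norm_num, h0⟩, ?_⟩
      rw [h0]
      exact cv_nd hB hμ hp (Nat.zero_le _) (by norm_num)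
    · rintro ⟨-, ⟨i, v, hi, hv, rfl⟩, h0⟩
      rw [cv_nd hB hμ hi (Nat.zero_le _) hv] at h0
      subst h0
      have : v = 0 := by simpa using hv
      rw [this, nd_zero]
  left := by
    rw [tree_c19]
    rintro ⟨i, r, v, hi, hr, hv, rfl⟩ h0
    rw [cv_nd hB hμ hi hr hv] at h0
    have hi1 : i + 1 < 2 ^ (B.k + 3) := by omega
    exact ⟨_, (tree_r4 _ _ _).2 ⟨i, r, v, hi1, hr, hv, rfl, rfl⟩,
      (tree_c19 _ _).2 ⟨_, _, _, hi1, hr, (tree_pow hv).1, rfl⟩⟩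
  right := by
    rw [tree_c19]
    rintro ⟨i, r, v, hi, hr, hv, rfl⟩ h0
    rw [cv_nd hB hμ hi hr hv] at h0
    have hi1 : i + 1 < 2 ^ (B.k + 3) := by omega
    exact ⟨_, (tree_r5 _ _ _).2 ⟨i, r, v, hi1, hr, hv, rfl, rfl⟩,
      (tree_c19 _ _).2 ⟨_, _, _, hi1, hr, (tree_pow hv).2, rfl⟩⟩
  par := by
    rw [tree_c19]
    rintro ⟨i, r, v, hi, hr, hv, rfl⟩ h0
    rw [cv_nd hB hμ hi hr hv] at h0
    obtain ⟨j, rfl⟩ := Nat.exists_eq_succ_of_ne_zero h0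
    have hv2 : v / 2 < 2 ^ j := by
      have : v < 2 ^ j * 2 := by rw [← pow_succ]; exact hv
      omega
    rcases Nat.mod_two_eq_zero_or_one v with h | h
    · have e : v = 2 * (v / 2) := by omega
      refine Or.inl ⟨B.E (nd j r (v / 2)), (tree_r4 _ _ _).2 ⟨j, r, v / 2, hi, hr, hv2, rfl, ?_⟩,
        (tree_c19 _ _).2 ⟨_, _, _, by omega, hr, hv2, rfl⟩⟩
      rw [← e]
    · have e : v = 2 * (v / 2) + 1 := by omega
      refine Or.inr ⟨B.E (nd j r (v / 2)), (tree_r5 _ _ _).2 ⟨j, r, v / 2, hi, hr, hv2, rfl, ?_⟩,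
        (tree_c19 _ _).2 ⟨_, _, _, by omega, hr, hv2, rfl⟩⟩
      rw [← e]
  l1 := by
    intro y z hy hz
    obtain ⟨i, r, v, -, -, -, hx, rfl⟩ := (tree_r4 _ _ _).1 hy
    obtain ⟨i', r', v', -, -, -, hx', rfl⟩ := (tree_r4 _ _ _).1 hz
    rw [hx] at hx'
    obtain ⟨rfl, rfl, rfl⟩ := tree_inj hB hx'
    rfl
  l2 := by
    intro y z hy hz
    obtain ⟨i, r, v, -, -, -, rfl, hx⟩ := (tree_r4 _ _ _).1 hy
    obtain ⟨i', r', v', -, -, -, rfl, hx'⟩ := (tree_r4 _ _ _).1 hz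
    rw [hx] at hx'
    obtain ⟨h1, h2, h3⟩ := tree_inj hB hx'
    have e1 : i = i' := by omega
    have e3 : v = v' := by omega
    rw [e1, h2, e3]
  r1 := by
    intro y z hy hz
    obtain ⟨i, r, v, -, -, -, hx, rfl⟩ := (tree_r5 _ _ _).1 hy
    obtain ⟨i', r', v', -, -, -, hx', rfl⟩ := (tree_r5 _ _ _).1 hz
    rw [hx] at hx'
    obtain ⟨rfl, rfl, rfl⟩ := tree_inj hB hx'
    rfl
  r2 := by
    intro y z hy hz
    obtain ⟨i, r, v, -, -, -, rfl, hx⟩ := (tree_r5 _ _ _).1 hy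
    obtain ⟨i', r', v', -, -, -, rfl, hx'⟩ := (tree_r5 _ _ _).1 hz
    rw [hx] at hx'
    obtain ⟨h1, h2, h3⟩ := tree_inj hB hx'
    have e1 : i = i' := by omega
    have e3 : v = v' := by omega
    rw [e1, h2, e3]
  lr := by
    intro y z hy _ hz _
    obtain ⟨i, r, v, -, -, -, rfl, hx⟩ := (tree_r4 _ _ _).1 hy
    obtain ⟨i', r', v', -, -, -, rfl, hx'⟩ := (tree_r5 _ _ _).1 hz
    rw [hx] at hx'
    obtain ⟨h1, h2, h3⟩ := tree_inj hB hx'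
    omega
  spL := by
    intro _ y hy _
    obtain ⟨i, r, v, hi, hr, hv, rfl, rfl⟩ := (tree_r4 _ _ _).1 hy
    rw [tree_c20, tree_c20]
    constructor
    · rintro ⟨i', v', -, -, h⟩
      obtain ⟨-, rfl, -⟩ := tree_inj hB h
      exact ⟨i, v, by omega, hv, rfl⟩
    · rintro ⟨i', v', -, -, h⟩
      obtain ⟨-, rfl, -⟩ := tree_inj hB h
      exact ⟨i + 1, 2 * v, hi, (tree_pow hv).1, rfl⟩
  spR := by
    intro _ y hy _
    obtain ⟨i, r, v, hi, hr, hv, rfl, rfl⟩ := (tree_r5 _ _ _).1 hy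
    rw [tree_c20, tree_c20]
    constructor
    · rintro ⟨i', v', -, -, h⟩
      obtain ⟨-, rfl, -⟩ := tree_inj hB h
      exact ⟨i, v, by omega, hv, rfl⟩
    · rintro ⟨i', v', -, -, h⟩
      obtain ⟨-, rfl, -⟩ := tree_inj hB h
      exact ⟨i + 1, 2 * v + 1, hi, (tree_pow hv).2, rfl⟩
  incL := by
    intro _ y hy _
    obtain ⟨i, r, v, hi, hr, hv, rfl, rfl⟩ := (tree_r4 _ _ _).1 hy
    rw [cv_nd hB hμ hi hr (tree_pow hv).1, cv_nd hB hμ (by omega) hr hv, Nat.mod_eq_of_lt hi]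
  incR := by
    intro _ y hy _
    obtain ⟨i, r, v, hi, hr, hv, rfl, rfl⟩ := (tree_r5 _ _ _).1 hy
    rw [cv_nd hB hμ hi hr (tree_pow hv).2, cv_nd hB hμ (by omega) hr hv, Nat.mod_eq_of_lt hi]

end Par

end Pool.Agent.H24N
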