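import Pool.Agent.Lib.H24N.ParA

/-!
# The violations of `Par.interp`
-/

set_option autoImplicit false

namespace Pool.Agent.H24N

namespace Par

variable {Δ : Type} {B : Par Δ}

/-- a segment that is not maximal has a bit `0` -/
theorem exists_bit_false {α l a : ℕ} (h : seg α l a + 1 < 2 ^ l) :
    ∃ i, α ≤ i ∧ i < α + l ∧ a.testBit i = false := by
  by_contra hc
  push Not at hc
  have : seg α l a = 2 ^ l - 1 :=
    (seg_eq_max_iff α l a).2 fun i h1 h2 => by simpa using hc i h1 h2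
  omega

theorem violAt (hB : B.Ok) {P : Til} (hP : P.Wf) (hk : B.k = P.k)
    (h : ViolNum P B.fl B.td B.te (B.reg 10) (B.reg 12) (B.reg 13)) :
    ViolAt B.interp P (B.E 0) := by
  have hpow : 2 ^ (P.k + 3) = 8 * 2 ^ P.k := by ring
  have hpos : 0 < 2 ^ P.k := by positivity
  have c29 : ∀ i x, x ∈ B.interp.c 29 i ↔ B.fl i := by
    intro i x; rw [B.interp_c (by norm_num)]; rfl
  have c30 : ∀ i x, x ∈ B.interp.c 30 i ↔ B.td i := by
    intro i x; rw [B.interp_c (by norm_num)]; rfl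
  have c31 : ∀ i x, x ∈ B.interp.c 31 i ↔ B.te i := by
    intro i x; rw [B.interp_c (by norm_num)]; rfl
  have r1 : ∀ x y, B.interp.r 1 0 x y := by
    intro x y; rw [B.interp_r (by norm_num)]; trivial
  have c5 : ∀ i, i < 2 ^ (P.k + 3) → B.E i ∈ B.interp.c 5 0 := by
    intro i hi; rw [B.interp_c (by norm_num)]; exact ⟨rfl, i, by rwa [hk], rfl⟩
  have c10 : ∀ i, B.E i ∈ B.interp.c 10 0 ↔ i < 2 ^ (P.k + 3) ∧ (B.reg 10).testBit i = true := by
    intro i; rw [B.interp_c (by norm_num), ← hk]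
    constructor
    · rintro ⟨i', h1, h2, h3⟩
      have := hB.inj h2
      subst this
      exact ⟨h1, h3⟩
    · rintro ⟨h1, h2⟩
      exact ⟨i, h1, rfl, h2⟩
  have c12 : ∀ i, B.E i ∈ B.interp.c 12 0 ↔ i < 2 ^ (P.k + 3) ∧ (B.reg 12).testBit i = true := by
    intro i; rw [B.interp_c (by norm_num), ← hk]
    constructor
    · rintro ⟨i', h1, h2, h3⟩
      have := hB.inj h2
      subst this
      exact ⟨h1, h3⟩
    · rintro ⟨h1, h2⟩
      exact ⟨i, h1, rfl, h2⟩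
  have c13 : ∀ i, B.E i ∈ B.interp.c 13 0 ↔ i < 2 ^ (P.k + 3) ∧ (B.reg 13).testBit i = true := by
    intro i; rw [B.interp_c (by norm_num), ← hk]
    constructor
    · rintro ⟨i', h1, h2, h3⟩
      have := hB.inj h2
      subst this
      exact ⟨h1, h3⟩
    · rintro ⟨h1, h2⟩
      exact ⟨i, h1, rfl, h2⟩
  have c6 : ∀ i, B.E i ∈ B.interp.c 6 0 ↔ 2 ^ P.k ≤ i ∧ i < 4 * 2 ^ P.k ∧
      ∀ l, 2 ^ P.k ≤ l → l < i → (B.reg 10).testBit l = true := by
    intro i; rw [B.interp_c (by norm_num), ← hk]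
    constructor
    · rintro ⟨i', h1, h2, h3, h4⟩
      have := hB.inj h3
      subst this
      exact ⟨h1, h2, h4⟩
    · rintro ⟨h1, h2, h3⟩
      exact ⟨i, h1, h2, rfl, h3⟩
  have hcv : ∀ i, i < 2 ^ (P.k + 3) → cv B.interp P.k 18 (B.E i) = i := by
    intro i hi
    have := cv_E hB (i := i) (by rwa [hk])
    rwa [hk] at this
  have hreg : ∀ c, B.reg c < 2 ^ 2 ^ (P.k + 3) := by
    intro c; have := hB.reg_lt c; rwa [hk] at this
  -- the witness for a bit `0` in a segment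
  have wit : ∀ α l, α + l ≤ 4 * 2 ^ P.k → seg α l (B.reg 10) + 1 < 2 ^ l →
      ∃ y, B.interp.r 1 0 (B.E 0) y ∧ y ∈ B.interp.c 5 0 ∧
        (α ≤ cv B.interp P.k 18 y ∧ cv B.interp P.k 18 y < α + l) ∧ y ∉ B.interp.c 10 0 := by
    intro α l hl hlt
    obtain ⟨i, h1, h2, h3⟩ := exists_bit_false hlt
    have hi : i < 2 ^ (P.k + 3) := by omega
    refine ⟨B.E i, r1 _ _, c5 i hi, ?_, ?_⟩
    · rw [hcv i hi]; exact ⟨h1, h2⟩
    · rw [c10, h3]; simp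
  rcases h with ⟨d, hd, h0, hd'⟩ | ⟨d, hd, h1, hd'⟩ | h2 | ⟨hlt, h3⟩ | ⟨p, hp, h5, h6, hlt, h7, h8⟩ |
    ⟨p, hp, h5, h6, hlt, h7, h8⟩
  · exact Or.inl ⟨d, hd, (c29 _ _).2 h0, (c30 _ _).2 hd'⟩
  · exact Or.inr (Or.inl ⟨d, hd, (c29 _ _).2 h1, (c30 _ _).2 hd'⟩)
  · exact Or.inr (Or.inr (Or.inl ((c29 _ _).2 h2)))
  · refine Or.inr (Or.inr (Or.inr (Or.inl ⟨?_, ?_⟩)))
    · obtain ⟨y, y1, y2, ⟨y3, y4⟩, y5⟩ := wit (2 ^ P.k) (3 * 2 ^ P.k) (by omega) hlt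
      exact ⟨y, y1, y2, ⟨y3, by omega⟩, y5⟩
    · rcases h3 with h3 | ⟨h4, h5 | h5⟩
      · exact Or.inl ((c29 _ _).2 h3)
      · refine Or.inr ⟨(c29 _ _).2 h4, Or.inl ?_⟩
        obtain ⟨i, hi⟩ := Nat.exists_testBit_of_ne_zero h5
        have hi' : i < 2 ^ (P.k + 3) := by
          by_contra hc
          rw [not_lt] at hc
          have := Nat.testBit_lt_two_pow (lt_of_lt_of_le (hreg 12)
            (Nat.pow_le_pow_right (by norm_num) hc))
          rw [this] at hi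
          simp at hi
        exact ⟨B.E i, r1 _ _, c5 i hi', (c12 i).2 ⟨hi', hi⟩⟩
      · refine Or.inr ⟨(c29 _ _).2 h4, Or.inr ?_⟩
        have h6 : ¬ ∀ i, 2 ^ P.k ≤ i → i < 2 ^ P.k + 3 * 2 ^ P.k →
            ((B.reg 13).testBit i = true ↔ ¬ ((B.reg 10).testBit i = true ↔
              ∀ j, 2 ^ P.k ≤ j → j < i → (B.reg 10).testBit j = true)) := fun h =>
          h5 ((seg_succ _ _ _ _).2 h)
        simp only [not_forall] at h6
        obtain ⟨i, h7, h8, h9⟩ := h6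
        have hi : i < 2 ^ (P.k + 3) := by omega
        refine ⟨B.E i, r1 _ _, c5 i hi, ?_, ?_⟩
        · rw [hcv i hi]; exact ⟨h7, by omega⟩
        · rw [c13, c10, c6]
          have e1 : (2 ^ P.k ≤ i ∧ i < 4 * 2 ^ P.k ∧
              ∀ l, 2 ^ P.k ≤ l → l < i → (B.reg 10).testBit l = true) ↔
              ∀ l, 2 ^ P.k ≤ l → l < i → (B.reg 10).testBit l = true :=
            ⟨fun h => h.2.2, fun h => ⟨h7, by omega, h⟩⟩
          rw [e1]
          simp only [hi, true_and]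
          exact h9
  · refine Or.inr (Or.inr (Or.inr (Or.inr (Or.inl ⟨p, hp, (c29 _ _).2 h5, (c29 _ _).2 h6, ?_,
      (c30 _ _).2 h7, (c31 _ _).2 h8⟩))))
    obtain ⟨y, y1, y2, ⟨y3, y4⟩, y5⟩ := wit (2 ^ P.k) (2 ^ P.k) (by omega) hlt
    exact ⟨y, y1, y2, ⟨y3, by omega⟩, y5⟩
  · refine Or.inr (Or.inr (Or.inr (Or.inr (Or.inr ⟨p, hp, (c29 _ _).2 h5, (c29 _ _).2 h6, ?_,
      (c30 _ _).2 h7, (c31 _ _).2 h8⟩))))
    obtain ⟨y, y1, y2, ⟨y3, y4⟩, y5⟩ := wit (2 * 2 ^ P.k) (2 * 2 ^ P.k) (by omega) hlt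
    exact ⟨y, y1, y2, ⟨y3, by omega⟩, y5⟩

end Par

end Pool.Agent.H24N
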