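import Pool.Agent.Lib.H24N.ParLt
import Pool.Agent.Lib.H24N.ParMisc
import Pool.Agent.Lib.H24N.ParTree
import Pool.Agent.Lib.H24N.ParSel
import Pool.Agent.Lib.H24N.ParFlag
import Pool.Agent.Lib.H24N.ParInf
import Pool.Agent.Lib.H24N.ParViol

/-!
# `Par.interp` is a model
-/

set_option autoImplicit false

namespace Pool.Agent.H24N

namespace Par

variable {Δ : Type} {B : Par Δ}

theorem isModel (hB : B.Ok) {P : Til} (hP : P.Wf) (hk : B.k = P.k)
    (h : FlagNum B.k P.n B.fl B.td B.te (B.reg 9) (B.reg 10) (B.reg 11) (B.reg 12) (B.reg 13))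
    (htop : (B.mn ∧ B.ch ∧ B.fl 0) ∨ ViolNum P B.fl B.td B.te (B.reg 10) (B.reg 12) (B.reg 13)) :
    IsModel B.interp P := by
  have hN : B.interp.c 1 0 = {B.E 0} := by
    rw [B.interp_c (by norm_num)]
    ext x
    show (x = B.E 0 ∧ 0 = 0) ↔ x = B.E 0
    simp
  have hT : B.interp.c 2 0 = {B.E 0} := by
    rw [B.interp_c (by norm_num)]
    ext x
    show (x = B.E 0 ∧ 0 = 0) ↔ x = B.E 0
    simp
  have hind : B.interp.ind 0 = B.E 0 := hB.ind
  have hAct : ∀ x, x ∈ B.interp.c 3 0 := by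
    intro x
    rw [B.interp_c (by norm_num)]
    show (0 : ℕ) = 0
    rfl
  refine ⟨globAt hB P.n, infAt hB, ?_, ?_, ?_, ?_⟩
  · intro x hx
    rw [hT, Set.mem_singleton_iff] at hx
    subst hx
    rcases htop with ⟨h1, h2, h3⟩ | hv
    · left
      refine ⟨?_, hAct _, ⟨B.E 0, ?_, ?_, ?_⟩, ?_⟩
      · rw [B.interp_c (by norm_num)]
        exact ⟨rfl, rfl, h1⟩
      · rw [B.interp_r (by norm_num)]
        trivial
      · rw [B.interp_c (by norm_num)]
        exact ⟨rfl, h2, 0, rfl⟩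
      · rw [B.interp_c (by norm_num)]
        exact ⟨rfl, h2, rfl⟩
      · rw [B.interp_c (by norm_num)]
        exact h3
    · right; right; right
      exact ⟨hAct _, violAt hB hP hk hv⟩
  · intro x _
    rw [← hk]
    refine ⟨chainAt hB x, ?_, ?_, miscAt hB x, flagAt hB (by rw [hk]; exact hP.n_le) h x⟩
    · intro p hp
      obtain ⟨h1, h2, h3, h4⟩ := modules_eq hp
      rw [h2, h3, h4]
      exact ⟨treeAt hB h1 x, selAt hB h1 x⟩
    · intro p hp
      obtain ⟨h1, h2, h3, _⟩ := modules_eq hp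
      rw [h2, h3]
      exact ltAt hB h1 x
  · rw [hind, hN]; rfl
  · rw [hind, hT]; rfl

end Par

end Pool.Agent.H24N
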