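import Pool.Agent.Lib.H24N.Struct

/-!
# The axioms of a forest
-/

set_option autoImplicit false

namespace Pool.Agent.H24N

variable {Δ : Type}

theorem forestAt_iff (I : Interp Δ) (k μ md rs fx : ℕ) (x : Δ) :
    AxAt I (forestAx k μ md rs fx) x ↔ ForestAt I k μ md rs fx x := by
  have hincL : AxAt I (incAx k (24 + μ) (cn 19 μ) (ro 4 μ)) x ↔ (x ∈ I.c 19 μ → ∀ y, I.r 4 μ x y →
      y ∈ I.c 19 μ → cv I k (24 + μ) y = (cv I k (24 + μ) x + 1) % 2 ^ (k + 3)) :=
    incAx_iff I x k (24 + μ) (cn 19 μ) (ro 4 μ)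
  have hincR : AxAt I (incAx k (24 + μ) (cn 19 μ) (ro 5 μ)) x ↔ (x ∈ I.c 19 μ → ∀ y, I.r 5 μ x y →
      y ∈ I.c 19 μ → cv I k (24 + μ) y = (cv I k (24 + μ) x + 1) % 2 ^ (k + 3)) :=
    incAx_iff I x k (24 + μ) (cn 19 μ) (ro 5 μ)
  have hreg : AxAt I ((List.range (k + 3)).flatMap fun j =>
      [(Con.and (cn 19 μ) (cn (24 + μ) j), cAll (ro 7 μ) (cOr (.neg (cn 5 0)) (cn 18 j))),
       (.and (cn 19 μ) (.neg (cn (24 + μ) j)), cAll (ro 7 μ) (cOr (.neg (cn 5 0)) (.neg (cn 18 j))))]) x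
      ↔ (x ∈ I.c 19 μ → ∀ y, I.r 7 μ x y → y ∈ I.c 5 0 → cv I k 18 y = cv I k (24 + μ) x) := by
    rw [axAt_flatMap]
    simp only [axAt_cons, axAt_nil, and_true, mem_and, mem_neg, mem_cn, mem_cAll_ro, mem_cOr,
      List.mem_range]
    constructor
    · intro h hx y hy hy5
      have h1 : cv I k 18 y = bitsNum (k + 3) fun j => x ∈ I.c (24 + μ) j := by
        rw [eq_bitsNum_iff (cv_lt I y k 18)]
        intro j hj
        rw [cv, testBit_bitsNum]
        constructor
        · rintro ⟨_, hb⟩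
          by_contra hc
          rcases (h j hj).2 ⟨hx, hc⟩ y hy with h2 | h2
          · exact h2 hy5
          · exact h2 hb
        · intro hb
          refine ⟨hj, ?_⟩
          rcases (h j hj).1 ⟨hx, hb⟩ y hy with h2 | h2
          · exact absurd hy5 h2
          · exact h2
      exact h1
    · intro h j hj
      have key : ∀ y, x ∈ I.c 19 μ → I.r 7 μ x y → y ∈ I.c 5 0 →
          (y ∈ I.c 18 j ↔ x ∈ I.c (24 + μ) j) := by
        intro y hx hy hy5
        have h1 : cv I k 18 y = bitsNum (k + 3) fun j => x ∈ I.c (24 + μ) j := h hx y hy hy5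
        rw [eq_bitsNum_iff (cv_lt I y k 18)] at h1
        have h2 := h1 j hj
        rw [cv, testBit_bitsNum] at h2
        exact ⟨fun a => h2.1 ⟨hj, a⟩, fun a => (h2.2 a).2⟩
      constructor
      · rintro ⟨hx, hb⟩ y hy
        by_cases hy5 : y ∈ I.c 5 0
        · exact Or.inr ((key y hx hy hy5).2 hb)
        · exact Or.inl hy5
      · rintro ⟨hx, hb⟩ y hy
        by_cases hy5 : y ∈ I.c 5 0
        · exact Or.inr fun h => hb ((key y hx hy hy5).1 h)
        · exact Or.inl hy5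
  rw [forestAx, axAt_append, axAt_append, axAt_append, hincL, hincR, hreg]
  simp only [axAt_cons, axAt_nil, and_true, mem_and, mem_neg, mem_cn, mem_zeroC, mem_maxC,
    mem_ex_ro, mem_ex_ri, mem_le1_ro, mem_le1_ri, mem_cTop, true_imp_iff, mem_cOr, mem_cIff,
    mem_cAll_ro]
  constructor
  · rintro ⟨⟨⟨⟨h1, h2, h3, h4, ⟨⟨l1, l2⟩, r1, r2⟩, h6, h7, h8, h9, h10, h11, h12, h13, h14⟩, h15⟩,
      h16⟩, h17⟩
    exact
      { root := ⟨fun h => h1 h, h2⟩
        left := fun a b => (h3 ⟨a, b⟩).1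
        right := fun a b => (h3 ⟨a, b⟩).2
        par := fun a b => h4 ⟨a, b⟩
        l1 := l1
        l2 := l2
        r1 := r1
        r2 := r2
        lr := fun y z a b c d => h6 ⟨⟨y, a, b⟩, ⟨z, c, d⟩⟩
        spL := fun a y b c => by
          by_cases hx : x ∈ I.c 20 μ
          · rcases (h7 ⟨a, hx⟩).1 y b with h | h
            · exact absurd c h
            · exact ⟨fun _ => hx, fun _ => h⟩
          · rcases (h8 ⟨a, hx⟩).1 y b with h | h
            · exact absurd c h
            · exact ⟨fun h' => absurd h' h, fun h' => absurd h' hx⟩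
        spR := fun a y b c => by
          by_cases hx : x ∈ I.c 20 μ
          · rcases (h7 ⟨a, hx⟩).2 y b with h | h
            · exact absurd c h
            · exact ⟨fun _ => hx, fun _ => h⟩
          · rcases (h8 ⟨a, hx⟩).2 y b with h | h
            · exact absurd c h
            · exact ⟨fun h' => absurd h' h, fun h' => absurd h' hx⟩
        incL := h15
        incR := h16
        reg := h9
        regc := h17
        selF := h10
        sel := h11
        m1 := h12
        m2 := h13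
        f1 := h14.1
        f2 := h14.2 }
  · intro h
    refine ⟨⟨⟨⟨h.root.1, h.root.2, fun a => ⟨h.left a.1 a.2, h.right a.1 a.2⟩,
      fun a => h.par a.1 a.2, ⟨⟨h.l1, h.l2⟩, h.r1, h.r2⟩,
      fun ⟨⟨y, a, b⟩, ⟨z, c, d⟩⟩ => h.lr y z a b c d, fun a => ⟨fun y b => ?_, fun y b => ?_⟩,
      fun a => ⟨fun y b => ?_, fun y b => ?_⟩, h.reg, h.selF, h.sel, h.m1, h.m2, h.f1, h.f2⟩,
      h.incL⟩, h.incR⟩, h.regc⟩
    · by_cases c : y ∈ I.c 19 μ
      · exact Or.inr ((h.spL a.1 y b c).2 a.2)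
      · exact Or.inl c
    · by_cases c : y ∈ I.c 19 μ
      · exact Or.inr ((h.spR a.1 y b c).2 a.2)
      · exact Or.inl c
    · by_cases c : y ∈ I.c 19 μ
      · exact Or.inr fun h' => a.2 ((h.spL a.1 y b c).1 h')
      · exact Or.inl c
    · by_cases c : y ∈ I.c 19 μ
      · exact Or.inr fun h' => a.2 ((h.spR a.1 y b c).1 h')
      · exact Or.inl c

end Pool.Agent.H24N
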