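import Pool.Agent.Lib.H24N.Struct

/-!
# The axioms for the carries and the flags
-/

set_option autoImplicit false

namespace Pool.Agent.H24N

variable {Δ : Type}

theorem miscAt_iff (I : Interp Δ) (k : ℕ) (x : Δ) : AxAt I (miscAx k) x ↔ MiscAt I k x := by
  have hp : 0 < 2 ^ k := by positivity
  have sY' : x ∈ I.ext (.and (blkC k) (zerosC 18 k)) ↔ cv I k 18 x = 2 ^ k := mem_startY I x k
  have sZ' : x ∈ I.ext (.and (spaC k) (.and (.neg (cn 18 k)) (zerosC 18 k))) ↔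
      cv I k 18 x = 2 * 2 ^ k := mem_startZ I x k
  have e1 : ∀ y, y ∈ I.c 18 (k + 2) ↔ 4 * 2 ^ k ≤ cv I k 18 y := fun y => mem_hiC I y k
  have e2 : x ∈ I.ext ((spaC k).and (Con.neg ((spaC k).and (((cn 18 k).neg).and (zerosC 18 k))))) ↔
      (2 * 2 ^ k ≤ cv I k 18 x ∧ cv I k 18 x < 4 * 2 ^ k) ∧ cv I k 18 x ≠ 2 * 2 ^ k := by
    rw [mem_and, mem_neg, sZ', mem_spaC]
  have e3 : x ∈ I.ext ((regC k).and (Con.neg ((blkC k).and (zerosC 18 k)))) ↔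
      (2 ^ k ≤ cv I k 18 x ∧ cv I k 18 x < 4 * 2 ^ k) ∧ cv I k 18 x ≠ 2 ^ k := by
    rw [mem_and, mem_neg, sY', mem_regC]
  have e4 : x ∈ I.ext (.and (.ex (ro 1 0) (.and (cn 5 0) (.and (cn 18 (k + 2)) (cn 8 0))))
      (.ex (ro 1 0) (.and (cn 5 0) (.and (cn 18 (k + 2)) (cn 9 0))))) ↔
      (∃ y, I.r 1 0 x y ∧ y ∈ I.c 5 0 ∧ 4 * 2 ^ k ≤ cv I k 18 y ∧ y ∈ I.c 8 0) ∧
      ∃ y, I.r 1 0 x y ∧ y ∈ I.c 5 0 ∧ 4 * 2 ^ k ≤ cv I k 18 y ∧ y ∈ I.c 9 0 := by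
    simp only [mem_and, mem_ex_ro, mem_cn, e1]
  rw [miscAx, axAt_append, axAt_append]
  unfold carryAx
  simp only [axAt_cons, axAt_nil, and_true, mem_and (C := cn 5 0), mem_and (C := cn 6 0),
    mem_and (C := cn 7 0), mem_neg, mem_cn, sY', sZ', mem_ex_ri, mem_cIff, e2, e3, e4]
  constructor
  · rintro ⟨⟨⟨h1, h2⟩, h3, h4⟩, h5, h6⟩
    exact
      { bS := fun a => (h1 a).1
        bT := fun a => (h1 a).2
        z := h2
        cy0 := fun a b => h3 ⟨a, b⟩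
        cy := fun a b c => h4 ⟨a, ⟨by omega, c⟩, by omega⟩
        cz0 := fun a b => h5 ⟨a, b⟩
        cz := fun a b c => h6 ⟨a, ⟨by omega, c⟩, by omega⟩ }
  · intro h
    refine ⟨⟨⟨fun a => ⟨h.bS a, h.bT a⟩, h.z⟩, fun a => h.cy0 a.1 a.2, fun a => ?_⟩,
      fun a => h.cz0 a.1 a.2, fun a => ?_⟩
    · obtain ⟨a1, ⟨a2, a3⟩, a4⟩ := a
      exact h.cy a1 (by omega) a3
    · obtain ⟨a1, ⟨a2, a3⟩, a4⟩ := a
      exact h.cz a1 (by omega) a3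

theorem flagAt_iff (I : Interp Δ) (k n : ℕ) (hn : n ≤ 2 ^ k) (x : Δ) :
    AxAt I (flagAx k n) x ↔ FlagAt I k n x := by
  have e1 : x ∈ I.c 18 (k + 2) ↔ 4 * 2 ^ k ≤ cv I k 18 x := mem_hiC I x k
  have hpow : 2 ^ (k + 3) = 8 * 2 ^ k := by ring
  have e2 : ∀ d < n, (x ∈ I.ext (eqC k d) ↔ cv I k 18 x = d) := fun d hd =>
    mem_eqC I x k d (by omega)
  have hd : AxAt I ((List.range n).flatMap fun d =>
      [(Con.and (cn 5 0) (.and (cn 29 2) (eqC k d)), .neg (cn 10 0)),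
       (.and (cn 5 0) (.and (cn 30 d) (eqC k d)), cn 10 0),
       (.and (cn 5 0) (.and (cn 31 d) (eqC k d)), cn 13 0)]) x ↔
      (x ∈ I.c 5 0 → x ∈ I.c 29 2 → cv I k 18 x < n → x ∉ I.c 10 0) ∧
      (x ∈ I.c 5 0 → cv I k 18 x < n → x ∈ I.c 30 (cv I k 18 x) → x ∈ I.c 10 0) ∧
      (x ∈ I.c 5 0 → cv I k 18 x < n → x ∈ I.c 31 (cv I k 18 x) → x ∈ I.c 13 0) := by
    rw [axAt_flatMap]
    simp only [axAt_cons, axAt_nil, and_true, mem_and, mem_neg, mem_cn, List.mem_range]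
    constructor
    · intro h
      refine ⟨fun a b c => ?_, fun a b c => ?_, fun a b c => ?_⟩
      · exact (h _ c).1 ⟨a, b, (e2 _ c).2 rfl⟩
      · exact (h _ b).2.1 ⟨a, c, (e2 _ b).2 rfl⟩
      · exact (h _ b).2.2 ⟨a, c, (e2 _ b).2 rfl⟩
    · rintro ⟨h1, h2, h3⟩ d hd
      refine ⟨fun a => ?_, fun a => ?_, fun a => ?_⟩
      · obtain ⟨a1, a2, a3⟩ := a
        rw [e2 d hd] at a3
        exact h1 a1 a2 (by omega)
      · obtain ⟨a1, a2, a3⟩ := a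
        rw [e2 d hd] at a3
        subst a3
        exact h2 a1 hd a2
      · obtain ⟨a1, a2, a3⟩ := a
        rw [e2 d hd] at a3
        subst a3
        exact h3 a1 hd a2
  rw [flagAx, axAt_append, hd]
  simp only [axAt_cons, axAt_nil, and_true, mem_and, mem_neg, mem_cn, mem_cIff, mem_cXor,
    mem_regC, mem_blkC, mem_spaC, e1]
  constructor
  · rintro ⟨⟨h0, h1, h3, h4, h5, h6, h7, h8⟩, h2, h9, h10⟩
    exact
      { f0 := fun a b c d => h0 ⟨a, b, c, d⟩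
        f1 := fun a b c d => h1 ⟨a, b, c, d⟩
        f2 := h2
        f3 := fun a b c => h3 ⟨a, b, c⟩
        f4 := fun a b => h4 ⟨a, b⟩
        f5 := fun a b => h5 ⟨a, b⟩
        f6 := fun a b c d => h6 ⟨a, b, c, d⟩
        f7a := fun a b c d => h7 ⟨a, b, c, d⟩
        f7b := fun a b c d => h8 ⟨a, b, c, d⟩
        td := h9
        te := h10 }
  · intro h
    exact ⟨⟨fun ⟨a, b, c, d⟩ => h.f0 a b c d, fun ⟨a, b, c, d⟩ => h.f1 a b c d,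
      fun ⟨a, b, c⟩ => h.f3 a b c, fun ⟨a, b⟩ => h.f4 a b, fun ⟨a, b⟩ => h.f5 a b,
      fun ⟨a, b, c, d⟩ => h.f6 a b c d, fun ⟨a, b, c, d⟩ => h.f7a a b c d,
      fun ⟨a, b, c, d⟩ => h.f7b a b c d⟩, h.f2, h.td, h.te⟩

end Pool.Agent.H24N
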