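import Pool.Agent.Lib.H24N.Struct

/-!
# The other axioms
-/

set_option autoImplicit false

namespace Pool.Agent.H24N

variable {Δ : Type}

theorem infAt_iff (I : Interp Δ) (x : Δ) : AxAt I infAx x ↔ InfAt I x := by
  have h3 : AxAt I ((List.range 3).map fun a => (cn 16 a, cn 15 a)) x ↔
      ∀ a < 3, x ∈ I.c 16 a → x ∈ I.c 15 a := by
    constructor
    · intro h a ha hx
      exact h (cn 16 a, cn 15 a) (List.mem_map.2 ⟨a, List.mem_range.2 ha, rfl⟩) hx
    · intro h p hp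
      obtain ⟨a, ha, rfl⟩ := List.mem_map.1 hp
      exact h a (List.mem_range.1 ha)
  rw [infAx, axAt_append, h3, axAt_flatMap]
  simp only [axAt_cons, axAt_nil, and_true, mem_and, mem_neg, mem_cn, mem_ex_ro, mem_ex_ri,
    mem_le1_ri, mem_cTop, true_imp_iff, List.mem_range]
  constructor
  · rintro ⟨h, h'⟩
    refine ⟨fun a ha => (h a ha).1, fun a ha => (h a ha).2.1, fun a ha hx y hy => ?_, h'⟩
    exact (h a ha).2.2 hx ⟨y, hy⟩
  · intro h
    exact ⟨fun a ha => ⟨h.step a ha, h.inj a ha, fun hx ⟨y, hy⟩ => h.fst a ha hx y hy⟩, h.sub⟩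

theorem globAt_iff (I : Interp Δ) (n : ℕ) (x : Δ) : AxAt I (globAx n) x ↔ GlobAt I n x := by
  have h1 : AxAt I ((globs n).map fun X => (.and (cn 1 0) X, cAll (ri 0 0) X)) x ↔
      ∀ X ∈ globs n, x ∈ I.c 1 0 → x ∈ I.ext X → ∀ y, I.r 0 0 y x → y ∈ I.ext X := by
    constructor
    · intro h X hX ha hb
      have := h (.and (cn 1 0) X, cAll (ri 0 0) X) (List.mem_map.2 ⟨X, hX, rfl⟩) ⟨ha, hb⟩
      exact (mem_cAll_ri I x 0 0 X).1 this
    · intro h p hp
      obtain ⟨X, hX, rfl⟩ := List.mem_map.1 hp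
      rintro ⟨ha, hb⟩
      exact (mem_cAll_ri I x 0 0 X).2 (h X hX ha hb)
  rw [globAx, axAt_cons, h1]
  simp only [mem_cTop, true_imp_iff, mem_ex_ro, mem_cn]
  constructor
  · rintro ⟨h, h'⟩
    refine ⟨h, fun a b => ?_, fun i hi a b => ?_, fun d hd a b => ?_, fun d hd a b => ?_⟩
    · exact h' (cn 3 0) (by simp [globs]) a b
    · refine h' (cn 29 i) ?_ a b
      simp only [globs, List.mem_cons, List.mem_append, List.mem_map, List.mem_range]
      exact Or.inr (Or.inl (Or.inl ⟨i, hi, rfl⟩))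
    · refine h' (cn 30 d) ?_ a b
      simp only [globs, List.mem_cons, List.mem_append, List.mem_map, List.mem_range]
      exact Or.inr (Or.inl (Or.inr ⟨d, hd, rfl⟩))
    · refine h' (cn 31 d) ?_ a b
      simp only [globs, List.mem_cons, List.mem_append, List.mem_map, List.mem_range]
      exact Or.inr (Or.inr ⟨d, hd, rfl⟩)
  · intro h
    refine ⟨h.g, fun X hX => ?_⟩
    simp only [globs, List.mem_cons, List.mem_append, List.mem_map, List.mem_range] at hX
    rcases hX with rfl | (⟨i, hi, rfl⟩ | ⟨d, hd, rfl⟩) | ⟨d, hd, rfl⟩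
    · exact h.act
    · exact h.fl i hi
    · exact h.td d hd
    · exact h.te d hd

theorem mem_topC (I : Interp Δ) (P : Til) (x : Δ) : x ∈ I.ext (topC P) ↔ TopAt I P x := by
  have hv : x ∈ I.ext (violC P) ↔ ViolAt I P x := by
    unfold violC ViolAt
    simp only [mem_cDisj, List.mem_append, List.mem_map, List.mem_cons, List.not_mem_nil, or_false,
      or_and_right, exists_or, exists_eq_left, exists_exists_and_eq_and, or_assoc, mem_and, mem_cn,
      mem_neg, mem_ex_ro, mem_cOr, mem_cXor, mem_regC, mem_blkC, mem_spaC, and_assoc]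
  have h3 : (∃ a < 3, ∃ y, I.r 1 0 x y ∧ y ∈ I.c 16 a ∧ y ∈ I.c 17 a) ↔
      (∃ y, I.r 1 0 x y ∧ y ∈ I.c 16 0 ∧ y ∈ I.c 17 0) ∨
      (∃ y, I.r 1 0 x y ∧ y ∈ I.c 16 1 ∧ y ∈ I.c 17 1) ∨
      (∃ y, I.r 1 0 x y ∧ y ∈ I.c 16 2 ∧ y ∈ I.c 17 2) := by
    constructor
    · rintro ⟨a, ha, h⟩
      interval_cases a
      · exact Or.inl h
      · exact Or.inr (Or.inl h)
      · exact Or.inr (Or.inr h)
    · rintro (h | h | h)
      · exact ⟨0, by norm_num, h⟩
      · exact ⟨1, by norm_num, h⟩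
      · exact ⟨2, by norm_num, h⟩
  unfold topC TopAt
  simp only [mem_cDisj, List.mem_cons, List.not_mem_nil, or_false, or_and_right, exists_or,
    exists_eq_left, mem_and, mem_cn, mem_neg, mem_ex_ro, hv, h3, and_assoc, or_assoc]

end Pool.Agent.H24N
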