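import Pool.Agent.Lib.H24N.St1
import Pool.Agent.Lib.H24N.St2
import Pool.Agent.Lib.H24N.St3
import Pool.Agent.Lib.H24N.St4

/-!
# Models of the knowledge base
-/

set_option autoImplicit false

namespace Pool.Agent.H24N

variable {Δ : Type}

theorem actAt_iff (I : Interp Δ) (k n : ℕ) (hn : n ≤ 2 ^ k) (x : Δ) :
    AxAt I (actAx k n) x ↔ ActAt I k n x := by
  simp only [actAx, axAt_append, axAt_flatMap, chainAt_iff, forestAt_iff, ltAt_iff, miscAt_iff,
    flagAt_iff I k n hn]
  exact ⟨fun ⟨⟨⟨⟨h1, h2⟩, h3⟩, h4⟩, h5⟩ => ⟨h1, h2, h3, h4, h5⟩,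
    fun ⟨h1, h2, h3, h4, h5⟩ => ⟨⟨⟨⟨h1, h2⟩, h3⟩, h4⟩, h5⟩⟩

/-- the models of the knowledge base -/
theorem models_iff (I : Interp Δ) (P : Til) (hn : P.n ≤ 2 ^ P.k) :
    (instOf P).K.Models I ↔ IsModel I P := by
  have hT : (instOf P).K.tbox = globAx P.n ++ infAx ++ [(cn 2 0, topC P)] ++
      (actAx P.k P.n).map fun p => (.and (cn 3 0) p.1, p.2) := rfl
  have hA : (instOf P).K.abox = [.con 1 0, .con 2 0] := rfl
  have hact : ∀ x, (∀ p ∈ (actAx P.k P.n).map fun p : Con × Con => (Con.and (cn 3 0) p.1, p.2),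
      x ∈ I.ext p.1 → x ∈ I.ext p.2) ↔ (x ∈ I.c 3 0 → ActAt I P.k P.n x) := by
    intro x
    rw [← actAt_iff I P.k P.n hn x]
    constructor
    · intro h hx p hp hp'
      exact h (Con.and (cn 3 0) p.1, p.2) (List.mem_map.2 ⟨p, hp, rfl⟩) ⟨hx, hp'⟩
    · rintro h p hp hp'
      rw [List.mem_map] at hp
      obtain ⟨q, hq, rfl⟩ := hp
      exact h hp'.1 q hq hp'.2
  constructor
  · intro h
    have ht := h.tbox
    rw [hT] at ht
    have hx : ∀ x, AxAt I (globAx P.n ++ infAx ++ [(cn 2 0, topC P)] ++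
        (actAx P.k P.n).map fun p => (.and (cn 3 0) p.1, p.2)) x := fun x p hp => ht p hp x
    simp only [axAt_append, axAt_cons, axAt_nil, and_true, globAt_iff, infAt_iff, mem_topC] at hx
    refine ⟨fun x => (hx x).1.1.1, fun x => (hx x).1.1.2, fun x => (hx x).1.2,
      fun x => (hact x).1 (hx x).2, ?_, ?_⟩
    · exact h.abox (.con 1 0) (by rw [hA]; simp)
    · exact h.abox (.con 2 0) (by rw [hA]; simp)
  · intro h
    have hx : ∀ x, AxAt I (globAx P.n ++ infAx ++ [(cn 2 0, topC P)] ++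
        (actAx P.k P.n).map fun p => (.and (cn 3 0) p.1, p.2)) x := by
      intro x
      simp only [axAt_append, axAt_cons, axAt_nil, and_true, globAt_iff, infAt_iff, mem_topC]
      exact ⟨⟨⟨h.glob x, h.inf x⟩, h.top x⟩, (hact x).2 (h.act x)⟩
    refine ⟨?_, ?_, ?_⟩
    · rw [hT]
      exact fun p hp x => hx x p hp
    · rw [hA]
      intro φ hφ
      simp only [List.mem_cons, List.not_mem_nil, or_false] at hφ
      rcases hφ with rfl | rfl
      · exact h.indN
      · exact h.indT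
    · rw [hA]
      intro φ hφ ψ hψ a ha b hb _
      simp only [List.mem_cons, List.not_mem_nil, or_false] at hφ hψ
      have e1 : a = 0 := by
        rcases hφ with rfl | rfl <;> exact List.mem_singleton.1 ha
      have e2 : b = 0 := by
        rcases hψ with rfl | rfl <;> exact List.mem_singleton.1 hb
      rw [e1, e2]

end Pool.Agent.H24N
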