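import Pool.Agent.Lib.H24N.Extract
import Pool.Agent.Lib.H24N.Num
import Pool.Agent.Lib.H24N.ParModel
import Pool.Agent.Lib.H24N.ParEx
import Pool.Agent.Lib.H24N.Kill
import Pool.Agent.Lib.H24N.KillN
import Pool.Agent.Lib.H24N.KillInf
import Pool.Agent.Lib.H24N.KillTop
import Pool.Agent.Lib.H24N.InfChain
import Pool.Agent.Lib.H24N.St5

/-!
# Good numbers from a model of the circumscribed knowledge base
-/

set_option autoImplicit false

namespace Pool.Agent.H24N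

theorem good_of_sat {P : Til} (hP : P.Wf) (h : (instOf P).Sat) : ∃ x0 x1 x2, Good P x0 x1 x2 := by
  classical
  obtain ⟨Δ, I, ⟨hm, hmin⟩, z, hz⟩ := h
  rw [models_iff _ _ hP.n_le] at hm
  have hz' : z ∈ I.c 0 0 := hz
  -- there is no model without `Min`
  have key : ∀ J : Interp Δ, IsModel J P → J.ind = I.ind → J.c 1 0 = I.c 1 0 →
      (∀ a < 3, J.c 15 a = I.c 15 a) → J.c 0 0 = ∅ → False := by
    intro J h1 h2 h3 h4 h5
    refine hmin J ((models_iff _ _ hP.n_le).2 h1) ((better_iff _ _ _).2 ⟨h2, h3, h4, ?_⟩)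
    rw [h5]
    exact ⟨Set.empty_subset _, fun h => h hz'⟩
  have hN : I.c 1 0 = {I.ind 0} := by
    refine Set.Subset.antisymm (fun o' ho' => ?_) (fun x hx => ?_)
    · by_contra hne
      obtain ⟨J, h1, h2, h3, h4, h5⟩ := kill_N hm ho' (fun h => hne (by rw [h]; rfl))
      exact key J h1 h2 h3 h4 h5
    · rw [Set.mem_singleton_iff] at hx
      rw [hx]
      exact hm.indN
  have hfin : ∀ a < 3, (I.c 15 a).Finite := by
    intro a ha
    by_contra hinf
    obtain ⟨J, h1, h2, h3, h4, h5⟩ := kill_inf hm ha hinf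
    exact key J h1 h2 h3 h4 h5
  have htop : I.ind 0 ∈ I.c 0 0 ∧ I.ind 0 ∈ I.c 3 0 ∧
      (∃ y, I.r 1 0 (I.ind 0) y ∧ y ∈ I.c 16 3 ∧ y ∈ I.c 17 3) ∧ I.ind 0 ∈ I.c 29 0 := by
    by_contra hc
    obtain ⟨J, h1, h2, h3, h4, h5⟩ := kill_top hm hc
    exact key J h1 h2 h3 h4 h5
  obtain ⟨_, hact, ⟨y, _, hy, hy'⟩, h29⟩ := htop
  have hinf : Infinite Δ := infinite_of_chain' hm.inf hy hy'
  obtain ⟨s, t, hs, _, _, hF, _⟩ := exists_num hP.n_le hm hN hact hfin rfl rfl rfl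
  refine ⟨(I.c 15 0).ncard, (I.c 15 1).ncard, (I.c 15 2).ncard,
    good_of_no_viol hP ⟨s, hs, hF.f0 h29⟩ ?_⟩
  intro s t hs ht ht' fl td te hF hv
  -- an enumeration that starts with `o`
  let f := Infinite.natEmbedding Δ
  let E : ℕ → Δ := fun n => Equiv.swap (f 0) (I.ind 0) (f n)
  have hE : Function.Injective E := (Equiv.injective _).comp f.injective
  have hE0 : I.ind 0 = E 0 := by simp [E]
  obtain ⟨B, hB, hBE, hBV, hk, hind, hfl, htd, hte, hch, hmn, r8, r9, r10, r11, r12, r13⟩ :=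
    Par.exists_par E hE (fun a => I.c 15 a) hfin P.k s t hs ht ht' I.ind hE0 fl td te False False
  refine key B.interp (Par.isModel hB hP hk ?_ (Or.inr ?_)) ?_ ?_ ?_ ?_
  · rw [hk, hfl, htd, hte, r9, r10, r11, r12, r13]
    exact hF
  · rw [hfl, htd, hte, r10, r12, r13]
    exact hv
  · show B.ind = I.ind
    exact hind
  · rw [B.interp_c (by norm_num), hN]
    ext x
    show (x = B.E 0 ∧ 0 = 0) ↔ x = I.ind 0
    rw [hBE, hE0]
    simp
  · intro a _
    rw [B.interp_c (by norm_num)]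
    show B.V a = I.c 15 a
    rw [hBV]
  · rw [B.interp_c (by norm_num)]
    ext x
    show (x = B.E 0 ∧ 0 = 0 ∧ B.mn) ↔ x ∈ (∅ : Set Δ)
    rw [hmn]
    simp

end Pool.Agent.H24N
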