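import Pool.Agent.Lib.H24N.Code

/-!
# Tilings and good numbers
-/

set_option autoImplicit false

namespace Pool.Agent.H24N

theorem gt_tim (k v : ℕ) : tim k v = crd k v % 2 ^ 2 ^ k := by
  rw [crd_eq, Nat.add_mul_mod_self_left, Nat.mod_eq_of_lt (tim_lt k v)]

theorem gt_spc (k v : ℕ) : spc k v = crd k v / 2 ^ 2 ^ k := by
  rw [crd_eq, Nat.add_mul_div_left _ _ (Nat.two_pow_pos _), Nat.div_eq_of_lt (tim_lt k v), zero_add]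

theorem gt_crd {k c d : ℕ} (hd : d < 2 ^ k) (hc : c < 2 ^ (3 * 2 ^ k)) :
    crd k (2 ^ 2 ^ k * c + 2 ^ d) = c := by
  have h1 : 2 ^ d < 2 ^ 2 ^ k := Nat.pow_lt_pow_right (by norm_num) hd
  rw [crd, seg, Nat.mul_add_div (Nat.two_pow_pos _), Nat.div_eq_of_lt h1, add_zero,
    Nat.mod_eq_of_lt hc]

theorem gt_bit {k c d j : ℕ} (hd : d < 2 ^ k) (hj : j < 2 ^ k) :
    (2 ^ 2 ^ k * c + 2 ^ d).testBit j = decide (d = j) := by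
  have h1 : 2 ^ d < 2 ^ 2 ^ k := Nat.pow_lt_pow_right (by norm_num) hd
  rw [Nat.testBit_two_pow_mul_add _ h1, if_pos hj, Nat.testBit_two_pow]

theorem gt_succ (c M : ℕ) (h : c % M + 1 < M) : (c + 1) % M = c % M + 1 ∧ (c + 1) / M = c / M := by
  have h1 : c + 1 = M * (c / M) + (c % M + 1) := by
    have := Nat.div_add_mod c M
    omega
  have hM : 0 < M := by omega
  constructor
  · conv_lhs => rw [h1]
    rw [Nat.mul_add_mod, Nat.mod_eq_of_lt h]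
  · conv_lhs => rw [h1]
    rw [Nat.mul_add_div hM, Nat.div_eq_of_lt h, add_zero]

theorem good_of_solvable {P : Til} (hP : P.Wf) (h : P.Solvable) : ∃ x0 x1 x2, Good P x0 x1 x2 := by
  obtain ⟨τ, hτ, hI, hF, hV, hH⟩ := h
  have hpos : 0 < 2 ^ 2 ^ P.k := Nat.two_pow_pos _
  have hcol : ∀ c, c < 2 ^ (3 * 2 ^ P.k) → c / 2 ^ 2 ^ P.k < 2 ^ (2 * 2 ^ P.k) := by
    intro c hc
    rw [Nat.div_lt_iff_lt_mul hpos, ← pow_add]
    have : 2 * 2 ^ P.k + 2 ^ P.k = 3 * 2 ^ P.k := by ring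
    rw [this]
    exact hc
  let t : ℕ → ℕ := fun c => τ (c % 2 ^ 2 ^ P.k) (c / 2 ^ 2 ^ P.k)
  have htn : ∀ c, c < 2 ^ (3 * 2 ^ P.k) → t c < P.n := fun c hc =>
    hτ _ (Nat.mod_lt _ hpos) _ (hcol c hc)
  have htk : ∀ c, c < 2 ^ (3 * 2 ^ P.k) → t c < 2 ^ P.k := fun c hc =>
    (htn c hc).trans_le hP.n_le
  let g : ℕ → ℕ := fun c => 2 ^ 2 ^ P.k * c + 2 ^ t c
  have hg : ∀ c < 2 ^ (3 * 2 ^ P.k), g c < 2 ^ (4 * 2 ^ P.k) := by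
    intro c hc
    have h1 : 2 ^ t c < 2 ^ 2 ^ P.k := Nat.pow_lt_pow_right (by norm_num) (htk c hc)
    have h2 : 4 * 2 ^ P.k = 2 ^ P.k + 3 * 2 ^ P.k := by ring
    rw [h2, pow_add]
    calc 2 ^ 2 ^ P.k * c + 2 ^ t c < 2 ^ 2 ^ P.k * c + 2 ^ 2 ^ P.k := by omega
      _ = 2 ^ 2 ^ P.k * (c + 1) := by ring
      _ ≤ 2 ^ 2 ^ P.k * 2 ^ (3 * 2 ^ P.k) := Nat.mul_le_mul_left _ hc
  obtain ⟨x0, x1, x2, p, hact, hx1, hx2⟩ := exists_code P.k g hg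
  have hcrd : ∀ c, c < 2 ^ (3 * 2 ^ P.k) → crd P.k (x1 % p c) = c := by
    intro c hc
    rw [hx1 c hc]
    exact gt_crd (htk c hc) hc
  have hbit : ∀ c, c < 2 ^ (3 * 2 ^ P.k) → ∀ j, j < P.n →
      ((x1 % p c).testBit j = true ↔ t c = j) := by
    intro c hc j hj
    rw [hx1 c hc]
    show (2 ^ 2 ^ P.k * c + 2 ^ t c).testBit j = true ↔ t c = j
    rw [gt_bit (htk c hc) (hj.trans_le hP.n_le), decide_eq_true_iff]
  refine ⟨x0, x1, x2, ?_, ?_, ?_, ?_, ?_, ?_, ?_⟩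
  · have h0 : 0 < 2 ^ (3 * 2 ^ P.k) := Nat.two_pow_pos _
    exact ⟨p 0, (hact _).mpr ⟨0, h0, rfl⟩, hcrd 0 h0⟩
  · intro s hs
    obtain ⟨c, hc, rfl⟩ := (hact s).mp hs
    exact ⟨t c, htn c hc, (hbit c hc _ (htn c hc)).mpr rfl⟩
  · intro s hs h0 d hd hdn
    obtain ⟨c, hc, rfl⟩ := (hact s).mp hs
    rw [hcrd c hc] at h0
    subst h0
    rw [← Bool.not_eq_true, hbit 0 hc d hdn]
    intro h1
    apply hI
    have h2 : t 0 = τ 0 0 := by simp [t]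
    rw [← h2, h1]
    exact hd
  · intro s hs ht d hd hdn
    obtain ⟨c, hc, rfl⟩ := (hact s).mp hs
    rw [gt_tim, hcrd c hc] at ht
    rw [← Bool.not_eq_true, hbit c hc d hdn]
    intro h1
    refine hF _ (hcol c hc) ?_
    rw [← ht]
    show t c ∈ P.badF
    rw [h1]
    exact hd
  · intro s hs hlt
    obtain ⟨c, hc, rfl⟩ := (hact s).mp hs
    rw [hcrd c hc] at hlt ⊢
    rw [hx2 c hlt]
    exact ⟨(hact _).mpr ⟨c + 1, hlt, rfl⟩, hcrd _ hlt⟩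
  · intro s s' hs hs' hlt hcc q hq hq1 hq2 hbits
    obtain ⟨c, hc, rfl⟩ := (hact s).mp hs
    obtain ⟨c', hc', rfl⟩ := (hact s').mp hs'
    rw [hcrd c hc, hcrd c' hc'] at hcc
    subst hcc
    rw [gt_tim, hcrd c hc] at hlt
    rw [hbit c hc _ hq1, hbit (c + 1) hc' _ hq2] at hbits
    obtain ⟨b1, b2⟩ := hbits
    obtain ⟨hmod, hdiv⟩ := gt_succ c _ hlt
    refine hV _ _ hlt (hcol c hc) ?_
    have e1 : τ (c % 2 ^ 2 ^ P.k) (c / 2 ^ 2 ^ P.k) = q.1 := b1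
    have e2 : τ (c % 2 ^ 2 ^ P.k + 1) (c / 2 ^ 2 ^ P.k) = q.2 := by
      rw [← hmod, ← hdiv]; exact b2
    rw [e1, e2]
    exact hq
  · intro s s' hs hs' hlt htt hss q hq hq1 hq2 hbits
    obtain ⟨c, hc, rfl⟩ := (hact s).mp hs
    obtain ⟨c', hc', rfl⟩ := (hact s').mp hs'
    rw [gt_spc, hcrd c hc] at hlt
    rw [gt_tim, gt_tim, hcrd c hc, hcrd c' hc'] at htt
    rw [gt_spc, gt_spc, hcrd c hc, hcrd c' hc'] at hss
    rw [hbit c hc _ hq1, hbit c' hc' _ hq2] at hbits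
    obtain ⟨b1, b2⟩ := hbits
    refine hH _ _ (Nat.mod_lt c hpos) hlt ?_
    have e1 : τ (c % 2 ^ 2 ^ P.k) (c / 2 ^ 2 ^ P.k) = q.1 := b1
    have e2 : τ (c % 2 ^ 2 ^ P.k) (c / 2 ^ 2 ^ P.k + 1) = q.2 := by
      rw [← htt, ← hss]; exact b2
    rw [e1, e2]
    exact hq

end Pool.Agent.H24N
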