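import Pool.Agent.Lib.H24N.Defs
import Pool.Agent.Lib.H24N.Tile

/-!
# The knowledge base of a tiling instance

Concept names are `64 * j + a` with kind `a < 64` and index `j`; role names as well.

Concept names (kind): 0 `Min` (minimized); 1 `N` (fixed; the individual `0` is in `N`); 2 `Top`;
3 `Act`; 4 `Q`; 5 `R` (the register chain); 6 `Cy`, 7 `Cz` (carries); 8 `S`, 9 `T`, 10 `A`, 11 `P`,
12 `U`, 13 `B`, 14 `Z` (bits of the registers); 15 (index 0, 1, 2) the fixed names of the three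
numbers; 16, 17 (index 0, …, 3) infinite chains and their first elements; 18 (index `< k + 3`)
counter bits of the register chain; 19, 20, 21, 22 (index of the module) nodes, special nodes,
selected nodes, comparison; `24 + μ` counter bits of the nodes of module `μ`; 29 flags; 30, 31
guesses of the tiles.

Roles (kind): 0 `g` (to `N`); 1 free; 2 (index 0, …, 3) infinite chains; 3 `nx` (next register);
4, 5 left and right child; 6 matching with the fixed set; 7 from nodes to registers.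
-/

set_option autoImplicit false

namespace Pool.Agent.H24N

/-- concept name of kind `a` and index `j` -/
def cn (a j : ℕ) : Con := Con.nm (64 * j + a)
/-- role of kind `a` and index `j` -/
def ro (a j : ℕ) : Rol := Rol.nm (64 * j + a)
/-- inverse role of kind `a` and index `j` -/
def ri (a j : ℕ) : Rol := Rol.inv (64 * j + a)

def cTop : Con := .neg (.and (cn 0 0) (.neg (cn 0 0)))
def cOr (C E : Con) : Con := .neg (.and (.neg C) (.neg E))
def cIff (C E : Con) : Con := cOr (.and C E) (.and (.neg C) (.neg E))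
def cXor (C E : Con) : Con := .neg (cIff C E)
def cAll (R : Rol) (C : Con) : Con := .neg (.ex R (.neg C))
def cConj (l : List Con) : Con := l.foldr Con.and cTop
def cDisj (l : List Con) : Con := l.foldr cOr (.neg cTop)

/-- the counter of kind `c` is zero -/
def zeroC (k c : ℕ) : Con := cConj ((List.range (k + 3)).map fun j => Con.neg (cn c j))
/-- the counter of kind `c` is maximal -/
def maxC (k c : ℕ) : Con := cConj ((List.range (k + 3)).map fun j => cn c j)
/-- the bits below `j` are ones -/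
def onesC (c j : ℕ) : Con := cConj ((List.range j).map fun i => cn c i)
/-- the bits below `j` are zeros -/
def zerosC (c j : ℕ) : Con := cConj ((List.range j).map fun i => Con.neg (cn c i))
/-- the counter of the register chain is `d` -/
def eqC (k d : ℕ) : Con :=
  cConj ((List.range (k + 3)).map fun j => if d.testBit j = true then cn 18 j else Con.neg (cn 18 j))

/-- the counter of kind `c` increases by one along `R` inside `X` -/
def incAx (k c : ℕ) (X : Con) (R : Rol) : List (Con × Con) :=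
  (List.range (k + 3)).flatMap fun j =>
    [(.and X (cXor (cn c j) (onesC c j)), cAll R (cOr (.neg X) (cn c j))),
     (.and X (.neg (cXor (cn c j) (onesC c j))), cAll R (cOr (.neg X) (.neg (cn c j))))]

/-- the register chain -/
def chainAx (k : ℕ) : List (Con × Con) :=
  [(cn 1 0, .and (cn 5 0) (zeroC k 18)),
   (.and (cn 5 0) (zeroC k 18), cn 1 0),
   (.and (cn 5 0) (.neg (maxC k 18)), .ex (ro 3 0) (cn 5 0)),
   (.and (cn 5 0) (.neg (zeroC k 18)), .ex (ri 3 0) (cn 5 0)),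
   (cTop, .le1 (ro 3 0))] ++ incAx k 18 (cn 5 0) (ro 3 0)

/-- the forest of module `μ`: modulus of kind `md`, remainder of kind `rs`, fixed set `fx` -/
def forestAx (k μ md rs fx : ℕ) : List (Con × Con) :=
  [(cn 1 0, .and (cn 19 μ) (.and (cn 20 μ) (zeroC k (24 + μ)))),
   (.and (cn 19 μ) (.and (cn 20 μ) (zeroC k (24 + μ))), cn 1 0),
   (.and (cn 19 μ) (.neg (maxC k (24 + μ))), .and (.ex (ro 4 μ) (cn 19 μ)) (.ex (ro 5 μ) (cn 19 μ))),
   (.and (cn 19 μ) (.neg (zeroC k (24 + μ))), cOr (.ex (ri 4 μ) (cn 19 μ)) (.ex (ri 5 μ) (cn 19 μ))),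
   (cTop, .and (.and (.le1 (ro 4 μ)) (.le1 (ri 4 μ))) (.and (.le1 (ro 5 μ)) (.le1 (ri 5 μ)))),
   (cTop, .neg (.and (.ex (ri 4 μ) (cn 19 μ)) (.ex (ri 5 μ) (cn 19 μ)))),
   (.and (cn 19 μ) (cn 20 μ), .and (cAll (ro 4 μ) (cOr (.neg (cn 19 μ)) (cn 20 μ)))
     (cAll (ro 5 μ) (cOr (.neg (cn 19 μ)) (cn 20 μ)))),
   (.and (cn 19 μ) (.neg (cn 20 μ)), .and (cAll (ro 4 μ) (cOr (.neg (cn 19 μ)) (.neg (cn 20 μ))))
     (cAll (ro 5 μ) (cOr (.neg (cn 19 μ)) (.neg (cn 20 μ))))),
   (cn 19 μ, .ex (ro 7 μ) (cn 5 0)),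
   (cn 21 μ, cn 19 μ),
   (cn 19 μ, cIff (cn 21 μ) (cOr
     (.and (cn 20 μ) (.ex (ro 7 μ) (.and (cn 5 0) (cn rs 0))))
     (.and (.neg (cn 20 μ)) (.ex (ro 7 μ) (.and (cn 5 0) (cn md 0)))))),
   (cn 21 μ, .ex (ro 6 μ) (cn 15 fx)),
   (cn 15 fx, .ex (ri 6 μ) (cn 21 μ)),
   (cTop, .and (.le1 (ro 6 μ)) (.le1 (ri 6 μ)))] ++
  incAx k (24 + μ) (cn 19 μ) (ro 4 μ) ++ incAx k (24 + μ) (cn 19 μ) (ro 5 μ) ++
  ((List.range (k + 3)).flatMap fun j =>
    [(.and (cn 19 μ) (cn (24 + μ) j), cAll (ro 7 μ) (cOr (.neg (cn 5 0)) (cn 18 j))),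
     (.and (cn 19 μ) (.neg (cn (24 + μ) j)), cAll (ro 7 μ) (cOr (.neg (cn 5 0)) (.neg (cn 18 j))))])

/-- the remainder of module `μ` is smaller than the modulus -/
def ltAx (k μ md rs : ℕ) : List (Con × Con) :=
  [(.and (cn 5 0) (cn 22 μ), cOr (.and (cn md 0) (.neg (cn rs 0)))
     (.and (cIff (cn md 0) (cn rs 0)) (.and (.neg (zeroC k 18))
       (.ex (ri 3 0) (.and (cn 5 0) (cn 22 μ)))))),
   (.and (cn 5 0) (maxC k 18), cn 22 μ)]

/-- the modules: index, modulus, remainder, fixed set -/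
def modules : List (ℕ × ℕ × ℕ × ℕ) :=
  [(0, 8, 14, 0), (1, 8, 10, 1), (2, 8, 11, 2), (3, 9, 12, 0), (4, 9, 13, 1)]

/-- counter in `[2 ^ k, 4 * 2 ^ k)` -/
def regC (k : ℕ) : Con := .and (.neg (cn 18 (k + 2))) (cOr (cn 18 (k + 1)) (cn 18 k))
/-- counter in `[2 ^ k, 2 * 2 ^ k)` -/
def blkC (k : ℕ) : Con := .and (.neg (cn 18 (k + 2))) (.and (.neg (cn 18 (k + 1))) (cn 18 k))
/-- counter in `[2 * 2 ^ k, 4 * 2 ^ k)` -/
def spaC (k : ℕ) : Con := .and (.neg (cn 18 (k + 2))) (cn 18 (k + 1))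

/-- the carry `cy` of the increment of the bits of kind 10 in the region `reg`, which starts at
`st` -/
def carryAx (cy : ℕ) (reg st : Con) : List (Con × Con) :=
  [(.and (cn 5 0) st, cn cy 0),
   (.and (cn 5 0) (.and reg (.neg st)), cIff (cn cy 0)
     (.ex (ri 3 0) (.and (cn 5 0) (.and (cn cy 0) (cn 10 0)))))]

/-- bounds for the moduli, the remainder zero, the carries -/
def miscAx (k : ℕ) : List (Con × Con) :=
  [(cn 1 0, .and (.ex (ro 1 0) (.and (cn 5 0) (.and (cn 18 (k + 2)) (cn 8 0))))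
     (.ex (ro 1 0) (.and (cn 5 0) (.and (cn 18 (k + 2)) (cn 9 0))))),
   (cn 5 0, .neg (cn 14 0))] ++
  carryAx 6 (regC k) (.and (blkC k) (zerosC 18 k)) ++
  carryAx 7 (spaC k) (.and (spaC k) (.and (.neg (cn 18 k)) (zerosC 18 k)))

/-- meaning of the flags and of the guesses of the tiles -/
def flagAx (k n : ℕ) : List (Con × Con) :=
  [(.and (cn 5 0) (.and (cn 29 0) (regC k)), .neg (cn 10 0)),
   (.and (cn 5 0) (.and (cn 29 1) (blkC k)), cn 10 0),
   (.and (cn 5 0) (.and (cn 29 3) (cn 18 (k + 2))), .neg (cn 11 0)),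
   (.and (cn 5 0) (cn 29 4), cIff (cn 9 0) (cn 11 0)),
   (.and (cn 5 0) (cn 29 5), .neg (cn 12 0)),
   (.and (cn 5 0) (.and (cn 29 6) (regC k)), cIff (cn 13 0) (cXor (cn 10 0) (cn 6 0))),
   (.and (cn 5 0) (.and (cn 29 7) (blkC k)), cIff (cn 13 0) (cn 10 0)),
   (.and (cn 5 0) (.and (cn 29 7) (spaC k)), cIff (cn 13 0) (cXor (cn 10 0) (cn 7 0)))] ++
  ((List.range n).flatMap fun d =>
    [(.and (cn 5 0) (.and (cn 29 2) (eqC k d)), .neg (cn 10 0)),
     (.and (cn 5 0) (.and (cn 30 d) (eqC k d)), cn 10 0),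
     (.and (cn 5 0) (.and (cn 31 d) (eqC k d)), cn 13 0)])

/-- the part of the knowledge base that is only required in `Act` -/
def actAx (k n : ℕ) : List (Con × Con) :=
  chainAx k ++ (modules.flatMap fun p => forestAx k p.1 p.2.1 p.2.2.1 p.2.2.2) ++
    (modules.flatMap fun p => ltAx k p.1 p.2.1 p.2.2.1) ++ miscAx k ++ flagAx k n

/-- the names which are the same at all elements (if `N` is a singleton) -/
def globs (n : ℕ) : List Con :=
  cn 3 0 :: ((List.range 8).map (cn 29) ++ (List.range n).map (cn 30) ++ (List.range n).map (cn 31))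

def globAx (n : ℕ) : List (Con × Con) :=
  (cTop, .ex (ro 0 0) (cn 1 0)) :: (globs n).map fun X => (.and (cn 1 0) X, cAll (ri 0 0) X)

/-- infinite chains -/
def infAx : List (Con × Con) :=
  ((List.range 4).flatMap fun a =>
    [(cn 16 a, .ex (ro 2 a) (.and (cn 16 a) (.neg (cn 17 a)))),
     (cTop, .le1 (ri 2 a)),
     (cn 17 a, .neg (.ex (ri 2 a) cTop))]) ++
  ((List.range 3).map fun a => (cn 16 a, cn 15 a))

/-- the violations -/
def violC (P : Til) : Con :=
  cDisj
    ((P.badI.map fun d => .and (cn 29 0) (cn 30 d)) ++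
     (P.badF.map fun d => .and (cn 29 1) (cn 30 d)) ++
     [cn 29 2,
      .and (.ex (ro 1 0) (.and (cn 5 0) (.and (regC P.k) (.neg (cn 10 0)))))
        (cOr (cn 29 3) (.and (cn 29 4) (cOr (.ex (ro 1 0) (.and (cn 5 0) (cn 12 0)))
          (.ex (ro 1 0) (.and (cn 5 0) (.and (regC P.k)
            (cXor (cn 13 0) (cXor (cn 10 0) (cn 6 0)))))))))] ++
     (P.badV.map fun p => .and (.and (cn 29 5) (cn 29 6))
        (.and (.ex (ro 1 0) (.and (cn 5 0) (.and (blkC P.k) (.neg (cn 10 0)))))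
          (.and (cn 30 p.1) (cn 31 p.2)))) ++
     (P.badH.map fun p => .and (.and (cn 29 5) (cn 29 7))
        (.and (.ex (ro 1 0) (.and (cn 5 0) (.and (spaC P.k) (.neg (cn 10 0)))))
          (.and (cn 30 p.1) (cn 31 p.2)))))

/-- the alternatives -/
def topC (P : Til) : Con :=
  cDisj
    [.and (.and (cn 0 0) (cn 3 0)) (.and (.ex (ro 1 0) (.and (cn 16 3) (cn 17 3))) (cn 29 0)),
     .and (.ex (ro 1 0) (.and (cn 1 0) (cn 4 0))) (.ex (ro 1 0) (.and (cn 1 0) (.neg (cn 4 0)))),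
     .ex (ro 1 0) (.and (cn 16 0) (cn 17 0)),
     .ex (ro 1 0) (.and (cn 16 1) (cn 17 1)),
     .ex (ro 1 0) (.and (cn 16 2) (cn 17 2)),
     .and (cn 3 0) (violC P)]

/-- the inclusions -/
def tboxOf (P : Til) : List (Con × Con) :=
  globAx P.n ++ infAx ++ [(cn 2 0, topC P)] ++
    (actAx P.k P.n).map fun p => (.and (cn 3 0) p.1, p.2)

/-- the instance: `Min` is minimized, `N` and the names of the three numbers are fixed -/
def instOf (P : Til) : Inst where
  C := cn 0 0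
  K := ⟨tboxOf P, [.con 1 0, .con 2 0]⟩
  P := ⟨[0], [1, 15, 79, 143], []⟩

end Pool.Agent.H24N
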