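import Pool.Agent.Lib.CookLevin.TableauPT

/-!
# Comparing the length of a word with a doubly exponential number
-/

set_option autoImplicit false

namespace Pool.Agent.H24N

open Pool.Agent.PolyTime Pool.Agent.Lib.CookLevin

theorem length_le_iff (n Q : ℕ) : n ≤ 2 ^ 2 ^ Q ↔ Nat.size (Nat.size (n - 1) - 1) ≤ Q := by
  have h1 : 1 ≤ 2 ^ 2 ^ Q := Nat.one_le_two_pow
  have h2 : 1 ≤ 2 ^ Q := Nat.one_le_two_pow
  rw [Nat.size_le]
  have h3 : n ≤ 2 ^ 2 ^ Q ↔ n - 1 < 2 ^ 2 ^ Q := by omega
  rw [h3, ← Nat.size_le]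
  omega

/-- the length check is computable in polynomial time -/
theorem PT_lenCheck (q : Polynomial ℕ) :
    PT fun p : List Bool × List Bool => decide (p.2.length ≤ 2 ^ 2 ^ q.eval p.1.length) := by
  obtain ⟨f, hf, hf2⟩ := exists_unary' (α := List Bool × List Bool) q (l := fun p => p.1) (by fun_prop)
  have h0 : PT fun p : List Bool × List Bool => p.2.length - 1 :=
    PT.sub (PT.length (by fun_prop)) (PT.const 1)
  have h1 : PT fun p : List Bool × List Bool => (p.2.length - 1).bits.length - 1 :=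
    PT.sub (PT.length (PT.bits h0)) (PT.const 1)
  have h2 : PT fun p : List Bool × List Bool => ((p.2.length - 1).bits.length - 1).bits.length :=
    PT.length (PT.bits h1)
  have h3 := PT.decide_le h2 (PT.length hf)
  refine h3.congr fun p => ?_
  rw [Bool.eq_iff_iff, decide_eq_true_iff, decide_eq_true_iff, length_le_iff, hf2,
    ← Nat.size_eq_bits_len, ← Nat.size_eq_bits_len]

end Pool.Agent.H24N
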