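import Pool.Agent.Lib.H24N.KB
import Pool.Agent.Lib.PolyTime.Subsets

/-!
# The knowledge base is computable in polynomial time
-/

set_option autoImplicit false

namespace Pool.Agent.H24N

open Pool.Agent.PolyTime

variable {α β : Type*} [Enc α] [Enc β]

@[fun_prop] theorem PT_nm {f : α → ℕ} (hf : PT f) : PT fun a => Con.nm (f a) :=
  FP.cons (FP.const _ (FP.num 0)) hf

@[fun_prop] theorem PT_neg {f : α → Con} (hf : PT f) : PT fun a => Con.neg (f a) :=
  FP.cons (FP.const _ (FP.num 1)) hf

@[fun_prop] theorem PT_and {f g : α → Con} (hf : PT f) (hg : PT g) :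
    PT fun a => Con.and (f a) (g a) :=
  FP.cons (FP.const _ (FP.num 2)) (FP.cons hf hg)

@[fun_prop] theorem PT_ex {f : α → Rol} {g : α → Con} (hf : PT f) (hg : PT g) :
    PT fun a => Con.ex (f a) (g a) :=
  FP.cons (FP.const _ (FP.num 3)) (FP.cons hf hg)

@[fun_prop] theorem PT_le1 {f : α → Rol} (hf : PT f) : PT fun a => Con.le1 (f a) :=
  FP.cons (FP.const _ (FP.num 4)) hf

@[fun_prop] theorem PT_rnm {f : α → ℕ} (hf : PT f) : PT fun a => Rol.nm (f a) :=
  FP.cons (FP.const _ D.nil) hf

@[fun_prop] theorem PT_rinv {f : α → ℕ} (hf : PT f) : PT fun a => Rol.inv (f a) :=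
  FP.cons (FP.const _ (D.cons D.nil D.nil)) hf

@[fun_prop] theorem PT_cn {f g : α → ℕ} (hf : PT f) (hg : PT g) : PT fun a => cn (f a) (g a) := by
  unfold cn; fun_prop

@[fun_prop] theorem PT_ro {f g : α → ℕ} (hf : PT f) (hg : PT g) : PT fun a => ro (f a) (g a) := by
  unfold ro; fun_prop

@[fun_prop] theorem PT_ri {f g : α → ℕ} (hf : PT f) (hg : PT g) : PT fun a => ri (f a) (g a) := by
  unfold ri; fun_prop

@[fun_prop] theorem PT_cOr {f g : α → Con} (hf : PT f) (hg : PT g) :
    PT fun a => cOr (f a) (g a) := by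
  unfold cOr; fun_prop

@[fun_prop] theorem PT_cIff {f g : α → Con} (hf : PT f) (hg : PT g) :
    PT fun a => cIff (f a) (g a) := by
  unfold cIff; fun_prop

@[fun_prop] theorem PT_cXor {f g : α → Con} (hf : PT f) (hg : PT g) :
    PT fun a => cXor (f a) (g a) := by
  unfold cXor; fun_prop

@[fun_prop] theorem PT_cAll {f : α → Rol} {g : α → Con} (hf : PT f) (hg : PT g) :
    PT fun a => cAll (f a) (g a) := by
  unfold cAll; fun_prop

theorem sz_and (C E : Con) : sz (Con.and C E) = sz C + sz E + 7 := by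
  show (D.cons (FP.num 2) (D.cons (enc C) (enc E))).size = _
  rw [D.size_cons, D.size_cons, FP.size_num]
  show _ = (enc C).size + (enc E).size + 7
  ring

theorem sz_neg (C : Con) : sz (Con.neg C) = sz C + 4 := by
  show (D.cons (FP.num 1) (enc C)).size = _
  rw [D.size_cons, FP.size_num]
  show _ = (enc C).size + 4
  ring

theorem sz_cOr (C E : Con) : sz (cOr C E) = sz C + sz E + 19 := by
  unfold cOr
  rw [sz_neg, sz_and, sz_neg, sz_neg]
  ring

@[fun_prop] theorem PT_cConj {l : α → List Con} (hl : PT l) : PT fun a => cConj (l a) := by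
  have key : ∀ (l : List Con) (s : Con),
      sz (l.foldl (fun (s : Con) (C : Con) => Con.and C s) s) ≤ 8 * sz l + sz s := by
    intro l
    induction l with
    | nil => intro s; simp
    | cons C l ih =>
      intro s
      rw [List.foldl_cons, sz_cons]
      refine (ih _).trans ?_
      rw [sz_and]
      omega
  have h := PT.foldl (g := fun (_ : α) (s : Con) (C : Con) => Con.and C s) (s := fun _ => cTop)
    (l := fun a => (l a).reverse) (by fun_prop) (by fun_prop) (by fun_prop)
    (B := fun a => 8 * sz (l a) + sz cTop)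
    (((PBd.const 8).mul (PT.bdd hl)).add (PBd.const _)) (by
      intro a l1 l2 h
      refine (key l1 cTop).trans ?_
      have h1 : sz l1 ≤ sz (l a) := by
        rw [← sz_reverse (l a), h]
        exact sz_sublist_le (List.sublist_append_left _ _)
      omega)
  refine h.congr fun a => ?_
  rw [List.foldl_reverse]
  rfl

@[fun_prop] theorem PT_cDisj {l : α → List Con} (hl : PT l) : PT fun a => cDisj (l a) := by
  have key : ∀ (l : List Con) (s : Con),
      sz (l.foldl (fun (s : Con) (C : Con) => cOr C s) s) ≤ 20 * sz l + sz s := by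
    intro l
    induction l with
    | nil => intro s; simp
    | cons C l ih =>
      intro s
      rw [List.foldl_cons, sz_cons]
      refine (ih _).trans ?_
      rw [sz_cOr]
      omega
  have h := PT.foldl (g := fun (_ : α) (s : Con) (C : Con) => cOr C s)
    (s := fun _ => Con.neg cTop)
    (l := fun a => (l a).reverse) (by fun_prop) (by fun_prop) (by fun_prop)
    (B := fun a => 20 * sz (l a) + sz (Con.neg cTop))
    (((PBd.const 20).mul (PT.bdd hl)).add (PBd.const _)) (by
      intro a l1 l2 h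
      refine (key l1 _).trans ?_
      have h1 : sz l1 ≤ sz (l a) := by
        rw [← sz_reverse (l a), h]
        exact sz_sublist_le (List.sublist_append_left _ _)
      omega)
  refine h.congr fun a => ?_
  rw [List.foldl_reverse]
  rfl

variable {K N : α → List Unit}

@[fun_prop] theorem PT_range3 (hK : PT K) : PT fun a => List.range ((K a).length + 3) := by
  have h : PT fun a => List.range ((() :: () :: () :: K a).length) := by fun_prop
  exact h

@[fun_prop] theorem PT_zeroC (hK : PT K) {c : α → ℕ} (hc : PT c) :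
    PT fun a => zeroC (K a).length (c a) :=
  PT_cConj (PT.map (f := fun a j => Con.neg (cn (c a) j)) (by fun_prop) (PT_range3 hK))

@[fun_prop] theorem PT_maxC (hK : PT K) {c : α → ℕ} (hc : PT c) :
    PT fun a => maxC (K a).length (c a) :=
  PT_cConj (PT.map (f := fun a j => cn (c a) j) (by fun_prop) (PT_range3 hK))

@[fun_prop] theorem PT_zerosC (hK : PT K) {c : α → ℕ} (hc : PT c) :
    PT fun a => zerosC (c a) (K a).length :=
  PT_cConj (PT.map (f := fun a j => Con.neg (cn (c a) j)) (by fun_prop) (PT.rangeLength hK))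

@[fun_prop] theorem PT_eqC (hK : PT K) {d : α → ℕ} (hd : PT d) :
    PT fun a => eqC (K a).length (d a) := by
  have h : PT fun p : α × ℕ =>
      if (d p.1).testBit p.2 = true then cn 18 p.2 else Con.neg (cn 18 p.2) := by
    have h1 : PT fun p : α × ℕ =>
        bif ((d p.1).bits).getD p.2 false then cn 18 p.2 else Con.neg (cn 18 p.2) :=
      PT.bif (by fun_prop) (by fun_prop) (by fun_prop)
    refine h1.congr fun p => ?_
    have h2 : ((d p.1).bits).getD p.2 false = (d p.1).testBit p.2 := by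
      rw [Nat.testBit_eq_inth]
      rfl
    rw [h2]
    cases (d p.1).testBit p.2 <;> rfl
  exact PT_cConj (PT.map (f := fun a j =>
    if (d a).testBit j = true then cn 18 j else Con.neg (cn 18 j)) h (PT_range3 hK))

/-- `onesC c j` for `j ≤ k + 3` -/
def onesT (k c j : ℕ) : Con := cConj (((List.range (k + 3)).take j).map fun i => cn c i)

theorem onesT_eq {k j : ℕ} (c : ℕ) (hj : j < k + 3) : onesT k c j = onesC c j := by
  unfold onesT onesC
  rw [List.take_range, min_eq_left hj.le]

theorem PT_onesT (hK : PT K) {c j : α → ℕ} (hc : PT c) (hj : PT j) :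
    PT fun a => onesT (K a).length (c a) (j a) :=
  PT_cConj (PT.map (f := fun a i => cn (c a) i) (by fun_prop) (PT.take (PT_range3 hK) hj))

@[fun_prop] theorem PT_incAx (hK : PT K) {c : α → ℕ} (hc : PT c) {X : α → Con} (hX : PT X)
    {R : α → Rol} (hR : PT R) : PT fun a => incAx (K a).length (c a) (X a) (R a) := by
  have h0 : PT fun p : α × ℕ => onesT (K p.1).length (c p.1) p.2 :=
    PT_onesT (K := fun p : α × ℕ => K p.1) (by fun_prop) (by fun_prop) (by fun_prop)
  have h1 : PT fun p : α × ℕ =>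
      [(Con.and (X p.1) (cXor (cn (c p.1) p.2) (onesT (K p.1).length (c p.1) p.2)),
        cAll (R p.1) (cOr (.neg (X p.1)) (cn (c p.1) p.2))),
       (.and (X p.1) (.neg (cXor (cn (c p.1) p.2) (onesT (K p.1).length (c p.1) p.2))),
        cAll (R p.1) (cOr (.neg (X p.1)) (.neg (cn (c p.1) p.2))))] := by
    fun_prop
  have h2 := PT.flatMap (f := fun (a : α) (j : ℕ) =>
      [(Con.and (X a) (cXor (cn (c a) j) (onesT (K a).length (c a) j)),
        cAll (R a) (cOr (.neg (X a)) (cn (c a) j))),
       (.and (X a) (.neg (cXor (cn (c a) j) (onesT (K a).length (c a) j))),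
        cAll (R a) (cOr (.neg (X a)) (.neg (cn (c a) j))))]) h1 (PT_range3 hK)
  refine h2.congr fun a => ?_
  unfold incAx
  refine List.flatMap_congr fun j hj => ?_
  rw [onesT_eq _ (List.mem_range.1 hj)]

@[fun_prop] theorem PT_chainAx (hK : PT K) : PT fun a => chainAx (K a).length := by
  unfold chainAx
  fun_prop

@[fun_prop] theorem PT_forestAx (hK : PT K) {μ md rs fx : α → ℕ} (hμ : PT μ) (hmd : PT md)
    (hrs : PT rs) (hfx : PT fx) :
    PT fun a => forestAx (K a).length (μ a) (md a) (rs a) (fx a) := by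
  unfold forestAx
  refine PT.append (PT.append (PT.append ?_ ?_) ?_) ?_
  · fun_prop
  · fun_prop
  · fun_prop
  · have h1 : PT fun p : α × ℕ =>
        [(Con.and (cn 19 (μ p.1)) (cn (24 + μ p.1) p.2),
          cAll (ro 7 (μ p.1)) (cOr (.neg (cn 5 0)) (cn 18 p.2))),
         (.and (cn 19 (μ p.1)) (.neg (cn (24 + μ p.1) p.2)),
          cAll (ro 7 (μ p.1)) (cOr (.neg (cn 5 0)) (.neg (cn 18 p.2))))] := by
      fun_prop
    exact PT.flatMap (f := fun (a : α) (j : ℕ) =>
        [(Con.and (cn 19 (μ a)) (cn (24 + μ a) j),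
          cAll (ro 7 (μ a)) (cOr (.neg (cn 5 0)) (cn 18 j))),
         (.and (cn 19 (μ a)) (.neg (cn (24 + μ a) j)),
          cAll (ro 7 (μ a)) (cOr (.neg (cn 5 0)) (.neg (cn 18 j))))]) h1 (PT_range3 hK)

@[fun_prop] theorem PT_ltAx (hK : PT K) {μ md rs : α → ℕ} (hμ : PT μ) (hmd : PT md)
    (hrs : PT rs) : PT fun a => ltAx (K a).length (μ a) (md a) (rs a) := by
  unfold ltAx
  fun_prop

@[fun_prop] theorem PT_regC (hK : PT K) : PT fun a => regC (K a).length := by
  unfold regC
  fun_prop

@[fun_prop] theorem PT_blkC (hK : PT K) : PT fun a => blkC (K a).length := by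
  unfold blkC
  fun_prop

@[fun_prop] theorem PT_spaC (hK : PT K) : PT fun a => spaC (K a).length := by
  unfold spaC
  fun_prop

@[fun_prop] theorem PT_carryAx {cy : α → ℕ} {reg st : α → Con} (hcy : PT cy) (hreg : PT reg)
    (hst : PT st) : PT fun a => carryAx (cy a) (reg a) (st a) := by
  unfold carryAx
  fun_prop

@[fun_prop] theorem PT_miscAx (hK : PT K) : PT fun a => miscAx (K a).length := by
  unfold miscAx
  refine PT.append (PT.append ?_ ?_) ?_
  · fun_prop
  · fun_prop
  · fun_prop

@[fun_prop] theorem PT_flagAx (hK : PT K) (hN : PT N) :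
    PT fun a => flagAx (K a).length (N a).length := by
  unfold flagAx
  refine PT.append ?_ ?_
  · fun_prop
  · have h1 : PT fun p : α × ℕ =>
        [(Con.and (cn 5 0) (.and (cn 29 2) (eqC (K p.1).length p.2)), Con.neg (cn 10 0)),
         (.and (cn 5 0) (.and (cn 30 p.2) (eqC (K p.1).length p.2)), cn 10 0),
         (.and (cn 5 0) (.and (cn 31 p.2) (eqC (K p.1).length p.2)), cn 13 0)] := by
      fun_prop
    exact PT.flatMap (f := fun (a : α) (d : ℕ) =>
        [(Con.and (cn 5 0) (.and (cn 29 2) (eqC (K a).length d)), Con.neg (cn 10 0)),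
         (.and (cn 5 0) (.and (cn 30 d) (eqC (K a).length d)), cn 10 0),
         (.and (cn 5 0) (.and (cn 31 d) (eqC (K a).length d)), cn 13 0)]) h1 (PT.rangeLength hN)

@[fun_prop] theorem PT_actAx (hK : PT K) (hN : PT N) :
    PT fun a => actAx (K a).length (N a).length := by
  unfold actAx
  refine PT.append (PT.append (PT.append (PT.append ?_ ?_) ?_) ?_) ?_
  · fun_prop
  · exact PT.flatMap (f := fun (a : α) (p : ℕ × ℕ × ℕ × ℕ) =>
      forestAx (K a).length p.1 p.2.1 p.2.2.1 p.2.2.2) (by fun_prop) (PT.const _)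
  · exact PT.flatMap (f := fun (a : α) (p : ℕ × ℕ × ℕ × ℕ) =>
      ltAx (K a).length p.1 p.2.1 p.2.2.1) (by fun_prop) (PT.const _)
  · fun_prop
  · fun_prop

@[fun_prop] theorem PT_globAx (hN : PT N) : PT fun a => globAx (N a).length := by
  unfold globAx globs
  refine PT.cons (PT.const _) (PT.map (f := fun (_ : α) (X : Con) =>
    (Con.and (cn 1 0) X, cAll (ri 0 0) X)) (by fun_prop) ?_)
  refine PT.cons (PT.const _) (PT.append (PT.append (PT.const _) ?_) ?_)
  · exact PT.map (f := fun (_ : α) (d : ℕ) => cn 30 d) (by fun_prop) (PT.rangeLength hN)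
  · exact PT.map (f := fun (_ : α) (d : ℕ) => cn 31 d) (by fun_prop) (PT.rangeLength hN)

theorem PT_violC {n : α → ℕ} {bI bF : α → List ℕ} {bV bH : α → List (ℕ × ℕ)} (hK : PT K)
    (hI : PT bI) (hF : PT bF) (hV : PT bV) (hH : PT bH) :
    PT fun a => violC ⟨(K a).length, n a, bI a, bF a, bV a, bH a⟩ := by
  unfold violC
  refine PT_cDisj (PT.append (PT.append (PT.append (PT.append ?_ ?_) ?_) ?_) ?_)
  · exact PT.map (f := fun (_ : α) (d : ℕ) => Con.and (cn 29 0) (cn 30 d)) (by fun_prop) hI
  · exact PT.map (f := fun (_ : α) (d : ℕ) => Con.and (cn 29 1) (cn 30 d)) (by fun_prop) hF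
  · fun_prop
  · exact PT.map (f := fun (a : α) (p : ℕ × ℕ) => Con.and (.and (cn 29 5) (cn 29 6))
        (.and (.ex (ro 1 0) (.and (cn 5 0) (.and (blkC (K a).length) (.neg (cn 10 0)))))
          (.and (cn 30 p.1) (cn 31 p.2)))) (by fun_prop) hV
  · exact PT.map (f := fun (a : α) (p : ℕ × ℕ) => Con.and (.and (cn 29 5) (cn 29 7))
        (.and (.ex (ro 1 0) (.and (cn 5 0) (.and (spaC (K a).length) (.neg (cn 10 0)))))
          (.and (cn 30 p.1) (cn 31 p.2)))) (by fun_prop) hH

theorem PT_topC {n : α → ℕ} {bI bF : α → List ℕ} {bV bH : α → List (ℕ × ℕ)} (hK : PT K)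
    (hI : PT bI) (hF : PT bF) (hV : PT bV) (hH : PT bH) :
    PT fun a => topC ⟨(K a).length, n a, bI a, bF a, bV a, bH a⟩ := by
  unfold topC
  have h := PT_violC (n := n) hK hI hF hV hH
  fun_prop

theorem PT_tboxOf {bI bF : α → List ℕ} {bV bH : α → List (ℕ × ℕ)} (hK : PT K) (hN : PT N)
    (hI : PT bI) (hF : PT bF) (hV : PT bV) (hH : PT bH) :
    PT fun a => tboxOf ⟨(K a).length, (N a).length, bI a, bF a, bV a, bH a⟩ := by
  unfold tboxOf
  refine PT.append (PT.append (PT.append ?_ (PT.const _)) ?_) ?_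
  · exact PT_globAx hN
  · have h := PT_topC (n := fun a => (N a).length) hK hI hF hV hH
    fun_prop
  · exact PT.map (f := fun (_ : α) (p : Con × Con) => (Con.and (cn 3 0) p.1, p.2))
      (by fun_prop) (PT_actAx hK hN)

theorem PT_instOf' {bI bF : α → List ℕ} {bV bH : α → List (ℕ × ℕ)} (hK : PT K) (hN : PT N)
    (hI : PT bI) (hF : PT bF) (hV : PT bV) (hH : PT bH) :
    PT fun a => instOf ⟨(K a).length, (N a).length, bI a, bF a, bV a, bH a⟩ := by
  have h1 := PT_tboxOf hK hN hI hF hV hH
  have h : PT fun a => ((cn 0 0, (tboxOf ⟨(K a).length, (N a).length, bI a, bF a, bV a, bH a⟩,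
      [Assertion.con 1 0, Assertion.con 2 0]),
      (([0] : List ℕ), ([1, 15, 79, 143] : List ℕ), ([] : List (ℕ × ℕ)))) :
      Con × (List (Con × Con) × List Assertion) × (List ℕ × List ℕ × List (ℕ × ℕ))) := by
    fun_prop
  exact h

/-- the code of a tiling instance -/
def tup (P : Til) : List Unit × List Unit × List ℕ × List ℕ × List (ℕ × ℕ) × List (ℕ × ℕ) :=
  (List.replicate P.k (), List.replicate P.n (), P.badI, P.badF, P.badV, P.badH)

theorem PT_tup : PT tup := FP.id _

/-- the instance is computable in polynomial time -/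
theorem PT_instOf : PT fun P : Til => instOf P := by
  have h := PT_instOf' (K := fun P : Til => (tup P).1) (N := fun P : Til => (tup P).2.1)
    (bI := fun P : Til => (tup P).2.2.1) (bF := fun P : Til => (tup P).2.2.2.1)
    (bV := fun P : Til => (tup P).2.2.2.2.1) (bH := fun P : Til => (tup P).2.2.2.2.2)
    (PT.fst PT_tup) (PT.fst (PT.snd PT_tup)) (PT.fst (PT.snd (PT.snd PT_tup)))
    (PT.fst (PT.snd (PT.snd (PT.snd PT_tup)))) (PT.fst (PT.snd (PT.snd (PT.snd (PT.snd PT_tup)))))
    (PT.snd (PT.snd (PT.snd (PT.snd (PT.snd PT_tup)))))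
  refine h.congr fun P => ?_
  congr 1
  simp [tup]

end Pool.Agent.H24N
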