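import Pool.Agent.Lib.H24N.Tile

/-!
# A tiling from good numbers
-/

set_option autoImplicit false

namespace Pool.Agent.H24N

theorem tg_tim (k v : ℕ) : tim k v = crd k v % 2 ^ 2 ^ k := by
  rw [crd_eq, Nat.add_mul_mod_self_left, Nat.mod_eq_of_lt (tim_lt k v)]

theorem tg_spc (k v : ℕ) : spc k v = crd k v / 2 ^ 2 ^ k := by
  rw [crd_eq, Nat.add_mul_div_left _ _ (Nat.two_pow_pos _), Nat.div_eq_of_lt (tim_lt k v), zero_add]

theorem tg_pos {k i j : ℕ} (hi : i < 2 ^ 2 ^ k) (hj : j < 2 ^ (2 * 2 ^ k)) :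
    i + 2 ^ 2 ^ k * j < 2 ^ (3 * 2 ^ k) := by
  have h1 : 3 * 2 ^ k = 2 ^ k + 2 * 2 ^ k := by ring
  rw [h1, pow_add]
  calc i + 2 ^ 2 ^ k * j < 2 ^ 2 ^ k + 2 ^ 2 ^ k * j := by omega
    _ = 2 ^ 2 ^ k * (j + 1) := by ring
    _ ≤ 2 ^ 2 ^ k * 2 ^ (2 * 2 ^ k) := Nat.mul_le_mul_left _ hj

theorem solvable_of_good {P : Til} (hP : P.Wf) {x0 x1 x2 : ℕ} (h : Good P x0 x1 x2) :
    P.Solvable := by
  classical
  obtain ⟨s0, hs0, hc0⟩ := h.orig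
  let σ : ℕ → ℕ := fun c => Nat.rec s0 (fun _ s => x2 % s) c
  have hσ0 : σ 0 = s0 := rfl
  have hσS : ∀ c, σ (c + 1) = x2 % σ c := fun c => rfl
  have hσ : ∀ c, c < 2 ^ (3 * 2 ^ P.k) → Active P.k x0 (σ c) ∧ crd P.k (x1 % σ c) = c := by
    intro c
    induction c with
    | zero => intro _; exact ⟨hs0, hc0⟩
    | succ c ih =>
      intro hc
      obtain ⟨h1, h2⟩ := ih (by omega)
      have h3 := h.ptr (σ c) h1 (by rw [h2]; exact hc)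
      rw [hσS, h2] at *
      exact h3
  have hd : ∀ s, ∃ d, Active P.k x0 s → d < P.n ∧ (x1 % s).testBit d = true := by
    intro s
    by_cases hs : Active P.k x0 s
    · obtain ⟨d, h1, h2⟩ := h.tile s hs
      exact ⟨d, fun _ => ⟨h1, h2⟩⟩
    · exact ⟨0, fun h1 => absurd h1 hs⟩
  choose d hd using hd
  have htim : ∀ i j, i < 2 ^ 2 ^ P.k → j < 2 ^ (2 * 2 ^ P.k) →
      tim P.k (x1 % σ (i + 2 ^ 2 ^ P.k * j)) = i := by
    intro i j hi hj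
    rw [tg_tim, (hσ _ (tg_pos hi hj)).2, Nat.add_mul_mod_self_left, Nat.mod_eq_of_lt hi]
  have hspc : ∀ i j, i < 2 ^ 2 ^ P.k → j < 2 ^ (2 * 2 ^ P.k) →
      spc P.k (x1 % σ (i + 2 ^ 2 ^ P.k * j)) = j := by
    intro i j hi hj
    rw [tg_spc, (hσ _ (tg_pos hi hj)).2, Nat.add_mul_div_left _ _ (Nat.two_pow_pos _),
      Nat.div_eq_of_lt hi, zero_add]
  refine ⟨fun i j => d (σ (i + 2 ^ 2 ^ P.k * j)), ?_, ?_, ?_, ?_, ?_⟩
  · intro i hi j hj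
    exact (hd _ (hσ _ (tg_pos hi hj)).1).1
  · intro hbad
    have h00 : 0 + 2 ^ 2 ^ P.k * 0 < 2 ^ (3 * 2 ^ P.k) :=
      tg_pos (Nat.two_pow_pos _) (Nat.two_pow_pos _)
    obtain ⟨h1, h2⟩ := hσ _ h00
    have h3 := hd _ h1
    have h4 := h.ini _ h1 (by rw [h2]; simp) _ hbad h3.1
    rw [h3.2] at h4
    exact absurd h4 (by simp)
  · intro j hj hbad
    have hi : 2 ^ 2 ^ P.k - 1 < 2 ^ 2 ^ P.k := Nat.sub_lt (Nat.two_pow_pos _) one_pos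
    obtain ⟨h1, h2⟩ := hσ _ (tg_pos hi hj)
    have h3 := hd _ h1
    have h4 := h.fin _ h1 (htim _ _ hi hj) _ hbad h3.1
    rw [h3.2] at h4
    exact absurd h4 (by simp)
  · intro i j hi hj hbad
    obtain ⟨h1, h2⟩ := hσ _ (tg_pos (by omega : i < 2 ^ 2 ^ P.k) hj)
    obtain ⟨h1', h2'⟩ := hσ _ (tg_pos hi hj)
    have h3 := hd _ h1
    have h3' := hd _ h1'
    refine h.ver _ _ h1 h1' ?_ ?_ _ hbad h3.1 h3'.1 ⟨h3.2, h3'.2⟩
    · rw [htim i j (by omega) hj]; exact hi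
    · rw [h2, h2']; ring
  · intro i j hi hj hbad
    obtain ⟨h1, h2⟩ := hσ _ (tg_pos hi (by omega : j < 2 ^ (2 * 2 ^ P.k)))
    obtain ⟨h1', h2'⟩ := hσ _ (tg_pos hi hj)
    have h3 := hd _ h1
    have h3' := hd _ h1'
    refine h.hor _ _ h1 h1' ?_ ?_ ?_ _ hbad h3.1 h3'.1 ⟨h3.2, h3'.2⟩
    · rw [hspc i j hi (by omega)]; exact hj
    · rw [htim i (j + 1) hi hj, htim i j hi (by omega)]
    · rw [hspc i (j + 1) hi hj, hspc i j hi (by omega)]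

end Pool.Agent.H24N
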