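import Mathlib

/-!
# The size of the rectangle
-/

set_option autoImplicit false

namespace Pool.Agent.H24N

theorem SZ_poly_le (T : Polynomial ℕ) : ∃ D : ℕ, ∀ m : ℕ, T.eval m ≤ (m + 2) ^ D := by
  induction T using Polynomial.induction_on' with
  | add p q hp hq =>
    obtain ⟨a, ha⟩ := hp
    obtain ⟨b, hb⟩ := hq
    refine ⟨a + b + 1, fun m => ?_⟩
    rw [Polynomial.eval_add]
    have h1 : 1 ≤ m + 2 := by omega
    have h2 : (m + 2) ^ a ≤ (m + 2) ^ (a + b) := Nat.pow_le_pow_right h1 (by omega)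
    have h3 : (m + 2) ^ b ≤ (m + 2) ^ (a + b) := Nat.pow_le_pow_right h1 (by omega)
    calc p.eval m + q.eval m ≤ (m + 2) ^ (a + b) + (m + 2) ^ (a + b) :=
          Nat.add_le_add ((ha m).trans h2) ((hb m).trans h3)
      _ = (m + 2) ^ (a + b) * 2 := by ring
      _ ≤ (m + 2) ^ (a + b) * (m + 2) := Nat.mul_le_mul_left _ (by omega)
      _ = (m + 2) ^ (a + b + 1) := by rw [pow_succ]
  | monomial n a =>
    refine ⟨a + n, fun m => ?_⟩
    rw [Polynomial.eval_monomial]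
    have h1 : a ≤ (m + 2) ^ a :=
      (Nat.lt_two_pow_self (n := a)).le.trans (Nat.pow_le_pow_left (by omega) a)
    have h2 : m ^ n ≤ (m + 2) ^ n := Nat.pow_le_pow_left (by omega) n
    calc a * m ^ n ≤ (m + 2) ^ a * (m + 2) ^ n := Nat.mul_le_mul h1 h2
      _ = (m + 2) ^ (a + n) := by rw [pow_add]

/-- the size of the rectangle -/
theorem exists_size (q T : Polynomial ℕ) (A B : ℕ) : ∃ C : ℕ, ∀ X : ℕ,
    (∀ n ≤ 2 ^ 2 ^ q.eval X, T.eval (X + 1 + n) ≤ 2 ^ 2 ^ (q.eval X + X + C) - 1) ∧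
    X + 2 ≤ 2 ^ (2 * 2 ^ (q.eval X + X + C)) ∧
    A ≤ 2 ^ 2 ^ (q.eval X + X + C) ∧
    (X + 4) * B ≤ 2 ^ (q.eval X + X + C) := by
  obtain ⟨D, hD⟩ := SZ_poly_le T
  refine ⟨D + A + B + 7, fun X => ?_⟩
  generalize q.eval X = Q
  have hM : ∀ a : ℕ, a < 2 ^ a := fun a => Nat.lt_two_pow_self
  refine ⟨fun n hn => ?_, ?_, ?_, ?_⟩
  · have h1 : X + 1 + n + 2 ≤ 2 ^ (2 ^ Q + (X + 3)) := by
      have h2 : 2 ≤ 2 ^ 2 ^ Q := by
        calc 2 = 2 ^ 1 := by norm_num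
          _ ≤ 2 ^ 2 ^ Q := Nat.pow_le_pow_right (by norm_num) Nat.one_le_two_pow
      have h3 : X + 3 ≤ 2 ^ (X + 3) := (hM _).le
      have h4 : 2 ≤ 2 ^ (X + 3) := by omega
      rw [pow_add]
      nlinarith
    have h5 : D * (2 ^ Q + (X + 3)) + 1 ≤ 2 ^ (Q + X + (D + A + B + 7)) := by
      have h6 : 2 ^ Q + (X + 3) ≤ 2 ^ (Q + X + 4) := by
        have h7 : 1 ≤ 2 ^ Q := Nat.one_le_two_pow
        have h8 : X + 3 < 2 ^ (X + 3) := hM _
        have h9 : 2 ^ (Q + X + 4) = 2 ^ Q * 2 ^ (X + 3) * 2 := by ring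
        rw [h9]
        nlinarith
      have h10 : 1 ≤ 2 ^ (Q + X + 4) := Nat.one_le_two_pow
      have h11 : D < 2 ^ D := hM D
      calc D * (2 ^ Q + (X + 3)) + 1 ≤ D * 2 ^ (Q + X + 4) + 2 ^ (Q + X + 4) :=
            Nat.add_le_add (Nat.mul_le_mul_left _ h6) h10
        _ = (D + 1) * 2 ^ (Q + X + 4) := by ring
        _ ≤ 2 ^ D * 2 ^ (Q + X + 4) := Nat.mul_le_mul_right _ h11
        _ = 2 ^ (D + (Q + X + 4)) := (pow_add 2 D (Q + X + 4)).symm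
        _ ≤ 2 ^ (Q + X + (D + A + B + 7)) := Nat.pow_le_pow_right (by norm_num) (by omega)
    have h12 : T.eval (X + 1 + n) ≤ 2 ^ (D * (2 ^ Q + (X + 3))) := by
      calc T.eval (X + 1 + n) ≤ (X + 1 + n + 2) ^ D := hD _
        _ ≤ (2 ^ (2 ^ Q + (X + 3))) ^ D := Nat.pow_le_pow_left h1 D
        _ = 2 ^ (D * (2 ^ Q + (X + 3))) := by rw [← pow_mul, mul_comm]
    have h13 : 2 ^ (D * (2 ^ Q + (X + 3))) + 2 ^ (D * (2 ^ Q + (X + 3))) ≤
        2 ^ 2 ^ (Q + X + (D + A + B + 7)) := by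
      calc 2 ^ (D * (2 ^ Q + (X + 3))) + 2 ^ (D * (2 ^ Q + (X + 3)))
          = 2 ^ (D * (2 ^ Q + (X + 3)) + 1) := by rw [pow_succ]; ring
        _ ≤ _ := Nat.pow_le_pow_right (by norm_num) h5
    have h14 : 1 ≤ 2 ^ (D * (2 ^ Q + (X + 3))) := Nat.one_le_two_pow
    omega
  · have h1 : Q + X + (D + A + B + 7) < 2 ^ (Q + X + (D + A + B + 7)) := hM _
    have h2 : 2 * 2 ^ (Q + X + (D + A + B + 7)) < 2 ^ (2 * 2 ^ (Q + X + (D + A + B + 7))) := hM _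
    omega
  · have h1 : Q + X + (D + A + B + 7) < 2 ^ (Q + X + (D + A + B + 7)) := hM _
    have h2 : 2 ^ (Q + X + (D + A + B + 7)) < 2 ^ (2 ^ (Q + X + (D + A + B + 7))) := hM _
    omega
  · have h1 : X + 4 < 2 ^ (X + 4) := hM _
    have h2 : B < 2 ^ B := hM _
    calc (X + 4) * B ≤ 2 ^ (X + 4) * 2 ^ B := Nat.mul_le_mul h1.le h2.le
      _ = 2 ^ (X + 4 + B) := (pow_add 2 (X + 4) B).symm
      _ ≤ 2 ^ (Q + X + (D + A + B + 7)) := Nat.pow_le_pow_right (by norm_num) (by omega)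

end Pool.Agent.H24N
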