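import Pool.Agent.Lib.H24N.TabTil

/-!
# A tiling from an accepting computation
-/

set_option autoImplicit false

namespace Pool.Agent.H24N

open Pool.Agent.PolyTime Pool.Agent.Lib.CookLevin

section

variable (M : Tab) (r : ℕ → ℕ)

theorem tt1_pos_getElem? (j e : ℕ) (he : e < 2 * M.c + 1) :
    (M.pos j)[M.c + e]? = some (j + e - M.c) := by
  rw [Tab.pos, List.getElem?_append_right (by simp)]
  simp [he]

theorem tt1_pos_getElem?_left (j e : ℕ) (he : e < M.c) :
    (M.pos j)[e]? = some e := by
  rw [Tab.pos, List.getElem?_append_left (by simpa using he)]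
  simp [he]

theorem tt1_cen (ph m j : ℕ) : cen M (ph, m, (M.pos j).map r) = r j := by
  have h := tt1_pos_getElem? M j M.c (by omega)
  have h2 : M.c + M.c = 2 * M.c := by ring
  rw [h2] at h
  simp only [cen]
  rw [List.getD_eq_getElem?_getD, List.getElem?_map, h]
  simp

theorem tt1_okZero (ph j : ℕ) : okZero M (ph, min j (M.c + 1), (M.pos j).map r) = true := by
  rcases Nat.eq_zero_or_pos j with rfl | hj
  · have h1 : ((M.pos 0).map r).take M.c = (((M.pos 0).map r).drop (2 * M.c)).take M.c := by
      apply List.ext_getElem?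
      intro e
      rw [List.getElem?_take, List.getElem?_take]
      split_ifs with he
      · rw [List.getElem?_drop, List.getElem?_map, List.getElem?_map,
          tt1_pos_getElem?_left M 0 e he]
        have h := tt1_pos_getElem? M 0 (M.c + e) (by omega)
        have h2 : M.c + (M.c + e) = 2 * M.c + e := by ring
        rw [h2] at h
        rw [h]
        simp
      · rfl
    have h2 : (((M.pos 0).map r).drop M.c).take (M.c + 1) = List.replicate (M.c + 1) (r 0) := by
      apply List.ext_getElem?
      intro e
      rw [List.getElem?_take, List.getElem?_replicate]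
      split_ifs with he
      · rw [List.getElem?_drop, List.getElem?_map, tt1_pos_getElem? M 0 e (by omega)]
        have h3 : 0 + e - M.c = 0 := by omega
        rw [h3]
        rfl
      · rfl
    simp only [okZero, tt1_cen]
    simp [h1, h2]
  · simp only [okZero]
    have : min j (M.c + 1) ≠ 0 := by omega
    simp [this]

/-- the phase of column `j` of the first row -/
def tt1ph (x y : List Bool) (j : ℕ) : ℕ :=
  if j ≤ x.length then j else if j < x.length + 1 + y.length then x.length + 1 else x.length + 2

theorem tt1_okPh (x y : List Bool) (j m : ℕ) (w : List ℕ)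
    (hw : cen M (tt1ph x y j, m, w) = M.initRow x y j) :
    okPh M x (tt1ph x y j, m, w) = true := by
  have key : (tt1ph x y j < x.length ∧ M.initRow x y j = M.sym (x.getD (tt1ph x y j) false)) ∨
      (tt1ph x y j = x.length ∧ M.initRow x y j = M.sep) ∨
      (tt1ph x y j = x.length + 1 ∧ (M.initRow x y j = M.sym false ∨ M.initRow x y j = M.sym true)) ∨
      (tt1ph x y j = x.length + 2 ∧ M.initRow x y j = M.blank) := by
    rcases Nat.lt_trichotomy j x.length with h | h | h
    · left
      have h1 : tt1ph x y j = j := by simp [tt1ph, h.le]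
      refine ⟨by omega, ?_⟩
      rw [h1, Tab.initRow, List.getD_eq_getElem?_getD, List.getElem?_append_left (by simpa using h),
        List.getElem?_map, List.getD_eq_getElem?_getD, List.getElem?_eq_getElem h]
      rfl
    · right; left
      subst h
      refine ⟨by simp [tt1ph], ?_⟩
      rw [Tab.initRow, List.getD_eq_getElem?_getD, List.getElem?_append_right (by simp)]
      simp
    · right; right
      by_cases h2 : j < x.length + 1 + y.length
      · left
        refine ⟨by simp [tt1ph, h2, not_le.mpr h], ?_⟩
        rw [Tab.initRow, List.getD_eq_getElem?_getD, List.getElem?_append_right (by simp; omega)]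
        obtain ⟨e, he⟩ : ∃ e, j - (x.map M.sym).length = e + 1 :=
          ⟨j - x.length - 1, by simp; omega⟩
        rw [he, List.getElem?_cons_succ, List.getElem?_map]
        have he' : e < y.length := by simp at he; omega
        rw [List.getElem?_eq_getElem he']
        cases y[e] <;> simp
      · right
        refine ⟨by simp [tt1ph, h2, not_le.mpr h], ?_⟩
        rw [Tab.initRow, List.getD_eq_getElem?_getD, List.getElem?_eq_none (by simp; omega)]
        rfl
  simp only [okPh, hw]
  rcases key with ⟨h1, h2⟩ | ⟨h1, h2⟩ | ⟨h1, h2⟩ | ⟨h1, h2⟩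
  · simp [h1, h2]
  · simp [h1, h2]
  · rcases h2 with h2 | h2 <;> simp [h1, h2]
  · simp [h1, h2]

theorem tt1_take (j : ℕ) : ((M.pos (j + 1)).map r).take M.c = ((M.pos j).map r).take M.c := by
  apply List.ext_getElem?
  intro e
  rw [List.getElem?_take, List.getElem?_take]
  split_ifs with he
  · rw [List.getElem?_map, List.getElem?_map, tt1_pos_getElem?_left M _ e he,
      tt1_pos_getElem?_left M _ e he]
  · rfl

theorem tt1_drop (j : ℕ) : (((M.pos (j + 1)).map r).drop M.c).take (2 * M.c) =
    ((M.pos j).map r).drop (M.c + 1) := by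
  apply List.ext_getElem?
  intro e
  rw [List.getElem?_take, List.getElem?_drop, List.getElem?_drop]
  split_ifs with he
  · rw [List.getElem?_map, List.getElem?_map, tt1_pos_getElem? M _ e (by omega)]
    have h : M.c + 1 + e = M.c + (1 + e) := by ring
    rw [h, tt1_pos_getElem? M _ (1 + e) (by omega)]
    have h2 : j + 1 + e - M.c = j + (1 + e) - M.c := by omega
    rw [h2]
  · rw [List.getElem?_eq_none]
    rw [List.length_map, Tab.pos_length]
    omega

end

theorem tiling_of_acc {M : Tab} (hM : M.Ok) (x y : List Bool) (k : ℕ)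
    (h : M.acc ((M.next^[2 ^ 2 ^ k - 1] (M.initRow x y)) 0) = true) :
    (tabTil M x k).Solvable := by
  rw [tabTil, tilOfList_solvable]
  let row : ℕ → ℕ → ℕ := fun i => M.next^[i] (M.initRow x y)
  have hrow : ∀ i j, row i j < M.K := fun i j =>
    Tab.iterate_next_lt hM (Tab.initRow_lt hM x y) i j
  have hsucc : ∀ i j, row (i + 1) j = M.δ (min j M.c) ((M.pos j).map (row i)) := by
    intro i j
    show (M.next^[i + 1] (M.initRow x y)) j = _
    rw [Function.iterate_succ_apply']
    rfl
  let ph : ℕ → ℕ → ℕ := fun i j => if i = 0 then tt1ph x y j else x.length + 3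
  let τ : ℕ → ℕ → Cell := fun i j => (ph i j, min j (M.c + 1), (M.pos j).map (row i))
  have hph0 : ∀ j, tt1ph x y j ≤ x.length + 2 := by
    intro j
    unfold tt1ph
    split_ifs <;> omega
  refine ⟨τ, ?_, ?_, ?_, ?_, ?_⟩
  · intro i _ j _
    rw [mem_cellsOf]
    refine ⟨?_, ?_, ?_, ?_, ?_, ?_⟩
    · show ph i j < _
      simp only [ph]
      split_ifs
      · have := hph0 j
        omega
      · omega
    · show min j (M.c + 1) < M.c + 2
      omega
    · show ((M.pos j).map (row i)).length = _
      rw [List.length_map, Tab.pos_length]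
    · intro a ha
      obtain ⟨l, _, rfl⟩ := List.mem_map.1 ha
      exact hrow i l
    · exact tt1_okZero M (row i) (ph i j) j
    · by_cases hi : i = 0
      · subst hi
        show okPh M x (ph 0 j, min j (M.c + 1), (M.pos j).map (row 0)) = true
        simp only [ph, if_true]
        apply tt1_okPh
        exact tt1_cen M (row 0) _ _ j
      · show okPh M x (ph i j, min j (M.c + 1), (M.pos j).map (row i)) = true
        simp only [ph, if_neg hi, okPh]
        simp
  · show okI (ph 0 0, min 0 (M.c + 1), _) = true
    simp [okI, ph, tt1ph]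
  · intro j _
    show okF M (ph _ j, min j (M.c + 1), (M.pos j).map (row (2 ^ 2 ^ k - 1))) = true
    simp only [okF, tt1_cen]
    rcases Nat.eq_zero_or_pos j with rfl | hj
    · simp only [row]
      rw [h]
      simp
    · have : min j (M.c + 1) ≠ 0 := by omega
      simp [this]
  · intro i j _ _
    show okV M x (ph i j, min j (M.c + 1), (M.pos j).map (row i))
      (ph (i + 1) j, min j (M.c + 1), (M.pos j).map (row (i + 1))) = true
    simp only [okV, tt1_cen, hsucc]
    have h1 : min (min j (M.c + 1)) M.c = min j M.c := by omega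
    simp [h1, ph]
  · intro i j _ _
    show okH M x (ph i j, min j (M.c + 1), (M.pos j).map (row i))
      (ph i (j + 1), min (j + 1) (M.c + 1), (M.pos (j + 1)).map (row i)) = true
    simp only [okH, tt1_take, tt1_drop]
    have h1 : min (j + 1) (M.c + 1) = min (min j (M.c + 1) + 1) (M.c + 1) := by omega
    have h2 : (ph i j < x.length ∧ ph i (j + 1) = ph i j + 1) ∨
        (ph i j = x.length ∧ (ph i (j + 1) = x.length + 1 ∨ ph i (j + 1) = x.length + 2)) ∨
        (ph i j = x.length + 1 ∧ (ph i (j + 1) = x.length + 1 ∨ ph i (j + 1) = x.length + 2)) ∨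
        (ph i j = x.length + 2 ∧ ph i (j + 1) = x.length + 2) ∨
        (ph i j = x.length + 3 ∧ ph i (j + 1) = x.length + 3) := by
      by_cases hi : i = 0
      · simp only [ph, if_pos hi]
        unfold tt1ph
        split_ifs <;> omega
      · have e1 : ph i j = x.length + 3 := if_neg hi
        have e2 : ph i (j + 1) = x.length + 3 := if_neg hi
        exact Or.inr (Or.inr (Or.inr (Or.inr ⟨e1, e2⟩)))
    rcases h2 with ⟨h2, h3⟩ | ⟨h2, h3⟩ | ⟨h2, h3⟩ | ⟨h2, h3⟩ | ⟨h2, h3⟩
    · simp [h2, h3, ← h1]
    · rcases h3 with h3 | h3 <;> simp [h2, h3, ← h1]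
    · rcases h3 with h3 | h3 <;> simp [h2, h3, ← h1]
    · simp [h2, h3, ← h1]
    · simp [h2, h3, ← h1]

end Pool.Agent.H24N
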