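import Pool.Agent.Lib.H24N.TabTil

/-!
# An accepting computation from a tiling
-/

set_option autoImplicit false

namespace Pool.Agent.H24N

open Pool.Agent.PolyTime Pool.Agent.Lib.CookLevin

section

variable {M : Tab}

theorem tt2_pos_getElem? (j e : ℕ) (he : e < 2 * M.c + 1) :
    (M.pos j)[M.c + e]? = some (j + e - M.c) := by
  rw [Tab.pos, List.getElem?_append_right (by simp)]
  simp [he]

theorem tt2_pos_getElem?_left (j e : ℕ) (he : e < M.c) :
    (M.pos j)[e]? = some e := by
  rw [Tab.pos, List.getElem?_append_left (by simpa using he)]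
  simp [he]

/-- A row of cells: `t 0` is in column `0`, consecutive cells match. -/
structure TT2Row (M : Tab) (W : ℕ) (t : ℕ → Cell) : Prop where
  len : ∀ j < W, (t j).2.2.length = 3 * M.c + 1
  zero : okZero M (t 0) = true
  col : (t 0).2.1 = 0
  hm : ∀ j, j + 1 < W → (t (j + 1)).2.1 = min ((t j).2.1 + 1) (M.c + 1)
  ht : ∀ j, j + 1 < W → (t (j + 1)).2.2.take M.c = (t j).2.2.take M.c
  hd : ∀ j, j + 1 < W → ((t (j + 1)).2.2.drop M.c).take (2 * M.c) = (t j).2.2.drop (M.c + 1)

variable {W : ℕ} {t : ℕ → Cell}

theorem TT2Row.m_eq (R : TT2Row M W t) (j : ℕ) (hj : j < W) : (t j).2.1 = min j (M.c + 1) := by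
  induction j with
  | zero => simp [R.col]
  | succ j ih =>
    rw [R.hm j hj, ih (by omega)]
    omega

theorem TT2Row.cen_eq (R : TT2Row M W t) (j : ℕ) (hj : j < W) :
    (t j).2.2[M.c + M.c]? = some (cen M (t j)) := by
  have h1 : 2 * M.c < (t j).2.2.length := by rw [R.len j hj]; omega
  have h2 : M.c + M.c = 2 * M.c := by ring
  rw [h2, cen, List.getD_eq_getElem?_getD, List.getElem?_eq_getElem h1]
  rfl

/-- the shift: entry `e` of the second part of column `j + 1` is the entry `e + 1` of column `j` -/
theorem TT2Row.shift (R : TT2Row M W t) (j e : ℕ) (hj : j + 1 < W) (he : e < 2 * M.c) :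
    (t (j + 1)).2.2[M.c + e]? = (t j).2.2[M.c + (e + 1)]? := by
  have h := congrArg (fun L : List ℕ => L[e]?) (R.hd j hj)
  simp only [List.getElem?_take, List.getElem?_drop, if_pos he] at h
  rw [h]
  congr 1
  ring

/-- entries to the right of the center -/
theorem TT2Row.right (R : TT2Row M W t) (f j : ℕ) (hf : f ≤ M.c) (hj : j + f < W) :
    (t j).2.2[M.c + (M.c + f)]? = some (cen M (t (j + f))) := by
  induction f generalizing j with
  | zero => exact R.cen_eq j hj
  | succ f ih =>
    have h1 := ih (j + 1) (by omega) (by omega)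
    rw [R.shift j (M.c + f) (by omega) (by omega)] at h1
    have h2 : j + 1 + f = j + (f + 1) := by ring
    rw [h2] at h1
    exact h1

/-- entries in the first column, left of the center -/
theorem TT2Row.left_zero (R : TT2Row M W t) (hW : 0 < W) (e : ℕ) (he : e ≤ M.c) :
    (t 0).2.2[M.c + e]? = some (cen M (t 0)) := by
  have h := R.zero
  simp only [okZero, R.col] at h
  simp only [decide_true, Bool.not_true, Bool.false_or, Bool.and_eq_true, decide_eq_true_eq] at h
  have h2 := congrArg (fun L : List ℕ => L[e]?) h.2
  have he' : e < M.c + 1 := by omega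
  simp only [List.getElem?_take, List.getElem?_drop, if_pos he', List.getElem?_replicate] at h2
  exact h2

/-- the entries of the second part -/
theorem TT2Row.entry (R : TT2Row M W t) (j e : ℕ) (he : e < 2 * M.c + 1) (hj : j < W)
    (hje : j + e - M.c < W) :
    (t j).2.2[M.c + e]? = some (cen M (t (j + e - M.c))) := by
  rcases le_or_gt M.c e with h | h
  · obtain ⟨f, rfl⟩ := Nat.exists_eq_add_of_le h
    have h2 : j + (M.c + f) - M.c = j + f := by omega
    rw [h2] at hje ⊢
    exact R.right f j (by omega) hje
  · -- `e < c`
    induction j generalizing e with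
    | zero =>
      have h2 : 0 + e - M.c = 0 := by omega
      rw [h2]
      exact R.left_zero (by omega) e h.le
    | succ j ih =>
      rw [R.shift j e hj (by omega)]
      have h2 : j + 1 + e - M.c = j + (e + 1) - M.c := by omega
      rw [h2] at hje ⊢
      rcases Nat.lt_or_ge (e + 1) M.c with h3 | h3
      · exact ih (e + 1) (by omega) (by omega) hje h3
      · have h4 : e + 1 = M.c + 0 := by omega
        rw [h4] at hje ⊢
        have h5 : j + (M.c + 0) - M.c = j + 0 := by omega
        rw [h5]
        exact R.right 0 j (by omega) (by omega)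

/-- the entries of the first part -/
theorem TT2Row.entry_left (R : TT2Row M W t) (hcW : M.c ≤ W) (j e : ℕ) (he : e < M.c)
    (hj : j < W) :
    (t j).2.2[e]? = some (cen M (t e)) := by
  induction j with
  | zero =>
    have h := R.zero
    simp only [okZero, R.col] at h
    simp only [decide_true, Bool.not_true, Bool.false_or, Bool.and_eq_true, decide_eq_true_eq] at h
    have h1 := congrArg (fun L : List ℕ => L[e]?) h.1
    simp only [List.getElem?_take, List.getElem?_drop, if_pos he] at h1
    rw [h1]
    have h2 := R.right e 0 he.le (by omega)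
    have h3 : M.c + (M.c + e) = 2 * M.c + e := by ring
    rw [h3] at h2
    rw [h2]
    simp
  | succ j ih =>
    have h := congrArg (fun L : List ℕ => L[e]?) (R.ht j hj)
    simp only [List.getElem?_take, if_pos he] at h
    rw [h]
    exact ih (by omega)

/-- the windows -/
theorem TT2Row.window (R : TT2Row M W t) (hcW : M.c ≤ W) (j : ℕ) (hj : j + M.c < W) :
    (t j).2.2 = (M.pos j).map fun l => cen M (t l) := by
  apply List.ext_getElem?
  intro e
  rw [List.getElem?_map]
  rcases lt_or_ge e M.c with h | h
  · rw [R.entry_left hcW j e h (by omega), tt2_pos_getElem?_left j e h]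
    rfl
  · obtain ⟨f, rfl⟩ := Nat.exists_eq_add_of_le h
    rcases lt_or_ge f (2 * M.c + 1) with h2 | h2
    · rw [R.entry j f h2 (by omega) (by omega), tt2_pos_getElem? j f h2]
      rfl
    · rw [List.getElem?_eq_none (by rw [R.len j (by omega)]; omega),
        List.getElem?_eq_none (by rw [Tab.pos_length]; omega)]
      rfl

end

/-- reading the first row -/
theorem tt2_first {M : Tab} (x : List Bool) (W : ℕ) (t : ℕ → Cell) (h0 : (t 0).1 = 0)
    (hph : ∀ j < W, okPh M x (t j) = true)
    (hstep : ∀ j, j + 1 < W → ((t j).1 < x.length ∧ (t (j + 1)).1 = (t j).1 + 1) ∨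
      ((t j).1 = x.length ∧ ((t (j + 1)).1 = x.length + 1 ∨ (t (j + 1)).1 = x.length + 2)) ∨
      ((t j).1 = x.length + 1 ∧ ((t (j + 1)).1 = x.length + 1 ∨ (t (j + 1)).1 = x.length + 2)) ∨
      ((t j).1 = x.length + 2 ∧ (t (j + 1)).1 = x.length + 2) ∨
      ((t j).1 = x.length + 3 ∧ (t (j + 1)).1 = x.length + 3)) :
    ∃ y, ∀ j < W, cen M (t j) = M.initRow x y j := by
  have hex : ∃ j, x.length + 1 ≤ j ∧ (W ≤ j ∨ (t j).1 = x.length + 2) :=
    ⟨max W (x.length + 1), le_max_right _ _, Or.inl (le_max_left _ _)⟩
  classical
  obtain ⟨E, hE, hmin⟩ : ∃ E, (x.length + 1 ≤ E ∧ (W ≤ E ∨ (t E).1 = x.length + 2)) ∧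
      ∀ j < E, ¬ (x.length + 1 ≤ j ∧ (W ≤ j ∨ (t j).1 = x.length + 2)) :=
    ⟨Nat.find hex, Nat.find_spec hex, fun j hj => Nat.find_min hex hj⟩
  have A : ∀ j < W, j ≤ x.length → (t j).1 = j := by
    intro j
    induction j with
    | zero => intro _ _; exact h0
    | succ j ih =>
      intro h1 h2
      have h3 := ih (by omega) (by omega)
      have h4 := hstep j h1
      omega
  have B : ∀ j < W, x.length < j → j < E → (t j).1 = x.length + 1 := by
    intro j
    induction j with
    | zero => intro _ h; omega
    | succ j ih =>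
      intro h1 h2 h3
      have h4 := hmin (j + 1) h3
      have h5 : ¬ (t (j + 1)).1 = x.length + 2 := fun h => h4 ⟨h2, Or.inr h⟩
      have h6 := hstep j h1
      rcases Nat.lt_or_ge x.length j with h7 | h7
      · have h8 := ih (by omega) h7 (by omega)
        omega
      · have h8 := A j (by omega) (by omega)
        omega
  have C : ∀ j < W, E ≤ j → (t j).1 = x.length + 2 := by
    intro j
    induction j with
    | zero => intro _ h; omega
    | succ j ih =>
      intro h1 h2
      rcases Nat.lt_or_ge j E with h3 | h3
      · have h4 : E = j + 1 := by omega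
        subst h4
        rcases hE.2 with h5 | h5
        · omega
        · exact h5
      · have h4 := ih (by omega) h3
        have h5 := hstep j h1
        omega
  refine ⟨(List.range (E - (x.length + 1))).map fun e =>
    decide (cen M (t (x.length + 1 + e)) = M.sym true), ?_⟩
  intro j hj
  have hp := hph j hj
  simp only [okPh, Bool.or_eq_true, Bool.and_eq_true, decide_eq_true_eq] at hp
  rw [Tab.initRow, List.getD_eq_getElem?_getD]
  rcases Nat.lt_trichotomy j x.length with h | h | h
  · have h1 := A j hj h.le
    rw [List.getElem?_append_left (by simpa using h), List.getElem?_map,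
      List.getElem?_eq_getElem h]
    have h2 : cen M (t j) = M.sym (x.getD (t j).1 false) := by
      rcases hp with (((hp | hp) | hp) | hp) | hp
      · exact hp.2
      · omega
      · omega
      · omega
      · omega
    rw [h2, h1, List.getD_eq_getElem?_getD, List.getElem?_eq_getElem h]
    rfl
  · have h1 := A j hj h.le
    have h2 : cen M (t j) = M.sep := by
      rcases hp with (((hp | hp) | hp) | hp) | hp
      · omega
      · exact hp.2
      · omega
      · omega
      · omega
    rw [h2, List.getElem?_append_right (by simp [h])]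
    simp [h]
  · rw [List.getElem?_append_right (by simp; omega)]
    obtain ⟨e, he⟩ : ∃ e, j = x.length + 1 + e := ⟨j - x.length - 1, by omega⟩
    have he2 : j - (x.map M.sym).length = e + 1 := by simp; omega
    rw [he2, List.getElem?_cons_succ, List.getElem?_map, List.getElem?_map]
    rcases Nat.lt_or_ge j E with h3 | h3
    · have h1 := B j hj h h3
      have h2 : cen M (t j) = M.sym false ∨ cen M (t j) = M.sym true := by
        rcases hp with (((hp | hp) | hp) | hp) | hp
        · omega
        · omega
        · exact hp.2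
        · omega
        · omega
      rw [List.getElem?_range (by omega)]
      simp only [Option.map_some, Option.getD_some, ← he]
      by_cases h4 : cen M (t j) = M.sym true
      · simp [h4]
      · rcases h2 with h2 | h2
        · simp [h4]
          exact h2
        · exact absurd h2 h4
    · have h1 := C j hj h3
      have h2 : cen M (t j) = M.blank := by
        rcases hp with (((hp | hp) | hp) | hp) | hp
        · omega
        · omega
        · omega
        · exact hp.2
        · omega
      rw [List.getElem?_eq_none (l := List.range (E - (x.length + 1))) (by simp; omega)]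
      simpa using h2

/-- the light cone: row `i` is correct in the columns `j` with `j + c * i < 2 ^ (2 * 2 ^ k)` -/
theorem acc_of_tiling {M : Tab} (hM : M.Ok) (x : List Bool) (k : ℕ) (hx : x.length + 2 ≤ 2 ^ (2 * 2 ^ k))
    (hc : M.c ≤ 2 ^ 2 ^ k) (h : (tabTil M x k).Solvable) :
    ∃ y, M.acc ((M.next^[2 ^ 2 ^ k - 1] (M.initRow x y)) 0) = true := by
  rw [tabTil, tilOfList_solvable] at h
  obtain ⟨τ, hT, hI, hF, hV, hH⟩ := h
  set N := 2 ^ 2 ^ k with hN
  set W := 2 ^ (2 * 2 ^ k) with hW
  have hNpos : 0 < N := Nat.two_pow_pos _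
  have hWN : W = N * N := by
    rw [hW, hN, two_mul, pow_add]
  have hN2 : N ≤ W := by rw [hWN]; nlinarith
  have hcW : M.c ≤ W := hc.trans hN2
  have hWpos : 0 < W := by omega
  -- the first column
  have hcol : ∀ i < N, (τ i 0).2.1 = 0 := by
    intro i
    induction i with
    | zero =>
      intro _
      simp only [okI, Bool.and_eq_true, decide_eq_true_eq] at hI
      exact hI.2
    | succ i ih =>
      intro hi
      have h1 := hV i 0 hi hWpos
      simp only [okV, Bool.and_eq_true, decide_eq_true_eq] at h1
      rw [h1.1.2]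
      exact ih (by omega)
  have hrow : ∀ i < N, TT2Row M W (τ i) := by
    intro i hi
    refine ⟨?_, ?_, hcol i hi, ?_, ?_, ?_⟩
    · intro j hj
      exact (mem_cellsOf.1 (hT i hi j hj)).2.2.1
    · exact (mem_cellsOf.1 (hT i hi 0 hWpos)).2.2.2.2.1
    · intro j hj
      have h1 := hH i j hi hj
      simp only [okH, Bool.and_eq_true, decide_eq_true_eq] at h1
      exact h1.1.1.2
    · intro j hj
      have h1 := hH i j hi hj
      simp only [okH, Bool.and_eq_true, decide_eq_true_eq] at h1
      exact h1.1.2
    · intro j hj
      have h1 := hH i j hi hj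
      simp only [okH, Bool.and_eq_true, decide_eq_true_eq] at h1
      exact h1.2
  -- the first row
  obtain ⟨y, hy⟩ : ∃ y, ∀ j < W, cen M (τ 0 j) = M.initRow x y j := by
    refine tt2_first x W (τ 0) ?_ ?_ ?_
    · simp only [okI, Bool.and_eq_true, decide_eq_true_eq] at hI
      exact hI.1
    · intro j hj
      exact (mem_cellsOf.1 (hT 0 hNpos j hj)).2.2.2.2.2
    · intro j hj
      have h1 := hH 0 j hNpos hj
      simp only [okH, Bool.and_eq_true, Bool.or_eq_true, decide_eq_true_eq] at h1
      rcases h1.1.1.1 with (((h2 | h2) | h2) | h2) | h2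
      · exact Or.inl h2
      · exact Or.inr (Or.inl h2)
      · exact Or.inr (Or.inr (Or.inl h2))
      · exact Or.inr (Or.inr (Or.inr (Or.inl h2)))
      · exact Or.inr (Or.inr (Or.inr (Or.inr h2)))
  refine ⟨y, ?_⟩
  have main : ∀ i < N, ∀ j, j + M.c * i < W → cen M (τ i j) = (M.next^[i] (M.initRow x y)) j := by
    intro i
    induction i with
    | zero =>
      intro _ j hj
      exact hy j (by simpa using hj)
    | succ i ih =>
      intro hi j hj
      have hmul : M.c * (i + 1) = M.c * i + M.c := by ring
      have h1 := hV i j hi (by omega)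
      simp only [okV, Bool.and_eq_true, decide_eq_true_eq] at h1
      rw [h1.2, (hrow i (by omega)).m_eq j (by omega),
        (hrow i (by omega)).window hcW j (by omega), Function.iterate_succ_apply']
      have h2 : min (min j (M.c + 1)) M.c = min j M.c := by omega
      rw [h2]
      show _ = M.δ (min j M.c) ((M.pos j).map (M.next^[i] (M.initRow x y)))
      congr 1
      apply List.map_congr_left
      intro l hl
      refine ih (by omega) l ?_
      rcases Tab.mem_pos hl with h3 | h3 <;> omega
  have hlast : M.c * (N - 1) < W := by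
    rw [hWN]
    have h1 : M.c * (N - 1) ≤ N * (N - 1) := Nat.mul_le_mul_right _ hc
    have h2 : N * (N - 1) < N * N := Nat.mul_lt_mul_of_pos_left (by omega) hNpos
    omega
  have h1 := hF 0 hWpos
  simp only [okF, hcol (N - 1) (by omega)] at h1
  rw [main (N - 1) (by omega) 0 (by omega)] at h1
  simpa using h1

end Pool.Agent.H24N
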