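import Pool.Agent.Lib.H24N.TilList

/-!
# Tiling instances given by lists, in polynomial time
-/

set_option autoImplicit false

namespace Pool.Agent.H24N

open Pool.Agent.PolyTime

theorem TLP_bad1 {α : Type} [Enc α] {γ : Type} [Enc γ] {T : γ → List α} {I : γ → α → Bool}
    (hT : PT T) (hI : PT fun p : γ × α => I p.1 p.2) :
    PT fun g => ((T g).zipIdx.filter fun p => !I g p.1).map Prod.snd := by
  have h1 : PT fun g => (T g).zipIdx := PT.zipIdx hT
  have h2 : PT fun p : γ × (α × ℕ) => !I p.1 p.2.1 :=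
    PT.not (hI.comp (f := fun p : γ × (α × ℕ) => (p.1, p.2.1)) (by fun_prop))
  have h3 : PT fun g => (T g).zipIdx.filter fun p => !I g p.1 :=
    PT.filter (f := fun g (p : α × ℕ) => !I g p.1) h2 h1
  exact PT.map (f := fun (_ : γ) (p : α × ℕ) => p.2) (by fun_prop) h3

theorem TLP_bad2 {α : Type} [Enc α] {γ : Type} [Enc γ] {T : γ → List α} {V : γ → α → α → Bool}
    (hT : PT T) (hV : PT fun p : γ × α × α => V p.1 p.2.1 p.2.2) :
    PT fun g => (T g).zipIdx.flatMap fun p =>
      ((T g).zipIdx.filter fun p' => !V g p.1 p'.1).map fun p' => (p.2, p'.2) := by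
  have h1 : PT fun g => (T g).zipIdx := PT.zipIdx hT
  have h1' : PT fun q : γ × (α × ℕ) => (T q.1).zipIdx := h1.comp (by fun_prop)
  have h2 : PT fun p : (γ × (α × ℕ)) × (α × ℕ) => !V p.1.1 p.1.2.1 p.2.1 :=
    PT.not (hV.comp (f := fun p : (γ × (α × ℕ)) × (α × ℕ) => (p.1.1, p.1.2.1, p.2.1)) (by fun_prop))
  have h3 : PT fun q : γ × (α × ℕ) => (T q.1).zipIdx.filter fun p' => !V q.1 q.2.1 p'.1 :=
    PT.filter (f := fun (q : γ × (α × ℕ)) (p' : α × ℕ) => !V q.1 q.2.1 p'.1) h2 h1'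
  have h4 : PT fun q : γ × (α × ℕ) =>
      ((T q.1).zipIdx.filter fun p' => !V q.1 q.2.1 p'.1).map fun p' => (q.2.2, p'.2) :=
    PT.map (f := fun (q : γ × (α × ℕ)) (p' : α × ℕ) => (q.2.2, p'.2)) (by fun_prop) h3
  exact PT.flatMap (f := fun g (p : α × ℕ) =>
      ((T g).zipIdx.filter fun p' => !V g p.1 p'.1).map fun p' => (p.2, p'.2)) h4 h1

theorem PT_tilOfList {α : Type} [Enc α] {γ : Type} [Enc γ] {K : γ → List Unit} {T : γ → List α}
    {I F : γ → α → Bool} {V H : γ → α → α → Bool} (hK : PT K) (hT : PT T)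
    (hI : PT fun p : γ × α => I p.1 p.2) (hF : PT fun p : γ × α => F p.1 p.2)
    (hV : PT fun p : γ × α × α => V p.1 p.2.1 p.2.2)
    (hH : PT fun p : γ × α × α => H p.1 p.2.1 p.2.2) :
    PT fun g => tilOfList (K g).length (T g) (I g) (F g) (V g) (H g) := by
  have h1 : PT fun g => List.replicate (K g).length () := by
    refine (PT.map (f := fun (_ : γ) (_ : Unit) => ()) (by fun_prop) hK).congr fun g => ?_
    rw [List.map_const']
  have h2 : PT fun g => List.replicate (T g).length () := by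
    refine (PT.map (f := fun (_ : γ) (_ : α) => ()) (by fun_prop) hT).congr fun g => ?_
    rw [List.map_const']
  exact PT.pair h1 (PT.pair h2 (PT.pair (TLP_bad1 hT hI) (PT.pair (TLP_bad1 hT hF)
    (PT.pair (TLP_bad2 hT hV) (TLP_bad2 hT hH)))))

end Pool.Agent.H24N
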