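import Pool.Agent.Lib.H24N.TabTil
import Pool.Agent.Lib.H24N.TilListPT
import Pool.Agent.Lib.CookLevin.TableauPT

/-!
# The tiling instance of a local rule, in polynomial time
-/

set_option autoImplicit false

namespace Pool.Agent.H24N

open Pool.Agent.PolyTime Pool.Agent.Lib.CookLevin

section

variable {α β : Type*} [Enc α] [Enc β]

@[fun_prop] theorem ttp_drop (n : ℕ) {l : α → List β} (hl : PT l) : PT fun a => (l a).drop n := by
  induction n generalizing l with
  | zero => exact hl
  | succ n ih =>
    refine (ih (PT.tail hl)).congr fun a => ?_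
    cases l a <;> simp

@[fun_prop] theorem ttp_take (n : ℕ) {l : α → List β} (hl : PT l) : PT fun a => (l a).take n := by
  refine (PT.takeLength hl (PT.const (List.replicate n ()))).congr fun a => ?_
  rw [List.length_replicate]

@[fun_prop] theorem ttp_getD (n : ℕ) {l : α → List ℕ} (hl : PT l) :
    PT fun a => (l a).getD n 0 := by
  refine (PT.headD (ttp_drop n hl) (PT.const 0)).congr fun a => ?_
  rw [List.headD_eq_head?_getD, List.head?_drop, List.getD_eq_getElem?_getD]

theorem ttp_sym (M : Tab) {b : α → Bool} (hb : PT b) : PT fun a => M.sym (b a) := by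
  refine (PT.bif hb (PT.const (M.sym true)) (PT.const (M.sym false))).congr fun a => ?_
  cases b a <;> rfl

theorem ttp_getDBool {l : α → List Bool} {n : α → ℕ} (hl : PT l) (hn : PT n) :
    PT fun a => (l a).getD (n a) false := by
  have h := PT.optionElim (o := fun a => (l a)[n a]?) (f := fun _ : α => false)
    (g := fun p : α × Bool => p.2) (PT.getElem? hl hn) (PT.const false) (by fun_prop)
  refine h.congr fun a => ?_
  rw [List.getD_eq_getElem?_getD]
  cases (l a)[n a]? <;> rfl

variable (M : Tab)

@[fun_prop] theorem ttp_cen {t : α → Cell} (ht : PT t) : PT fun a => cen M (t a) := by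
  have h1 : PT fun a => (t a).2.2 := by fun_prop
  exact ttp_getD (2 * M.c) h1

theorem ttp_okZero {t : α → Cell} (ht : PT t) : PT fun a => okZero M (t a) := by
  have h1 : PT fun a => (t a).2.1 := by fun_prop
  have h2 : PT fun a => (t a).2.2 := by fun_prop
  have hrep : PT fun a => List.replicate (M.c + 1) (cen M (t a)) := by
    have h := PT.map (f := fun (a : α) (_ : Unit) => cen M (t a)) (by fun_prop)
      (PT.const (List.replicate (M.c + 1) ()))
    refine h.congr fun a => ?_
    rw [List.map_replicate]
  refine PT.or (PT.not (PT.decide_eq h1 (PT.const 0))) (PT.and ?_ ?_)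
  · exact PT.decide_eq (ttp_take _ h2) (ttp_take _ (ttp_drop _ h2))
  · exact PT.decide_eq (ttp_take _ (ttp_drop _ h2)) hrep

theorem ttp_okPh {x : α → List Bool} {t : α → Cell} (hx : PT x) (ht : PT t) :
    PT fun a => okPh M (x a) (t a) := by
  have h1 : PT fun a => (t a).1 := by fun_prop
  have hl : PT fun a => (x a).length := by fun_prop
  have hc : PT fun a => cen M (t a) := ttp_cen M ht
  refine PT.or (PT.or (PT.or (PT.or ?_ ?_) ?_) ?_) ?_
  · exact PT.and (PT.decide_lt h1 hl) (PT.decide_eq hc (ttp_sym M (ttp_getDBool hx h1)))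
  · exact PT.and (PT.decide_eq h1 hl) (PT.decide_eq hc (PT.const _))
  · exact PT.and (PT.decide_eq h1 (PT.add hl (PT.const 1)))
      (PT.or (PT.decide_eq hc (PT.const _)) (PT.decide_eq hc (PT.const _)))
  · exact PT.and (PT.decide_eq h1 (PT.add hl (PT.const 2))) (PT.decide_eq hc (PT.const _))
  · exact PT.decide_eq h1 (PT.add hl (PT.const 3))

theorem ttp_cellsOf {x : α → List Bool} (hx : PT x) : PT fun a => cellsOf M (x a) := by
  have hr : PT fun a => List.range ((x a).length + 4) := by
    have h : PT fun a => (x a ++ [false, false, false, false]) := by fun_prop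
    refine (PT.rangeLength h).congr fun a => ?_
    simp
  have h3 : PT fun p : (α × ℕ) × ℕ => (words M.K (3 * M.c + 1)).map
      fun w => ((p.1.2, p.2, w) : Cell) :=
    PT.map (f := fun (p : (α × ℕ) × ℕ) (w : List ℕ) => ((p.1.2, p.2, w) : Cell)) (by fun_prop)
      (PT.const _)
  have h2 : PT fun p : α × ℕ => (List.range (M.c + 2)).flatMap fun m =>
      (words M.K (3 * M.c + 1)).map fun w => ((p.2, m, w) : Cell) :=
    PT.flatMap (f := fun (p : α × ℕ) (m : ℕ) => (words M.K (3 * M.c + 1)).map
      fun w => ((p.2, m, w) : Cell)) h3 (PT.const _)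
  have h1 : PT fun a => (List.range ((x a).length + 4)).flatMap fun ph =>
      (List.range (M.c + 2)).flatMap fun m =>
        (words M.K (3 * M.c + 1)).map fun w => ((ph, m, w) : Cell) :=
    PT.flatMap (f := fun (_ : α) (ph : ℕ) => (List.range (M.c + 2)).flatMap fun m =>
      (words M.K (3 * M.c + 1)).map fun w => ((ph, m, w) : Cell)) h2 hr
  refine PT.filter (f := fun a t => okZero M t && okPh M (x a) t) ?_ h1
  exact PT.and (ttp_okZero M (by fun_prop)) (ttp_okPh M (hx.comp (by fun_prop)) (by fun_prop))

theorem ttp_okI {t : α → Cell} (ht : PT t) : PT fun a => okI (t a) := by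
  have h1 : PT fun a => (t a).1 := by fun_prop
  have h2 : PT fun a => (t a).2.1 := by fun_prop
  exact PT.and (PT.decide_eq h1 (PT.const 0)) (PT.decide_eq h2 (PT.const 0))

/-- `okF` with the finite table of the accepting symbols -/
def ttpF (t : Cell) : Bool :=
  !decide (t.2.1 = 0) || decide (cen M t ∈ (List.range M.K).filter M.acc)

theorem ttp_F {t : α → Cell} (ht : PT t) : PT fun a => ttpF M (t a) := by
  have h2 : PT fun a => (t a).2.1 := by fun_prop
  exact PT.or (PT.not (PT.decide_eq h2 (PT.const 0))) (PT.mem (ttp_cen M ht) (PT.const _))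

/-- `okV` with the finite table of the rule -/
def ttpV (x : List Bool) (t t' : Cell) : Bool :=
  decide (t'.1 = x.length + 3) && decide (t'.2.1 = t.2.1) &&
    decide ((min t.2.1 M.c, t.2.2, cen M t') ∈ M.table)

theorem ttp_V {x : α → List Bool} {t t' : α → Cell} (hx : PT x) (ht : PT t) (ht' : PT t') :
    PT fun a => ttpV M (x a) (t a) (t' a) := by
  have hl : PT fun a => (x a).length := by fun_prop
  have h1 : PT fun a => (t a).2.1 := by fun_prop
  have h2 : PT fun a => (t a).2.2 := by fun_prop
  have h3 : PT fun a => (t' a).1 := by fun_prop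
  have h4 : PT fun a => (t' a).2.1 := by fun_prop
  have h5 : PT fun a => (min (t a).2.1 M.c, (t a).2.2, cen M (t' a)) :=
    PT.pair (PT.min h1 (PT.const _)) (PT.pair h2 (ttp_cen M ht'))
  refine PT.and (PT.and ?_ ?_) ?_
  · exact PT.decide_eq h3 (PT.add hl (PT.const 3))
  · exact PT.decide_eq h4 h1
  · refine (PT.mem h5 (PT.const M.table)).congr fun a => ?_
    exact congrArg (fun i => @decide _ i) (Subsingleton.elim _ _)

theorem ttp_okH {x : α → List Bool} {t t' : α → Cell} (hx : PT x) (ht : PT t) (ht' : PT t') :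
    PT fun a => okH M (x a) (t a) (t' a) := by
  have hl : PT fun a => (x a).length := by fun_prop
  have h1 : PT fun a => (t a).1 := by fun_prop
  have h1' : PT fun a => (t' a).1 := by fun_prop
  have h2 : PT fun a => (t a).2.1 := by fun_prop
  have h2' : PT fun a => (t' a).2.1 := by fun_prop
  have h3 : PT fun a => (t a).2.2 := by fun_prop
  have h3' : PT fun a => (t' a).2.2 := by fun_prop
  have e : ∀ (n m : ℕ), PT fun a => decide ((t a).1 = (x a).length + n) := fun n _ =>
    PT.decide_eq h1 (PT.add hl (PT.const n))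
  have e' : ∀ (n : ℕ), PT fun a => decide ((t' a).1 = (x a).length + n) := fun n =>
    PT.decide_eq h1' (PT.add hl (PT.const n))
  refine PT.and (PT.and (PT.and ?_ ?_) ?_) ?_
  · refine PT.or (PT.or (PT.or (PT.or ?_ ?_) ?_) ?_) ?_
    · exact PT.decide_and (PT.decide_lt h1 hl) (PT.decide_eq h1' (PT.add h1 (PT.const 1)))
    · exact PT.decide_and (PT.decide_eq h1 hl) (PT.decide_or (e' 1) (e' 2))
    · exact PT.decide_and (e 1 0) (PT.decide_or (e' 1) (e' 2))
    · exact PT.decide_and (e 2 0) (e' 2)
    · exact PT.decide_and (e 3 0) (e' 3)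
  · exact PT.decide_eq h2' (PT.min (PT.add h2 (PT.const 1)) (PT.const _))
  · exact PT.decide_eq (ttp_take _ h3') (ttp_take _ h3)
  · exact PT.decide_eq (ttp_take _ (ttp_drop _ h3')) (ttp_drop _ h3)

end

section

variable {α : Type}

/-- only the values on the list of tiles matter -/
theorem ttp_tilOfList_congr (k : ℕ) (T : List α) {I I' F F' : α → Bool} {V V' H H' : α → α → Bool}
    (hI : ∀ t ∈ T, I t = I' t) (hF : ∀ t ∈ T, F t = F' t)
    (hV : ∀ t ∈ T, ∀ t' ∈ T, V t t' = V' t t') (hH : ∀ t ∈ T, ∀ t' ∈ T, H t t' = H' t t') :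
    tilOfList k T I F V H = tilOfList k T I' F' V' H' := by
  have hmem : ∀ p ∈ T.zipIdx, p.1 ∈ T := by
    intro p hp
    obtain ⟨a, i⟩ := p
    exact List.mem_of_getElem? (List.mem_zipIdx_iff_getElem?.1 hp)
  have e1 : (T.zipIdx.filter fun p => !I p.1) = T.zipIdx.filter fun p => !I' p.1 :=
    List.filter_congr fun p hp => by rw [hI _ (hmem p hp)]
  have e2 : (T.zipIdx.filter fun p => !F p.1) = T.zipIdx.filter fun p => !F' p.1 :=
    List.filter_congr fun p hp => by rw [hF _ (hmem p hp)]
  have e3 : (T.zipIdx.flatMap fun p => (T.zipIdx.filter fun p' => !V p.1 p'.1).map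
      fun p' => (p.2, p'.2)) = T.zipIdx.flatMap fun p => (T.zipIdx.filter fun p' =>
      !V' p.1 p'.1).map fun p' => (p.2, p'.2) := by
    refine List.flatMap_congr fun p hp => ?_
    congr 1
    exact List.filter_congr fun p' hp' => by rw [hV _ (hmem p hp) _ (hmem p' hp')]
  have e4 : (T.zipIdx.flatMap fun p => (T.zipIdx.filter fun p' => !H p.1 p'.1).map
      fun p' => (p.2, p'.2)) = T.zipIdx.flatMap fun p => (T.zipIdx.filter fun p' =>
      !H' p.1 p'.1).map fun p' => (p.2, p'.2) := by
    refine List.flatMap_congr fun p hp => ?_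
    congr 1
    exact List.filter_congr fun p' hp' => by rw [hH _ (hmem p hp) _ (hmem p' hp')]
  rw [tilOfList, tilOfList, e1, e2, e3, e4]

end

variable (M : Tab)

theorem ttp_eq (x : List Bool) (k : ℕ) :
    tabTil M x k = tilOfList k (cellsOf M x) okI (ttpF M) (ttpV M x) (okH M x) := by
  rw [tabTil]
  refine ttp_tilOfList_congr k _ (fun _ _ => rfl) ?_ ?_ (fun _ _ _ _ => rfl)
  · intro t ht
    obtain ⟨_, _, h3, h4, _, _⟩ := mem_cellsOf.1 ht
    have hlt : cen M t < M.K := by
      have h5 : 2 * M.c < t.2.2.length := by omega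
      rw [cen, List.getD_eq_getElem?_getD, List.getElem?_eq_getElem h5, Option.getD_some]
      exact h4 _ (List.getElem_mem h5)
    simp only [okF, ttpF]
    congr 1
    rw [Bool.eq_iff_iff]
    simp [hlt]
  · intro t ht t' _
    obtain ⟨_, _, h3, h4, _, _⟩ := mem_cellsOf.1 ht
    simp only [okV, ttpV]
    congr 1
    rw [Bool.eq_iff_iff]
    simp only [decide_eq_true_eq]
    constructor
    · intro h
      rw [h]
      exact Tab.mem_table (Nat.min_le_right _ _) h3 h4
    · intro h
      exact (Tab.of_mem_table h).2.2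

/-- the tiling instance for `k = (K x).length` is computable in polynomial time -/
theorem PT_tabTil {K : List Bool → List Unit} (hK : PT K) :
    PT fun x => tabTil M x (K x).length := by
  have h := PT_tilOfList (γ := List Bool) (α := Cell) (K := K) (T := fun x => cellsOf M x)
    (I := fun _ t => okI t) (F := fun _ t => ttpF M t) (V := fun x t t' => ttpV M x t t')
    (H := fun x t t' => okH M x t t') hK (ttp_cellsOf M (by fun_prop)) (ttp_okI (by fun_prop))
    (ttp_F M (by fun_prop)) (ttp_V M (by fun_prop) (by fun_prop) (by fun_prop))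
    (ttp_okH M (by fun_prop) (by fun_prop) (by fun_prop))
  exact h.congr fun x => (ttp_eq M x _).symm

end Pool.Agent.H24N
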