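import Pool.Agent.Lib.H24N.N2Tab
import Pool.Agent.Lib.H24N.TabTil1
import Pool.Agent.Lib.H24N.TabTil2
import Pool.Agent.Lib.H24N.TabTilPT
import Pool.Agent.Lib.H24N.Size

/-!
# Every language in `N2EXP` reduces to the tiling problem
-/

set_option autoImplicit false

namespace Pool.Agent.H24N

open Pool.Agent.PolyTime Pool.Agent.Lib.CookLevin Turing

theorem exists_til {L : Word → Prop} (hL : InN2Exp L) :
    ∃ f : Word → Til, PT f ∧ (∀ x, (f x).Wf) ∧ ∀ x, L x ↔ (f x).Solvable := by
  obtain ⟨M, q, T, hM, h1, h2⟩ := n2exp_tab hL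
  obtain ⟨C, hC⟩ := exists_size q T M.c ((M.c + 2) * M.K ^ (3 * M.c + 1))
  obtain ⟨K, hK, hK'⟩ := exists_unary (β := Bool) (q + Polynomial.X + Polynomial.C C)
  have hlen : ∀ x : Word, (K x).length = q.eval x.length + x.length + C := by
    intro x
    rw [hK']
    simp
  refine ⟨fun x => tabTil M x (K x).length, PT_tabTil M hK, fun x => ?_, fun x => ?_⟩
  · refine tilOfList_wf _ _ _ _ _ _ ((length_cellsOf M x).trans ?_)
    rw [hlen]
    exact (hC x.length).2.2.2
  · obtain ⟨s1, s2, s3, _⟩ := hC x.length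
    beta_reduce
    rw [hlen]
    constructor
    · intro hx
      obtain ⟨y, hy, hacc⟩ := h2 x hx
      exact tiling_of_acc hM x y _ (hacc _ (s1 _ hy))
    · intro hx
      obtain ⟨y, hy⟩ := acc_of_tiling hM x _ s2 s3 hx
      exact h1 x y _ hy

end Pool.Agent.H24N
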