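import Pool.Agent.Lib.PolyTime.Final
import Pool.Agent.Lib.CookLevin.Defs

/-!
# Machines that compute codes
-/

set_option autoImplicit false

namespace Pool.Agent.H24N

open Pool.Agent.PolyTime Pool.Agent.Lib.CookLevin Turing

/-- functions whose value is the code of a value that is computable in polynomial time -/
theorem tmCode {β : Type} [Enc β] {f : List Bool → β} (h : PT f) :
    Nonempty (TM2ComputableInPolyTime (id : Word → List Bool) (id : Word → List Bool)
      fun x => code (enc (f x))) := by
  obtain ⟨c, T, hT, hF⟩ := h
  obtain ⟨C, k, hC⟩ := hT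
  refine computable_of_polynomial id id (fun x => code (enc (f x))) (.seq rawIn c)
    (Polynomial.C 11 * Polynomial.X + Polynomial.C 4 + Polynomial.C C *
      (Polynomial.C 4 * Polynomial.X + Polynomial.C 1) ^ k) fun a => ?_
  have h1 := hF a []
  rw [List.append_nil, List.append_nil] at h1
  refine ((rawIn_run a).seq h1).mono ?_
  have h2 : T a ≤ C * (enc a).size ^ k := hC a
  have h4 : (enc a).size ≤ 4 * a.length + 1 := sz_boolList_le a
  have h5 : C * (enc a).size ^ k ≤ C * (4 * a.length + 1) ^ k :=
    Nat.mul_le_mul le_rfl (Nat.pow_le_pow_left h4 k)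
  have h6 : (Polynomial.C 11 * Polynomial.X + Polynomial.C 4 + Polynomial.C C *
      (Polynomial.C 4 * Polynomial.X + Polynomial.C 1) ^ k).eval (id a : List Bool).length =
      11 * a.length + 4 + C * (4 * a.length + 1) ^ k := by
    simp
  rw [h6]
  omega

end Pool.Agent.H24N
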