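import Pool.Agent.Lib.H24N.Defs

/-!
# Different instances have different words
-/

set_option autoImplicit false

namespace Pool.Agent.H24N

open Pool.Agent.PolyTime

theorem WI_code_append (x : D) : ∀ (y : D) (r s : List Bool),
    code x ++ r = code y ++ s → x = y ∧ r = s := by
  induction x with
  | nil =>
    intro y r s h
    cases y with
    | nil => simpa using h
    | cons a b => simp at h
  | cons a b iha ihb =>
    intro y r s h
    cases y with
    | nil => simp at h
    | cons a' b' =>
      simp only [code_cons, List.cons_append, List.cons.injEq, true_and, List.append_assoc] at h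
      obtain ⟨h1, h2⟩ := iha a' _ _ h
      obtain ⟨h3, h4⟩ := ihb b' _ _ h2
      exact ⟨by rw [h1, h3], h4⟩

theorem code_injective : Function.Injective code := fun x y h =>
  (WI_code_append x y [] [] (by rw [h])).1

instance : EncInj Rol := ⟨fun a b h => by
  cases a with
  | nm P =>
    cases b with
    | nm Q =>
      have h' : D.cons D.nil (enc P) = D.cons D.nil (enc Q) := h
      injection h' with _ h2
      rw [EncInj.inj h2]
    | inv Q =>
      have h' : D.cons D.nil (enc P) = D.cons (D.cons D.nil D.nil) (enc Q) := h
      injection h' with h1 _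
      cases h1
  | inv P =>
    cases b with
    | nm Q =>
      have h' : D.cons (D.cons D.nil D.nil) (enc P) = D.cons D.nil (enc Q) := h
      injection h' with h1 _
      cases h1
    | inv Q =>
      have h' : D.cons (D.cons D.nil D.nil) (enc P) = D.cons (D.cons D.nil D.nil) (enc Q) := h
      injection h' with _ h2
      rw [EncInj.inj h2]⟩

theorem WI_num_inj : ∀ (m n : ℕ), FP.num m = FP.num n → m = n := by
  intro m
  induction m with
  | zero =>
    intro n h
    cases n with
    | zero => rfl
    | succ n => cases h
  | succ m ih =>
    intro n h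
    cases n with
    | zero => cases h
    | succ n =>
      have h' : D.cons D.nil (FP.num m) = D.cons D.nil (FP.num n) := h
      injection h' with _ h2
      rw [ih n h2]

theorem WI_con : ∀ (C E : Con), encCon C = encCon E → C = E := by
  intro C
  induction C with
  | nm A =>
    intro E h
    cases E <;> (simp only [encCon, D.cons.injEq] at h; obtain ⟨h1, h2⟩ := h)
    case nm B => rw [EncInj.inj h2]
    all_goals exact absurd (WI_num_inj _ _ h1) (by decide)
  | neg C ih =>
    intro E h
    cases E <;> (simp only [encCon, D.cons.injEq] at h; obtain ⟨h1, h2⟩ := h)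
    case neg E => rw [ih _ h2]
    all_goals exact absurd (WI_num_inj _ _ h1) (by decide)
  | and C C' ih ih' =>
    intro E h
    cases E <;> (simp only [encCon, D.cons.injEq] at h; obtain ⟨h1, h2⟩ := h)
    case and E E' => rw [ih _ h2.1, ih' _ h2.2]
    all_goals exact absurd (WI_num_inj _ _ h1) (by decide)
  | ex R C ih =>
    intro E h
    cases E <;> (simp only [encCon, D.cons.injEq] at h; obtain ⟨h1, h2⟩ := h)
    case ex S E => rw [ih _ h2.2, EncInj.inj h2.1]
    all_goals exact absurd (WI_num_inj _ _ h1) (by decide)
  | le1 R =>
    intro E h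
    cases E <;> (simp only [encCon, D.cons.injEq] at h; obtain ⟨h1, h2⟩ := h)
    case le1 S => rw [EncInj.inj h2]
    all_goals exact absurd (WI_num_inj _ _ h1) (by decide)

instance : EncInj Con := ⟨fun a b h => WI_con a b h⟩

instance : EncInj Assertion := ⟨fun a b h => by
  cases a with
  | con A x =>
    cases b with
    | con B y =>
      have h' : D.cons D.nil (enc (A, x)) = D.cons D.nil (enc (B, y)) := h
      injection h' with _ h2
      have h3 : (A, x) = (B, y) := EncInj.inj h2
      injection h3 with h4 h5
      rw [h4, h5]
    | rol Q y z =>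
      have h' : D.cons D.nil (enc (A, x)) = D.cons (D.cons D.nil D.nil) (enc (Q, y, z)) := h
      injection h' with h1 _
      cases h1
  | rol P x w =>
    cases b with
    | con B y =>
      have h' : D.cons (D.cons D.nil D.nil) (enc (P, x, w)) = D.cons D.nil (enc (B, y)) := h
      injection h' with h1 _
      cases h1
    | rol Q y z =>
      have h' : D.cons (D.cons D.nil D.nil) (enc (P, x, w)) =
        D.cons (D.cons D.nil D.nil) (enc (Q, y, z)) := h
      injection h' with _ h2
      have h3 : (P, x, w) = (Q, y, z) := EncInj.inj h2
      injection h3 with h4 h5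
      injection h5 with h6 h7
      rw [h4, h6, h7]⟩

instance : EncInj KB := ⟨fun a b h => by
  have h1 : (enc (a.tbox, a.abox) : D) = enc (b.tbox, b.abox) := h
  have h2 := EncInj.inj h1
  cases a; cases b
  simp only [Prod.mk.injEq] at h2
  rw [h2.1, h2.2]⟩

instance : EncInj Pattern := ⟨fun a b h => by
  have h1 : (enc (a.mini, a.fixd, a.prec) : D) = enc (b.mini, b.fixd, b.prec) := h
  have h2 := EncInj.inj h1
  cases a; cases b
  simp only [Prod.mk.injEq] at h2
  rw [h2.1, h2.2.1, h2.2.2]⟩

instance : EncInj Inst := ⟨fun a b h => by
  have h1 : (enc (a.C, a.K, a.P) : D) = enc (b.C, b.K, b.P) := h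
  have h2 := EncInj.inj h1
  cases a; cases b
  simp only [Prod.mk.injEq] at h2
  rw [h2.1, h2.2.1, h2.2.2]⟩

theorem Inst.word_injective : Function.Injective Inst.word := fun _ _ h =>
  EncInj.inj (code_injective h)

end Pool.Agent.H24N
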