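import Pool.Agent.Lib.H24N.SatIff
import Pool.Agent.Lib.H24N.GoodTil
import Pool.Agent.Lib.H24N.TilGood
import Pool.Agent.Lib.H24N.TilHard
import Pool.Agent.Lib.H24N.PTInst
import Pool.Agent.Lib.H24N.WordInj
import Pool.Agent.Lib.H24N.TmCode

/-!
# Concept satisfiability relative to circumscribed `ALCFI` knowledge bases is `N2EXP`-hard
-/

set_option autoImplicit false

namespace Pool.Agent.H24N

open Pool.Agent.PolyTime Pool.Agent.Lib.CookLevin Turing

theorem circSat_word_iff (P : Til) : CircSat (instOf P).word ↔ (instOf P).Sat := by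
  constructor
  · rintro ⟨T, _, h1, h2⟩
    rw [Inst.word_injective h1]
    exact h2
  · exact fun h => ⟨instOf P, patternOk P, rfl, h⟩

/-- **Theorem**: concept satisfiability relative to circumscribed `ALCFI` knowledge bases without
fixed and minimized roles is `N2EXP`-hard -/
theorem circSat_hard : N2ExpHard CircSat := by
  intro L hL
  obtain ⟨f, hf, hwf, h⟩ := exists_til hL
  refine ⟨fun x => (instOf (f x)).word, tmCode (PT_instOf.comp hf), fun x => ?_⟩
  rw [h x, circSat_word_iff, sat_iff (hwf x)]
  exact ⟨good_of_solvable (hwf x), fun ⟨_, _, _, hg⟩ => solvable_of_good (hwf x) hg⟩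

end Pool.Agent.H24N
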