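import Pool.Agent.Lib.CookLevin.Tableau

/-!
# The product of two local rules
-/

set_option autoImplicit false

namespace Pool.Agent.H24N

open Pool.Agent.Lib.CookLevin

/-- the code of a pair of symbols -/
def tpPair (K a b : ℕ) : ℕ := a + K * b

theorem tpPair_mod {K a : ℕ} (b : ℕ) (ha : a < K) : tpPair K a b % K = a := by
  rw [tpPair, Nat.add_mul_mod_self_left, Nat.mod_eq_of_lt ha]

theorem tpPair_div {K a : ℕ} (b : ℕ) (ha : a < K) : tpPair K a b / K = b := by
  rw [tpPair, Nat.add_mul_div_left _ _ (by omega), Nat.div_eq_of_lt ha, Nat.zero_add]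

theorem tpPair_lt {K L a b : ℕ} (ha : a < K) (hb : b < L) : tpPair K a b < K * L := by
  have h : K * (b + 1) ≤ K * L := Nat.mul_le_mul_left _ hb
  rw [tpPair]
  have h2 : K * (b + 1) = K * b + K := by ring
  omega

/-- the part of a window of radius `c` that is a window of radius `d ≤ c` -/
def tpCut (c d : ℕ) (w : List ℕ) : List ℕ :=
  w.take d ++ (w.drop (c + (c - d))).take (2 * d + 1)

theorem tpCut_length {c d : ℕ} (h : d ≤ c) {w : List ℕ} (hw : w.length = 3 * c + 1) :
    (tpCut c d w).length = 3 * d + 1 := by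
  simp only [tpCut, List.length_append, List.length_take, List.length_drop]
  omega

theorem tpCut_mem {c d a : ℕ} {w : List ℕ} (h : a ∈ tpCut c d w) : a ∈ w := by
  rw [tpCut, List.mem_append] at h
  rcases h with h | h
  · exact List.mem_of_mem_take h
  · exact List.mem_of_mem_drop (List.mem_of_mem_take h)

theorem tp_posL_left (c i e : ℕ) (he : e < c) (r : ℕ → ℕ) :
    ((List.range c ++ (List.range (2 * c + 1)).map fun j => i + j - c).map r)[e]? =
      some (r e) := by
  rw [List.getElem?_map, List.getElem?_append_left (by simpa using he)]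
  simp [he]

theorem tp_posL_right (c i e : ℕ) (he : e < 2 * c + 1) (r : ℕ → ℕ) :
    ((List.range c ++ (List.range (2 * c + 1)).map fun j => i + j - c).map r)[c + e]? =
      some (r (i + e - c)) := by
  rw [List.getElem?_map, List.getElem?_append_right (by simp)]
  simp [he]

theorem tpCut_pos {c d : ℕ} (h : d ≤ c) (i : ℕ) (r : ℕ → ℕ) :
    tpCut c d ((List.range c ++ (List.range (2 * c + 1)).map fun j => i + j - c).map r) =
      (List.range d ++ (List.range (2 * d + 1)).map fun j => i + j - d).map r := by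
  set w := (List.range c ++ (List.range (2 * c + 1)).map fun j => i + j - c).map r with hw
  have hwl : w.length = 3 * c + 1 := by
    simp [hw]; omega
  apply List.ext_getElem?
  intro e
  rcases lt_or_ge e d with he | he
  · rw [tp_posL_left d i e he r, tpCut, List.getElem?_append_left (by simp; omega),
      List.getElem?_take, if_pos he, hw, tp_posL_left c i e (by omega) r]
  · obtain ⟨f, rfl⟩ := Nat.exists_eq_add_of_le he
    rcases lt_or_ge f (2 * d + 1) with hf | hf
    · have h1 : (w.take d).length = d := by rw [List.length_take]; omega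
      rw [tp_posL_right d i f hf r, tpCut, List.getElem?_append_right (by rw [h1]; omega), h1,
        Nat.add_sub_cancel_left, List.getElem?_take, if_pos hf, List.getElem?_drop]
      have h2 : c + (c - d) + f = c + ((c - d) + f) := by ring
      rw [h2, hw, tp_posL_right c i ((c - d) + f) (by omega) r]
      have h3 : i + ((c - d) + f) - c = i + f - d := by omega
      rw [h3]
    · rw [List.getElem?_eq_none, List.getElem?_eq_none]
      · simp; omega
      · rw [tpCut_length h hwl]; omega

/-- the initial row by cases -/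
theorem tp_initRow (M : Tab) (x y : List Bool) (i : ℕ) :
    M.initRow x y i = (((x.map some ++ none :: y.map some)[i]?).map
      fun o : Option Bool => o.elim M.sep M.sym).getD M.blank := by
  rw [Tab.initRow, List.getD_eq_getElem?_getD, ← List.getElem?_map]
  congr 2
  simp [Function.comp_def]

/-- the product -/
def tpProd (M₁ M₂ : Tab) : Tab where
  K := M₁.K * M₂.K
  c := max M₁.c M₂.c
  δ := fun m w => tpPair M₁.K
    (M₁.δ (min m M₁.c) ((tpCut (max M₁.c M₂.c) M₁.c w).map fun a => a % M₁.K))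
    (M₂.δ (min m M₂.c) ((tpCut (max M₁.c M₂.c) M₂.c w).map fun a => a / M₁.K))
  sym := fun b => tpPair M₁.K (M₁.sym b) (M₂.sym b)
  sep := tpPair M₁.K M₁.sep M₂.sep
  blank := tpPair M₁.K M₁.blank M₂.blank
  acc := fun a => M₁.acc (a % M₁.K) && M₂.acc (a / M₁.K)

theorem tpProd_next (M₁ M₂ : Tab) (r₁ r₂ : ℕ → ℕ) (h₁ : ∀ i, r₁ i < M₁.K) (i : ℕ) :
    (tpProd M₁ M₂).next (fun j => tpPair M₁.K (r₁ j) (r₂ j)) i =
      tpPair M₁.K (M₁.next r₁ i) (M₂.next r₂ i) := by
  have e1 : min (min i (max M₁.c M₂.c)) M₁.c = min i M₁.c := by omega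
  have e2 : min (min i (max M₁.c M₂.c)) M₂.c = min i M₂.c := by omega
  show tpPair M₁.K
    (M₁.δ (min (min i (max M₁.c M₂.c)) M₁.c) ((tpCut (max M₁.c M₂.c) M₁.c
      ((List.range (max M₁.c M₂.c) ++ (List.range (2 * (max M₁.c M₂.c) + 1)).map
        fun j => i + j - (max M₁.c M₂.c)).map fun j => tpPair M₁.K (r₁ j) (r₂ j))).map
          fun a => a % M₁.K))
    (M₂.δ (min (min i (max M₁.c M₂.c)) M₂.c) ((tpCut (max M₁.c M₂.c) M₂.c
      ((List.range (max M₁.c M₂.c) ++ (List.range (2 * (max M₁.c M₂.c) + 1)).map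
        fun j => i + j - (max M₁.c M₂.c)).map fun j => tpPair M₁.K (r₁ j) (r₂ j))).map
          fun a => a / M₁.K)) = _
  rw [e1, e2, tpCut_pos (le_max_left _ _), tpCut_pos (le_max_right _ _), List.map_map,
    List.map_map]
  show tpPair M₁.K _ _ = tpPair M₁.K
    (M₁.δ (min i M₁.c) ((M₁.pos i).map r₁)) (M₂.δ (min i M₂.c) ((M₂.pos i).map r₂))
  congr 2
  · apply List.map_congr_left
    intro j _
    exact tpPair_mod _ (h₁ j)
  · apply List.map_congr_left
    intro j _
    exact tpPair_div _ (h₁ j)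

/-- two local rules can be run in parallel (with the larger radius) -/
theorem exists_prod (M₁ M₂ : Tab) (h₁ : M₁.Ok) (h₂ : M₂.Ok) : ∃ M : Tab, M.Ok ∧
    ∀ (x y : List Bool) (t : ℕ), M.acc ((M.next^[t] (M.initRow x y)) 0) = true ↔
      M₁.acc ((M₁.next^[t] (M₁.initRow x y)) 0) = true ∧
      M₂.acc ((M₂.next^[t] (M₂.initRow x y)) 0) = true := by
  have hK1 : 0 < M₁.K := lt_of_le_of_lt (Nat.zero_le _) h₁.blank_lt
  refine ⟨tpProd M₁ M₂, ⟨?_, ?_, ?_, ?_, ?_, ?_⟩, ?_⟩
  · intro m w hw hw'
    have hw2 : w.length = 3 * (max M₁.c M₂.c) + 1 := hw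
    refine tpPair_lt (h₁.δ_lt _ _ ?_ ?_) (h₂.δ_lt _ _ ?_ ?_)
    · rw [List.length_map, tpCut_length (le_max_left _ _) hw2]
    · intro a ha
      obtain ⟨b, _, rfl⟩ := List.mem_map.1 ha
      exact Nat.mod_lt _ hK1
    · rw [List.length_map, tpCut_length (le_max_right _ _) hw2]
    · intro a ha
      obtain ⟨b, hb, rfl⟩ := List.mem_map.1 ha
      have h3 : b < M₁.K * M₂.K := hw' b (tpCut_mem hb)
      exact Nat.div_lt_of_lt_mul h3
  · intro b
    exact tpPair_lt (h₁.sym_lt b) (h₂.sym_lt b)
  · exact tpPair_lt h₁.sep_lt h₂.sep_lt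
  · exact tpPair_lt h₁.blank_lt h₂.blank_lt
  · intro b h
    apply h₁.sym_ne b
    have h3 : tpPair M₁.K (M₁.sym b) (M₂.sym b) = tpPair M₁.K M₁.blank M₂.blank := h
    rw [← tpPair_mod (M₂.sym b) (h₁.sym_lt b), h3, tpPair_mod _ h₁.blank_lt]
  · intro h
    apply h₁.sep_ne
    have h3 : tpPair M₁.K M₁.sep M₂.sep = tpPair M₁.K M₁.blank M₂.blank := h
    rw [← tpPair_mod M₂.sep h₁.sep_lt, h3, tpPair_mod _ h₁.blank_lt]
  · intro x y t
    have hinit : (tpProd M₁ M₂).initRow x y = fun i =>
        tpPair M₁.K (M₁.initRow x y i) (M₂.initRow x y i) := by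
      funext i
      rw [tp_initRow, tp_initRow, tp_initRow]
      cases (x.map some ++ none :: y.map some)[i]? with
      | none => rfl
      | some o => cases o <;> rfl
    have hit : ∀ t, (tpProd M₁ M₂).next^[t] ((tpProd M₁ M₂).initRow x y) = fun i =>
        tpPair M₁.K ((M₁.next^[t] (M₁.initRow x y)) i) ((M₂.next^[t] (M₂.initRow x y)) i) := by
      intro t
      induction t with
      | zero => exact hinit
      | succ t ih =>
        rw [Function.iterate_succ_apply', ih]
        funext i
        rw [tpProd_next M₁ M₂ _ _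
          (fun i => Tab.iterate_next_lt h₁ (Tab.initRow_lt h₁ x y) t i) i,
          Function.iterate_succ_apply', Function.iterate_succ_apply']
    rw [hit t]
    have hlt := Tab.iterate_next_lt h₁ (Tab.initRow_lt h₁ x y) t 0
    show (M₁.acc (tpPair M₁.K _ _ % M₁.K) && M₂.acc (tpPair M₁.K _ _ / M₁.K)) = true ↔ _
    rw [tpPair_mod _ hlt, tpPair_div _ hlt, Bool.and_eq_true]

end Pool.Agent.H24N
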