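import Pool.Agent.Lib.H24N.TabH
import Pool.Agent.Lib.H24N.TabProd
import Pool.Agent.Lib.H24N.LenCheck
import Pool.Agent.Lib.PolyTime.PairInput

/-!
# Languages in `N2EXP` in terms of local rules
-/

set_option autoImplicit false

namespace Pool.Agent.H24N

open Pool.Agent.PolyTime Pool.Agent.Lib.CookLevin Turing

theorem n2exp_tab {L : Word → Prop} (hL : InN2Exp L) :
    ∃ (M : Tab) (q T : Polynomial ℕ), M.Ok ∧
      (∀ (x y : Word) (t : ℕ), M.acc ((M.next^[t] (M.initRow x y)) 0) = true → L x) ∧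
      ∀ x, L x → ∃ y : Word, y.length ≤ 2 ^ 2 ^ q.eval x.length ∧
        ∀ t, T.eval (x.length + 1 + y.length) ≤ t →
          M.acc ((M.next^[t] (M.initRow x y)) 0) = true := by
  obtain ⟨q, R, ⟨h⟩, hR⟩ := hL
  obtain ⟨M₁, hM₁, h1, h1'⟩ := exists_tabH R h
  obtain ⟨g⟩ := (PT_lenCheck q).tmPair
  obtain ⟨M₂, hM₂, h2, h2'⟩ := exists_tabH
    (fun p : Word × Word => decide (p.2.length ≤ 2 ^ 2 ^ q.eval p.1.length)) g
  obtain ⟨M, hM, hacc⟩ := exists_prod M₁ M₂ hM₁ hM₂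
  refine ⟨M, q, h.time + g.time, hM, fun x y t hx => ?_, fun x hx => ?_⟩
  · rw [hacc] at hx
    exact (hR x).2 ⟨y, of_decide_eq_true (h2 x y t hx.2), h1 x y t hx.1⟩
  · obtain ⟨y, hy, hRy⟩ := (hR x).1 hx
    refine ⟨y, hy, fun t ht => ?_⟩
    rw [Polynomial.eval_add] at ht
    rw [hacc]
    exact ⟨h1' x y t (by omega) hRy, h2' x y t (by omega) (decide_eq_true hy)⟩

end Pool.Agent.H24N
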