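import Pool.Agent.Lib.H24N.Struct
import Pool.Agent.Lib.H24N.NumDefs

/-!
# Interpretations with given registers

`Par.interp`: the register chain is `E 0, E 1, …`; the nodes of the forests are `E (nd i r v)`
(level `i`, tree `r`, number `v < 2 ^ i`).
-/

set_option autoImplicit false

namespace Pool.Agent.H24N

/-- code of a node: level, tree, number -/
def nd (i r v : ℕ) : ℕ := Nat.pair i (Nat.pair r v)

theorem nd_inj {i r v i' r' v' : ℕ} : nd i r v = nd i' r' v' ↔ i = i' ∧ r = r' ∧ v = v' := by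
  simp [nd, Nat.pair_eq_pair]

theorem nd_zero : nd 0 0 0 = 0 := by decide

/-- kind of the modulus of module `μ` -/
def mdOf (μ : ℕ) : ℕ := [8, 8, 8, 9, 9].getD μ 0
/-- kind of the remainder of module `μ` -/
def rsOf (μ : ℕ) : ℕ := [14, 10, 11, 12, 13].getD μ 0
/-- fixed set of module `μ` -/
def fxOf (μ : ℕ) : ℕ := [0, 1, 2, 0, 1].getD μ 0

theorem modules_eq {p : ℕ × ℕ × ℕ × ℕ} (hp : p ∈ modules) :
    p.1 < 5 ∧ p.2.1 = mdOf p.1 ∧ p.2.2.1 = rsOf p.1 ∧ p.2.2.2 = fxOf p.1 := by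
  simp only [modules, List.mem_cons, List.not_mem_nil, or_false] at hp
  rcases hp with rfl | rfl | rfl | rfl | rfl <;> decide

/-- parameters of an interpretation -/
structure Par (Δ : Type) where
  E : ℕ → Δ
  V : ℕ → Set Δ
  k : ℕ
  reg : ℕ → ℕ
  κ : ℕ → ℕ
  f : ℕ → Δ → Δ
  ind : ℕ → Δ
  fl : ℕ → Prop
  td : ℕ → Prop
  te : ℕ → Prop
  ch : Prop
  mn : Prop

namespace Par

variable {Δ : Type} (B : Par Δ)

/-- selected nodes -/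
def sel (μ : ℕ) : Set Δ :=
  {x | ∃ i r v, i < 2 ^ (B.k + 3) ∧ r ≤ B.κ μ ∧ v < 2 ^ i ∧ x = B.E (nd i r v) ∧
    ((r = 0 ∧ (B.reg (rsOf μ)).testBit i = true) ∨ (r ≠ 0 ∧ (B.reg (mdOf μ)).testBit i = true))}

/-- concept names -/
def con (a j : ℕ) : Set Δ := match a with
  | 0 => {x | x = B.E 0 ∧ j = 0 ∧ B.mn}
  | 1 => {x | x = B.E 0 ∧ j = 0}
  | 2 => {x | x = B.E 0 ∧ j = 0}
  | 3 => {_x | j = 0}
  | 5 => {x | j = 0 ∧ ∃ i, i < 2 ^ (B.k + 3) ∧ x = B.E i}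
  | 6 => {x | ∃ i, 2 ^ B.k ≤ i ∧ i < 4 * 2 ^ B.k ∧ x = B.E i ∧
      ∀ l, 2 ^ B.k ≤ l → l < i → (B.reg 10).testBit l = true}
  | 7 => {x | ∃ i, 2 * 2 ^ B.k ≤ i ∧ i < 4 * 2 ^ B.k ∧ x = B.E i ∧
      ∀ l, 2 * 2 ^ B.k ≤ l → l < i → (B.reg 10).testBit l = true}
  | 8 => {x | ∃ i, i < 2 ^ (B.k + 3) ∧ x = B.E i ∧ (B.reg 8).testBit i = true}
  | 9 => {x | ∃ i, i < 2 ^ (B.k + 3) ∧ x = B.E i ∧ (B.reg 9).testBit i = true}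
  | 10 => {x | ∃ i, i < 2 ^ (B.k + 3) ∧ x = B.E i ∧ (B.reg 10).testBit i = true}
  | 11 => {x | ∃ i, i < 2 ^ (B.k + 3) ∧ x = B.E i ∧ (B.reg 11).testBit i = true}
  | 12 => {x | ∃ i, i < 2 ^ (B.k + 3) ∧ x = B.E i ∧ (B.reg 12).testBit i = true}
  | 13 => {x | ∃ i, i < 2 ^ (B.k + 3) ∧ x = B.E i ∧ (B.reg 13).testBit i = true}
  | 14 => {x | ∃ i, i < 2 ^ (B.k + 3) ∧ x = B.E i ∧ (B.reg 14).testBit i = true}
  | 15 => B.V j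
  | 16 => {x | j = 3 ∧ B.ch ∧ ∃ m, x = B.E m}
  | 17 => {x | j = 3 ∧ B.ch ∧ x = B.E 0}
  | 18 => {x | ∃ i, i < 2 ^ (B.k + 3) ∧ x = B.E i ∧ i.testBit j = true}
  | 19 => {x | ∃ i r v, i < 2 ^ (B.k + 3) ∧ r ≤ B.κ j ∧ v < 2 ^ i ∧ x = B.E (nd i r v)}
  | 20 => {x | ∃ i v, i < 2 ^ (B.k + 3) ∧ v < 2 ^ i ∧ x = B.E (nd i 0 v)}
  | 21 => B.sel j
  | 22 => {x | ∃ i, i < 2 ^ (B.k + 3) ∧ x = B.E i ∧
      B.reg (rsOf j) % 2 ^ (i + 1) < B.reg (mdOf j) % 2 ^ (i + 1)}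
  | 24 => {x | ∃ i r v, i < 2 ^ (B.k + 3) ∧ r ≤ B.κ 0 ∧ v < 2 ^ i ∧ x = B.E (nd i r v) ∧
      i.testBit j = true}
  | 25 => {x | ∃ i r v, i < 2 ^ (B.k + 3) ∧ r ≤ B.κ 1 ∧ v < 2 ^ i ∧ x = B.E (nd i r v) ∧
      i.testBit j = true}
  | 26 => {x | ∃ i r v, i < 2 ^ (B.k + 3) ∧ r ≤ B.κ 2 ∧ v < 2 ^ i ∧ x = B.E (nd i r v) ∧
      i.testBit j = true}
  | 27 => {x | ∃ i r v, i < 2 ^ (B.k + 3) ∧ r ≤ B.κ 3 ∧ v < 2 ^ i ∧ x = B.E (nd i r v) ∧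
      i.testBit j = true}
  | 28 => {x | ∃ i r v, i < 2 ^ (B.k + 3) ∧ r ≤ B.κ 4 ∧ v < 2 ^ i ∧ x = B.E (nd i r v) ∧
      i.testBit j = true}
  | 29 => {_x | B.fl j}
  | 30 => {_x | B.td j}
  | 31 => {_x | B.te j}
  | _ => ∅

/-- role names -/
def rol (a j : ℕ) (x y : Δ) : Prop := match a with
  | 0 => y = B.E 0
  | 1 => True
  | 2 => j = 3 ∧ B.ch ∧ ∃ m, x = B.E m ∧ y = B.E (m + 1)
  | 3 => ∃ i, i + 1 < 2 ^ (B.k + 3) ∧ x = B.E i ∧ y = B.E (i + 1)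
  | 4 => ∃ i r v, i + 1 < 2 ^ (B.k + 3) ∧ r ≤ B.κ j ∧ v < 2 ^ i ∧ x = B.E (nd i r v) ∧
      y = B.E (nd (i + 1) r (2 * v))
  | 5 => ∃ i r v, i + 1 < 2 ^ (B.k + 3) ∧ r ≤ B.κ j ∧ v < 2 ^ i ∧ x = B.E (nd i r v) ∧
      y = B.E (nd (i + 1) r (2 * v + 1))
  | 6 => x ∈ B.sel j ∧ y = B.f j x
  | 7 => ∃ i r v, i < 2 ^ (B.k + 3) ∧ r ≤ B.κ j ∧ v < 2 ^ i ∧ x = B.E (nd i r v) ∧ y = B.E i
  | _ => False

/-- the interpretation -/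
def interp : Interp Δ where
  con n := B.con (n % 64) (n / 64)
  rol n := B.rol (n % 64) (n / 64)
  ind := B.ind

theorem interp_c {a : ℕ} (ha : a < 64) (j : ℕ) : B.interp.c a j = B.con a j := by
  have h1 : (64 * j + a) % 64 = a := by omega
  have h2 : (64 * j + a) / 64 = j := by omega
  show B.con ((64 * j + a) % 64) ((64 * j + a) / 64) = _
  rw [h1, h2]

theorem interp_r {a : ℕ} (ha : a < 64) (j : ℕ) : B.interp.r a j = B.rol a j := by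
  have h1 : (64 * j + a) % 64 = a := by omega
  have h2 : (64 * j + a) / 64 = j := by omega
  funext x y
  show B.rol ((64 * j + a) % 64) ((64 * j + a) / 64) x y = _
  rw [h1, h2]

/-- conditions on the parameters -/
structure Ok : Prop where
  inj : Function.Injective B.E
  ind : B.ind 0 = B.E 0
  reg_lt : ∀ c, B.reg c < 2 ^ 2 ^ (B.k + 3)
  bij : ∀ μ < 5, Set.BijOn (B.f μ) (B.sel μ) (B.V (fxOf μ))
  lt : ∀ μ < 5, B.reg (rsOf μ) < B.reg (mdOf μ)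
  z : B.reg 14 = 0
  leS : 2 ^ (4 * 2 ^ B.k) ≤ B.reg 8
  leT : 2 ^ (4 * 2 ^ B.k) ≤ B.reg 9

end Par

end Pool.Agent.H24N
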