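import Pool.Agent.Lib.H24N.Par

/-!
# The registers of `Par.interp`
-/

set_option autoImplicit false

namespace Pool.Agent.H24N

namespace Par

variable {Δ : Type} {B : Par Δ}

theorem pa_mem5 {x : Δ} : x ∈ B.interp.c 5 0 ↔ ∃ i, i < 2 ^ (B.k + 3) ∧ x = B.E i := by
  rw [B.interp_c (by norm_num)]
  show (0 = 0 ∧ ∃ i, i < 2 ^ (B.k + 3) ∧ x = B.E i) ↔ _
  simp

theorem pa_mem1 {x : Δ} : x ∈ B.interp.c 1 0 ↔ x = B.E 0 := by
  rw [B.interp_c (by norm_num)]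
  show (x = B.E 0 ∧ 0 = 0) ↔ _
  simp

theorem pa_r3 {x y : Δ} : B.interp.r 3 0 x y ↔
    ∃ i, i + 1 < 2 ^ (B.k + 3) ∧ x = B.E i ∧ y = B.E (i + 1) := by
  rw [B.interp_r (by norm_num)]
  exact Iff.rfl

/-- the counter of the register chain -/
theorem cv_E (hB : B.Ok) {i : ℕ} (hi : i < 2 ^ (B.k + 3)) : cv B.interp B.k 18 (B.E i) = i := by
  unfold cv
  symm
  rw [eq_bitsNum_iff hi]
  intro j _
  rw [B.interp_c (by norm_num)]
  show _ ↔ ∃ i', i' < 2 ^ (B.k + 3) ∧ B.E i = B.E i' ∧ i'.testBit j = true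
  constructor
  · intro h
    exact ⟨i, hi, rfl, h⟩
  · rintro ⟨i', _, h1, h2⟩
    rw [hB.inj h1]
    exact h2

/-- the counter of a node -/
theorem cv_nd (hB : B.Ok) {μ i r v : ℕ} (hμ : μ < 5) (hi : i < 2 ^ (B.k + 3)) (hr : r ≤ B.κ μ)
    (hv : v < 2 ^ i) : cv B.interp B.k (24 + μ) (B.E (nd i r v)) = i := by
  unfold cv
  symm
  rw [eq_bitsNum_iff hi]
  intro j _
  rw [B.interp_c (by omega)]
  have key : B.con (24 + μ) j = {x | ∃ i r v, i < 2 ^ (B.k + 3) ∧ r ≤ B.κ μ ∧ v < 2 ^ i ∧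
      x = B.E (nd i r v) ∧ i.testBit j = true} := by
    interval_cases μ <;> rfl
  rw [key]
  constructor
  · intro h
    exact ⟨i, r, v, hi, hr, hv, rfl, h⟩
  · rintro ⟨i', r', v', _, _, _, h1, h2⟩
    rw [(nd_inj.mp (hB.inj h1)).1]
    exact h2

theorem chainAt (hB : B.Ok) (x : Δ) : ChainAt B.interp B.k x := by
  have h0 : 0 < 2 ^ (B.k + 3) := by positivity
  constructor
  · rw [pa_mem1, pa_mem5]
    constructor
    · rintro rfl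
      exact ⟨⟨0, h0, rfl⟩, cv_E hB h0⟩
    · rintro ⟨⟨i, hi, rfl⟩, h⟩
      rw [cv_E hB hi] at h
      rw [h]
  · intro h1 h2
    obtain ⟨i, hi, rfl⟩ := pa_mem5.mp h1
    rw [cv_E hB hi] at h2
    have h3 : i + 1 < 2 ^ (B.k + 3) := by omega
    exact ⟨B.E (i + 1), pa_r3.mpr ⟨i, h3, rfl, rfl⟩, pa_mem5.mpr ⟨i + 1, h3, rfl⟩⟩
  · intro h1 h2
    obtain ⟨i, hi, rfl⟩ := pa_mem5.mp h1
    rw [cv_E hB hi] at h2
    obtain ⟨j, rfl⟩ := Nat.exists_eq_succ_of_ne_zero h2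
    exact ⟨B.E j, pa_r3.mpr ⟨j, hi, rfl, rfl⟩, pa_mem5.mpr ⟨j, by omega, rfl⟩⟩
  · intro y z hy hz
    obtain ⟨i, _, h1, rfl⟩ := pa_r3.mp hy
    obtain ⟨j, _, h2, rfl⟩ := pa_r3.mp hz
    rw [h1] at h2
    rw [hB.inj h2]
  · intro h1 y hy _
    obtain ⟨i, hi, rfl, rfl⟩ := pa_r3.mp hy
    rw [cv_E hB hi, cv_E hB (by omega), Nat.mod_eq_of_lt hi]

end Par

end Pool.Agent.H24N
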