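import Pool.Agent.Lib.H24N.Par

/-!
# Existence of the parameters
-/

set_option autoImplicit false

namespace Pool.Agent.H24N

namespace Par

variable {Δ : Type}

private theorem sum_bits {N v : ℕ} (hv : v < 2 ^ N) :
    ∑ i ∈ Finset.range N, (if v.testBit i = true then 2 ^ i else 0) = v := by
  have h := (eq_bitsNum_iff hv (fun i => v.testBit i = true)).2 (fun i _ => Iff.rfl)
  conv_rhs => rw [h]
  unfold bitsNum
  apply Finset.sum_congr rfl
  intro i _
  congr

private theorem card_rs (κ : ℕ) (p q : Prop) [Decidable p] [Decidable q] :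
    ((Finset.range (κ + 1)).filter fun r => (r = 0 ∧ p) ∨ (r ≠ 0 ∧ q)).card =
      (if p then 1 else 0) + κ * (if q then 1 else 0) := by
  rw [Finset.card_filter, Finset.sum_range_succ']
  simp only [Nat.add_eq_zero_iff, one_ne_zero, and_false, false_and, ne_eq, not_false_eq_true,
    true_and, false_or, not_true_eq_false, or_false]
  rw [Finset.sum_const, Finset.card_range, smul_eq_mul, add_comm]

/-- the number of the selected nodes -/
theorem sel_ncard {B : Par Δ} (hE : Function.Injective B.E)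
    (hreg : ∀ c, B.reg c < 2 ^ 2 ^ (B.k + 3)) (μ : ℕ) :
    (B.sel μ).Finite ∧ (B.sel μ).ncard = B.reg (rsOf μ) + B.κ μ * B.reg (mdOf μ) := by
  classical
  set F : Finset ((_ : ℕ) × (ℕ × ℕ)) := (Finset.range (2 ^ (B.k + 3))).sigma fun i =>
    ((Finset.range (B.κ μ + 1)).filter fun r => (r = 0 ∧ (B.reg (rsOf μ)).testBit i = true) ∨
      (r ≠ 0 ∧ (B.reg (mdOf μ)).testBit i = true)) ×ˢ Finset.range (2 ^ i) with hF
  have himg : B.sel μ = (F.image fun p => B.E (nd p.1 p.2.1 p.2.2) : Set Δ) := by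
    ext x
    simp only [sel, Finset.coe_image, Set.mem_image, Finset.mem_coe, hF, Finset.mem_sigma,
      Finset.mem_product, Finset.mem_filter, Finset.mem_range]
    constructor
    · rintro ⟨i, r, v, h1, h2, h3, h4, h5⟩
      exact ⟨⟨i, r, v⟩, ⟨h1, ⟨Nat.lt_succ_of_le h2, h5⟩, h3⟩, h4.symm⟩
    · rintro ⟨⟨i, r, v⟩, ⟨h1, ⟨h2, h5⟩, h3⟩, h4⟩
      exact ⟨i, r, v, h1, by simpa using Nat.lt_succ_iff.1 h2, h3, h4.symm, h5⟩
  have hcard : (F.image fun p => B.E (nd p.1 p.2.1 p.2.2)).card = F.card := by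
    apply Finset.card_image_of_injective
    rintro ⟨i, r, v⟩ ⟨i', r', v'⟩ h
    have h1 := hE h
    simp only at h1
    rw [nd_inj] at h1
    obtain ⟨rfl, rfl, rfl⟩ := h1
    rfl
  have hFc : F.card = B.reg (rsOf μ) + B.κ μ * B.reg (mdOf μ) := by
    rw [hF, Finset.card_sigma]
    simp only [Finset.card_product, Finset.card_range, card_rs]
    have h1 := sum_bits (hreg (rsOf μ))
    have h2 := sum_bits (hreg (mdOf μ))
    conv_rhs => rw [← h1, ← h2]
    rw [Finset.mul_sum, ← Finset.sum_add_distrib]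
    apply Finset.sum_congr rfl
    intro i _
    split_ifs <;> ring
  refine ⟨?_, ?_⟩
  · rw [himg]; exact Finset.finite_toSet _
  · rw [himg, Set.ncard_coe_finset, hcard, hFc]

end Par

end Pool.Agent.H24N
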