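import Pool.Agent.Lib.H24N.ParA

/-!
# Comparison of the registers of `Par.interp`
-/

set_option autoImplicit false

namespace Pool.Agent.H24N

namespace Par

variable {Δ : Type} {B : Par Δ}

/-- the bits of a register -/
theorem plt_bit (hB : B.Ok) {c : ℕ} (hc : 8 ≤ c ∧ c ≤ 14) {i : ℕ} (hi : i < 2 ^ (B.k + 3)) :
    B.E i ∈ B.interp.c c 0 ↔ (B.reg c).testBit i = true := by
  obtain ⟨h1, h2⟩ := hc
  rw [B.interp_c (by omega)]
  have key : B.con c 0 = {x | ∃ i, i < 2 ^ (B.k + 3) ∧ x = B.E i ∧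
      (B.reg c).testBit i = true} := by
    interval_cases c <;> rfl
  rw [key]
  constructor
  · rintro ⟨i', _, h3, h4⟩
    rw [hB.inj h3]
    exact h4
  · intro h
    exact ⟨i, hi, rfl, h⟩

theorem plt_22 (hB : B.Ok) {μ i : ℕ} (hi : i < 2 ^ (B.k + 3)) :
    B.E i ∈ B.interp.c 22 μ ↔
      B.reg (rsOf μ) % 2 ^ (i + 1) < B.reg (mdOf μ) % 2 ^ (i + 1) := by
  rw [B.interp_c (by norm_num)]
  show (∃ i', i' < 2 ^ (B.k + 3) ∧ B.E i = B.E i' ∧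
      B.reg (rsOf μ) % 2 ^ (i' + 1) < B.reg (mdOf μ) % 2 ^ (i' + 1)) ↔ _
  constructor
  · rintro ⟨i', _, h3, h4⟩
    rw [hB.inj h3]
    exact h4
  · intro h
    exact ⟨i, hi, rfl, h⟩

theorem plt_md {μ : ℕ} (hμ : μ < 5) : (8 ≤ mdOf μ ∧ mdOf μ ≤ 14) ∧ (8 ≤ rsOf μ ∧ rsOf μ ≤ 14) := by
  interval_cases μ <;> decide

theorem ltAt (hB : B.Ok) {μ : ℕ} (hμ : μ < 5) (x : Δ) :
    LtAt B.interp B.k μ (mdOf μ) (rsOf μ) x := by
  obtain ⟨hmd, hrs⟩ := plt_md hμ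
  constructor
  · intro h1 h2
    obtain ⟨i, hi, rfl⟩ := pa_mem5.mp h1
    rw [plt_22 hB hi, mod_lt_iff] at h2
    rw [plt_bit hB hmd hi, plt_bit hB hrs hi, cv_E hB hi]
    rcases h2 with ⟨h3, h4⟩ | ⟨h3, h4⟩
    · left
      exact ⟨h3, by rw [h4]; simp⟩
    · right
      refine ⟨by rw [h3], ?_, ?_⟩
      · rintro rfl
        simp [Nat.mod_one] at h4
      · have hi0 : i ≠ 0 := by
          rintro rfl
          simp [Nat.mod_one] at h4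
        obtain ⟨j, rfl⟩ := Nat.exists_eq_succ_of_ne_zero hi0
        have hj : j < 2 ^ (B.k + 3) := by omega
        exact ⟨B.E j, pa_r3.mpr ⟨j, hi, rfl, rfl⟩, pa_mem5.mpr ⟨j, hj, rfl⟩,
          (plt_22 hB hj).mpr h4⟩
  · intro h1 h2
    obtain ⟨i, hi, rfl⟩ := pa_mem5.mp h1
    rw [cv_E hB hi] at h2
    rw [plt_22 hB hi]
    have h3 : i + 1 = 2 ^ (B.k + 3) := by omega
    rw [h3, Nat.mod_eq_of_lt (hB.reg_lt _), Nat.mod_eq_of_lt (hB.reg_lt _)]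
    exact hB.lt μ hμ

end Par

end Pool.Agent.H24N
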