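import Mathlib

/-!
# Many primes of doubly exponential size
-/

set_option autoImplicit false

namespace Pool.Agent.H24N

theorem pr_ineq (N : ℕ) (hN : 1 ≤ N) :
    8 * N * (2 ^ (3 * N) + 2 ^ (4 * N) + 1) + 8 * N + 1 ≤ 2 ^ (8 * N) := by
  obtain ⟨x, hx⟩ : ∃ x, x = 2 ^ N := ⟨_, rfl⟩
  have h1 : N + 1 ≤ x := by rw [hx]; exact Nat.lt_two_pow_self
  have h2 : 2 ≤ x := by omega
  have h3 : 2 ^ (3 * N) = x ^ 3 := by rw [hx, ← pow_mul, mul_comm]
  have h4 : 2 ^ (4 * N) = x ^ 4 := by rw [hx, ← pow_mul, mul_comm]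
  have h8 : 2 ^ (8 * N) = x ^ 8 := by rw [hx, ← pow_mul, mul_comm]
  rw [h3, h4, h8]
  obtain ⟨y, rfl⟩ : ∃ y, x = y + 2 := ⟨x - 2, by omega⟩
  have hy : N ≤ y + 1 := by omega
  calc 8 * N * ((y + 2) ^ 3 + (y + 2) ^ 4 + 1) + 8 * N + 1
      ≤ 8 * (y + 1) * ((y + 2) ^ 3 + (y + 2) ^ 4 + 1) + 8 * (y + 1) + 1 := by gcongr
    _ ≤ (y + 2) ^ 8 := by
      have e1 : 8 * (y + 1) * ((y + 2) ^ 3 + (y + 2) ^ 4 + 1) + 8 * (y + 1) + 1
          = 8 * y ^ 5 + 80 * y ^ 4 + 312 * y ^ 3 + 592 * y ^ 2 + 560 * y + 209 := by ring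
      have e2 : (y + 2) ^ 8 = y ^ 8 + 16 * y ^ 7 + 112 * y ^ 6 + 448 * y ^ 5 + 1120 * y ^ 4
          + 1792 * y ^ 3 + 1792 * y ^ 2 + 1024 * y + 256 := by ring
      rw [e1, e2]
      nlinarith [Nat.zero_le (y ^ 8), Nat.zero_le (y ^ 7), Nat.zero_le (y ^ 6),
        Nat.zero_le (y ^ 5), Nat.zero_le (y ^ 4), Nat.zero_le (y ^ 3), Nat.zero_le (y ^ 2)]

/-- enough primes; by the estimate for the central binomial coefficient, the number of primes up to
`2 ^ (8 * N)` is at least `2 ^ (8 * N) / (8 * N) - 1` -/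
theorem exists_primes (k : ℕ) : ∃ S : Finset ℕ, S.card = 2 ^ (3 * 2 ^ k) ∧
    ∀ p ∈ S, p.Prime ∧ 2 ^ (4 * 2 ^ k) ≤ p ∧ p < 2 ^ (8 * 2 ^ k) := by
  obtain ⟨N, hNdef⟩ : ∃ N, N = 2 ^ k := ⟨_, rfl⟩
  rw [← hNdef]
  have hN : 1 ≤ N := by rw [hNdef]; exact Nat.one_le_two_pow
  set n : ℕ := 2 ^ (8 * N) with hn
  set S : Finset ℕ := (Finset.Ico (2 ^ (4 * N)) n).filter Nat.Prime with hS
  have hpi := Chebyshev.pi_ge n
  have hlog2 : 0 < Real.log 2 := Real.log_pos (by norm_num)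
  have hlogn : Real.log (n : ℝ) = (8 * N : ℕ) * Real.log 2 := by
    rw [hn]; push_cast; rw [Real.log_pow]; push_cast; ring
  have hN' : (0 : ℝ) < (8 * N : ℕ) := by exact_mod_cast (by omega : 0 < 8 * N)
  have hlogn1 : Real.log ((n : ℝ) + 1) ≤ ((8 * N : ℕ) + 1) * Real.log 2 := by
    have h1 : (n : ℝ) + 1 ≤ 2 ^ (8 * N + 1) := by
      have : n + 1 ≤ 2 ^ (8 * N + 1) := by
        rw [pow_succ, ← hn]
        have : 1 ≤ n := by rw [hn]; exact Nat.one_le_two_pow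
        omega
      exact_mod_cast this
    have h2 := Real.log_le_log (by positivity) h1
    rw [Real.log_pow] at h2
    push_cast at h2 ⊢
    exact h2
  rw [hlogn, div_le_iff₀ (by positivity)] at hpi
  have hpi2 : (n : ℝ) ≤ (8 * N : ℕ) * (Nat.primeCounting n : ℝ) + (8 * N : ℕ) + 1 := by
    have h1 : (n : ℝ) * Real.log 2 ≤
        ((8 * N : ℕ) * (Nat.primeCounting n : ℝ) + (8 * N : ℕ) + 1) * Real.log 2 := by
      nlinarith
    exact le_of_mul_le_mul_right h1 hlog2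
  have hpi3 : n ≤ 8 * N * Nat.primeCounting n + 8 * N + 1 := by exact_mod_cast hpi2
  have hcount : Nat.primeCounting n ≤ S.card + 2 ^ (4 * N) + 1 := by
    rw [Nat.primeCounting, Nat.primeCounting', Nat.count_eq_card_filter_range]
    have hsub : (Finset.range (n + 1)).filter Nat.Prime ⊆
        S ∪ (Finset.range (2 ^ (4 * N)) ∪ {n}) := by
      intro p hp
      rw [Finset.mem_filter, Finset.mem_range] at hp
      simp only [Finset.mem_union, Finset.mem_range, Finset.mem_singleton, hS, Finset.mem_filter,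
        Finset.mem_Ico]
      by_cases h1 : p < 2 ^ (4 * N)
      · exact Or.inr (Or.inl h1)
      · by_cases h2 : p = n
        · exact Or.inr (Or.inr h2)
        · exact Or.inl ⟨⟨by omega, by omega⟩, hp.2⟩
    calc ((Finset.range (n + 1)).filter Nat.Prime).card
        ≤ (S ∪ (Finset.range (2 ^ (4 * N)) ∪ {n})).card := Finset.card_le_card hsub
      _ ≤ S.card + ((Finset.range (2 ^ (4 * N))).card + ({n} : Finset ℕ).card) :=
        (Finset.card_union_le _ _).trans (Nat.add_le_add_left (Finset.card_union_le _ _) _)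
      _ = S.card + 2 ^ (4 * N) + 1 := by
        rw [Finset.card_range, Finset.card_singleton]; ring
  have hcard : 2 ^ (3 * N) ≤ S.card := by
    by_contra hcon
    push Not at hcon
    have h1 := pr_ineq N hN
    rw [← hn] at h1
    have h2 : Nat.primeCounting n + 1 ≤ 2 ^ (3 * N) + 2 ^ (4 * N) + 1 := by omega
    have h3 : 8 * N * (Nat.primeCounting n + 1) ≤ 8 * N * (2 ^ (3 * N) + 2 ^ (4 * N) + 1) :=
      Nat.mul_le_mul_left _ h2
    have h4 : 8 * N * (Nat.primeCounting n + 1) = 8 * N * Nat.primeCounting n + 8 * N := by ring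
    have h5 : 0 < N := hN
    omega
  obtain ⟨T, hT, hTc⟩ := Finset.exists_subset_card_eq hcard
  refine ⟨T, hTc, fun p hp => ?_⟩
  have h1 := hT hp
  rw [hS, Finset.mem_filter, Finset.mem_Ico] at h1
  exact ⟨h1.2, h1.1.1, h1.1.2⟩

end Pool.Agent.H24N
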