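import Pool.Agent.Lib.H24N.Chain

/-!
# Reading the registers
-/

set_option autoImplicit false

namespace Pool.Agent.H24N

variable {Δ : Type} {I : Interp Δ} {k : ℕ} {e : ℕ → Δ}

theorem rv_bit (a i : ℕ) : (rv I k e a).testBit i = true ↔ i < 2 ^ (k + 3) ∧ e i ∈ I.c a 0 :=
  testBit_bitsNum _ _ _

theorem rv_bit_lt {a i : ℕ} (hi : i < 2 ^ (k + 3)) :
    (rv I k e a).testBit i = true ↔ e i ∈ I.c a 0 := by
  rw [rv_bit]
  exact ⟨fun h => h.2, fun h => ⟨hi, h⟩⟩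

theorem pow_k3 (k : ℕ) : 2 ^ (k + 3) = 8 * 2 ^ k := by ring

theorem misc_bounds {o : Δ} (hN : I.c 1 0 = {o}) (he : Chain I k e) (h : ∀ x, MiscAt I k x) :
    2 ^ (4 * 2 ^ k) ≤ rv I k e 8 ∧ 2 ^ (4 * 2 ^ k) ≤ rv I k e 9 ∧ rv I k e 14 = 0 := by
  have ho : o ∈ I.c 1 0 := by rw [hN]; exact rfl
  have key : ∀ a, (∃ y, I.r 1 0 o y ∧ y ∈ I.c 5 0 ∧ 4 * 2 ^ k ≤ cv I k 18 y ∧ y ∈ I.c a 0) →
      2 ^ (4 * 2 ^ k) ≤ rv I k e a := by
    rintro a ⟨y, _, h1, h2, h3⟩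
    have h4 := he.uniq y h1
    have h5 : (rv I k e a).testBit (cv I k 18 y) = true := by
      rw [rv_bit_lt (cv_lt I y k 18), ← h4]
      exact h3
    exact (Nat.pow_le_pow_right (by norm_num) h2).trans (Nat.ge_two_pow_of_testBit h5)
  refine ⟨key 8 ((h o).bS ho), key 9 ((h o).bT ho), ?_⟩
  rw [rv, bitsNum_eq_zero_iff]
  intro i hi
  exact (h (e i)).z (he.mem i hi)

theorem carryY (he : Chain I k e) (h : ∀ x, MiscAt I k x) (i : ℕ) (hi : 2 ^ k ≤ i)
    (hi' : i < 4 * 2 ^ k) :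
    e i ∈ I.c 6 0 ↔ ∀ j, 2 ^ k ≤ j → j < i → (rv I k e 10).testBit j = true := by
  have hk := pow_k3 k
  induction i, hi using Nat.le_induction with
  | base =>
    refine ⟨fun _ j h1 h2 => absurd h1 (by omega), fun _ => ?_⟩
    exact (h (e (2 ^ k))).cy0 (he.mem _ (by omega)) (he.cnt _ (by omega))
  | succ i hi ih =>
    have h0 : i + 1 < 2 ^ (k + 3) := by omega
    have h1 := (h (e (i + 1))).cy (he.mem _ h0) (by rw [he.cnt _ h0]; omega)
      (by rw [he.cnt _ h0]; omega)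
    rw [h1]
    have ih' := ih (by omega)
    constructor
    · rintro ⟨y, a1, a2, a3, a4⟩ j hj hj'
      have hy := (he.pred i h0 y).1 ⟨a1, a2⟩
      subst hy
      rcases Nat.lt_succ_iff_lt_or_eq.1 hj' with hj' | rfl
      · exact ih'.1 a3 j hj hj'
      · exact (rv_bit_lt (by omega)).2 a4
    · intro hh
      obtain ⟨a1, a2⟩ := (he.pred i h0 (e i)).2 rfl
      exact ⟨e i, a1, a2, ih'.2 fun j hj hj' => hh j hj (by omega),
        (rv_bit_lt (by omega)).1 (hh i hi (by omega))⟩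

theorem carryZ (he : Chain I k e) (h : ∀ x, MiscAt I k x) (i : ℕ) (hi : 2 * 2 ^ k ≤ i)
    (hi' : i < 4 * 2 ^ k) :
    e i ∈ I.c 7 0 ↔ ∀ j, 2 * 2 ^ k ≤ j → j < i → (rv I k e 10).testBit j = true := by
  have hk := pow_k3 k
  induction i, hi using Nat.le_induction with
  | base =>
    refine ⟨fun _ j h1 h2 => absurd h1 (by omega), fun _ => ?_⟩
    exact (h (e (2 * 2 ^ k))).cz0 (he.mem _ (by omega)) (he.cnt _ (by omega))
  | succ i hi ih =>
    have h0 : i + 1 < 2 ^ (k + 3) := by omega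
    have h1 := (h (e (i + 1))).cz (he.mem _ h0) (by rw [he.cnt _ h0]; omega)
      (by rw [he.cnt _ h0]; omega)
    rw [h1]
    have ih' := ih (by omega)
    constructor
    · rintro ⟨y, a1, a2, a3, a4⟩ j hj hj'
      have hy := (he.pred i h0 y).1 ⟨a1, a2⟩
      subst hy
      rcases Nat.lt_succ_iff_lt_or_eq.1 hj' with hj' | rfl
      · exact ih'.1 a3 j hj hj'
      · exact (rv_bit_lt (by omega)).2 a4
    · intro hh
      obtain ⟨a1, a2⟩ := (he.pred i h0 (e i)).2 rfl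
      exact ⟨e i, a1, a2, ih'.2 fun j hj hj' => hh j hj (by omega),
        (rv_bit_lt (by omega)).1 (hh i hi (by omega))⟩

end Pool.Agent.H24N
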