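import Pool.Agent.Lib.H24N.Extract
import Pool.Agent.Lib.H24N.Num
import Pool.Agent.Lib.H24N.ParModel
import Pool.Agent.Lib.H24N.ParEx
import Pool.Agent.Lib.H24N.Kill
import Pool.Agent.Lib.H24N.InfChain
import Pool.Agent.Lib.H24N.St5

/-!
# A model of the circumscribed knowledge base from good numbers
-/

set_option autoImplicit false

namespace Pool.Agent.H24N

theorem sat_of_good {P : Til} (hP : P.Wf) {x0 x1 x2 : ℕ} (h : Good P x0 x1 x2) :
    (instOf P).Sat := by
  obtain ⟨s, hs, hs0⟩ := h.orig
  let V : ℕ → Set ℕ := fun a =>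
    if a = 0 then Set.Iio x0 else if a = 1 then Set.Iio x1 else Set.Iio x2
  have hcard : ∀ n : ℕ, (Set.Iio n : Set ℕ).ncard = n := by
    intro n
    rw [← Nat.card_coe_set_eq, Nat.card_eq_fintype_card]
    simp
  have hV : ∀ a < 3, (V a).Finite := by
    intro a _
    simp only [V]
    split_ifs <;> exact Set.finite_Iio _
  have h0 : (V 0).ncard = x0 := by simp only [V, if_true]; exact hcard x0
  have h1 : (V 1).ncard = x1 := by
    have : V 1 = Set.Iio x1 := by simp [V]
    rw [this]; exact hcard x1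
  have h2 : (V 2).ncard = x2 := by
    have : V 2 = Set.Iio x2 := by simp [V]
    rw [this]; exact hcard x2
  obtain ⟨B, hB, hE, hVV, hk, hind, hfl, htd, hte, hch, hmn, r8, r9, r10, r11, r12, r13⟩ :=
    Par.exists_par (fun n : ℕ => n) (fun a b hab => hab) V hV P.k s s (by rwa [h0]) hs.le hs.lt
      (fun n : ℕ => n) rfl (fun i => i = 0) (fun _ => False) (fun _ => False) True True
  have hE0 : B.E 0 = 0 := by rw [hE]
  have hmodel : IsModel B.interp P := by
    refine Par.isModel hB hP hk ?_ (Or.inl ⟨by rw [hmn]; trivial, by rw [hch]; trivial,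
      by rw [hfl]⟩)
    rw [hfl, htd, hte, hk, r10]
    constructor
    · intro _; rw [h1]; exact hs0
    · intro h; exact absurd h (by decide)
    · intro h; exact absurd h (by decide)
    · intro h; exact absurd h (by decide)
    · intro h; exact absurd h (by decide)
    · intro h; exact absurd h (by decide)
    · intro h; exact absurd h (by decide)
    · intro h; exact absurd h (by decide)
    · intro _ _ h; exact h.elim
    · intro _ _ h; exact h.elim
  have hNB : B.interp.c 1 0 = {0} := by
    rw [B.interp_c (by norm_num)]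
    ext x
    show (x = B.E 0 ∧ 0 = 0) ↔ x = 0
    rw [hE0]; simp
  have hMinB : B.interp.c 0 0 = {0} := by
    rw [B.interp_c (by norm_num)]
    ext x
    show (x = B.E 0 ∧ 0 = 0 ∧ B.mn) ↔ x = 0
    rw [hE0, hmn]; simp
  have hVB : ∀ a, B.interp.c 15 a = V a := by
    intro a
    rw [B.interp_c (by norm_num)]
    show B.V a = V a
    rw [hVV]
  refine ⟨ℕ, B.interp, ⟨(models_iff _ _ hP.n_le).2 hmodel, ?_⟩, ⟨0, ?_⟩⟩
  · intro J hJ hbet
    rw [models_iff _ _ hP.n_le] at hJ
    rw [better_iff] at hbet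
    obtain ⟨b1, b2, b3, b4⟩ := hbet
    have hind0 : J.ind 0 = 0 := by
      rw [b1]
      show B.ind 0 = 0
      rw [hind]
    have hN : J.c 1 0 = {0} := b2.trans hNB
    have hJV : ∀ a < 3, J.c 15 a = V a := fun a ha => (b3 a ha).trans (hVB a)
    have hmin : J.c 0 0 = ∅ := by
      rw [hMinB] at b4
      exact Set.ssubset_singleton_iff.1 b4
    have hT : (0 : ℕ) ∈ J.c 2 0 := by have := hJ.indT; rwa [hind0] at this
    rcases hJ.top 0 hT with h | h | h | h
    · rw [hmin] at h; exact h.1
    · obtain ⟨⟨y, _, hy, hy'⟩, z, _, hz, hz'⟩ := h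
      rw [hN, Set.mem_singleton_iff] at hy hz
      subst hy; subst hz
      exact hz' hy'
    · obtain ⟨a, ha, y, _, hy, hy'⟩ := h
      exact infinite_of_chain hJ.inf ha hy hy' (by rw [hJV a ha]; exact hV a ha)
    · have e0 : (J.c 15 0).ncard = x0 := by rw [hJV 0 (by norm_num)]; exact h0
      have e1 : (J.c 15 1).ncard = x1 := by rw [hJV 1 (by norm_num)]; exact h1
      have e2 : (J.c 15 2).ncard = x2 := by rw [hJV 2 (by norm_num)]; exact h2
      obtain ⟨s', t', hs', ht', ht'', hF, hv⟩ := exists_num hP.n_le hJ hN h.1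
        (fun a ha => by rw [hJV a ha]; exact hV a ha) e0 e1 e2
      rename_i hg
      exact no_viol_of_good hP hg hs' ht' ht'' hF (hv h.2)
  · show (0 : ℕ) ∈ B.interp.c 0 0
    rw [hMinB]; rfl

end Pool.Agent.H24N
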