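import Pool.Agent.Lib.H24N.GoodSat
import Pool.Agent.Lib.H24N.SatGood

/-!
# The instance is satisfiable iff there are good numbers
-/

set_option autoImplicit false

namespace Pool.Agent.H24N

theorem sat_iff {P : Til} (hP : P.Wf) : (instOf P).Sat ↔ ∃ x0 x1 x2, Good P x0 x1 x2 :=
  ⟨good_of_sat hP, fun ⟨_, _, _, h⟩ => sat_of_good hP h⟩

end Pool.Agent.H24N
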