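import Pool.Agent.Lib.H24N.Bits

/-!
# Segments of bits of a number
-/

set_option autoImplicit false

namespace Pool.Agent.H24N

/-- the bits `α ≤ i < α + l` of `v`, as a number -/
def seg (α l v : ℕ) : ℕ := v / 2 ^ α % 2 ^ l

theorem seg_testBit (α l v i : ℕ) : (seg α l v).testBit i = (decide (i < l) && v.testBit (α + i)) := by
  rw [seg, Nat.testBit_mod_two_pow, Nat.testBit_div_two_pow, Nat.add_comm]

theorem seg_eq_bitsNum (α l v : ℕ) : seg α l v = bitsNum l fun i => v.testBit (α + i) = true := by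
  rw [eq_bitsNum_iff (show seg α l v < 2 ^ l from Nat.mod_lt _ (by positivity))]
  intro i hi
  rw [seg_testBit]
  simp [hi]

/-- the binary increment: bit `i` changes iff all lower bits are `1` -/
theorem seg_succ (α l a b : ℕ) :
    seg α l b = (seg α l a + 1) % 2 ^ l ↔
      ∀ i, α ≤ i → i < α + l →
        (b.testBit i = true ↔ ¬ (a.testBit i = true ↔ ∀ j, α ≤ j → j < i → a.testBit j = true)) := by
  rw [seg_eq_bitsNum, seg_eq_bitsNum, bitsNum_succ_iff]
  have key : ∀ i, (∀ j < i, a.testBit (α + j) = true) ↔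
      (∀ j, α ≤ j → j < α + i → a.testBit j = true) := by
    intro i
    constructor
    · intro h j h1 h2
      obtain ⟨c, rfl⟩ := Nat.exists_eq_add_of_le h1
      exact h c (by omega)
    · intro h j hj
      exact h (α + j) (by omega) (by omega)
  constructor
  · intro h i h1 h2
    obtain ⟨c, rfl⟩ := Nat.exists_eq_add_of_le h1
    rw [h c (by omega), key]
  · intro h i hi
    rw [h (α + i) (by omega) (by omega), key]

theorem seg_eq_iff (α l a b : ℕ) :
    seg α l a = seg α l b ↔ ∀ i, α ≤ i → i < α + l → a.testBit i = b.testBit i := by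
  constructor
  · intro h i h1 h2
    obtain ⟨c, rfl⟩ := Nat.exists_eq_add_of_le h1
    have h3 := congrArg (fun v => Nat.testBit v c) h
    simp only [seg_testBit] at h3
    have h4 : c < l := by omega
    simpa [h4] using h3
  · intro h
    apply Nat.eq_of_testBit_eq
    intro i
    rw [seg_testBit, seg_testBit]
    by_cases hi : i < l
    · rw [h (α + i) (by omega) (by omega)]
    · simp [hi]

theorem seg_eq_zero_iff (α l a : ℕ) :
    seg α l a = 0 ↔ ∀ i, α ≤ i → i < α + l → a.testBit i = false := by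
  have h0 : seg α l 0 = 0 := by simp [seg]
  rw [← h0, seg_eq_iff]
  simp

theorem seg_eq_max_iff (α l a : ℕ) :
    seg α l a = 2 ^ l - 1 ↔ ∀ i, α ≤ i → i < α + l → a.testBit i = true := by
  rw [seg_eq_bitsNum, bitsNum_eq_max_iff]
  constructor
  · intro h i h1 h2
    obtain ⟨c, rfl⟩ := Nat.exists_eq_add_of_le h1
    exact h c (by omega)
  · intro h i hi
    exact h (α + i) (by omega) (by omega)

theorem seg_add (α l m a : ℕ) : seg α (l + m) a = seg α l a + 2 ^ l * seg (α + l) m a := by
  rw [seg, seg, seg, pow_add, pow_add, Nat.mod_mul, Nat.div_div_eq_div_mul]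

/-- comparison of two numbers, bit by bit from below -/
theorem mod_lt_iff (a b i : ℕ) :
    a % 2 ^ (i + 1) < b % 2 ^ (i + 1) ↔
      (b.testBit i = true ∧ a.testBit i = false) ∨
      (a.testBit i = b.testBit i ∧ a % 2 ^ i < b % 2 ^ i) := by
  rw [pow_succ, Nat.mod_mul, Nat.mod_mul, Nat.testBit_eq_decide_div_mod_eq,
    Nat.testBit_eq_decide_div_mod_eq]
  have ha := Nat.mod_lt a (show 0 < 2 ^ i by positivity)
  have hb := Nat.mod_lt b (show 0 < 2 ^ i by positivity)
  rcases Nat.mod_two_eq_zero_or_one (a / 2 ^ i) with h1 | h1 <;>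
  rcases Nat.mod_two_eq_zero_or_one (b / 2 ^ i) with h2 | h2 <;>
  rw [h1, h2] <;> simp <;> omega

end Pool.Agent.H24N
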