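import Pool.Agent.Lib.H24N.KB

/-!
# Semantics of the abbreviations

`I.c a j`, `I.r a j`: the concept and the role of kind `a` and index `j`;
`cv I k c x`: the value of the counter of kind `c` at `x`.
-/

set_option autoImplicit false
set_option linter.unusedSimpArgs false

namespace Pool.Agent.H24N

variable {Δ : Type}

/-- the concept of kind `a` and index `j` -/
def Interp.c (I : Interp Δ) (a j : ℕ) : Set Δ := I.con (64 * j + a)
/-- the role of kind `a` and index `j` -/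
def Interp.r (I : Interp Δ) (a j : ℕ) (x y : Δ) : Prop := I.rol (64 * j + a) x y

variable (I : Interp Δ) (x : Δ)

@[simp] theorem mem_cn (a j : ℕ) : x ∈ I.ext (cn a j) ↔ x ∈ I.c a j := Iff.rfl
@[simp] theorem mem_neg (C : Con) : x ∈ I.ext (.neg C) ↔ x ∉ I.ext C := Iff.rfl
@[simp] theorem mem_and (C E : Con) : x ∈ I.ext (.and C E) ↔ x ∈ I.ext C ∧ x ∈ I.ext E := Iff.rfl
@[simp] theorem mem_ex_ro (a j : ℕ) (C : Con) :
    x ∈ I.ext (.ex (ro a j) C) ↔ ∃ y, I.r a j x y ∧ y ∈ I.ext C := Iff.rfl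
@[simp] theorem mem_ex_ri (a j : ℕ) (C : Con) :
    x ∈ I.ext (.ex (ri a j) C) ↔ ∃ y, I.r a j y x ∧ y ∈ I.ext C := Iff.rfl
@[simp] theorem mem_le1_ro (a j : ℕ) :
    x ∈ I.ext (.le1 (ro a j)) ↔ ∀ y z, I.r a j x y → I.r a j x z → y = z := Iff.rfl
@[simp] theorem mem_le1_ri (a j : ℕ) :
    x ∈ I.ext (.le1 (ri a j)) ↔ ∀ y z, I.r a j y x → I.r a j z x → y = z := Iff.rfl

@[simp] theorem mem_cTop : x ∈ I.ext cTop := fun h => h.2 h.1

@[simp] theorem mem_cOr (C E : Con) : x ∈ I.ext (cOr C E) ↔ x ∈ I.ext C ∨ x ∈ I.ext E := by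
  simp only [cOr, mem_neg, mem_and]; tauto

@[simp] theorem mem_cIff (C E : Con) : x ∈ I.ext (cIff C E) ↔ (x ∈ I.ext C ↔ x ∈ I.ext E) := by
  simp only [cIff, mem_cOr, mem_neg, mem_and]; tauto

@[simp] theorem mem_cXor (C E : Con) : x ∈ I.ext (cXor C E) ↔ ¬ (x ∈ I.ext C ↔ x ∈ I.ext E) := by
  simp only [cXor, mem_neg, mem_cIff]

@[simp] theorem mem_cAll_ro (a j : ℕ) (C : Con) :
    x ∈ I.ext (cAll (ro a j) C) ↔ ∀ y, I.r a j x y → y ∈ I.ext C := by
  simp only [cAll, mem_neg, mem_ex_ro]; push Not; rfl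

@[simp] theorem mem_cAll_ri (a j : ℕ) (C : Con) :
    x ∈ I.ext (cAll (ri a j) C) ↔ ∀ y, I.r a j y x → y ∈ I.ext C := by
  simp only [cAll, mem_neg, mem_ex_ri]; push Not; rfl

@[simp] theorem mem_cConj (l : List Con) : x ∈ I.ext (cConj l) ↔ ∀ C ∈ l, x ∈ I.ext C := by
  induction l with
  | nil => simp [cConj]
  | cons C l ih =>
    have : cConj (C :: l) = .and C (cConj l) := rfl
    rw [this, mem_and, ih]; simp

@[simp] theorem mem_cDisj (l : List Con) : x ∈ I.ext (cDisj l) ↔ ∃ C ∈ l, x ∈ I.ext C := by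
  induction l with
  | nil => simp [cDisj]
  | cons C l ih =>
    have : cDisj (C :: l) = cOr C (cDisj l) := rfl
    rw [this, mem_cOr, ih]; simp

/-! ### Counters -/

/-- the value of the counter of kind `c` -/
noncomputable def cv (I : Interp Δ) (k c : ℕ) (x : Δ) : ℕ := bitsNum (k + 3) fun j => x ∈ I.c c j

theorem cv_lt (k c : ℕ) : cv I k c x < 2 ^ (k + 3) := bitsNum_lt _ _

theorem mem_zeroC (k c : ℕ) : x ∈ I.ext (zeroC k c) ↔ cv I k c x = 0 := by
  simp [zeroC, cv, bitsNum_eq_zero_iff]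

theorem mem_maxC (k c : ℕ) : x ∈ I.ext (maxC k c) ↔ cv I k c x = 2 ^ (k + 3) - 1 := by
  simp [maxC, cv, bitsNum_eq_max_iff]

theorem mem_eqC (k d : ℕ) (hd : d < 2 ^ (k + 3)) : x ∈ I.ext (eqC k d) ↔ cv I k 18 x = d := by
  rw [eq_comm (a := cv I k 18 x), cv, eq_bitsNum_iff hd]
  simp only [eqC, mem_cConj, List.mem_map, List.mem_range]
  constructor
  · intro h i hi
    have h1 := h _ ⟨i, hi, rfl⟩
    by_cases hb : d.testBit i = true
    · rw [if_pos hb] at h1
      exact ⟨fun _ => h1, fun _ => hb⟩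
    · rw [if_neg hb] at h1
      exact ⟨fun h => absurd h hb, fun h => absurd h h1⟩
  · rintro h C ⟨j, hj, rfl⟩
    by_cases hb : d.testBit j = true
    · rw [if_pos hb]
      exact (h j hj).1 hb
    · rw [if_neg hb]
      exact fun h1 => hb ((h j hj).2 h1)

theorem sem_mem_cAll (R : Rol) (C : Con) :
    x ∈ I.ext (cAll R C) ↔ ∀ y, I.role R x y → y ∈ I.ext C := by
  have h : x ∈ I.ext (.ex R (.neg C)) ↔ ∃ y, I.role R x y ∧ y ∉ I.ext C := Iff.rfl
  simp only [cAll, mem_neg, h]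
  push Not
  rfl

theorem sem_mem_onesC (c j : ℕ) : x ∈ I.ext (onesC c j) ↔ ∀ i < j, x ∈ I.c c i := by
  simp only [onesC, mem_cConj, List.mem_map, List.mem_range]
  constructor
  · intro h i hi
    exact h _ ⟨i, hi, rfl⟩
  · rintro h C ⟨i, hi, rfl⟩
    exact h i hi

theorem sem_mem_zerosC (c j : ℕ) : x ∈ I.ext (zerosC c j) ↔ ∀ i < j, x ∉ I.c c i := by
  simp only [zerosC, mem_cConj, List.mem_map, List.mem_range]
  constructor
  · intro h i hi
    exact h _ ⟨i, hi, rfl⟩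
  · rintro h C ⟨i, hi, rfl⟩
    exact h i hi

/-- the axioms for the increment of a counter along a role -/
theorem incAx_iff (k c : ℕ) (X : Con) (R : Rol) :
    (∀ p ∈ incAx k c X R, x ∈ I.ext p.1 → x ∈ I.ext p.2) ↔
      (x ∈ I.ext X → ∀ y, I.role R x y → y ∈ I.ext X → cv I k c y = (cv I k c x + 1) % 2 ^ (k + 3)) := by
  have h0 : ∀ y, (cv I k c y = (cv I k c x + 1) % 2 ^ (k + 3) ↔
      ∀ i < k + 3, (y ∈ I.c c i ↔ ¬ (x ∈ I.c c i ↔ ∀ j < i, x ∈ I.c c j))) :=
    fun y => bitsNum_succ_iff _ _ _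
  simp only [h0]
  simp only [incAx, List.mem_flatMap, List.mem_range, List.mem_cons, List.not_mem_nil, or_false]
  constructor
  · intro h hX y hR hy i hi
    have h1 := h _ ⟨i, hi, Or.inl rfl⟩
    have h2 := h _ ⟨i, hi, Or.inr rfl⟩
    simp only [mem_and, mem_cXor, mem_cn, sem_mem_onesC, sem_mem_cAll, mem_cOr, mem_neg,
      not_not] at h1 h2
    by_cases hc : (x ∈ I.c c i ↔ ∀ j < i, x ∈ I.c c j)
    · have h3 := h2 ⟨hX, hc⟩ y hR
      have h4 : y ∉ I.c c i := h3.resolve_left (fun h => h hy)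
      exact ⟨fun h => absurd h h4, fun h => absurd hc h⟩
    · have h3 := h1 ⟨hX, hc⟩ y hR
      have h4 : y ∈ I.c c i := h3.resolve_left (fun h => h hy)
      exact ⟨fun _ => hc, fun _ => h4⟩
  · rintro h p ⟨i, hi, rfl | rfl⟩
    · simp only [mem_and, mem_cXor, mem_cn, sem_mem_onesC, sem_mem_cAll, mem_cOr, mem_neg]
      rintro ⟨hX, hc⟩ y hR
      by_cases hy : y ∈ I.ext X
      · exact Or.inr ((h hX y hR hy i hi).2 hc)
      · exact Or.inl hy
    · simp only [mem_and, mem_cXor, mem_cn, sem_mem_onesC, sem_mem_cAll, mem_cOr, mem_neg,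
        not_not]
      rintro ⟨hX, hc⟩ y hR
      by_cases hy : y ∈ I.ext X
      · exact Or.inr (fun h1 => (h hX y hR hy i hi).1 h1 hc)
      · exact Or.inl hy

open Classical in
theorem sem_cv_split (k c : ℕ) : cv I k c x = bitsNum k (fun j => x ∈ I.c c j) +
    (if x ∈ I.c c k then 2 ^ k else 0) + (if x ∈ I.c c (k + 1) then 2 * 2 ^ k else 0) +
    (if x ∈ I.c c (k + 2) then 4 * 2 ^ k else 0) := by
  rw [cv, bitsNum_succ_range, bitsNum_succ_range, bitsNum_succ_range]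
  rw [show 2 ^ (k + 1) = 2 * 2 ^ k by ring, show 2 ^ (k + 2) = 4 * 2 ^ k by ring]

theorem mem_regC (k : ℕ) :
    x ∈ I.ext (regC k) ↔ 2 ^ k ≤ cv I k 18 x ∧ cv I k 18 x < 4 * 2 ^ k := by
  have hB := bitsNum_lt k (fun j => x ∈ I.c 18 j)
  simp only [regC, mem_and, mem_neg, mem_cOr, mem_cn]
  rw [sem_cv_split]
  by_cases h0 : x ∈ I.c 18 k <;> by_cases h1 : x ∈ I.c 18 (k + 1) <;>
    by_cases h2 : x ∈ I.c 18 (k + 2) <;> simp only [h0, h1, h2, if_true, if_false, not_true,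
      not_false_iff, true_and, false_and, or_true, true_or, or_false, false_or, iff_true,
      true_iff, false_iff] <;> omega

theorem mem_blkC (k : ℕ) :
    x ∈ I.ext (blkC k) ↔ 2 ^ k ≤ cv I k 18 x ∧ cv I k 18 x < 2 * 2 ^ k := by
  have hB := bitsNum_lt k (fun j => x ∈ I.c 18 j)
  simp only [blkC, mem_and, mem_neg, mem_cOr, mem_cn]
  rw [sem_cv_split]
  by_cases h0 : x ∈ I.c 18 k <;> by_cases h1 : x ∈ I.c 18 (k + 1) <;>
    by_cases h2 : x ∈ I.c 18 (k + 2) <;> simp only [h0, h1, h2, if_true, if_false, not_true,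
      not_false_iff, true_and, false_and, and_true, and_false, or_true, true_or, or_false,
      false_or, iff_true, true_iff, false_iff] <;> omega

theorem mem_spaC (k : ℕ) :
    x ∈ I.ext (spaC k) ↔ 2 * 2 ^ k ≤ cv I k 18 x ∧ cv I k 18 x < 4 * 2 ^ k := by
  have hB := bitsNum_lt k (fun j => x ∈ I.c 18 j)
  simp only [spaC, mem_and, mem_neg, mem_cOr, mem_cn]
  rw [sem_cv_split]
  by_cases h0 : x ∈ I.c 18 k <;> by_cases h1 : x ∈ I.c 18 (k + 1) <;>
    by_cases h2 : x ∈ I.c 18 (k + 2) <;> simp only [h0, h1, h2, if_true, if_false, not_true,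
      not_false_iff, true_and, false_and, and_true, and_false, or_true, true_or, or_false,
      false_or, iff_true, true_iff, false_iff] <;> omega

theorem mem_hiC (k : ℕ) : x ∈ I.c 18 (k + 2) ↔ 4 * 2 ^ k ≤ cv I k 18 x := by
  have hB := bitsNum_lt k (fun j => x ∈ I.c 18 j)
  rw [sem_cv_split]
  by_cases h0 : x ∈ I.c 18 k <;> by_cases h1 : x ∈ I.c 18 (k + 1) <;>
    by_cases h2 : x ∈ I.c 18 (k + 2) <;> simp only [h0, h1, h2, if_true, if_false, not_true,
      not_false_iff, true_and, false_and, and_true, and_false, or_true, true_or, or_false,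
      false_or, iff_true, true_iff, false_iff] <;> omega

theorem mem_startY (k : ℕ) :
    x ∈ I.ext (.and (blkC k) (zerosC 18 k)) ↔ cv I k 18 x = 2 ^ k := by
  have hB := bitsNum_lt k (fun j => x ∈ I.c 18 j)
  have hZ := bitsNum_eq_zero_iff k (fun j => x ∈ I.c 18 j)
  rw [mem_and, sem_mem_zerosC, ← hZ]
  simp only [blkC, mem_and, mem_neg, mem_cOr, mem_cn]
  rw [sem_cv_split]
  by_cases h0 : x ∈ I.c 18 k <;> by_cases h1 : x ∈ I.c 18 (k + 1) <;>
    by_cases h2 : x ∈ I.c 18 (k + 2) <;> simp only [h0, h1, h2, if_true, if_false, not_true,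
      not_false_iff, true_and, false_and, and_true, and_false, or_true, true_or, or_false,
      false_or, iff_true, true_iff, false_iff] <;> omega

theorem mem_startZ (k : ℕ) :
    x ∈ I.ext (.and (spaC k) (.and (.neg (cn 18 k)) (zerosC 18 k))) ↔ cv I k 18 x = 2 * 2 ^ k := by
  have hB := bitsNum_lt k (fun j => x ∈ I.c 18 j)
  have hZ := bitsNum_eq_zero_iff k (fun j => x ∈ I.c 18 j)
  rw [mem_and, mem_and, sem_mem_zerosC, ← hZ]
  simp only [spaC, mem_and, mem_neg, mem_cOr, mem_cn]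
  rw [sem_cv_split]
  by_cases h0 : x ∈ I.c 18 k <;> by_cases h1 : x ∈ I.c 18 (k + 1) <;>
    by_cases h2 : x ∈ I.c 18 (k + 2) <;> simp only [h0, h1, h2, if_true, if_false, not_true,
      not_false_iff, true_and, false_and, and_true, and_false, or_true, true_or, or_false,
      false_or, iff_true, true_iff, false_iff] <;> omega

end Pool.Agent.H24N
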