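import Pool.Agent.Lib.H24N.Struct

/-!
# The axioms of the register chain
-/

set_option autoImplicit false

namespace Pool.Agent.H24N

variable {Δ : Type}

theorem chainAt_iff (I : Interp Δ) (k : ℕ) (x : Δ) : AxAt I (chainAx k) x ↔ ChainAt I k x := by
  have hinc : AxAt I (incAx k 18 (cn 5 0) (ro 3 0)) x ↔ (x ∈ I.c 5 0 → ∀ y, I.r 3 0 x y →
      y ∈ I.c 5 0 → cv I k 18 y = (cv I k 18 x + 1) % 2 ^ (k + 3)) :=
    incAx_iff I x k 18 (cn 5 0) (ro 3 0)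
  rw [chainAx, axAt_append, hinc]
  simp only [axAt_cons, axAt_nil, and_true, mem_and, mem_neg, mem_cn, mem_zeroC, mem_maxC,
    mem_ex_ro, mem_ex_ri, mem_le1_ro, mem_cTop, true_imp_iff]
  constructor
  · rintro ⟨⟨h1, h2, h3, h4, h5⟩, h6⟩
    exact ⟨⟨h1, h2⟩, fun a b => h3 ⟨a, b⟩, fun a b => h4 ⟨a, b⟩, h5, h6⟩
  · rintro ⟨h1, h3, h4, h5, h6⟩
    exact ⟨⟨h1.1, h1.2, fun a => h3 a.1 a.2, fun a => h4 a.1 a.2, h5⟩, h6⟩

theorem ltAt_iff (I : Interp Δ) (k μ md rs : ℕ) (x : Δ) :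
    AxAt I (ltAx k μ md rs) x ↔ LtAt I k μ md rs x := by
  rw [ltAx]
  simp only [axAt_cons, axAt_nil, and_true, mem_and, mem_neg, mem_cn, mem_zeroC, mem_maxC,
    mem_ex_ri, mem_cOr, mem_cIff]
  constructor
  · rintro ⟨h1, h2⟩
    exact ⟨fun a b => h1 ⟨a, b⟩, fun a b => h2 ⟨a, b⟩⟩
  · rintro ⟨h1, h2⟩
    exact ⟨fun a => h1 a.1 a.2, fun a => h2 a.1 a.2⟩

end Pool.Agent.H24N
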