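import Pool.Agent.Lib.H24N.Sem

/-!
# The axioms, at one element
-/

set_option autoImplicit false

namespace Pool.Agent.H24N

variable {Δ : Type}

/-- all axioms of a list hold at `x` -/
def AxAt (I : Interp Δ) (l : List (Con × Con)) (x : Δ) : Prop :=
  ∀ p ∈ l, x ∈ I.ext p.1 → x ∈ I.ext p.2

theorem axAt_append (I : Interp Δ) (l l' : List (Con × Con)) (x : Δ) :
    AxAt I (l ++ l') x ↔ AxAt I l x ∧ AxAt I l' x := by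
  simp only [AxAt, List.mem_append, or_imp, forall_and]

theorem axAt_cons (I : Interp Δ) (p : Con × Con) (l : List (Con × Con)) (x : Δ) :
    AxAt I (p :: l) x ↔ (x ∈ I.ext p.1 → x ∈ I.ext p.2) ∧ AxAt I l x := by
  simp only [AxAt, List.mem_cons, forall_eq_or_imp]

theorem axAt_nil (I : Interp Δ) (x : Δ) : AxAt I [] x ↔ True := by
  simp [AxAt]

theorem axAt_flatMap {β : Type} (I : Interp Δ) (l : List β) (f : β → List (Con × Con)) (x : Δ) :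
    AxAt I (l.flatMap f) x ↔ ∀ b ∈ l, AxAt I (f b) x := by
  simp only [AxAt, List.mem_flatMap]
  exact ⟨fun h b hb p hp => h p ⟨b, hb, hp⟩, fun h p ⟨b, hb, hp⟩ => h b hb p hp⟩

/-- the register chain -/
structure ChainAt (I : Interp Δ) (k : ℕ) (x : Δ) : Prop where
  root : x ∈ I.c 1 0 ↔ x ∈ I.c 5 0 ∧ cv I k 18 x = 0
  succ : x ∈ I.c 5 0 → cv I k 18 x ≠ 2 ^ (k + 3) - 1 → ∃ y, I.r 3 0 x y ∧ y ∈ I.c 5 0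
  pred : x ∈ I.c 5 0 → cv I k 18 x ≠ 0 → ∃ y, I.r 3 0 y x ∧ y ∈ I.c 5 0
  fn : ∀ y z, I.r 3 0 x y → I.r 3 0 x z → y = z
  inc : x ∈ I.c 5 0 → ∀ y, I.r 3 0 x y → y ∈ I.c 5 0 →
    cv I k 18 y = (cv I k 18 x + 1) % 2 ^ (k + 3)

/-- the forest of module `μ`: the trees -/
structure TreeAt (I : Interp Δ) (k μ : ℕ) (x : Δ) : Prop where
  root : x ∈ I.c 1 0 ↔ x ∈ I.c 19 μ ∧ x ∈ I.c 20 μ ∧ cv I k (24 + μ) x = 0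
  left : x ∈ I.c 19 μ → cv I k (24 + μ) x ≠ 2 ^ (k + 3) - 1 → ∃ y, I.r 4 μ x y ∧ y ∈ I.c 19 μ
  right : x ∈ I.c 19 μ → cv I k (24 + μ) x ≠ 2 ^ (k + 3) - 1 → ∃ y, I.r 5 μ x y ∧ y ∈ I.c 19 μ
  par : x ∈ I.c 19 μ → cv I k (24 + μ) x ≠ 0 →
    (∃ y, I.r 4 μ y x ∧ y ∈ I.c 19 μ) ∨ ∃ y, I.r 5 μ y x ∧ y ∈ I.c 19 μ
  l1 : ∀ y z, I.r 4 μ x y → I.r 4 μ x z → y = z
  l2 : ∀ y z, I.r 4 μ y x → I.r 4 μ z x → y = z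
  r1 : ∀ y z, I.r 5 μ x y → I.r 5 μ x z → y = z
  r2 : ∀ y z, I.r 5 μ y x → I.r 5 μ z x → y = z
  lr : ∀ y z, I.r 4 μ y x → y ∈ I.c 19 μ → I.r 5 μ z x → z ∉ I.c 19 μ
  spL : x ∈ I.c 19 μ → ∀ y, I.r 4 μ x y → y ∈ I.c 19 μ → (y ∈ I.c 20 μ ↔ x ∈ I.c 20 μ)
  spR : x ∈ I.c 19 μ → ∀ y, I.r 5 μ x y → y ∈ I.c 19 μ → (y ∈ I.c 20 μ ↔ x ∈ I.c 20 μ)
  incL : x ∈ I.c 19 μ → ∀ y, I.r 4 μ x y → y ∈ I.c 19 μ →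
    cv I k (24 + μ) y = (cv I k (24 + μ) x + 1) % 2 ^ (k + 3)
  incR : x ∈ I.c 19 μ → ∀ y, I.r 5 μ x y → y ∈ I.c 19 μ →
    cv I k (24 + μ) y = (cv I k (24 + μ) x + 1) % 2 ^ (k + 3)

/-- the forest of module `μ`: the selected nodes (modulus of kind `md`, remainder of kind `rs`) and
the matching with the fixed set `fx` -/
structure SelAt (I : Interp Δ) (k μ md rs fx : ℕ) (x : Δ) : Prop where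
  reg : x ∈ I.c 19 μ → ∃ y, I.r 7 μ x y ∧ y ∈ I.c 5 0
  regc : x ∈ I.c 19 μ → ∀ y, I.r 7 μ x y → y ∈ I.c 5 0 → cv I k 18 y = cv I k (24 + μ) x
  selF : x ∈ I.c 21 μ → x ∈ I.c 19 μ
  sel : x ∈ I.c 19 μ → (x ∈ I.c 21 μ ↔
    (x ∈ I.c 20 μ ∧ ∃ y, I.r 7 μ x y ∧ y ∈ I.c 5 0 ∧ y ∈ I.c rs 0) ∨
    (x ∉ I.c 20 μ ∧ ∃ y, I.r 7 μ x y ∧ y ∈ I.c 5 0 ∧ y ∈ I.c md 0))
  m1 : x ∈ I.c 21 μ → ∃ y, I.r 6 μ x y ∧ y ∈ I.c 15 fx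
  m2 : x ∈ I.c 15 fx → ∃ y, I.r 6 μ y x ∧ y ∈ I.c 21 μ
  f1 : ∀ y z, I.r 6 μ x y → I.r 6 μ x z → y = z
  f2 : ∀ y z, I.r 6 μ y x → I.r 6 μ z x → y = z

/-- the forest of a module -/
structure ForestAt (I : Interp Δ) (k μ md rs fx : ℕ) (x : Δ) : Prop extends
  TreeAt I k μ x, SelAt I k μ md rs fx x

/-- comparison of the remainder with the modulus -/
structure LtAt (I : Interp Δ) (k μ md rs : ℕ) (x : Δ) : Prop where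
  step : x ∈ I.c 5 0 → x ∈ I.c 22 μ → (x ∈ I.c md 0 ∧ x ∉ I.c rs 0) ∨
    ((x ∈ I.c md 0 ↔ x ∈ I.c rs 0) ∧ cv I k 18 x ≠ 0 ∧
      ∃ y, I.r 3 0 y x ∧ y ∈ I.c 5 0 ∧ y ∈ I.c 22 μ)
  top : x ∈ I.c 5 0 → cv I k 18 x = 2 ^ (k + 3) - 1 → x ∈ I.c 22 μ

/-- bounds, the remainder zero, carries -/
structure MiscAt (I : Interp Δ) (k : ℕ) (x : Δ) : Prop where
  bS : x ∈ I.c 1 0 → ∃ y, I.r 1 0 x y ∧ y ∈ I.c 5 0 ∧ 4 * 2 ^ k ≤ cv I k 18 y ∧ y ∈ I.c 8 0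
  bT : x ∈ I.c 1 0 → ∃ y, I.r 1 0 x y ∧ y ∈ I.c 5 0 ∧ 4 * 2 ^ k ≤ cv I k 18 y ∧ y ∈ I.c 9 0
  z : x ∈ I.c 5 0 → x ∉ I.c 14 0
  cy0 : x ∈ I.c 5 0 → cv I k 18 x = 2 ^ k → x ∈ I.c 6 0
  cy : x ∈ I.c 5 0 → 2 ^ k < cv I k 18 x → cv I k 18 x < 4 * 2 ^ k →
    (x ∈ I.c 6 0 ↔ ∃ y, I.r 3 0 y x ∧ y ∈ I.c 5 0 ∧ y ∈ I.c 6 0 ∧ y ∈ I.c 10 0)
  cz0 : x ∈ I.c 5 0 → cv I k 18 x = 2 * 2 ^ k → x ∈ I.c 7 0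
  cz : x ∈ I.c 5 0 → 2 * 2 ^ k < cv I k 18 x → cv I k 18 x < 4 * 2 ^ k →
    (x ∈ I.c 7 0 ↔ ∃ y, I.r 3 0 y x ∧ y ∈ I.c 5 0 ∧ y ∈ I.c 7 0 ∧ y ∈ I.c 10 0)

/-- flags and guesses of the tiles -/
structure FlagAt (I : Interp Δ) (k n : ℕ) (x : Δ) : Prop where
  f0 : x ∈ I.c 5 0 → x ∈ I.c 29 0 → 2 ^ k ≤ cv I k 18 x → cv I k 18 x < 4 * 2 ^ k → x ∉ I.c 10 0
  f1 : x ∈ I.c 5 0 → x ∈ I.c 29 1 → 2 ^ k ≤ cv I k 18 x → cv I k 18 x < 2 * 2 ^ k → x ∈ I.c 10 0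
  f2 : x ∈ I.c 5 0 → x ∈ I.c 29 2 → cv I k 18 x < n → x ∉ I.c 10 0
  f3 : x ∈ I.c 5 0 → x ∈ I.c 29 3 → 4 * 2 ^ k ≤ cv I k 18 x → x ∉ I.c 11 0
  f4 : x ∈ I.c 5 0 → x ∈ I.c 29 4 → (x ∈ I.c 9 0 ↔ x ∈ I.c 11 0)
  f5 : x ∈ I.c 5 0 → x ∈ I.c 29 5 → x ∉ I.c 12 0
  f6 : x ∈ I.c 5 0 → x ∈ I.c 29 6 → 2 ^ k ≤ cv I k 18 x → cv I k 18 x < 4 * 2 ^ k →
    (x ∈ I.c 13 0 ↔ ¬ (x ∈ I.c 10 0 ↔ x ∈ I.c 6 0))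
  f7a : x ∈ I.c 5 0 → x ∈ I.c 29 7 → 2 ^ k ≤ cv I k 18 x → cv I k 18 x < 2 * 2 ^ k →
    (x ∈ I.c 13 0 ↔ x ∈ I.c 10 0)
  f7b : x ∈ I.c 5 0 → x ∈ I.c 29 7 → 2 * 2 ^ k ≤ cv I k 18 x → cv I k 18 x < 4 * 2 ^ k →
    (x ∈ I.c 13 0 ↔ ¬ (x ∈ I.c 10 0 ↔ x ∈ I.c 7 0))
  td : x ∈ I.c 5 0 → cv I k 18 x < n → x ∈ I.c 30 (cv I k 18 x) → x ∈ I.c 10 0
  te : x ∈ I.c 5 0 → cv I k 18 x < n → x ∈ I.c 31 (cv I k 18 x) → x ∈ I.c 13 0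

/-- everything that is required in `Act` -/
structure ActAt (I : Interp Δ) (k n : ℕ) (x : Δ) : Prop where
  chain : ChainAt I k x
  forest : ∀ p ∈ modules, ForestAt I k p.1 p.2.1 p.2.2.1 p.2.2.2 x
  lt : ∀ p ∈ modules, LtAt I k p.1 p.2.1 p.2.2.1 x
  misc : MiscAt I k x
  flag : FlagAt I k n x

/-- infinite chains -/
structure InfAt (I : Interp Δ) (x : Δ) : Prop where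
  step : ∀ a < 4, x ∈ I.c 16 a → ∃ y, I.r 2 a x y ∧ y ∈ I.c 16 a ∧ y ∉ I.c 17 a
  inj : ∀ a < 4, ∀ y z, I.r 2 a y x → I.r 2 a z x → y = z
  fst : ∀ a < 4, x ∈ I.c 17 a → ∀ y, ¬ I.r 2 a y x
  sub : ∀ a < 3, x ∈ I.c 16 a → x ∈ I.c 15 a

/-- propagation of the global names -/
structure GlobAt (I : Interp Δ) (n : ℕ) (x : Δ) : Prop where
  g : ∃ y, I.r 0 0 x y ∧ y ∈ I.c 1 0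
  act : x ∈ I.c 1 0 → x ∈ I.c 3 0 → ∀ y, I.r 0 0 y x → y ∈ I.c 3 0
  fl : ∀ i < 8, x ∈ I.c 1 0 → x ∈ I.c 29 i → ∀ y, I.r 0 0 y x → y ∈ I.c 29 i
  td : ∀ d < n, x ∈ I.c 1 0 → x ∈ I.c 30 d → ∀ y, I.r 0 0 y x → y ∈ I.c 30 d
  te : ∀ d < n, x ∈ I.c 1 0 → x ∈ I.c 31 d → ∀ y, I.r 0 0 y x → y ∈ I.c 31 d

/-- the violations -/
def ViolAt (I : Interp Δ) (P : Til) (x : Δ) : Prop :=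
  (∃ d ∈ P.badI, x ∈ I.c 29 0 ∧ x ∈ I.c 30 d) ∨
  (∃ d ∈ P.badF, x ∈ I.c 29 1 ∧ x ∈ I.c 30 d) ∨
  x ∈ I.c 29 2 ∨
  ((∃ y, I.r 1 0 x y ∧ y ∈ I.c 5 0 ∧ (2 ^ P.k ≤ cv I P.k 18 y ∧ cv I P.k 18 y < 4 * 2 ^ P.k) ∧
      y ∉ I.c 10 0) ∧
    (x ∈ I.c 29 3 ∨ (x ∈ I.c 29 4 ∧
      ((∃ y, I.r 1 0 x y ∧ y ∈ I.c 5 0 ∧ y ∈ I.c 12 0) ∨
       (∃ y, I.r 1 0 x y ∧ y ∈ I.c 5 0 ∧ (2 ^ P.k ≤ cv I P.k 18 y ∧ cv I P.k 18 y < 4 * 2 ^ P.k) ∧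
          ¬ (y ∈ I.c 13 0 ↔ ¬ (y ∈ I.c 10 0 ↔ y ∈ I.c 6 0))))))) ∨
  (∃ p ∈ P.badV, x ∈ I.c 29 5 ∧ x ∈ I.c 29 6 ∧
    (∃ y, I.r 1 0 x y ∧ y ∈ I.c 5 0 ∧ (2 ^ P.k ≤ cv I P.k 18 y ∧ cv I P.k 18 y < 2 * 2 ^ P.k) ∧
      y ∉ I.c 10 0) ∧ x ∈ I.c 30 p.1 ∧ x ∈ I.c 31 p.2) ∨
  (∃ p ∈ P.badH, x ∈ I.c 29 5 ∧ x ∈ I.c 29 7 ∧
    (∃ y, I.r 1 0 x y ∧ y ∈ I.c 5 0 ∧ (2 * 2 ^ P.k ≤ cv I P.k 18 y ∧ cv I P.k 18 y < 4 * 2 ^ P.k) ∧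
      y ∉ I.c 10 0) ∧ x ∈ I.c 30 p.1 ∧ x ∈ I.c 31 p.2)

/-- the alternatives -/
def TopAt (I : Interp Δ) (P : Til) (x : Δ) : Prop :=
  (x ∈ I.c 0 0 ∧ x ∈ I.c 3 0 ∧ (∃ y, I.r 1 0 x y ∧ y ∈ I.c 16 3 ∧ y ∈ I.c 17 3) ∧ x ∈ I.c 29 0) ∨
  ((∃ y, I.r 1 0 x y ∧ y ∈ I.c 1 0 ∧ y ∈ I.c 4 0) ∧ ∃ y, I.r 1 0 x y ∧ y ∈ I.c 1 0 ∧ y ∉ I.c 4 0) ∨
  (∃ a < 3, ∃ y, I.r 1 0 x y ∧ y ∈ I.c 16 a ∧ y ∈ I.c 17 a) ∨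
  (x ∈ I.c 3 0 ∧ ViolAt I P x)

/-- models of the knowledge base -/
structure IsModel (I : Interp Δ) (P : Til) : Prop where
  glob : ∀ x, GlobAt I P.n x
  inf : ∀ x, InfAt I x
  top : ∀ x, x ∈ I.c 2 0 → TopAt I P x
  act : ∀ x, x ∈ I.c 3 0 → ActAt I P.k P.n x
  indN : I.ind 0 ∈ I.c 1 0
  indT : I.ind 0 ∈ I.c 2 0

end Pool.Agent.H24N
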