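import Pool.Agent.Lib.PSpace.Rule
import Pool.Agent.Lib.H24N.Defs

/-!
# Machines as local rules whose acceptance is truthful at any time
-/

set_option autoImplicit false

namespace Pool.Agent.H24N

open Pool.Agent.PolyTime Pool.Agent.Lib.CookLevin Turing

open Classical in
/-- as `exists_tab`, but a symbol is accepting only if the machine has halted -/
theorem exists_tabH (R : Word × Word → Bool)
    (h : TM2ComputableInPolyTime pairEnc Computability.encodeBool R) :
    ∃ M : Tab, M.Ok ∧
      (∀ (x y : Word) (t : ℕ), M.acc ((M.next^[t] (M.initRow x y)) 0) = true → R (x, y) = true) ∧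
      ∀ (x y : Word) (t : ℕ), h.time.eval (x.length + 1 + y.length) ≤ t → R (x, y) = true →
        M.acc ((M.next^[t] (M.initRow x y)) 0) = true := by
  let tm := h.tm
  have : Fintype tm.K := tm.kFin
  have : Fintype tm.Λ := tm.ΛFin
  have : Fintype tm.σ := tm.σFin
  have : Fintype (tm.Γ tm.k₀) := tm.Γk₀Fin
  let Sy : Set (Σ k, tm.Γ k) :=
    Set.range (fun a : tm.Γ tm.k₀ => (⟨tm.k₀, a⟩ : Σ k, tm.Γ k)) ∪ ⋃ l, pushes (tm.m l)
  have hSy : Sy.Finite := (Set.finite_range _).union (Set.finite_iUnion fun l => pushes_finite _)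
  have hpush : ∀ l, pushes (tm.m l) ⊆ Sy :=
    fun l x hx => Or.inr (Set.mem_iUnion.2 ⟨l, hx⟩)
  let c : ℕ := Finset.univ.sup fun l => depth (tm.m l)
  have hc : ∀ l, depth (tm.m l) ≤ c := fun l =>
    Finset.le_sup (f := fun l => depth (tm.m l)) (Finset.mem_univ l)
  let GA : Set (Option tm.Λ × tm.σ × (∀ k, Option (tm.Γ k))) := goodCell Sy
  have hGA : GA.Finite := goodCell_finite hSy
  have : Finite GA := hGA.to_subtype
  obtain ⟨N, ⟨e⟩⟩ := Finite.exists_equiv_fin GA
  let code : Option tm.Λ × tm.σ × (∀ k, Option (tm.Γ k)) → ℕ :=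
    fun a => if ha : a ∈ GA then (e ⟨a, ha⟩ : ℕ) else 0
  have code_lt : ∀ a, a ∈ GA → code a < N := by
    intro a ha
    simp only [code, dif_pos ha]
    exact (e ⟨a, ha⟩).2
  have code_inj : ∀ a b, a ∈ GA → b ∈ GA → code a = code b → a = b := by
    intro a b ha hb hab
    simp only [code, dif_pos ha, dif_pos hb] at hab
    exact congrArg Subtype.val (e.injective (Fin.ext hab))
  have cell_good : ∀ o, cell0 tm o ∈ GA := by
    intro o k a ha
    by_cases hk : k = tm.k₀
    · subst hk
      exact Or.inl ⟨a, rfl⟩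
    · simp only [cell0] at ha
      rw [Function.update_of_ne hk] at ha
      simp at ha
  have cell_inj : ∀ o o', cell0 tm o = cell0 tm o' → o = o' := by
    intro o o' h
    have := congrFun (congrArg (fun x => x.2.2) h) tm.k₀
    simpa [cell0] using this
  let δ : ℕ → List ℕ → ℕ := fun m w =>
    if hh : ∃ p : TM2.Cfg tm.Γ tm.Λ tm.σ × ℕ, Good Sy p.1.stk ∧ min p.2 c = m ∧
      (posL c p.2).map (fun i => code (rowOf p.1 i)) = w
    then code (rowOf (stepT tm.m hh.choose.1) hh.choose.2) else 0
  let acc : ℕ → Bool := fun a =>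
    decide (∃ z ∈ GA, code z = a ∧ z.1 = none ∧ z.2.2 tm.k₁ = some (h.outputAlphabet.invFun true))
  let M : Tab := ⟨N, c, δ, fun b => code (cell0 tm (some (h.inputAlphabet.invFun (some b)))),
    code (cell0 tm (some (h.inputAlphabet.invFun none))), code (cell0 tm none), acc⟩
  have hN : 0 < N := lt_of_le_of_lt (Nat.zero_le _) (code_lt _ (cell_good none))
  have hOk : M.Ok := by
    refine ⟨?_, fun b => code_lt _ (cell_good _), code_lt _ (cell_good _),
      code_lt _ (cell_good _), fun b hb => ?_, fun hb => ?_⟩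
    · intro m w _ _
      show δ m w < N
      simp only [δ]
      split
      · rename_i hh
        exact code_lt _ (rowOf_good (stepT_good tm.m hpush _ hh.choose_spec.1) _)
      · exact hN
    · have := cell_inj _ _ (code_inj _ _ (cell_good _) (cell_good _) hb)
      simp at this
    · have := cell_inj _ _ (code_inj _ _ (cell_good _) (cell_good _) hb)
      simp at this
  have hnext : ∀ cfg : TM2.Cfg tm.Γ tm.Λ tm.σ, Good Sy cfg.stk →
      M.next (fun i => code (rowOf cfg i)) = fun i => code (rowOf (stepT tm.m cfg) i) := by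
    intro cfg hcfg
    funext i
    show δ (min i c) ((posL c i).map fun i => code (rowOf cfg i)) = _
    have hh : ∃ p : TM2.Cfg tm.Γ tm.Λ tm.σ × ℕ, Good Sy p.1.stk ∧ min p.2 c = min i c ∧
      (posL c p.2).map (fun i => code (rowOf p.1 i)) =
        (posL c i).map fun i => code (rowOf cfg i) := ⟨(cfg, i), hcfg, rfl, rfl⟩
    simp only [δ]
    rw [dif_pos hh]
    obtain ⟨h1, h2, h3⟩ := hh.choose_spec
    congr 1
    refine row_local tm.m hc h2 ?_
    have hlen : (posL c hh.choose.2).length = (posL c i).length := by simp [posL]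
    refine List.ext_getElem (by simpa using hlen) ?_
    intro j hj hj'
    rw [List.getElem_map, List.getElem_map]
    refine code_inj _ _ (rowOf_good h1 _) (rowOf_good hcfg _) ?_
    have h4 : ((posL c hh.choose.2).map (fun i => code (rowOf hh.choose.1 i)))[j]? =
        ((posL c i).map fun i => code (rowOf cfg i))[j]? := by rw [h3]
    rw [List.length_map] at hj hj'
    rw [List.getElem?_map, List.getElem?_map, List.getElem?_eq_getElem hj,
      List.getElem?_eq_getElem hj'] at h4
    simpa using h4
  have hiter : ∀ (t : ℕ) (cfg : TM2.Cfg tm.Γ tm.Λ tm.σ), Good Sy cfg.stk →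
      M.next^[t] (fun i => code (rowOf cfg i)) =
        (fun i => code (rowOf ((stepT tm.m)^[t] cfg) i)) ∧
      Good Sy ((stepT tm.m)^[t] cfg).stk := by
    intro t
    induction t with
    | zero => intro cfg hcfg; exact ⟨rfl, hcfg⟩
    | succ t ih =>
      intro cfg hcfg
      rw [Function.iterate_succ_apply, Function.iterate_succ_apply, hnext cfg hcfg]
      exact ih _ (stepT_good tm.m hpush cfg hcfg)
  -- the configurations of the run on `(x, y)`
  have hrow : ∀ (x y : Word) (t : ℕ), ∃ cfg : TM2.Cfg tm.Γ tm.Λ tm.σ,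
      M.next^[t] (M.initRow x y) = (fun i => code (rowOf cfg i)) ∧ Good Sy cfg.stk ∧
      (cfg.l = none → (rowOf cfg 0).2.2 tm.k₁ = some (h.outputAlphabet.invFun (R (x, y)))) ∧
      (h.time.eval (x.length + 1 + y.length) ≤ t → cfg.l = none) := by
    intro x y t
    let s : List (tm.Γ tm.k₀) := (pairEnc (x, y)).map h.inputAlphabet.invFun
    let cfg : TM2.Cfg tm.Γ tm.Λ tm.σ := initList tm s
    have hgood : Good Sy cfg.stk := by
      intro k a ha
      by_cases hk : k = tm.k₀
      · subst hk
        exact Or.inl ⟨a, rfl⟩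
      · have h5 : cfg.stk k = [] := by
          show (initList tm s : TM2.Cfg tm.Γ tm.Λ tm.σ).stk k = []
          unfold initList
          simp only
          rw [dif_neg hk]
        rw [h5] at ha
        simp at ha
    have hinit : M.initRow x y = fun i => code (rowOf cfg i) := by
      funext i
      show _ = code (rowOf (initList tm s : TM2.Cfg tm.Γ tm.Λ tm.σ) i)
      rw [rowOf_initList]
      have h6 : (x.map M.sym ++ M.sep :: y.map M.sym) =
          (pairEnc (x, y)).map fun o => code (cell0 tm (some (h.inputAlphabet.invFun o))) := by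
        simp only [pairEnc, List.map_append, List.map_cons, List.map_map]
        rfl
      rw [Tab.initRow, h6, List.getD_eq_getElem?_getD, List.getElem?_map]
      simp only [s]
      rw [List.getElem?_map]
      rcases (pairEnc (x, y))[i]? with _ | o <;> rfl
    obtain ⟨h7, h8⟩ := hiter t cfg hgood
    let out : List (tm.Γ tm.k₁) :=
      (Computability.encodeBool (R (x, y))).map h.outputAlphabet.invFun
    have o := h.outputsFun (x, y)
    have hrun : (stepT tm.m)^[o.steps] cfg = (haltList tm out : TM2.Cfg tm.Γ tm.Λ tm.σ) := by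
      have h9 := o.evals_in_steps
      exact iterate_getD _ _ _ _ h9
    have hhalt' : ∀ (n : ℕ) (v : tm.σ) (S : ∀ k, List (tm.Γ k)),
        (stepT tm.m)^[n] ⟨none, v, S⟩ = ⟨none, v, S⟩ := by
      intro n v S
      induction n with
      | zero => rfl
      | succ n ih => rw [Function.iterate_succ_apply]; exact ih
    have hhalt : ∀ n, (stepT tm.m)^[n] (haltList tm out : TM2.Cfg tm.Γ tm.Λ tm.σ) =
        (haltList tm out : TM2.Cfg tm.Γ tm.Λ tm.σ) := fun n => hhalt' n _ _
    have hfin : o.steps ≤ t →
        (stepT tm.m)^[t] cfg = (haltList tm out : TM2.Cfg tm.Γ tm.Λ tm.σ) := by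
      intro hsteps
      obtain ⟨d, rfl⟩ := Nat.exists_eq_add_of_le hsteps
      rw [Nat.add_comm, Function.iterate_add_apply, hrun, hhalt]
    have hfin2 : ((stepT tm.m)^[t] cfg).l = none →
        (stepT tm.m)^[t] cfg = (haltList tm out : TM2.Cfg tm.Γ tm.Λ tm.σ) := by
      intro hl
      have h10 : (stepT tm.m)^[o.steps + t] cfg =
          (haltList tm out : TM2.Cfg tm.Γ tm.Λ tm.σ) := by
        rw [Nat.add_comm, Function.iterate_add_apply, hrun, hhalt]
      rw [← h10, Function.iterate_add_apply]
      have key : ∀ c' : TM2.Cfg tm.Γ tm.Λ tm.σ, c'.l = none → c' = (stepT tm.m)^[o.steps] c' := by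
        rintro ⟨l, v, S⟩ hl'
        have hl'' : l = none := hl'
        subst hl''
        exact (hhalt' _ _ _).symm
      exact key _ hl
    refine ⟨(stepT tm.m)^[t] cfg, ?_, h8, ?_, ?_⟩
    · rw [hinit, h7]
    · intro hl
      show (((stepT tm.m)^[t] cfg).stk tm.k₁)[0]? = _
      rw [hfin2 hl, stk_haltList]
      rfl
    · intro ht
      have hsteps : o.steps ≤ t := by
        refine o.steps_le_m.trans (le_trans (eval_mono _ ?_) ht)
        simp [pairEnc]; omega
      rw [hfin hsteps]
      rfl
  refine ⟨M, hOk, ?_, ?_⟩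
  · intro x y t hacc
    obtain ⟨cfg, h1, h2, h3, _⟩ := hrow x y t
    rw [h1] at hacc
    have hacc' : acc (code (rowOf cfg 0)) = true := hacc
    simp only [acc, decide_eq_true_eq] at hacc'
    obtain ⟨z, hz, hz', hz1, hz''⟩ := hacc'
    have := code_inj _ _ hz (rowOf_good h2 0) hz'
    subst this
    have hl : cfg.l = none := hz1
    rw [h3 hl, Option.some_inj] at hz''
    exact h.outputAlphabet.symm.injective hz''
  · intro x y t ht hR
    obtain ⟨cfg, h1, h2, h3, h4⟩ := hrow x y t
    rw [h1]
    show acc (code (rowOf cfg 0)) = true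
    simp only [acc, decide_eq_true_eq]
    exact ⟨_, rowOf_good h2 0, rfl, h4 ht, by rw [h3 (h4 ht), hR]⟩

end Pool.Agent.H24N
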