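import Pool.Agent.Lib.H24N.TilList
import Pool.Agent.Lib.CookLevin.TableauPT

/-!
# The tiling instance of a local rule and a word

A tile `(ph, m, w)`: `m` is the column (at most `c + 1`), `w` the window of the column, and `ph` the
phase: in the first row, `ph < |x|` in the column `ph`, `ph = |x|` at the separator, `|x| + 1` in
the certificate, `|x| + 2` for blanks; `|x| + 3` in all other rows.
-/

set_option autoImplicit false

namespace Pool.Agent.H24N

open Pool.Agent.PolyTime Pool.Agent.Lib.CookLevin

/-- phase, column, window -/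
abbrev Cell : Type := ℕ × ℕ × List ℕ

variable (M : Tab)

/-- the symbol in the center of a window -/
def cen (t : Cell) : ℕ := t.2.2.getD (2 * M.c) 0

/-- in the first column, the window is consistent -/
def okZero (t : Cell) : Bool :=
  !decide (t.2.1 = 0) || (decide (t.2.2.take M.c = (t.2.2.drop (2 * M.c)).take M.c) &&
    decide (((t.2.2.drop M.c).take (M.c + 1)) = List.replicate (M.c + 1) (cen M t)))

/-- the symbol fits the phase -/
def okPh (x : List Bool) (t : Cell) : Bool :=
  (decide (t.1 < x.length) && decide (cen M t = M.sym (x.getD t.1 false))) ||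
  (decide (t.1 = x.length) && decide (cen M t = M.sep)) ||
  (decide (t.1 = x.length + 1) && (decide (cen M t = M.sym false) || decide (cen M t = M.sym true))) ||
  (decide (t.1 = x.length + 2) && decide (cen M t = M.blank)) ||
  decide (t.1 = x.length + 3)

/-- the tiles -/
def cellsOf (x : List Bool) : List Cell :=
  ((List.range (x.length + 4)).flatMap fun ph => (List.range (M.c + 2)).flatMap fun m =>
    (words M.K (3 * M.c + 1)).map fun w => (ph, m, w)).filter fun t => okZero M t && okPh M x t

/-- the origin -/
def okI (t : Cell) : Bool := decide (t.1 = 0) && decide (t.2.1 = 0)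

/-- the last row -/
def okF (t : Cell) : Bool := !decide (t.2.1 = 0) || M.acc (cen M t)

/-- consecutive rows -/
def okV (x : List Bool) (t t' : Cell) : Bool :=
  decide (t'.1 = x.length + 3) && decide (t'.2.1 = t.2.1) &&
    decide (cen M t' = M.δ (min t.2.1 M.c) t.2.2)

/-- consecutive columns -/
def okH (x : List Bool) (t t' : Cell) : Bool :=
  (decide (t.1 < x.length ∧ t'.1 = t.1 + 1) ||
    decide (t.1 = x.length ∧ (t'.1 = x.length + 1 ∨ t'.1 = x.length + 2)) ||
    decide (t.1 = x.length + 1 ∧ (t'.1 = x.length + 1 ∨ t'.1 = x.length + 2)) ||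
    decide (t.1 = x.length + 2 ∧ t'.1 = x.length + 2) ||
    decide (t.1 = x.length + 3 ∧ t'.1 = x.length + 3)) &&
  decide (t'.2.1 = min (t.2.1 + 1) (M.c + 1)) && decide (t'.2.2.take M.c = t.2.2.take M.c) &&
  decide ((t'.2.2.drop M.c).take (2 * M.c) = t.2.2.drop (M.c + 1))

/-- the tiling instance -/
def tabTil (x : List Bool) (k : ℕ) : Til :=
  tilOfList k (cellsOf M x) okI (okF M) (okV M x) (okH M x)

theorem tt_length_words (K n : ℕ) : (words K n).length = K ^ n := by
  induction n with
  | zero => rfl
  | succ n ih =>
    have h : ∀ L : List ℕ, (L.flatMap fun a => (words K n).map fun w => a :: w).length =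
        L.length * K ^ n := by
      intro L
      induction L with
      | nil => simp
      | cons a L ihL =>
        rw [List.flatMap_cons, List.length_append, ihL, List.length_map, ih, List.length_cons]
        ring
    rw [words, h, List.length_range, pow_succ]
    ring

theorem mem_cellsOf {M : Tab} {x : List Bool} {t : Cell} : t ∈ cellsOf M x ↔
    t.1 < x.length + 4 ∧ t.2.1 < M.c + 2 ∧ t.2.2.length = 3 * M.c + 1 ∧ (∀ a ∈ t.2.2, a < M.K) ∧
      okZero M t = true ∧ okPh M x t = true := by
  obtain ⟨ph, m, w⟩ := t
  simp only [cellsOf, List.mem_filter, List.mem_flatMap, List.mem_range, List.mem_map, mem_words,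
    Bool.and_eq_true]
  constructor
  · rintro ⟨⟨ph', h1, m', h2, w', ⟨h3, h4⟩, h5⟩, h6, h7⟩
    simp only [Prod.mk.injEq] at h5
    obtain ⟨rfl, rfl, rfl⟩ := h5
    exact ⟨h1, h2, h3, h4, h6, h7⟩
  · rintro ⟨h1, h2, h3, h4, h6, h7⟩
    exact ⟨⟨ph, h1, m, h2, w, ⟨h3, h4⟩, rfl⟩, h6, h7⟩

theorem length_cellsOf (x : List Bool) :
    (cellsOf M x).length ≤ (x.length + 4) * ((M.c + 2) * M.K ^ (3 * M.c + 1)) := by
  rw [cellsOf]
  refine le_trans (List.length_filter_le _ _) ?_
  have h2 : ∀ (ph : ℕ) (L : List ℕ), (L.flatMap fun m =>
      (words M.K (3 * M.c + 1)).map fun w => ((ph, m, w) : Cell)).length =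
      L.length * M.K ^ (3 * M.c + 1) := by
    intro ph L
    induction L with
    | nil => simp
    | cons a L ihL =>
      rw [List.flatMap_cons, List.length_append, ihL, List.length_map, tt_length_words,
        List.length_cons]
      ring
  have h1 : ∀ L : List ℕ, (L.flatMap fun ph => (List.range (M.c + 2)).flatMap fun m =>
      (words M.K (3 * M.c + 1)).map fun w => ((ph, m, w) : Cell)).length =
      L.length * ((M.c + 2) * M.K ^ (3 * M.c + 1)) := by
    intro L
    induction L with
    | nil => simp
    | cons a L ihL =>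
      rw [List.flatMap_cons, List.length_append, ihL, h2, List.length_range, List.length_cons]
      ring
  rw [h1, List.length_range]

end Pool.Agent.H24N
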