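import Pool.Agent.Lib.H24N.Tile
import Pool.Agent.Lib.PolyTime.More

/-!
# Tiling instances whose tiles are the elements of a list
-/

set_option autoImplicit false

namespace Pool.Agent.H24N

open Pool.Agent.PolyTime

/-- the tiling instance with the tiles in the list `T`; `I`, `F`, `V`, `H` say what is allowed -/
def tilOfList {α : Type} (k : ℕ) (T : List α) (I F : α → Bool) (V H : α → α → Bool) : Til where
  k := k
  n := T.length
  badI := (T.zipIdx.filter fun p => !I p.1).map Prod.snd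
  badF := (T.zipIdx.filter fun p => !F p.1).map Prod.snd
  badV := T.zipIdx.flatMap fun p => (T.zipIdx.filter fun p' => !V p.1 p'.1).map fun p' => (p.2, p'.2)
  badH := T.zipIdx.flatMap fun p => (T.zipIdx.filter fun p' => !H p.1 p'.1).map fun p' => (p.2, p'.2)

theorem TL_mem_bad1 {α : Type} (T : List α) (I : α → Bool) (m : ℕ) :
    m ∈ (T.zipIdx.filter fun p => !I p.1).map Prod.snd ↔ ∃ a, T[m]? = some a ∧ I a = false := by
  simp only [List.mem_map, List.mem_filter, List.mem_zipIdx_iff_getElem?, Prod.exists,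
    Bool.not_eq_true']
  constructor
  · rintro ⟨a, b, ⟨h1, h2⟩, rfl⟩
    exact ⟨a, h1, h2⟩
  · rintro ⟨a, h1, h2⟩
    exact ⟨a, m, ⟨h1, h2⟩, rfl⟩

theorem TL_mem_bad2 {α : Type} (T : List α) (V : α → α → Bool) (q : ℕ × ℕ) :
    (q ∈ T.zipIdx.flatMap fun p => (T.zipIdx.filter fun p' => !V p.1 p'.1).map fun p' => (p.2, p'.2)) ↔
      ∃ a b, T[q.1]? = some a ∧ T[q.2]? = some b ∧ V a b = false := by
  obtain ⟨m, m'⟩ := q
  simp only [List.mem_flatMap, List.mem_map, List.mem_filter, List.mem_zipIdx_iff_getElem?,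
    Prod.exists, Bool.not_eq_true', Prod.mk.injEq]
  constructor
  · rintro ⟨a, b, h1, c, d, ⟨h2, h3⟩, rfl, rfl⟩
    exact ⟨a, c, h1, h2, h3⟩
  · rintro ⟨a, b, h1, h2, h3⟩
    exact ⟨a, m, h1, b, m', ⟨h2, h3⟩, rfl, rfl⟩

theorem TL_lt {α : Type} {T : List α} {m : ℕ} {a : α} (h : T[m]? = some a) : m < T.length :=
  (List.getElem?_eq_some_iff.1 h).1

theorem tilOfList_wf {α : Type} (k : ℕ) (T : List α) (I F : α → Bool) (V H : α → α → Bool)
    (hT : T.length ≤ 2 ^ k) : (tilOfList k T I F V H).Wf where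
  n_le := hT
  badI := fun d hd => by
    obtain ⟨a, h, _⟩ := (TL_mem_bad1 T I d).1 hd
    exact TL_lt h
  badF := fun d hd => by
    obtain ⟨a, h, _⟩ := (TL_mem_bad1 T F d).1 hd
    exact TL_lt h
  badV := fun p hp => by
    obtain ⟨a, b, h1, h2, _⟩ := (TL_mem_bad2 T V p).1 hp
    exact ⟨TL_lt h1, TL_lt h2⟩
  badH := fun p hp => by
    obtain ⟨a, b, h1, h2, _⟩ := (TL_mem_bad2 T H p).1 hp
    exact ⟨TL_lt h1, TL_lt h2⟩

theorem tilOfList_solvable {α : Type} (k : ℕ) (T : List α) (I F : α → Bool) (V H : α → α → Bool) :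
    (tilOfList k T I F V H).Solvable ↔ ∃ τ : ℕ → ℕ → α,
      (∀ i < 2 ^ 2 ^ k, ∀ j < 2 ^ (2 * 2 ^ k), τ i j ∈ T) ∧
      I (τ 0 0) = true ∧
      (∀ j < 2 ^ (2 * 2 ^ k), F (τ (2 ^ 2 ^ k - 1) j) = true) ∧
      (∀ i j, i + 1 < 2 ^ 2 ^ k → j < 2 ^ (2 * 2 ^ k) → V (τ i j) (τ (i + 1) j) = true) ∧
      (∀ i j, i < 2 ^ 2 ^ k → j + 1 < 2 ^ (2 * 2 ^ k) → H (τ i j) (τ i (j + 1)) = true) := by
  have p1 : 0 < 2 ^ 2 ^ k := Nat.two_pow_pos _
  have p2 : 0 < 2 ^ (2 * 2 ^ k) := Nat.two_pow_pos _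
  constructor
  · rintro ⟨τ, h0, h1, h2, h3, h4⟩
    change ∀ i < 2 ^ 2 ^ k, ∀ j < 2 ^ (2 * 2 ^ k), τ i j < T.length at h0
    change τ 0 0 ∉ (T.zipIdx.filter fun p => !I p.1).map Prod.snd at h1
    change ∀ j < 2 ^ (2 * 2 ^ k), τ (2 ^ 2 ^ k - 1) j ∉
      (T.zipIdx.filter fun p => !F p.1).map Prod.snd at h2
    change ∀ i j, i + 1 < 2 ^ 2 ^ k → j < 2 ^ (2 * 2 ^ k) → (τ i j, τ (i + 1) j) ∉
      (T.zipIdx.flatMap fun p => (T.zipIdx.filter fun p' => !V p.1 p'.1).map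
        fun p' => (p.2, p'.2)) at h3
    change ∀ i j, i < 2 ^ 2 ^ k → j + 1 < 2 ^ (2 * 2 ^ k) → (τ i j, τ i (j + 1)) ∉
      (T.zipIdx.flatMap fun p => (T.zipIdx.filter fun p' => !H p.1 p'.1).map
        fun p' => (p.2, p'.2)) at h4
    have hne : ∃ a : α, a ∈ T := by
      have := h0 0 p1 0 p2
      exact ⟨T[τ 0 0], List.getElem_mem _⟩
    obtain ⟨a0, _⟩ := hne
    let σ : ℕ → ℕ → α := fun i j => (T[τ i j]?).getD a0
    have hσ : ∀ i < 2 ^ 2 ^ k, ∀ j < 2 ^ (2 * 2 ^ k), T[τ i j]? = some (σ i j) := by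
      intro i hi j hj
      have h := h0 i hi j hj
      simp only [σ]
      rw [List.getElem?_eq_getElem h]
      rfl
    refine ⟨σ, ?_, ?_, ?_, ?_, ?_⟩
    · intro i hi j hj
      exact List.mem_of_getElem? (hσ i hi j hj)
    · by_contra hc
      exact h1 ((TL_mem_bad1 T I _).2 ⟨_, hσ 0 p1 0 p2, by simpa using hc⟩)
    · intro j hj
      by_contra hc
      exact h2 j hj ((TL_mem_bad1 T F _).2 ⟨_, hσ _ (by omega) j hj, by simpa using hc⟩)
    · intro i j hi hj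
      by_contra hc
      exact h3 i j hi hj ((TL_mem_bad2 T V _).2 ⟨_, _, hσ i (by omega) j hj, hσ (i + 1) hi j hj,
        by simpa using hc⟩)
    · intro i j hi hj
      by_contra hc
      exact h4 i j hi hj ((TL_mem_bad2 T H _).2 ⟨_, _, hσ i hi j (by omega), hσ i hi (j + 1) hj,
        by simpa using hc⟩)
  · rintro ⟨τ, h0, h1, h2, h3, h4⟩
    have hg : ∀ a : α, ∃ m : ℕ, a ∈ T → T[m]? = some a := by
      intro a
      by_cases ha : a ∈ T
      · obtain ⟨m, hm⟩ := List.mem_iff_getElem?.1 ha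
        exact ⟨m, fun _ => hm⟩
      · exact ⟨0, fun h => absurd h ha⟩
    choose g hg using hg
    have hs : ∀ i < 2 ^ 2 ^ k, ∀ j < 2 ^ (2 * 2 ^ k), T[g (τ i j)]? = some (τ i j) :=
      fun i hi j hj => hg _ (h0 i hi j hj)
    refine ⟨fun i j => g (τ i j), ?_, ?_, ?_, ?_, ?_⟩
    · intro i hi j hj
      exact TL_lt (hs i hi j hj)
    · intro hc
      obtain ⟨a, ha, hb⟩ := (TL_mem_bad1 T I _).1 hc
      rw [hs 0 p1 0 p2] at ha
      injection ha with ha
      rw [← ha, h1] at hb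
      cases hb
    · intro j hj hc
      obtain ⟨a, ha, hb⟩ := (TL_mem_bad1 T F _).1 hc
      have hr : 2 ^ 2 ^ k - 1 < 2 ^ 2 ^ k := by omega
      change T[g (τ (2 ^ 2 ^ k - 1) j)]? = some a at ha
      rw [hs _ hr j hj] at ha
      injection ha with ha
      rw [← ha, h2 j hj] at hb
      cases hb
    · intro i j hi hj hc
      obtain ⟨a, b, ha, hb, hab⟩ := (TL_mem_bad2 T V _).1 hc
      change T[g (τ i j)]? = some a at ha
      change T[g (τ (i + 1) j)]? = some b at hb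
      rw [hs i (lt_trans (Nat.lt_succ_self i) hi) j hj] at ha
      rw [hs (i + 1) hi j hj] at hb
      injection ha with ha
      injection hb with hb
      rw [← ha, ← hb, h3 i j hi hj] at hab
      cases hab
    · intro i j hi hj hc
      obtain ⟨a, b, ha, hb, hab⟩ := (TL_mem_bad2 T H _).1 hc
      change T[g (τ i j)]? = some a at ha
      change T[g (τ i (j + 1))]? = some b at hb
      rw [hs i hi j (lt_trans (Nat.lt_succ_self j) hj)] at ha
      rw [hs i hi (j + 1) hj] at hb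
      injection ha with ha
      injection hb with hb
      rw [← ha, ← hb, h4 i j hi hj] at hab
      cases hab

end Pool.Agent.H24N
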